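import Pool.Agent.Lib.MP_dbccd7_gt.B.Tn

/-!
# COER: coercivity of the orthogonal energy of `v = α y`
-/

open scoped Manifold ContDiff Matrix

namespace Pool.Agent.Lib.MPdbccd7

namespace CoerM

open EnvM TnM

variable {m n : ℕ}

/-- Bessel's inequality for two orthogonal vectors, without division. -/
theorem bessel (A J e : Fin n → ℝ) (hAJ : ∑ i, A i * J i = 0) :
    (∑ i, A i * e i) ^ 2 * (∑ i, J i ^ 2) + (∑ i, J i * e i) ^ 2 * (∑ i, A i ^ 2)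
      ≤ (∑ i, A i ^ 2) * (∑ i, J i ^ 2) * (∑ i, e i ^ 2) := by
  obtain ⟨α, hα⟩ : ∃ α, α = ∑ i, A i ^ 2 := ⟨_, rfl⟩
  obtain ⟨β, hβ⟩ : ∃ β, β = ∑ i, J i ^ 2 := ⟨_, rfl⟩
  obtain ⟨E', hE⟩ : ∃ E', E' = ∑ i, e i ^ 2 := ⟨_, rfl⟩
  obtain ⟨a, ha⟩ : ∃ a, a = ∑ i, A i * e i := ⟨_, rfl⟩
  obtain ⟨j, hj⟩ : ∃ j, j = ∑ i, J i * e i := ⟨_, rfl⟩
  have hα0 : 0 ≤ α := hα ▸ Finset.sum_nonneg fun _ _ => sq_nonneg _
  have hβ0 : 0 ≤ β := hβ ▸ Finset.sum_nonneg fun _ _ => sq_nonneg _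
  have c1 : a ^ 2 ≤ α * E' := by
    rw [ha, hα, hE]; exact Finset.sum_mul_sq_le_sq_mul_sq _ _ _
  have c2 : j ^ 2 ≤ β * E' := by
    rw [hj, hβ, hE]; exact Finset.sum_mul_sq_le_sq_mul_sq _ _ _
  have key : 0 ≤ (α * β) * (α * β * E' - (a ^ 2 * β + j ^ 2 * α)) := by
    have h : ∑ i, (α * β * e i - a * β * A i - j * α * J i) ^ 2
        = (α * β) * (α * β * E' - (a ^ 2 * β + j ^ 2 * α)) := by
      have e1 : ∀ i, (α * β * e i - a * β * A i - j * α * J i) ^ 2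
          = (α * β) ^ 2 * e i ^ 2 + (a * β) ^ 2 * A i ^ 2 + (j * α) ^ 2 * J i ^ 2
            + (-2 * (α * β) * (a * β)) * (A i * e i) + (-2 * (α * β) * (j * α)) * (J i * e i)
            + (2 * (a * β) * (j * α)) * (A i * J i) := fun i => by ring
      simp only [e1, Finset.sum_add_distrib, ← Finset.mul_sum, hAJ]
      rw [← hα, ← hβ, ← hE, ← ha, ← hj]
      ring
    rw [← h]
    exact Finset.sum_nonneg fun _ _ => sq_nonneg _
  rw [← hα, ← hβ, ← hE, ← ha, ← hj]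
  rcases (mul_nonneg hα0 hβ0).eq_or_lt with h0 | h0
  · rcases mul_eq_zero.1 h0.symm with h | h
    · rw [h] at c1 ⊢
      have : a ^ 2 = 0 := le_antisymm (by linarith) (sq_nonneg _)
      rw [this]
      linarith
    · rw [h] at c2 ⊢
      have : j ^ 2 = 0 := le_antisymm (by linarith) (sq_nonneg _)
      rw [this]
      linarith
  · have := nonneg_of_mul_nonneg_right key h0
    linarith

/-- The bound of `|e - (J·e) A|²`. -/
theorem first_part (A J e : Fin n → ℝ) (hAJ : ∑ i, A i * J i = 0) :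
    ∑ i, (e i - (∑ i, J i * e i) * A i) ^ 2
      ≤ (2 + (∑ i, A i ^ 2) * (∑ i, J i ^ 2)) * ∑ i, e i ^ 2 := by
  have hb := bessel A J e hAJ
  have c2 : (∑ i, J i * e i) ^ 2 ≤ (∑ i, J i ^ 2) * (∑ i, e i ^ 2) :=
    Finset.sum_mul_sq_le_sq_mul_sq _ _ _
  have hβ0 : 0 ≤ ∑ i, J i ^ 2 := Finset.sum_nonneg fun _ _ => sq_nonneg _
  have hE0 : 0 ≤ ∑ i, e i ^ 2 := Finset.sum_nonneg fun _ _ => sq_nonneg _
  obtain ⟨j, hj⟩ : ∃ j, j = ∑ i, J i * e i := ⟨_, rfl⟩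
  rw [← hj] at hb c2 ⊢
  have e1 : ∑ i, (e i - j * A i) ^ 2
      = (∑ i, e i ^ 2) - 2 * j * (∑ i, A i * e i) + j ^ 2 * ∑ i, A i ^ 2 := by
    rw [Finset.mul_sum, Finset.mul_sum, ← Finset.sum_sub_distrib, ← Finset.sum_add_distrib]
    exact Finset.sum_congr rfl fun i _ => by ring
  rw [e1]
  obtain ⟨α, hα⟩ : ∃ α, α = ∑ i, A i ^ 2 := ⟨_, rfl⟩
  obtain ⟨β, hβ⟩ : ∃ β, β = ∑ i, J i ^ 2 := ⟨_, rfl⟩
  obtain ⟨E', hE⟩ : ∃ E', E' = ∑ i, e i ^ 2 := ⟨_, rfl⟩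
  obtain ⟨a, ha⟩ : ∃ a, a = ∑ i, A i * e i := ⟨_, rfl⟩
  rw [← hα, ← hβ, ← hE, ← ha] at hb
  rw [← hβ, ← hE] at c2
  rw [← hβ] at hβ0
  rw [← hE] at hE0
  rw [← hα, ← hβ, ← hE, ← ha]
  rcases hβ0.eq_or_lt with h0 | h0
  · rw [← h0] at c2 ⊢
    have hj2 : j ^ 2 = 0 := le_antisymm (by linarith) (sq_nonneg _)
    have hj0 : j = 0 := by simpa using hj2
    rw [hj0]
    linarith
  · have h1 : - (2 * j * a) ≤ j ^ 2 / β + a ^ 2 * β := by
      have h2 : 0 ≤ (j + a * β) ^ 2 / β := by positivity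
      have h3 : (j + a * β) ^ 2 / β = j ^ 2 / β + 2 * j * a + a ^ 2 * β := by
        field_simp
        ring
      linarith
    have h4 : j ^ 2 / β ≤ E' := by
      rw [div_le_iff₀ h0]
      linarith
    linarith

/-- The one-form `A` in terms of `b`. -/
theorem Av_eq (T : Tw) (y : E (m + 3)) (i : Fin (m + 3)) :
    Av T y i = bb T y * ((if i = 0 then 1 else 0) - tk y * y i / y0 y) := by
  have hY := y0_pos y
  unfold Av bb dtk tk
  field_simp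

theorem sum_Av (T : Tw) (y : E (m + 3)) (X : Fin (m + 3) → ℝ) :
    ∑ i, Av T y i * X i = bb T y * (X 0 - tk y / y0 y * ∑ i, y i * X i) := by
  have h : ∀ i, Av T y i * X i = bb T y * (if i = 0 then X i else 0)
      + (- (bb T y * (tk y / y0 y))) * (y i * X i) := by
    intro i
    rw [Av_eq]
    split_ifs <;> ring
  simp only [h, Finset.sum_add_distrib, ← Finset.mul_sum, Finset.sum_ite_eq', Finset.mem_univ,
    if_true]
  ring

theorem sum_Av_J (T : Tw) (y : E (m + 3)) : ∑ i, Av T y i * Jv y i = 0 := by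
  rw [sum_Av, Jv_zero]
  have : ∑ i, y i * Jv y i = 0 := by
    rw [← sum_Jv_y y]
    exact Finset.sum_congr rfl fun i _ => mul_comm _ _
  rw [this]
  ring

theorem y_zero_eq (y : E (m + 3)) : y 0 = tk y * y0 y := by
  have hY := y0_pos y
  unfold tk
  field_simp

theorem sum_Av_sq (T : Tw) (y : E (m + 3)) :
    ∑ i, Av T y i ^ 2 = Nn T y - (bb T y * tk y / y0 y) ^ 2 := by
  have hY := y0_pos y
  have h : ∑ i, Av T y i ^ 2 = ∑ i, Av T y i * Av T y i :=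
    Finset.sum_congr rfl fun i _ => sq _
  have h2 : ∑ i, y i * Av T y i = bb T y * tk y / y0 y := by
    have : ∑ i, y i * Av T y i = ∑ i, Av T y i * y i :=
      Finset.sum_congr rfl fun i _ => mul_comm _ _
    rw [this, sum_Av, sum_y_y, y_zero_eq]
    field_simp
    ring
  rw [h, sum_Av, h2, Av_eq, if_pos rfl, y_zero_eq]
  unfold Nn
  field_simp

/-- The quadratic form of the inverse metric as a sum of squares. -/
theorem form_sq (hM : SpecMat) {T : Tw} (h1 : ContDiff ℝ ∞ T.tau) (h2 : ContDiff ℝ ∞ T.lam)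
    (y : E (m + 3)) (X : Fin (m + 3) → ℝ) :
    ∑ i, ∑ j, (gA T y)⁻¹ i j * X i * X j
      = ∑ i, (X i - (∑ i, Jv y i * X i) * Av T y i) ^ 2
        + (∑ i, y i * X i - (∑ i, Jv y i * X i) * (bb T y * tk y / y0 y)) ^ 2 := by
  have hY := y0_pos y
  rw [form hM h1 h2 y]
  obtain ⟨j, hj⟩ : ∃ j, j = ∑ i, Jv y i * X i := ⟨_, rfl⟩
  rw [← hj]
  have e1 : ∑ i, (X i - j * Av T y i) ^ 2
      = (∑ i, X i * X i) - 2 * j * (∑ i, Av T y i * X i) + j ^ 2 * ∑ i, Av T y i ^ 2 := by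
    rw [Finset.mul_sum, Finset.mul_sum, ← Finset.sum_sub_distrib, ← Finset.sum_add_distrib]
    exact Finset.sum_congr rfl fun i _ => by ring
  rw [e1, sum_Av, sum_Av_sq]
  field_simp
  ring

/-- `⟨∂_i v, p⟩` in terms of the projected vector `e`. -/
theorem pr_eq {T : Tw} {y : E (m + 3)} (ha : DifferentiableAt ℝ (al T) y) (p : E (m + 3))
    (i : Fin (m + 3)) :
    pr (vA T) p y i = (∑ k, y k * (p k - y0 p / y0 (vA T y) * (al T y * y k))) * pd i (al T) y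
      + al T y * (p i - y0 p / y0 (vA T y) * (al T y * y i)) := by
  unfold pr
  rw [sum_v_pd ha]
  have e1 : ∑ k, pd i (fun z => vA T z k) y * p k
      = pd i (al T) y * (∑ k, y k * p k) + al T y * p i := by
    have h : ∀ k, pd i (fun z => vA T z k) y * p k
        = pd i (al T) y * (y k * p k) + al T y * (if i = k then p k else 0) := by
      intro k
      rw [pd_vA ha]
      split_ifs <;> ring
    simp only [h, Finset.sum_add_distrib, ← Finset.mul_sum, Finset.sum_ite_eq, Finset.mem_univ,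
      if_true]
  have e2 : ∑ k, y k * (p k - y0 p / y0 (vA T y) * (al T y * y k))
      = (∑ k, y k * p k) - y0 p / y0 (vA T y) * al T y * (y0 y ^ 2 - 1) := by
    rw [← sum_y_y, Finset.mul_sum, ← Finset.sum_sub_distrib]
    exact Finset.sum_congr rfl fun k _ => by ring
  rw [e1, e2]
  ring

/-- The norm of `e`. -/
theorem e_sq (T : Tw) (y p : E (m + 3)) :
    ∑ k, (p k - y0 p / y0 (vA T y) * (al T y * y k)) ^ 2
      = (q (vA T y) p ^ 2 - 1)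
        - (al T y * ∑ k, y k * (p k - y0 p / y0 (vA T y) * (al T y * y k))) ^ 2 := by
  have hv := y0_pos (vA T y)
  have hv2 := y0_vA T y
  have hp2 : ∑ k, p k * p k = y0 p ^ 2 - 1 := sum_y_y p
  obtain ⟨w, hw⟩ : ∃ w, w = ∑ k, y k * p k := ⟨_, rfl⟩
  have e2 : ∑ k, y k * (p k - y0 p / y0 (vA T y) * (al T y * y k))
      = w - y0 p / y0 (vA T y) * al T y * (y0 y ^ 2 - 1) := by
    rw [hw, ← sum_y_y, Finset.mul_sum, ← Finset.sum_sub_distrib]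
    exact Finset.sum_congr rfl fun k _ => by ring
  have e3 : ∑ k, (p k - y0 p / y0 (vA T y) * (al T y * y k)) ^ 2
      = (y0 p ^ 2 - 1) - 2 * (y0 p / y0 (vA T y) * al T y) * w
        + (y0 p / y0 (vA T y) * al T y) ^ 2 * (y0 y ^ 2 - 1) := by
    rw [hw, ← sum_y_y y, ← sum_y_y p, Finset.mul_sum, Finset.mul_sum, ← Finset.sum_sub_distrib,
      ← Finset.sum_add_distrib]
    exact Finset.sum_congr rfl fun k _ => by ring
  have e4 : q (vA T y) p = y0 (vA T y) * y0 p - al T y * w := by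
    unfold q
    rw [hw, Finset.mul_sum]
    congr 1
    refine Finset.sum_congr rfl fun k _ => ?_
    change al T y * y k * p k = _
    ring
  rw [e2, e3, e4]
  have h5 : al T y ^ 2 * (y0 y ^ 2 - 1) = y0 (vA T y) ^ 2 - 1 := by
    rw [hv2]; ring
  obtain ⟨r, hr⟩ : ∃ r, r = y0 p / y0 (vA T y) := ⟨_, rfl⟩
  have hr' : y0 p = r * y0 (vA T y) := by
    rw [hr]
    field_simp
  rw [← hr, hr']
  obtain ⟨X, hX⟩ : ∃ X, X = y0 y ^ 2 - 1 := ⟨_, rfl⟩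
  rw [← hX] at h5 ⊢
  obtain ⟨v, hv'⟩ : ∃ v, v = y0 (vA T y) := ⟨_, rfl⟩
  rw [← hv'] at h5 ⊢
  obtain ⟨a, ha'⟩ : ∃ a, a = al T y := ⟨_, rfl⟩
  rw [← ha'] at h5 ⊢
  linear_combination (r ^ 2 - 2 * r * w * a + r ^ 2 * a ^ 2 * X + r ^ 2 * (v ^ 2 - 1)) * h5

/-- The quadratic form of the inverse metric. -/
noncomputable def Q2 (T : Tw) (y : E (m + 3)) (X : Fin (m + 3) → ℝ) : ℝ :=
  ∑ i, ∑ j, (gA T y)⁻¹ i j * X i * X j

theorem Q2_add_le (hM : SpecMat) {T : Tw} (h1 : ContDiff ℝ ∞ T.tau) (h2 : ContDiff ℝ ∞ T.lam)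
    (y : E (m + 3)) (X Z : Fin (m + 3) → ℝ) {θ : ℝ} (hθ : 0 < θ) :
    Q2 T y (fun i => X i + Z i) ≤ (1 + 1 / θ) * Q2 T y X + (1 + θ) * Q2 T y Z := by
  have hpos : 0 ≤ Q2 T y (fun i => X i - θ * Z i) := by
    unfold Q2
    rw [form_sq hM h1 h2]
    positivity
  have e : Q2 T y (fun i => X i + Z i) + 1 / θ * Q2 T y (fun i => X i - θ * Z i)
      = (1 + 1 / θ) * Q2 T y X + (1 + θ) * Q2 T y Z := by
    have a1 : Q2 T y (fun i => X i + Z i) = Q2 T y X + Q2 T y Z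
        + ∑ i, ∑ j, ((gA T y)⁻¹ i j * X i * Z j + (gA T y)⁻¹ i j * Z i * X j) := by
      unfold Q2
      simp only [← Finset.sum_add_distrib]
      exact Finset.sum_congr rfl fun i _ => Finset.sum_congr rfl fun j _ => by ring
    have a2 : Q2 T y (fun i => X i - θ * Z i) = Q2 T y X + θ ^ 2 * Q2 T y Z
        - θ * ∑ i, ∑ j, ((gA T y)⁻¹ i j * X i * Z j + (gA T y)⁻¹ i j * Z i * X j) := by
      unfold Q2
      simp only [Finset.mul_sum, ← Finset.sum_add_distrib, ← Finset.sum_sub_distrib]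
      exact Finset.sum_congr rfl fun i _ => Finset.sum_congr rfl fun j _ => by ring
    rw [a1, a2]
    field_simp
    ring
  have : 0 ≤ 1 / θ * Q2 T y (fun i => X i - θ * Z i) := by positivity
  linarith

theorem Q2_smul (T : Tw) (y : E (m + 3)) (X : Fin (m + 3) → ℝ) (c : ℝ) :
    Q2 T y (fun i => c * X i) = c ^ 2 * Q2 T y X := by
  unfold Q2
  simp only [Finset.mul_sum]
  exact Finset.sum_congr rfl fun i _ => Finset.sum_congr rfl fun j _ => by ring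

theorem Q2_dal (hM : SpecMat) {T : Tw} (h1 : ContDiff ℝ ∞ T.tau) (h2 : ContDiff ℝ ∞ T.lam)
    (y : E (m + 3)) (hJ : Jd (al T) y = 0) :
    Q2 T y (fun i => pd i (al T) y) = gam0 (al T) (al T) y := by
  have hJ' : ∑ i, Jv y i * pd i (al T) y = 0 := hJ
  unfold Q2
  rw [form hM h1 h2 y, hJ']
  unfold gam0
  ring

/-- Arithmetic of the second part. -/
theorem second_arith {M S D x μ : ℝ} (hM : 2 ≤ M) (hD : D ^ 2 ≤ S) (hμ : 0 < μ)
    (hx : x ^ 2 ≤ μ ^ 2 * S) :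
    M * (S - D ^ 2) + (D - x) ^ 2 ≤ (M + 2 * μ + μ ^ 2) * S := by
  have h1 : - (2 * D * x) ≤ μ * D ^ 2 + x ^ 2 / μ := by
    have h2 : 0 ≤ (μ * D + x) ^ 2 / μ := by positivity
    have h3 : (μ * D + x) ^ 2 / μ = μ * D ^ 2 + 2 * D * x + x ^ 2 / μ := by
      field_simp
      ring
    linarith
  have h4 : x ^ 2 / μ ≤ μ * S := by
    rw [div_le_iff₀ hμ]
    linarith
  have h5 : μ * D ^ 2 ≤ μ * S := mul_le_mul_of_nonneg_left hD hμ.le
  have h6 : 0 ≤ (M - 1) * D ^ 2 := mul_nonneg (by linarith) (sq_nonneg _)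
  nlinarith

/-- The bound of the form on `α e`. -/
theorem Q2_e (hM : SpecMat) {T : Tw} {C ε κ r1 r2 : ℝ} (hT : TwOK T C ε κ r1 r2)
    (y : E (m + 3)) (ha : 0 < al T y) (ha1 : al T y ≤ 1)
    (hid : al T y ^ 2 * ((m + 2) + Nn T y * wsq y) = m + 2) (e : Fin (m + 3) → ℝ) {S : ℝ}
    (hS : ∑ k, e k ^ 2 = S - (al T y * ∑ k, y k * e k) ^ 2) {μ : ℝ} (hμ : 0 < μ)
    (hμ2 : C / ε / y0 y = μ) :
    Q2 T y (fun i => al T y * e i) ≤ ((m + 2) + 2 * μ + μ ^ 2) * S := by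
  have hY := y0_pos y
  have hw0 := wsq_nonneg y
  have hN0 := Nn_nonneg T y
  have hbw := bb_sq_wsq hT y
  have ha2 : al T y ^ 2 ≤ 1 := pow_le_one₀ ha.le ha1
  have hE0 : 0 ≤ ∑ k, e k ^ 2 := Finset.sum_nonneg fun _ _ => sq_nonneg _
  rw [Q2_smul]
  unfold Q2
  rw [form_sq hM hT.tsm hT.lsm]
  obtain ⟨j, hj⟩ : ∃ j, j = ∑ i, Jv y i * e i := ⟨_, rfl⟩
  obtain ⟨D, hD⟩ : ∃ D, D = al T y * ∑ k, y k * e k := ⟨_, rfl⟩
  rw [← hD] at hS
  have hf := first_part (Av T y) (Jv y) e (sum_Av_J T y)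
  rw [sum_Jv_sq, sum_Av_sq] at hf
  -- first part
  have p1 : al T y ^ 2 * ∑ i, (e i - (∑ i, Jv y i * e i) * Av T y i) ^ 2
      ≤ (m + 2) * (S - D ^ 2) := by
    rw [← hS]
    have h1 : al T y ^ 2 * ∑ i, (e i - (∑ i, Jv y i * e i) * Av T y i) ^ 2
        ≤ al T y ^ 2 * ((2 + (Nn T y - (bb T y * tk y / y0 y) ^ 2) * wsq y) * ∑ i, e i ^ 2) :=
      mul_le_mul_of_nonneg_left hf (sq_nonneg _)
    refine h1.trans ?_
    rw [← mul_assoc]
    apply mul_le_mul_of_nonneg_right _ hE0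
    rw [← hid]
    apply mul_le_mul_of_nonneg_left _ (sq_nonneg _)
    have h2 : 0 ≤ (bb T y * tk y / y0 y) ^ 2 * wsq y := mul_nonneg (sq_nonneg _) hw0
    have h3 : (0 : ℝ) ≤ m := Nat.cast_nonneg m
    linarith
  -- second part
  have hjj : j ^ 2 ≤ wsq y * ∑ k, e k ^ 2 := by
    rw [hj, ← sum_Jv_sq]
    exact Finset.sum_mul_sq_le_sq_mul_sq _ _ _
  have hES : ∑ k, e k ^ 2 ≤ S := by
    rw [hS]
    linarith [sq_nonneg D]
  have hS0 : 0 ≤ S := hE0.trans hES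
  have hDS : D ^ 2 ≤ S := by linarith
  have hx : (al T y * (j * (bb T y * tk y / y0 y))) ^ 2 ≤ μ ^ 2 * S := by
    have e1 : (al T y * (j * (bb T y * tk y / y0 y))) ^ 2
        = (al T y ^ 2 * tk y ^ 2) * (bb T y ^ 2 * j ^ 2) * (1 / y0 y) ^ 2 := by
      field_simp
    have e2 : μ ^ 2 * S = 1 * ((C / ε) ^ 2 * S) * (1 / y0 y) ^ 2 := by
      rw [← hμ2]
      field_simp
    rw [e1, e2]
    apply mul_le_mul_of_nonneg_right _ (sq_nonneg _)
    apply mul_le_mul _ _ (mul_nonneg (sq_nonneg _) (sq_nonneg _)) zero_le_one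
    · exact mul_le_one₀ ha2 (sq_nonneg _) (tk_sq_le y)
    · calc bb T y ^ 2 * j ^ 2 ≤ bb T y ^ 2 * (wsq y * ∑ k, e k ^ 2) :=
            mul_le_mul_of_nonneg_left hjj (sq_nonneg _)
        _ = (bb T y ^ 2 * wsq y) * ∑ k, e k ^ 2 := by ring
        _ ≤ (C / ε) ^ 2 * S := mul_le_mul hbw hES hE0 (sq_nonneg _)
  have h3 : (2 : ℝ) ≤ m + 2 := by
    have : (0 : ℝ) ≤ m := Nat.cast_nonneg m
    linarith
  have h4 := second_arith h3 hDS hμ hx
  rw [mul_add]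
  have e5 : al T y ^ 2 * (∑ i, y i * e i - (∑ i, Jv y i * e i) * (bb T y * tk y / y0 y)) ^ 2
      = (D - al T y * (j * (bb T y * tk y / y0 y))) ^ 2 := by
    rw [hD, hj]
    ring
  rw [e5]
  linarith

theorem final_num {M ν η μ : ℝ} (hM : 3 ≤ M) (hν : ν ≤ 1 / (20 * M)) (hη0 : 0 ≤ η)
    (hη : η ≤ 1 / (20 * M)) (hμ0 : 0 ≤ μ) (hμ : μ ≤ 1 / (20 * M)) :
    1 / 2 ≤ M - ν - 2 * η
      - ((1 + 1 / (8 * M)) * ((M - 1) + 2 * μ + μ ^ 2) + (1 + 8 * M) * η ^ 2) := by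
  obtain ⟨r, hr⟩ : ∃ r, r = 1 / M := ⟨_, rfl⟩
  have hM0 : 0 < M := by linarith
  have hMr : M * r = 1 := by rw [hr]; field_simp
  have hr0 : 0 < r := by rw [hr]; positivity
  have hr3 : r ≤ 1 / 3 := by
    rw [hr]
    exact one_div_le_one_div_of_le (by norm_num) hM
  have e1 : 1 / (20 * M) = r / 20 := by rw [hr]; field_simp
  have e2 : 1 / (8 * M) = r / 8 := by rw [hr]; field_simp
  rw [e1] at hν hη hμ
  rw [e2]
  have hMη : M * η ≤ 1 / 20 := by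
    calc M * η ≤ M * (r / 20) := mul_le_mul_of_nonneg_left hη hM0.le
      _ = 1 / 20 := by linear_combination (1 / 20) * hMr
  have hμ60 : μ ≤ 1 / 60 := by linarith
  have hη60 : η ≤ 1 / 60 := by linarith
  have h1 : M * η * η ≤ 1 / 20 * (1 / 60) := mul_le_mul hMη hη60 hη0 (by norm_num)
  have h2 : η ^ 2 ≤ 1 / 3600 := by nlinarith
  have h3 : μ ^ 2 ≤ 1 / 3600 := by nlinarith
  have h4 : (1 + r / 8) * (2 * μ + μ ^ 2) ≤ (1 + 1 / 24) * (2 / 60 + 1 / 3600) := by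
    apply mul_le_mul _ _ _ _
    · linarith
    · linarith
    · positivity
    · norm_num
  have h5 : (1 + r / 8) * (M - 1) = M - 1 + 1 / 8 - r / 8 := by
    linear_combination (1 / 8) * hMr
  have h6 : (1 + 8 * M) * η ^ 2 = η ^ 2 + 8 * (M * η * η) := by ring
  have h7 : (1 + r / 8) * ((M - 1) + 2 * μ + μ ^ 2)
      = (1 + r / 8) * (M - 1) + (1 + r / 8) * (2 * μ + μ ^ 2) := by ring
  rw [h7, h5, h6]
  linarith

/-- The lower bound of the energy density. -/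
theorem en_lower {M a Y v G D η ν Q : ℝ} (ha : 0 < a) (ha1 : a ≤ 1) (hY : 1 ≤ Y) (hv : 0 < v)
    (hv2 : v ^ 2 = 1 - a ^ 2 + a ^ 2 * Y ^ 2) (hG0 : 0 ≤ G) (hD : |D| ≤ a * η)
    (hQ : 1 / a ^ 2 ≤ Q) (hν : Q / Y ^ 2 ≤ ν) :
    M - ν - 2 * η ≤ M - (1 - a ^ 2) / v ^ 2 + (G * (Y ^ 2 - 1) + 2 * a * Y ^ 2 * D) / v ^ 2 := by
  have hY0 : 0 < Y := by linarith
  have ha2 : a ^ 2 ≤ 1 := pow_le_one₀ ha.le ha1
  have hvv : 0 < v ^ 2 := by positivity
  have hY2 : 0 ≤ Y ^ 2 - 1 := by nlinarith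
  have h1 : (1 - a ^ 2) / v ^ 2 ≤ ν := by
    refine le_trans ?_ hν
    have h2 : (1 - a ^ 2) / v ^ 2 ≤ 1 / a ^ 2 / Y ^ 2 := by
      rw [div_div, div_le_div_iff₀ hvv (by positivity), hv2]
      have : 0 ≤ a ^ 2 * (a ^ 2 * Y ^ 2) := by positivity
      linarith
    exact h2.trans (div_le_div_of_nonneg_right hQ (by positivity))
  have h3 : 0 ≤ G * (Y ^ 2 - 1) / v ^ 2 := by positivity
  have h4 : |2 * a * Y ^ 2 * D / v ^ 2| ≤ 2 * η := by
    have e : 2 * a * Y ^ 2 * D / v ^ 2 = 2 * (D / a) * (a ^ 2 * Y ^ 2 / v ^ 2) := by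
      field_simp
    have hx : a ^ 2 * Y ^ 2 / v ^ 2 ≤ 1 := by
      rw [div_le_one hvv, hv2]
      linarith
    have hx0 : 0 ≤ a ^ 2 * Y ^ 2 / v ^ 2 := by positivity
    have h5 : |D / a| ≤ η := by
      rw [abs_div, abs_of_pos ha, div_le_iff₀ ha]
      linarith
    rw [e, abs_mul, abs_mul, abs_two, abs_of_nonneg hx0]
    calc 2 * |D / a| * (a ^ 2 * Y ^ 2 / v ^ 2) ≤ (2 * η) * 1 :=
          mul_le_mul (by linarith) hx hx0 (by linarith [abs_nonneg (D / a)])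
      _ = 2 * η := by ring
  rw [add_div]
  linarith [(abs_le.1 h4).1]

/-- The main estimate. -/
theorem core (hM : SpecMat) {T : Tw} {C ε κ r1 r2 : ℝ} (hT : TwOK T C ε κ r1 r2)
    (y : E (m + 3)) (ha : 0 < al T y) (ha1 : al T y ≤ 1)
    (hid : al T y ^ 2 * ((m + 2) + Nn T y * wsq y) = m + 2) (hJ : Jd (al T) y = 0)
    (had : DifferentiableAt ℝ (al T) y) {μ η : ℝ} (hμ0 : 0 < μ)
    (eC1 : C / ε / y0 y = μ) (hG2 : gam0 (al T) (al T) y ≤ al T y ^ 2 * η ^ 2)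
    (p : E (m + 3)) (hq : 1 < q (vA T y) p) :
    (∑ i, ∑ j, (gA T y)⁻¹ i j * pr (vA T) p y i * pr (vA T) p y j) / (q (vA T y) p ^ 2 - 1)
      ≤ (1 + 1 / (8 * (m + 3))) * (((m + 3) - 1) + 2 * μ + μ ^ 2)
        + (1 + 8 * (m + 3)) * η ^ 2 := by
  have hm0 : (0 : ℝ) ≤ m := Nat.cast_nonneg m
  -- the projected vector
  have hS := e_sq T y p
  obtain ⟨S, hSd⟩ : ∃ S, S = q (vA T y) p ^ 2 - 1 := ⟨_, rfl⟩
  have hS0 : 0 < S := by
    have := one_lt_pow₀ hq two_ne_zero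
    rw [hSd]
    linarith
  rw [← hSd] at hS
  obtain ⟨e, he⟩ : ∃ e : Fin (m + 3) → ℝ,
      e = fun k => p k - y0 p / y0 (vA T y) * (al T y * y k) := ⟨_, rfl⟩
  have hS' : ∑ k, e k ^ 2 = S - (al T y * ∑ k, y k * e k) ^ 2 := by
    rw [he]
    exact hS
  obtain ⟨s, hs⟩ : ∃ s, s = ∑ k, y k * e k := ⟨_, rfl⟩
  have hpr : ∀ i, pr (vA T) p y i = s * pd i (al T) y + al T y * e i := by
    intro i
    rw [pr_eq had, hs, he]
  have hQe := Q2_e hM hT y ha ha1 hid e hS' hμ0 eC1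
  rw [← hs] at hS'
  have hDS : (al T y * s) ^ 2 ≤ S := by
    have : 0 ≤ ∑ k, e k ^ 2 := Finset.sum_nonneg fun _ _ => sq_nonneg _
    linarith
  have hQ1 : Q2 T y (fun i => s * pd i (al T) y) ≤ η ^ 2 * S := by
    rw [Q2_smul, Q2_dal hM hT.tsm hT.lsm y hJ]
    calc s ^ 2 * gam0 (al T) (al T) y ≤ s ^ 2 * (al T y ^ 2 * η ^ 2) :=
          mul_le_mul_of_nonneg_left hG2 (sq_nonneg _)
      _ = η ^ 2 * (al T y * s) ^ 2 := by ring
      _ ≤ η ^ 2 * S := mul_le_mul_of_nonneg_left hDS (sq_nonneg _)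
  have hθ : (0 : ℝ) < 1 / (8 * (m + 3)) := by positivity
  have hadd := Q2_add_le hM hT.tsm hT.lsm y (fun i => s * pd i (al T) y)
    (fun i => al T y * e i) hθ
  have eθ : 1 / (1 / (8 * ((m : ℝ) + 3))) = 8 * (m + 3) := by
    rw [one_div_one_div]
  rw [eθ] at hadd
  have hsum : ∑ i, ∑ j, (gA T y)⁻¹ i j * pr (vA T) p y i * pr (vA T) p y j
      = Q2 T y (fun i => s * pd i (al T) y + al T y * e i) := by
    unfold Q2
    simp only [hpr]
  rw [← hSd, hsum, div_le_iff₀ hS0]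
  refine hadd.trans ?_
  · have b1 : (1 + 8 * ((m : ℝ) + 3)) * Q2 T y (fun i => s * pd i (al T) y)
        ≤ (1 + 8 * (m + 3)) * (η ^ 2 * S) :=
      mul_le_mul_of_nonneg_left hQ1 (by linarith)
    have b2 : (1 + 1 / (8 * ((m : ℝ) + 3))) * Q2 T y (fun i => al T y * e i)
        ≤ (1 + 1 / (8 * (m + 3))) * (((m + 2) + 2 * μ + μ ^ 2) * S) :=
      mul_le_mul_of_nonneg_left hQe (by linarith)
    refine (add_le_add b1 b2).trans (le_of_eq ?_)
    ring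

end CoerM

open EnvM TnM CoerM in
theorem specCoer (hM : SpecMat) (hA : SpecAlpha) (hE : SpecEnv) : SpecCoer := by
  intro m C
  obtain ⟨C1, hC1, hA⟩ := hA m C
  have hmax1 : 1 ≤ max C 1 := le_max_right _ _
  have hm0 : (0 : ℝ) ≤ m := Nat.cast_nonneg m
  refine ⟨20 * (m + 3) * C1 * (max C 1), ?_, ?_⟩
  · have h1 : 1 ≤ C1 * max C 1 := by nlinarith
    nlinarith
  intro T ε κ r1 r2 hT y hK p hq
  obtain ⟨hsm, hA⟩ := hA T ε κ r1 r2 hT
  obtain ⟨hJ, ha, ha1, hid, hQ, hG, _, hD⟩ := hA y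
  obtain ⟨_, hen⟩ := hE m C T ε κ r1 r2 hT y
  have had : DifferentiableAt ℝ (al T) y := (hsm.differentiable (by simp)) y
  have hC := hT.hC
  have hε := hT.hε
  have hκ := hT.hκ
  rw [max_eq_left hC] at hK
  have hY := y0_ge_one y
  have hY0 := y0_pos y
  have hv0 := y0_pos (vA T y)
  have hv2 := y0_vA T y
  -- the scales
  obtain ⟨K, hKd⟩ : ∃ K, K = κ + 1 / y0 y := ⟨_, rfl⟩
  rw [← hKd] at hG hD hK
  have hYK : 1 / y0 y ≤ K := by linarith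
  have hY1 : 0 < 1 / y0 y := by positivity
  have hK0 : 0 < K := by linarith
  obtain ⟨d, hd⟩ : ∃ d, d = 1 / ε := ⟨_, rfl⟩
  have hε0 := hε.1
  have hd1 : 1 ≤ d := by
    rw [hd, le_div_iff₀ hε.1]
    linarith
  have hd0 : 0 < d := by linarith
  have eR4 : C1 / ε ^ 4 * K = C1 * d ^ 4 * K := by rw [hd]; field_simp
  have eQ : C1 / ε ^ 2 = C1 * d ^ 2 := by rw [hd]; field_simp
  have eC1 : C / ε / y0 y = C * d * (1 / y0 y) := by rw [hd]; field_simp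
  have eF : 20 * (m + 3) * C1 * C / ε ^ 10 * K
      = 20 * (m + 3) * (C1 ^ 1 * C ^ 1 * d ^ 10 * K) := by
    rw [hd]; field_simp
  rw [eR4] at hG hD
  rw [eQ] at hQ
  rw [eF] at hK
  have hM0 : (0 : ℝ) < 20 * (m + 3) := by linarith
  have hX : C1 ^ 1 * C ^ 1 * d ^ 10 * K ≤ 1 / (20 * (m + 3)) := by
    rw [le_div_iff₀ hM0]
    linarith
  have hC10 : 0 < C1 := by linarith
  have hC0 : 0 < C := by linarith
  have hmono : ∀ i j k : ℕ, i ≤ 1 → j ≤ 1 → k ≤ 10 →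
      C1 ^ i * C ^ j * d ^ k * K ≤ 1 / (20 * (m + 3)) := by
    intro i j k hi hj hk
    refine le_trans ?_ hX
    gcongr
  obtain ⟨η, hη⟩ : ∃ η, η = C1 * d ^ 4 * K := ⟨_, rfl⟩
  rw [← hη] at hG hD
  have hη0 : 0 < η := by rw [hη]; positivity
  have hη1 : η ≤ 1 / (20 * (m + 3)) := by
    have := hmono 1 0 4 (by norm_num) (by norm_num) (by norm_num)
    rw [hη]
    linarith
  obtain ⟨μ, hμ⟩ : ∃ μ, μ = C * d * (1 / y0 y) := ⟨_, rfl⟩
  rw [← hμ] at eC1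
  have hμ0 : 0 < μ := by rw [hμ]; positivity
  have hμ1 : μ ≤ 1 / (20 * (m + 3)) := by
    have h1 := hmono 0 1 1 (by norm_num) (by norm_num) (by norm_num)
    have h2 : C * d * (1 / y0 y) ≤ C * d * K :=
      mul_le_mul_of_nonneg_left hYK (by positivity)
    rw [hμ]
    linarith
  have hν : C1 * d ^ 2 / y0 y ^ 2 ≤ 1 / (20 * (m + 3)) := by
    have h1 := hmono 1 0 2 (by norm_num) (by norm_num) (by norm_num)
    have h2 : 1 / y0 y ^ 2 ≤ K := by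
      have : 1 / y0 y ^ 2 ≤ 1 / y0 y := by
        apply one_div_le_one_div_of_le hY0
        nlinarith
      linarith
    have h3 : C1 * d ^ 2 / y0 y ^ 2 ≤ C1 * d ^ 2 * K := by
      rw [div_eq_mul_one_div]
      exact mul_le_mul_of_nonneg_left h2 (by positivity)
    linarith
  have hG0 : 0 ≤ gam0 (al T) (al T) y := gam0_nonneg _ _
  have hG2 : gam0 (al T) (al T) y ≤ al T y ^ 2 * η ^ 2 := by
    rw [← mul_pow]
    exact (Real.sqrt_le_left (mul_nonneg ha.le hη0.le)).1 hG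
  have henl := en_lower (M := (m + 3 : ℝ)) ha ha1 hY hv0 hv2 hG0 hD hQ hν
  rw [← hen] at henl
  have hdiv := core hM hT y ha ha1 hid hJ had hμ0 eC1 hG2 p hq
  have hfin := final_num (M := (m + 3 : ℝ)) (by linarith) le_rfl hη0.le hη1 hμ0.le hμ1
  unfold perp
  linarith

end Pool.Agent.Lib.MPdbccd7
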