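import Pool.Agent.Lib.MP_dbccd7_gt.SpecB
import Pool.Agent.Lib.MP_dbccd7_gt.HypFin

section
/-!
# PERP: the orthogonal energy is nonnegative, and positive for immersions
-/
open scoped Matrix ContDiff MatrixOrder ComplexOrder

namespace Pool.Agent.Lib.MPdbccd7

namespace PerpM

variable {n : ℕ}

/-- a positive definite matrix is a sum of squares -/
theorem exists_rows {A : Matrix (Fin n) (Fin n) ℝ} (hA : A.PosDef) :
    ∃ B : Matrix (Fin n) (Fin n) ℝ, B.det ≠ 0 ∧ ∀ i j, A i j = ∑ r, B r i * B r j := by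
  obtain ⟨B, hB⟩ := CStarAlgebra.nonneg_iff_eq_star_mul_self.mp hA.posSemidef.nonneg
  refine ⟨B, ?_, ?_⟩
  · have h1 := hA.det_pos
    rw [hB, Matrix.det_mul] at h1
    intro h2
    rw [h2, mul_zero] at h1
    exact lt_irrefl _ h1
  · intro i j
    rw [hB, Matrix.mul_apply]
    rfl

theorem contr_eq {A : Matrix (Fin n) (Fin n) ℝ} {B : Matrix (Fin n) (Fin n) ℝ}
    (hB : ∀ i j, A i j = ∑ r, B r i * B r j) (N : Fin n → Fin n → ℝ) :
    ∑ i, ∑ j, A i j * N i j = ∑ r, ∑ i, ∑ j, N i j * B r i * B r j := by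
  have h1 : ∀ i, ∑ j, A i j * N i j = ∑ r, ∑ j, N i j * B r i * B r j := by
    intro i
    rw [Finset.sum_comm]
    apply Finset.sum_congr rfl
    intro j _
    rw [hB, Finset.sum_mul]
    apply Finset.sum_congr rfl
    intro r _
    ring
  rw [Finset.sum_congr rfl fun i _ => h1 i, Finset.sum_comm]

/-- the contraction of a positive definite matrix with a nonnegative form is nonnegative -/
theorem contr_nonneg {A : Matrix (Fin n) (Fin n) ℝ} (hA : A.PosDef) (N : Fin n → Fin n → ℝ)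
    (hN : ∀ X : Fin n → ℝ, 0 ≤ ∑ i, ∑ j, N i j * X i * X j) :
    0 ≤ ∑ i, ∑ j, A i j * N i j := by
  obtain ⟨B, -, hB⟩ := exists_rows hA
  rw [contr_eq hB]
  exact Finset.sum_nonneg fun r _ => hN (B r)

/-- if the contraction vanishes then the form vanishes -/
theorem contr_zero {A : Matrix (Fin n) (Fin n) ℝ} (hA : A.PosDef) (N : Fin n → Fin n → ℝ)
    (hs : ∀ i j, N i j = N j i) (hN : ∀ X : Fin n → ℝ, 0 ≤ ∑ i, ∑ j, N i j * X i * X j)
    (h0 : ∑ i, ∑ j, A i j * N i j = 0) : ∀ i j, N i j = 0 := by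
  obtain ⟨B, hBd, hB⟩ := exists_rows hA
  rw [contr_eq hB] at h0
  have hf : ∀ X : Fin n → ℝ, X ⬝ᵥ (Matrix.of N *ᵥ X) = ∑ i, ∑ j, N i j * X i * X j := by
    intro X
    rw [dotProduct]
    apply Finset.sum_congr rfl
    intro i _
    rw [Matrix.mulVec, dotProduct, Finset.mul_sum]
    apply Finset.sum_congr rfl
    intro j _
    rw [Matrix.of_apply]
    ring
  have hNp : (Matrix.of N).PosSemidef := by
    refine Matrix.PosSemidef.of_dotProduct_mulVec_nonneg ?_ ?_
    · ext i j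
      rw [Matrix.conjTranspose_apply, Matrix.of_apply, Matrix.of_apply, hs j i]
      rfl
    · intro X
      rw [star_trivial, hf]
      exact hN X
  have h1 : ∀ r, Matrix.of N *ᵥ B r = 0 := by
    intro r
    rw [← hNp.dotProduct_mulVec_zero_iff, star_trivial, hf]
    exact (Finset.sum_eq_zero_iff_of_nonneg fun r _ => hN (B r)).mp h0 r (Finset.mem_univ _)
  have h2 : Matrix.of N * Bᵀ = 0 := by
    ext i r
    have := congrFun (h1 r) i
    rw [Matrix.mul_apply]
    exact this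
  have h3 : IsUnit Bᵀ.det := by
    rw [Matrix.det_transpose]
    exact isUnit_iff_ne_zero.mpr hBd
  have h4 : Matrix.of N = 0 := by
    have := congrArg (· * (Bᵀ)⁻¹) h2
    simp only [zero_mul] at this
    rwa [Matrix.mul_assoc, Matrix.mul_nonsing_inv _ h3, mul_one] at this
  intro i j
  exact congrFun (congrFun h4 i) j

/-- the derivative of `u` in the direction `X`, coordinate `k` -/
noncomputable def dd (u : E n → E n) (y : E n) (X : Fin n → ℝ) (k : Fin n) : ℝ :=
  ∑ i, X i * pd i (fun z => u z k) y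

theorem sum_dd (u : E n → E n) (y : E n) (X : Fin n → ℝ) (c : Fin n → ℝ) :
    ∑ k, dd u y X k * c k = ∑ i, (∑ k, pd i (fun z => u z k) y * c k) * X i := by
  unfold dd
  simp only [Finset.sum_mul]
  rw [Finset.sum_comm]
  apply Finset.sum_congr rfl
  intro i _
  apply Finset.sum_congr rfl
  intro k _
  ring

theorem pr_sum (u : E n → E n) (p y : E n) (X : Fin n → ℝ) :
    ∑ i, pr u p y i * X i
      = (∑ k, dd u y X k * p k) - (∑ k, u y k * dd u y X k) / y0 (u y) * y0 p := by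
  have h1 := sum_dd u y X fun k => p k
  have h2 := sum_dd u y X fun k => u y k
  have h3 : ∑ k, u y k * dd u y X k = ∑ k, dd u y X k * u y k :=
    Finset.sum_congr rfl fun k _ => mul_comm _ _
  rw [h3, h1, h2, Finset.sum_div, Finset.sum_mul, ← Finset.sum_sub_distrib]
  apply Finset.sum_congr rfl
  intro i _
  unfold pr
  have h4 : ∑ k, u y k * pd i (fun z => u z k) y = ∑ k, pd i (fun z => u z k) y * u y k :=
    Finset.sum_congr rfl fun k _ => mul_comm _ _
  rw [h4]
  ring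

/-- the mixed first fundamental form -/
noncomputable def fM (u v : E n → E n) (y : E n) (i j : Fin n) : ℝ :=
  (∑ k, pd i (fun z => u z k) y * pd j (fun z => v z k) y)
    - (∑ k, u y k * pd i (fun z => u z k) y) * (∑ k, v y k * pd j (fun z => v z k) y)
      / (y0 (u y) * y0 (v y))

theorem fI_eq (u : E n → E n) (y : E n) (i j : Fin n) : fI u y i j = fM u u y i j := by
  unfold fI fM
  rw [sq]

theorem fM_sum (u v : E n → E n) (y : E n) (X : Fin n → ℝ) :
    ∑ i, ∑ j, fM u v y i j * X i * X j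
      = (∑ k, dd u y X k * dd v y X k)
        - (∑ k, u y k * dd u y X k) * (∑ k, v y k * dd v y X k) / (y0 (u y) * y0 (v y)) := by
  have e1 : ∀ w : E n → E n, ∑ k, w y k * dd w y X k
      = ∑ i, (∑ k, w y k * pd i (fun z => w z k) y) * X i := by
    intro w
    rw [Finset.sum_congr rfl fun k _ => mul_comm (w y k) (dd w y X k),
      sum_dd w y X fun k => w y k]
    apply Finset.sum_congr rfl
    intro i _
    rw [Finset.sum_congr rfl fun k _ => mul_comm (pd i (fun z => w z k) y) (w y k)]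
  have e2 : ∑ k, dd u y X k * dd v y X k
      = ∑ i, ∑ j, (∑ k, pd i (fun z => u z k) y * pd j (fun z => v z k) y) * X i * X j := by
    rw [sum_dd u y X fun k => dd v y X k]
    apply Finset.sum_congr rfl
    intro i _
    have : ∑ k, pd i (fun z => u z k) y * dd v y X k
        = ∑ j, (∑ k, pd i (fun z => u z k) y * pd j (fun z => v z k) y) * X j := by
      rw [Finset.sum_congr rfl fun k _ => mul_comm (pd i (fun z => u z k) y) (dd v y X k),
        sum_dd v y X fun k => pd i (fun z => u z k) y]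
      apply Finset.sum_congr rfl
      intro j _
      rw [Finset.sum_congr rfl fun k _ =>
        mul_comm (pd j (fun z => v z k) y) (pd i (fun z => u z k) y)]
    rw [this, Finset.sum_mul]
    apply Finset.sum_congr rfl
    intro j _
    ring
  rw [e2, e1 u, e1 v, Finset.sum_mul_sum, Finset.sum_div, ← Finset.sum_sub_distrib]
  apply Finset.sum_congr rfl
  intro i _
  rw [Finset.sum_div, ← Finset.sum_sub_distrib]
  apply Finset.sum_congr rfl
  intro j _
  unfold fM
  ring

theorem fI_sum (u : E n → E n) (y : E n) (X : Fin n → ℝ) :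
    ∑ i, ∑ j, fI u y i j * X i * X j
      = (∑ k, dd u y X k ^ 2) - (∑ k, u y k * dd u y X k) ^ 2 / y0 (u y) ^ 2 := by
  have h := fM_sum u u y X
  simp only [← fI_eq] at h
  rw [h]
  simp only [← sq]

/-- the form whose contraction is `perp` -/
noncomputable def pN (u : E n → E n) (p y : E n) (i j : Fin n) : ℝ :=
  fI u y i j - pr u p y i * pr u p y j / (q (u y) p ^ 2 - 1)

theorem perp_eq (g : MF n) (u : E n → E n) (p y : E n) :
    perp g u p y = ∑ i, ∑ j, (g y)⁻¹ i j * pN u p y i j := by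
  unfold perp en
  rw [Finset.sum_div, ← Finset.sum_sub_distrib]
  apply Finset.sum_congr rfl
  intro i _
  rw [Finset.sum_div, ← Finset.sum_sub_distrib]
  apply Finset.sum_congr rfl
  intro j _
  unfold pN
  ring

theorem pN_sum (u : E n → E n) (p y : E n) (X : Fin n → ℝ) :
    ∑ i, ∑ j, pN u p y i j * X i * X j
      = (∑ k, dd u y X k ^ 2) - (∑ k, u y k * dd u y X k) ^ 2 / y0 (u y) ^ 2
        - ((∑ k, dd u y X k * p k) - (∑ k, u y k * dd u y X k) / y0 (u y) * y0 p) ^ 2
          / (q (u y) p ^ 2 - 1) := by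
  rw [← pr_sum, ← fI_sum, sq (∑ i, pr u p y i * X i), Finset.sum_mul_sum, Finset.sum_div,
    ← Finset.sum_sub_distrib]
  apply Finset.sum_congr rfl
  intro i _
  rw [Finset.sum_div, ← Finset.sum_sub_distrib]
  apply Finset.sum_congr rfl
  intro j _
  unfold pN
  ring

theorem pN_symm (u : E n → E n) (p y : E n) (i j : Fin n) : pN u p y i j = pN u p y j i := by
  unfold pN fI
  rw [Finset.sum_congr rfl fun k _ => mul_comm (pd i (fun z => u z k) y) (pd j (fun z => u z k) y)]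
  ring

/-- a spatial vector of hyperbolic norm zero vanishes -/
theorem eq_zero (p : E n) (D : Fin n → ℝ)
    (h : (∑ k, D k ^ 2) - (∑ k, p k * D k) ^ 2 / y0 p ^ 2 = 0) : D = 0 := by
  have h1 := Finset.sum_mul_sq_le_sq_mul_sq Finset.univ (fun i => p i) D
  have h2 := y0_sq p
  have h3 : 0 < y0 p ^ 2 := pow_pos (y0_pos p) 2
  have h4 : (∑ k, p k * D k) ^ 2 = y0 p ^ 2 * ∑ k, D k ^ 2 := by
    rw [sub_eq_zero, eq_div_iff h3.ne'] at h
    linarith
  have h5 : 0 ≤ ∑ k, D k ^ 2 := Finset.sum_nonneg fun k _ => sq_nonneg _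
  have h6 : ∑ k, D k ^ 2 = 0 := by
    rw [h4] at h1
    nlinarith
  funext k
  have h7 := (Finset.sum_eq_zero_iff_of_nonneg fun k _ => sq_nonneg (D k)).mp h6 k
    (Finset.mem_univ _)
  exact pow_eq_zero_iff (two_ne_zero) |>.mp h7

end PerpM

open PerpM in
theorem specPerp (hLor : SpecLor) : SpecPerp := by
  intro n g u p y hg hu hq
  have hA : ((g y)⁻¹).PosDef := hg.posDef.self_of_nhds.inv
  have hN : ∀ X : Fin n → ℝ, 0 ≤ ∑ i, ∑ j, pN u p y i j * X i * X j := by
    intro X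
    rw [pN_sum]
    exact hLor.2.1 n (u y) p (dd u y X) hq
  rw [perp_eq]
  refine ⟨contr_nonneg hA _ hN, fun hn hinj => ?_⟩
  refine lt_of_le_of_ne (contr_nonneg hA _ hN) fun h0 => ?_
  have hz := contr_zero hA _ (pN_symm u p y) hN h0.symm
  obtain ⟨X, hX0, hX⟩ : ∃ X : Fin n → ℝ, X ≠ 0 ∧ ∑ i, pr u p y i * X i = 0 := by
    obtain ⟨m, rfl⟩ := Nat.exists_eq_add_of_le' hn
    by_cases hc : pr u p y 0 = 0
    · refine ⟨Pi.single 0 1, by simp, ?_⟩
      simp [Pi.single_apply, hc]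
    · refine ⟨Pi.single 0 (pr u p y 1) - Pi.single 1 (pr u p y 0), ?_, ?_⟩
      · intro h
        have := congrFun h 1
        have h10 : (1 : Fin (m + 2)) ≠ 0 := by simp
        simp [h10] at this
        exact hc this
      · simp only [Pi.sub_apply, mul_sub, Finset.sum_sub_distrib, Pi.single_apply, mul_ite,
          mul_zero, Finset.sum_ite_eq', Finset.mem_univ, if_true]
        ring
  have h1 := pN_sum u p y X
  rw [← pr_sum, hX] at h1
  simp only [hz, zero_mul, Finset.sum_const_zero] at h1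
  have h2 : dd u y X = 0 := by
    apply eq_zero (u y)
    rw [zero_pow two_ne_zero, zero_div, sub_zero] at h1
    exact h1.symm
  have h3 : fderiv ℝ u y (WithLp.toLp 2 X) = 0 := by
    ext k
    rw [fderiv_apply_eq (hu.differentiableAt (by simp))]
    have := congrFun h2 k
    unfold dd at this
    simp only [jac_apply]
    have h5 : (0 : E n) k = 0 := rfl
    have h6 : (0 : Fin n → ℝ) k = 0 := rfl
    rw [h6] at this
    rw [h5, ← this]
    apply Finset.sum_congr rfl
    intro i _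
    exact mul_comm _ _
  have h4 : (WithLp.toLp 2 X : E n) = 0 := hinj (by rw [h3, map_zero])
  apply hX0
  funext i
  have := congrArg (fun w : E n => w i) h4
  simpa using this

end Pool.Agent.Lib.MPdbccd7
end

section
/-!
# BOC: the inequality for `log q(u, v)`, `u` harmonic
-/
open scoped Matrix ContDiff

namespace Pool.Agent.Lib.MPdbccd7

namespace BocM

open PerpM

variable {n : ℕ}

theorem cd_coord {u : E n → E n} {y : E n} (hu : ContDiffAt ℝ ∞ u y) (k : Fin n) :
    ContDiffAt ℝ ∞ (fun z => u z k) y :=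
  (contDiff_coord k (m := ∞)).contDiffAt.comp y hu

theorem cd_y0 {u : E n → E n} {y : E n} (hu : ContDiffAt ℝ ∞ u y) :
    ContDiffAt ℝ ∞ (fun z => y0 (u z)) y :=
  (contDiff_y0 (n := n) (m := ∞)).contDiffAt.comp y hu

theorem pd_y0comp {u : E n → E n} {y : E n} (hu : ContDiffAt ℝ ∞ u y) (i : Fin n) :
    pd i (fun z => y0 (u z)) y = (∑ k, u y k * pd i (fun z => u z k) y) / y0 (u y) := by
  rw [pd_chain (differentiable_y0 _) (hu.differentiableAt (by simp)), Finset.sum_div]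
  apply Finset.sum_congr rfl
  intro k _
  rw [pd_y0]
  ring

theorem gam_sum (g : MF n) {u v : E n → E n} {y : E n} (hu : ContDiffAt ℝ ∞ u y)
    (hv : ContDiffAt ℝ ∞ v y) :
    ∑ i, ∑ j, (g y)⁻¹ i j * fM u v y i j
      = (∑ k, gam g (fun z => u z k) (fun z => v z k) y)
        - gam g (fun z => y0 (u z)) (fun z => y0 (v z)) y := by
  have e1 : ∑ k, gam g (fun z => u z k) (fun z => v z k) y
      = ∑ i, ∑ j, (g y)⁻¹ i j
        * ∑ k, pd i (fun z => u z k) y * pd j (fun z => v z k) y := by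
    unfold gam
    rw [Finset.sum_comm]
    apply Finset.sum_congr rfl
    intro i _
    rw [Finset.sum_comm]
    apply Finset.sum_congr rfl
    intro j _
    rw [Finset.mul_sum]
    apply Finset.sum_congr rfl
    intro k _
    ring
  rw [e1]
  unfold gam
  rw [← Finset.sum_sub_distrib]
  apply Finset.sum_congr rfl
  intro i _
  rw [← Finset.sum_sub_distrib]
  apply Finset.sum_congr rfl
  intro j _
  rw [pd_y0comp hu, pd_y0comp hv]
  unfold fM
  have := y0_ne (u y)
  have := y0_ne (v y)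
  field_simp

theorem en_eq (g : MF n) {u : E n → E n} {y : E n} (hu : ContDiffAt ℝ ∞ u y) :
    en g u y = (∑ k, gam g (fun z => u z k) (fun z => u z k) y)
        - gam g (fun z => y0 (u z)) (fun z => y0 (u z)) y := by
  rw [← gam_sum g hu hu]
  unfold en
  simp only [fI_eq]

theorem lap_sum (hCal : SpecCal) {g : MF n} {y : E n} (hM : MetAt g y) {ι : Type}
    (s : Finset ι) (f : ι → E n → ℝ) (hf : ∀ k, ContDiffAt ℝ ∞ (f k) y) :
    lap g (fun z => ∑ k ∈ s, f k z) y = ∑ k ∈ s, lap g (f k) y := by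
  classical
  obtain ⟨-, -, c3, c4, -, -, -⟩ := hCal n g y hM
  induction s using Finset.induction_on with
  | empty => simpa using c3 0
  | insert a s ha ih =>
    simp only [Finset.sum_insert ha]
    rw [(c4 (f a) (fun z => ∑ k ∈ s, f k z) (hf a)
      (ContDiffAt.sum fun k _ => hf k)).1, ih]

theorem lap_time (hCal : SpecCal) {g : MF n} {y : E n} (hM : MetAt g y) {u : E n → E n}
    (hu : ContDiffAt ℝ ∞ u y) :
    y0 (u y) * lap g (fun z => y0 (u z)) y
      = (∑ k, u y k * tv g u k y) + en g u y * y0 (u y) ^ 2 := by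
  obtain ⟨c1, c2, c3, c4, c5, c6, c7⟩ := hCal n g y hM
  have h1 := (c4 _ _ (cd_y0 hu) (cd_y0 hu)).2.2
  have h2 : (fun z => y0 (u z) * y0 (u z)) = fun z => 1 + ∑ k, u z k * u z k := by
    funext z
    rw [← sq, y0_sq]
    simp only [sq]
  have h3 := (c4 (fun _ => (1 : ℝ)) (fun z => ∑ k, u z k * u z k) contDiffAt_const
    (ContDiffAt.sum fun k _ => (cd_coord hu k).mul (cd_coord hu k))).1
  rw [h2, h3, c3, lap_sum hCal hM Finset.univ (fun k z => u z k * u z k)
    fun k => (cd_coord hu k).mul (cd_coord hu k)] at h1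
  have h4 : ∀ k, lap g (fun z => u z k * u z k) y
      = 2 * (u y k * tv g u k y) + 2 * en g u y * (u y k) ^ 2
        + 2 * gam g (fun z => u z k) (fun z => u z k) y := by
    intro k
    rw [(c4 _ _ (cd_coord hu k) (cd_coord hu k)).2.2]
    unfold tv
    ring
  rw [Finset.sum_congr rfl fun k _ => h4 k, Finset.sum_add_distrib, Finset.sum_add_distrib,
    ← Finset.mul_sum, ← Finset.mul_sum, ← Finset.mul_sum] at h1
  have h5 := en_eq g hu
  have h6 := y0_sq (u y)
  have h7 : ∑ k, u y k ^ 2 = y0 (u y) ^ 2 - 1 := by linarith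
  rw [h7] at h1
  nlinarith [h1, h5]

theorem lap_q (hCal : SpecCal) {g : MF n} {y : E n} (hM : MetAt g y) {u v : E n → E n}
    (hu : ContDiffAt ℝ ∞ u y) (hv : ContDiffAt ℝ ∞ v y) (htv : ∀ k, tv g u k y = 0) :
    lap g (fun z => q (u z) (v z)) y = (en g u y + en g v y) * q (u y) (v y)
      - ((∑ k, tv g v k y * u y k) - (∑ k, v y k * tv g v k y) / y0 (v y) * y0 (u y))
      - 2 * ∑ i, ∑ j, (g y)⁻¹ i j * fM u v y i j := by
  obtain ⟨c1, c2, c3, c4, c5, c6, c7⟩ := hCal n g y hM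
  have h1 := (c4 _ _ (cd_y0 hu) (cd_y0 hv)).2.2
  have h2 := (c4 (fun z => y0 (u z) * y0 (v z)) (fun z => ∑ k, u z k * v z k)
    ((cd_y0 hu).mul (cd_y0 hv))
    (ContDiffAt.sum fun k _ => (cd_coord hu k).mul (cd_coord hv k))).2.1
  have h3 : (fun z => q (u z) (v z)) = fun z => y0 (u z) * y0 (v z) - ∑ k, u z k * v z k := by
    funext z; rfl
  rw [h3, h2, h1, lap_sum hCal hM Finset.univ (fun k z => u z k * v z k)
    fun k => (cd_coord hu k).mul (cd_coord hv k)]
  have h4 : ∀ k, lap g (fun z => u z k * v z k) y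
      = tv g v k y * u y k + (en g u y + en g v y) * (u y k * v y k)
        + 2 * gam g (fun z => u z k) (fun z => v z k) y := by
    intro k
    rw [(c4 _ _ (cd_coord hu k) (cd_coord hv k)).2.2]
    have := htv k
    unfold tv at this ⊢
    linear_combination (v y k) * this
  rw [Finset.sum_congr rfl fun k _ => h4 k, Finset.sum_add_distrib, Finset.sum_add_distrib,
    ← Finset.mul_sum, ← Finset.mul_sum, gam_sum g hu hv]
  have h5 := lap_time hCal hM hu
  have h6 := lap_time hCal hM hv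
  simp only [htv, mul_zero, Finset.sum_const_zero, zero_add] at h5
  have hu0 := y0_ne (u y)
  have hv0 := y0_ne (v y)
  have h7 : lap g (fun z => y0 (u z)) y = en g u y * y0 (u y) := by
    apply mul_left_cancel₀ hu0
    rw [h5]; ring
  have h8 : lap g (fun z => y0 (v z)) y
      = (∑ k, v y k * tv g v k y) / y0 (v y) + en g v y * y0 (v y) := by
    apply mul_left_cancel₀ hv0
    rw [h6]; field_simp
  rw [h7, h8]
  unfold q
  ring

theorem pd_q {u v : E n → E n} {y : E n} (hu : ContDiffAt ℝ ∞ u y) (hv : ContDiffAt ℝ ∞ v y)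
    (i : Fin n) : pd i (fun z => q (u z) (v z)) y = - (pr u (v y) y i + pr v (u y) y i) := by
  have h3 : (fun z => q (u z) (v z)) = fun z => y0 (u z) * y0 (v z) - ∑ k, u z k * v z k := by
    funext z; rfl
  have d1 := (cd_y0 hu).differentiableAt (by simp)
  have d2 := (cd_y0 hv).differentiableAt (by simp)
  have d3 := fun k => (cd_coord hu k).differentiableAt (by simp)
  have d4 := fun k => (cd_coord hv k).differentiableAt (by simp)
  have d5 : DifferentiableAt ℝ (fun z => y0 (u z) * y0 (v z)) y := d1.mul d2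
  have d6 : ∀ k, DifferentiableAt ℝ (fun z => u z k * v z k) y := fun k => (d3 k).mul (d4 k)
  have d7 : DifferentiableAt ℝ (fun z => ∑ k, u z k * v z k) y :=
    DifferentiableAt.fun_sum fun k _ => d6 k
  rw [h3, pd_sub d5 d7, pd_mul d1 d2, pd_sum (fun k _ => d6 k), pd_y0comp hu, pd_y0comp hv]
  have h4 : ∀ k, pd i (fun z => u z k * v z k) y
      = u y k * pd i (fun z => v z k) y + pd i (fun z => u z k) y * v y k := by
    intro k
    rw [pd_mul (d3 k) (d4 k)]
    ring
  rw [Finset.sum_congr rfl fun k _ => h4 k, Finset.sum_add_distrib]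
  unfold pr
  rw [Finset.sum_congr rfl fun k _ => mul_comm (u y k) (pd i (fun z => v z k) y)]
  ring

end BocM

open PerpM BocM in
theorem specBoc (hCal : SpecCal) (hLor : SpecLor) : SpecBoc := by
  intro n g u v y hM hu hv htv hq
  have hA : ((g y)⁻¹).PosDef := hM.posDef.self_of_nhds.inv
  set Q := q (u y) (v y) with hQ
  have hq0 : 0 < Q := by linarith
  -- the quadratic form
  let N : Fin n → Fin n → ℝ := fun i j => Q ^ 2 * (fI u y i j + fI v y i j)
    - 2 * Q * fM u v y i j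
    - (pr u (v y) y i + pr v (u y) y i) * (pr u (v y) y j + pr v (u y) y j)
    - Q * (Q - 1) * (pN u (v y) y i j + pN v (u y) y i j)
  have hN : ∀ Z : Fin n → ℝ, 0 ≤ ∑ i, ∑ j, N i j * Z i * Z j := by
    intro Z
    have h1 : ∑ i, ∑ j, N i j * Z i * Z j
        = Q ^ 2 * (∑ i, ∑ j, fI u y i j * Z i * Z j + ∑ i, ∑ j, fI v y i j * Z i * Z j)
          - 2 * Q * ∑ i, ∑ j, fM u v y i j * Z i * Z j
          - (∑ i, pr u (v y) y i * Z i + ∑ i, pr v (u y) y i * Z i) ^ 2
          - Q * (Q - 1) * (∑ i, ∑ j, pN u (v y) y i j * Z i * Z j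
            + ∑ i, ∑ j, pN v (u y) y i j * Z i * Z j) := by
      have hsq : (∑ i, pr u (v y) y i * Z i + ∑ i, pr v (u y) y i * Z i) ^ 2
          = ∑ i, ∑ j, (pr u (v y) y i + pr v (u y) y i) * Z i
            * ((pr u (v y) y j + pr v (u y) y j) * Z j) := by
        rw [← Finset.sum_mul_sum, ← sq]
        congr 1
        rw [← Finset.sum_add_distrib]
        apply Finset.sum_congr rfl
        intro i _
        ring
      rw [hsq]
      simp only [← Finset.sum_add_distrib, Finset.mul_sum, ← Finset.sum_sub_distrib]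
      apply Finset.sum_congr rfl
      intro i _
      apply Finset.sum_congr rfl
      intro j _
      simp only [N]
      ring
    rw [h1, fI_sum, fI_sum, fM_sum, pN_sum, pN_sum, pr_sum, pr_sum]
    have h2 := hLor.1 n (u y) (v y) (dd u y Z) (dd v y Z) hq
    rw [q_comm (v y) (u y), ← hQ]
    rw [← hQ] at h2
    have h3 : ∑ k, dd u y Z k * dd v y Z k = ∑ k, dd u y Z k * dd v y Z k := rfl
    linarith [h2]
  have h0 := contr_nonneg hA N hN
  -- its contraction
  have h1 : ∑ i, ∑ j, (g y)⁻¹ i j * N i j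
      = Q ^ 2 * (en g u y + en g v y) - 2 * Q * (∑ i, ∑ j, (g y)⁻¹ i j * fM u v y i j)
        - gam g (fun z => q (u z) (v z)) (fun z => q (u z) (v z)) y
        - Q * (Q - 1) * (perp g u (v y) y + perp g v (u y) y) := by
    rw [perp_eq, perp_eq]
    unfold en gam
    simp only [← Finset.sum_add_distrib, Finset.mul_sum, ← Finset.sum_sub_distrib]
    apply Finset.sum_congr rfl
    intro i _
    apply Finset.sum_congr rfl
    intro j _
    rw [pd_q hu hv, pd_q hu hv]
    simp only [N]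
    ring
  rw [h1] at h0
  have h2 := lap_q hCal hM hu hv htv
  -- the logarithm
  obtain ⟨c1, c2, c3, c4, c5, c6, c7⟩ := hCal n g y hM
  have hcd : ContDiffAt ℝ ∞ (fun z => q (u z) (v z)) y := by
    have h3 : (fun z => q (u z) (v z)) = fun z => y0 (u z) * y0 (v z) - ∑ k, u z k * v z k := by
      funext z; rfl
    rw [h3]
    exact ((cd_y0 hu).mul (cd_y0 hv)).sub
      (ContDiffAt.sum fun k _ => (cd_coord hu k).mul (cd_coord hv k))
  have h3 := c6 Real.log (fun z => q (u z) (v z)) hcd (Real.contDiffAt_log.mpr hq0.ne')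
  have h4 : deriv (deriv Real.log) (q (u y) (v y)) = - (Q ^ 2)⁻¹ := by
    rw [Real.deriv_log', ← hQ]
    exact deriv_inv
  rw [h4, Real.deriv_log, ← hQ] at h3
  rw [h3, h2]
  set G := gam g (fun z => q (u z) (v z)) (fun z => q (u z) (v z)) y
  set M := ∑ i, ∑ j, (g y)⁻¹ i j * fM u v y i j
  set P := perp g u (v y) y + perp g v (u y) y
  set Y := (∑ k, tv g v k y * u y k) - (∑ k, v y k * tv g v k y) / y0 (v y) * y0 (u y) with hY
  have h5 := hLor.2.2 n (u y) (v y) fun k => tv g v k y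
  have h6 : |Y| ≤ Real.sqrt (Q ^ 2 - 1) * tn g v y := h5
  have h7 : Real.sqrt (Q ^ 2 - 1) ≤ Q := by
    rw [Real.sqrt_le_left hq0.le]
    linarith
  have h8 : 0 ≤ tn g v y := Real.sqrt_nonneg _
  have h9 : Y ≤ Q * tn g v y :=
    (le_abs_self _).trans (h6.trans (mul_le_mul_of_nonneg_right h7 h8))
  have h10 : (1 - 1 / Q) * P = (Q * (Q - 1) * P) / Q ^ 2 := by field_simp
  have h11 : Q⁻¹ * ((en g u y + en g v y) * Q - Y - 2 * M) + -(Q ^ 2)⁻¹ * G
      = (Q ^ 2 * (en g u y + en g v y) - 2 * Q * M - G) / Q ^ 2 - Y / Q := by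
    field_simp
    ring
  rw [h10, h11]
  have h12 : Y / Q ≤ tn g v y := by
    rw [div_le_iff₀ hq0]
    linarith
  have h13 : Q * (Q - 1) * P / Q ^ 2
      ≤ (Q ^ 2 * (en g u y + en g v y) - 2 * Q * M - G) / Q ^ 2 := by
    apply div_le_div_of_nonneg_right _ (by positivity)
    linarith
  linarith

end Pool.Agent.Lib.MPdbccd7
end

section
/-!
# CAL: calculus of the Laplacian of a general metric
-/
open scoped Manifold ContDiff Matrix Topology MatrixOrder

namespace Pool.Agent.Lib.MPdbccd7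

namespace CalM

variable {n : ℕ}

/-! ### Smoothness of the determinant and of the inverse -/

theorem contDiffAt_det {ι : Type*} [Fintype ι] [DecidableEq ι] {k : WithTop ℕ∞}
    {g : E n → Matrix ι ι ℝ} {y : E n}
    (h : ∀ i j, ContDiffAt ℝ k (fun z => g z i j) y) :
    ContDiffAt ℝ k (fun z => (g z).det) y := by
  simp only [Matrix.det_apply']
  refine ContDiffAt.sum fun σ _ => ?_
  exact contDiffAt_const.mul (contDiffAt_prod fun i _ => h _ _)

theorem contDiffAt_inv' {k : WithTop ℕ∞} {g : MF n} {y : E n}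
    (h : ∀ i j, ContDiffAt ℝ k (fun z => g z i j) y) (h0 : (g y).det ≠ 0) (i j : Fin n) :
    ContDiffAt ℝ k (fun z => (g z)⁻¹ i j) y := by
  have h1 : (fun z => (g z)⁻¹ i j)
      = fun z => ((g z).det)⁻¹ * ((g z).updateRow j (Pi.single i 1)).det := by
    funext z
    rw [Matrix.inv_def, Ring.inverse_eq_inv', Matrix.smul_apply, Matrix.adjugate_apply,
      smul_eq_mul]
  rw [h1]
  refine ((contDiffAt_det h).inv h0).mul (contDiffAt_det fun a b => ?_)
  by_cases ha : a = j
  · subst ha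
    simp only [Matrix.updateRow_self]
    exact contDiffAt_const
  · simp only [Matrix.updateRow_ne ha]
    exact h a b

theorem det_pos {g : MF n} {y : E n} (h : MetAt g y) : 0 < (g y).det :=
  h.posDef.self_of_nhds.det_pos

theorem sqrt_pos {g : MF n} {y : E n} (h : MetAt g y) : 0 < Real.sqrt (g y).det :=
  Real.sqrt_pos.2 (det_pos h)

theorem contDiffAt_inv {g : MF n} {y : E n} (h : MetAt g y) (i j : Fin n) :
    ContDiffAt ℝ ∞ (fun z => (g z)⁻¹ i j) y :=
  contDiffAt_inv' h.smooth (det_pos h).ne' i j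

theorem inv_symm {g : MF n} {y : E n} (h : MetAt g y) (i j : Fin n) :
    (g y)⁻¹ i j = (g y)⁻¹ j i := by
  have h1 : ((g y)⁻¹).IsHermitian := h.posDef.self_of_nhds.isHermitian.inv
  have h2 := h1.apply j i
  simpa using h2

/-- The coefficients `√det g · g^{ij}`. -/
noncomputable def cA (g : MF n) (i j : Fin n) (z : E n) : ℝ :=
  Real.sqrt (g z).det * (g z)⁻¹ i j

theorem contDiffAt_cA {g : MF n} {y : E n} (h : MetAt g y) (i j : Fin n) :
    ContDiffAt ℝ ∞ (cA g i j) y :=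
  ((contDiffAt_det h.smooth).sqrt (det_pos h).ne').mul (contDiffAt_inv h i j)

/-- The first order coefficients of the Laplacian. -/
noncomputable def cB (g : MF n) (j : Fin n) (y : E n) : ℝ :=
  (Real.sqrt (g y).det)⁻¹ * ∑ i, pd i (cA g i j) y

theorem lap_eq {g : MF n} {y : E n} (h : MetAt g y) {f : E n → ℝ} (hf : ContDiffAt ℝ ∞ f y) :
    lap g f y = (∑ j, cB g j y * pd j f y) + ∑ i, ∑ j, (g y)⁻¹ i j * pd i (pd j f) y := by
  have h1 : ∀ i j, pd i (fun z => Real.sqrt (g z).det * (g z)⁻¹ i j * pd j f z) y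
      = pd i (cA g i j) y * pd j f y + cA g i j y * pd i (pd j f) y := by
    intro i j
    exact pd_mul (f := cA g i j) (g := pd j f)
      ((contDiffAt_cA h i j).differentiableAt (by simp)) (differentiableAt_pd hf j) i
  unfold lap
  simp only [h1, Finset.sum_add_distrib, mul_add]
  congr 1
  · rw [Finset.sum_comm, Finset.mul_sum]
    refine Finset.sum_congr rfl fun j _ => ?_
    rw [cB, ← Finset.sum_mul, mul_assoc]
  · rw [Finset.mul_sum]
    refine Finset.sum_congr rfl fun i _ => ?_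
    rw [Finset.mul_sum]
    refine Finset.sum_congr rfl fun j _ => ?_
    rw [cA]
    have := (sqrt_pos h).ne'
    field_simp

theorem two_le_infty : (2 : WithTop ℕ∞) ≤ ∞ := by
  have h : ((2 : ℕ∞) : WithTop ℕ∞) ≤ ((⊤ : ℕ∞) : WithTop ℕ∞) := by exact_mod_cast le_top
  exact h

theorem eventually_diff {f : E n → ℝ} {y : E n} (hf : ContDiffAt ℝ ∞ f y) :
    ∀ᶠ z in 𝓝 y, DifferentiableAt ℝ f z := by
  have h1 : ContDiffAt ℝ 1 f y := hf.of_le (by exact_mod_cast le_top)
  filter_upwards [h1.eventually (by simp)] with z hz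
  exact hz.differentiableAt (by simp)

theorem diff {f : E n → ℝ} {y : E n} (hf : ContDiffAt ℝ ∞ f y) : DifferentiableAt ℝ f y :=
  hf.differentiableAt (by simp)

theorem pd2_add {f h : E n → ℝ} {y : E n} (hf : ContDiffAt ℝ ∞ f y) (hh : ContDiffAt ℝ ∞ h y)
    (i j : Fin n) :
    pd i (pd j fun z => f z + h z) y = pd i (pd j f) y + pd i (pd j h) y := by
  have h1 : pd j (fun z => f z + h z) =ᶠ[𝓝 y] fun z => pd j f z + pd j h z := by
    filter_upwards [eventually_diff hf, eventually_diff hh] with z h2 h3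
    exact pd_add h2 h3 j
  rw [h1.pd_eq i]
  exact pd_add (differentiableAt_pd hf j) (differentiableAt_pd hh j) i

theorem pd2_mul {f h : E n → ℝ} {y : E n} (hf : ContDiffAt ℝ ∞ f y) (hh : ContDiffAt ℝ ∞ h y)
    (i j : Fin n) :
    pd i (pd j fun z => f z * h z) y = pd i (pd j f) y * h y + pd j f y * pd i h y
      + (pd i f y * pd j h y + f y * pd i (pd j h) y) := by
  have h1 : pd j (fun z => f z * h z) =ᶠ[𝓝 y] fun z => pd j f z * h z + f z * pd j h z := by
    filter_upwards [eventually_diff hf, eventually_diff hh] with z h2 h3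
    exact pd_mul h2 h3 j
  rw [h1.pd_eq i, pd_add (f := fun z => pd j f z * h z) (g := fun z => f z * pd j h z)
    ((differentiableAt_pd hf j).mul (diff hh))
    ((diff hf).mul (differentiableAt_pd hh j)), pd_mul (differentiableAt_pd hf j) (diff hh),
    pd_mul (diff hf) (differentiableAt_pd hh j)]

theorem pd2_comp {φ : ℝ → ℝ} {f : E n → ℝ} {y : E n} (hf : ContDiffAt ℝ ∞ f y)
    (hφ : ContDiffAt ℝ ∞ φ (f y)) (i j : Fin n) :
    pd i (pd j fun z => φ (f z)) y = deriv (deriv φ) (f y) * pd i f y * pd j f y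
      + deriv φ (f y) * pd i (pd j f) y := by
  have h0 : ContDiffAt ℝ 1 φ (f y) := hφ.of_le (by exact_mod_cast le_top)
  have h1 : pd j (fun z => φ (f z)) =ᶠ[𝓝 y] fun z => deriv φ (f z) * pd j f z := by
    filter_upwards [eventually_diff hf,
      hf.continuousAt.eventually (h0.eventually (by simp))] with z h2 h3
    exact pd_comp (h3.differentiableAt (by simp)) h2 j
  have h2 : DifferentiableAt ℝ (deriv φ) (f y) := by
    have h3 : ContDiffAt ℝ ∞ (deriv φ) (f y) := by
      have h4 : ContDiffAt ℝ ∞ (fderiv ℝ φ) (f y) := hφ.fderiv_right (m := ∞) le_rfl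
      have h5 : deriv φ = fun z => fderiv ℝ φ z 1 := by
        funext z
        exact (fderiv_apply_one_eq_deriv).symm
      rw [h5]
      exact h4.clm_apply contDiffAt_const
    exact h3.differentiableAt (by simp)
  rw [h1.pd_eq i, pd_mul (f := fun z => deriv φ (f z)) (h2.comp y (diff hf))
    (differentiableAt_pd hf j), pd_comp h2 (diff hf)]

theorem lap_congr_left {g g' : MF n} {y : E n} (f : E n → ℝ) (h : g =ᶠ[𝓝 y] g') :
    lap g f y = lap g' f y := by
  unfold lap
  rw [h.eq_of_nhds]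
  congr 1
  refine Finset.sum_congr rfl fun i _ => Finset.sum_congr rfl fun j _ => ?_
  refine Filter.EventuallyEq.pd_eq ?_ i
  filter_upwards [h] with z hz
  rw [hz]

theorem lap_congr {g : MF n} {y : E n} {f h : E n → ℝ} (hf : f =ᶠ[𝓝 y] h) :
    lap g f y = lap g h y := by
  unfold lap
  congr 1
  refine Finset.sum_congr rfl fun i _ => Finset.sum_congr rfl fun j _ => ?_
  refine Filter.EventuallyEq.pd_eq ?_ i
  filter_upwards [hf.pd j] with z hz
  rw [hz]

theorem lap_const (g : MF n) (c : ℝ) (y : E n) : lap g (fun _ => c) y = 0 := by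
  unfold lap
  have h1 : ∀ i j, (fun z => Real.sqrt (g z).det * (g z)⁻¹ i j * pd j (fun _ : E n => c) z)
      = fun _ => (0 : ℝ) := by
    intro i j
    funext z
    rw [pd_const, mul_zero]
  simp only [h1]
  simp only [pd_const, Finset.sum_const_zero, mul_zero]

theorem lap_add {g : MF n} {y : E n} (hg : MetAt g y) {f h : E n → ℝ}
    (hf : ContDiffAt ℝ ∞ f y) (hh : ContDiffAt ℝ ∞ h y) :
    lap g (fun z => f z + h z) y = lap g f y + lap g h y := by
  rw [lap_eq hg (hf.add hh), lap_eq hg hf, lap_eq hg hh]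
  simp only [pd_add (diff hf) (diff hh), pd2_add hf hh, mul_add, Finset.sum_add_distrib]
  ring

theorem lap_mul {g : MF n} {y : E n} (hg : MetAt g y) {f h : E n → ℝ}
    (hf : ContDiffAt ℝ ∞ f y) (hh : ContDiffAt ℝ ∞ h y) :
    lap g (fun z => f z * h z) y = f y * lap g h y + h y * lap g f y + 2 * gam g f h y := by
  rw [lap_eq hg (hf.mul hh), lap_eq hg hf, lap_eq hg hh]
  have h1 : gam g f h y = ∑ i, ∑ j, (g y)⁻¹ i j * (pd j f y * pd i h y) := by
    unfold gam
    rw [Finset.sum_comm]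
    refine Finset.sum_congr rfl fun i _ => Finset.sum_congr rfl fun j _ => ?_
    rw [inv_symm hg j i]
    ring
  have h2 : gam g f h y = ∑ i, ∑ j, (g y)⁻¹ i j * (pd i f y * pd j h y) := by
    unfold gam
    refine Finset.sum_congr rfl fun i _ => Finset.sum_congr rfl fun j _ => ?_
    ring
  have h3 : (∑ j, cB g j y * pd j (fun z => f z * h z) y)
      = f y * (∑ j, cB g j y * pd j h y) + h y * (∑ j, cB g j y * pd j f y) := by
    rw [Finset.mul_sum, Finset.mul_sum, ← Finset.sum_add_distrib]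
    refine Finset.sum_congr rfl fun j _ => ?_
    rw [pd_mul (diff hf) (diff hh)]
    ring
  have h4 : (∑ i, ∑ j, (g y)⁻¹ i j * pd i (pd j fun z => f z * h z) y)
      = f y * (∑ i, ∑ j, (g y)⁻¹ i j * pd i (pd j h) y)
        + h y * (∑ i, ∑ j, (g y)⁻¹ i j * pd i (pd j f) y)
        + ((∑ i, ∑ j, (g y)⁻¹ i j * (pd j f y * pd i h y))
          + ∑ i, ∑ j, (g y)⁻¹ i j * (pd i f y * pd j h y)) := by
    simp only [Finset.mul_sum, ← Finset.sum_add_distrib]
    refine Finset.sum_congr rfl fun i _ => Finset.sum_congr rfl fun j _ => ?_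
    rw [pd2_mul hf hh]
    ring
  rw [h3, h4, ← h1, ← h2]
  ring

theorem lap_const_mul {g : MF n} {y : E n} (hg : MetAt g y) (c : ℝ) {f : E n → ℝ}
    (hf : ContDiffAt ℝ ∞ f y) : lap g (fun z => c * f z) y = c * lap g f y := by
  rw [lap_mul hg (f := fun _ => c) contDiffAt_const hf, lap_const]
  have h1 : gam g (fun _ => c) f y = 0 := by
    unfold gam
    simp [pd_const]
  rw [h1]
  ring

theorem lap_sub {g : MF n} {y : E n} (hg : MetAt g y) {f h : E n → ℝ}
    (hf : ContDiffAt ℝ ∞ f y) (hh : ContDiffAt ℝ ∞ h y) :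
    lap g (fun z => f z - h z) y = lap g f y - lap g h y := by
  have h1 : (fun z => f z - h z) = fun z => f z + (-1) * h z := by
    funext z
    ring
  rw [h1, lap_add hg hf (contDiffAt_const.mul hh), lap_const_mul hg (-1) hh]
  ring

theorem lap_comp {g : MF n} {y : E n} (hg : MetAt g y) {φ : ℝ → ℝ} {f : E n → ℝ}
    (hf : ContDiffAt ℝ ∞ f y) (hφ : ContDiffAt ℝ ∞ φ (f y)) :
    lap g (fun z => φ (f z)) y = deriv φ (f y) * lap g f y
      + deriv (deriv φ) (f y) * gam g f f y := by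
  have h0 : ContDiffAt ℝ ∞ (fun z => φ (f z)) y := hφ.comp y hf
  rw [lap_eq hg h0, lap_eq hg hf]
  have h3 : (∑ j, cB g j y * pd j (fun z => φ (f z)) y)
      = deriv φ (f y) * ∑ j, cB g j y * pd j f y := by
    rw [Finset.mul_sum]
    refine Finset.sum_congr rfl fun j _ => ?_
    rw [pd_comp (hφ.differentiableAt (by simp)) (diff hf)]
    ring
  have h4 : (∑ i, ∑ j, (g y)⁻¹ i j * pd i (pd j fun z => φ (f z)) y)
      = deriv φ (f y) * (∑ i, ∑ j, (g y)⁻¹ i j * pd i (pd j f) y)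
        + deriv (deriv φ) (f y) * gam g f f y := by
    unfold gam
    simp only [Finset.mul_sum, ← Finset.sum_add_distrib]
    refine Finset.sum_congr rfl fun i _ => Finset.sum_congr rfl fun j _ => ?_
    rw [pd2_comp hf hφ]
    ring
  rw [h3, h4]
  ring

/-! ### The maximum principle at a point -/

/-- The second derivative at a local maximum is nonpositive (one variable). -/
theorem deriv2_le {φ : ℝ → ℝ} (hφ : ContDiffAt ℝ 2 φ 0) (hm : IsLocalMax φ 0) :
    deriv (deriv φ) 0 ≤ 0 := by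
  by_contra hlt
  push Not at hlt
  have h1 : deriv φ 0 = 0 := hm.deriv_eq_zero
  have h2 : IsLocalMin φ 0 := isLocalMin_of_deriv_deriv_pos hlt h1 hφ.continuousAt
  have h3 : φ =ᶠ[𝓝 0] fun _ => φ 0 := by
    filter_upwards [hm, h2] with t h4 h5
    exact le_antisymm h4 h5
  have h4 : deriv φ =ᶠ[𝓝 0] fun _ => 0 := by
    filter_upwards [h3.deriv] with t ht
    rw [ht]
    simp
  rw [h4.deriv_eq] at hlt
  simp at hlt

/-- The Hessian at a local maximum is nonpositive. -/
theorem hess_le {f : E n → ℝ} {y : E n} (hf : ContDiffAt ℝ ∞ f y) (hm : IsLocalMax f y)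
    (v : Fin n → ℝ) : ∑ i, ∑ j, pd i (pd j f) y * v i * v j ≤ 0 := by
  set w : E n := WithLp.toLp 2 v with hw
  have hwi : ∀ i, w i = v i := fun i => rfl
  let c : ℝ → E n := fun t => y + t • w
  have hc0 : c 0 = y := by simp [c]
  have hc : ContDiff ℝ ∞ c := contDiff_const.add (contDiff_id.smul contDiff_const)
  have hcd : ∀ t, HasDerivAt c w t := by
    intro t
    have h1 : HasDerivAt (fun t : ℝ => t • w) ((1 : ℝ) • w) t := (hasDerivAt_id t).smul_const w
    rw [one_smul] at h1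
    exact h1.const_add y
  have hcc : Filter.Tendsto c (𝓝 0) (𝓝 y) := by
    have := hc.continuous.tendsto 0
    rwa [hc0] at this
  have h1 : ∀ {h : E n → ℝ} {t : ℝ}, DifferentiableAt ℝ h (c t) →
      HasDerivAt (fun s => h (c s)) (∑ i, pd i h (c t) * v i) t := by
    intro h t hh
    have h2 := hh.hasFDerivAt.comp_hasDerivAt t (hcd t)
    rw [fderiv_eq_sum] at h2
    exact h2
  have hfc : ContDiffAt ℝ ∞ f (c 0) := by rw [hc0]; exact hf
  have h2 : deriv (fun s => f (c s)) =ᶠ[𝓝 0] fun s => ∑ i, pd i f (c s) * v i := by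
    filter_upwards [hcc.eventually (eventually_diff hf)] with t ht
    exact (h1 ht).deriv
  have h3 : HasDerivAt (fun s => ∑ i, pd i f (c s) * v i)
      (∑ i, (∑ j, pd j (pd i f) (c 0) * v j) * v i) 0 := by
    refine HasDerivAt.fun_sum fun i _ => ?_
    refine (h1 (h := pd i f) ?_).mul_const _
    exact differentiableAt_pd hfc i
  have h4 : deriv (deriv fun s => f (c s)) 0 = ∑ i, (∑ j, pd j (pd i f) (c 0) * v j) * v i := by
    rw [h2.deriv_eq]
    exact h3.deriv
  have h5 : IsLocalMax (fun s => f (c s)) 0 := by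
    have : ∀ᶠ t in 𝓝 0, f (c t) ≤ f y := hcc.eventually hm
    filter_upwards [this] with t ht
    rwa [hc0]
  have h6 : ContDiffAt ℝ 2 (fun s => f (c s)) 0 := by
    have : ContDiffAt ℝ ∞ (fun s => f (c s)) 0 := hfc.comp (0 : ℝ) hc.contDiffAt
    exact this.of_le two_le_infty
  have h7 := deriv2_le h6 h5
  rw [h4, hc0] at h7
  refine le_of_eq_of_le ?_ h7
  rw [Finset.sum_comm]
  refine Finset.sum_congr rfl fun i _ => ?_
  rw [Finset.sum_mul]

theorem lap_le {g : MF n} {y : E n} (hg : MetAt g y) {f : E n → ℝ}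
    (hf : ContDiffAt ℝ ∞ f y) (hm : IsLocalMax f y) : lap g f y ≤ 0 := by
  rw [lap_eq hg hf]
  have h1 : ∀ j, pd j f y = 0 := by
    intro j
    rw [pd_def, hm.fderiv_eq_zero]
    rfl
  simp only [h1, mul_zero, Finset.sum_const_zero, zero_add]
  have h2 : ((g y)⁻¹).PosSemidef := hg.posDef.self_of_nhds.inv.posSemidef
  obtain ⟨B, hB⟩ := CStarAlgebra.nonneg_iff_eq_star_mul_self.mp h2.nonneg
  have h3 : ∀ i j, (g y)⁻¹ i j = ∑ k, B k i * B k j := by
    intro i j
    rw [hB, Matrix.mul_apply]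
    refine Finset.sum_congr rfl fun k _ => ?_
    simp
  have h4 : ∑ i, ∑ j, (g y)⁻¹ i j * pd i (pd j f) y
      = ∑ k, ∑ i, ∑ j, pd i (pd j f) y * B k i * B k j := by
    simp only [h3]
    have h5 : ∑ k, ∑ i, ∑ j, pd i (pd j f) y * B k i * B k j
        = ∑ i, ∑ j, ∑ k, pd i (pd j f) y * B k i * B k j := by
      rw [Finset.sum_comm]
      refine Finset.sum_congr rfl fun i _ => ?_
      rw [Finset.sum_comm]
    rw [h5]
    refine Finset.sum_congr rfl fun i _ => Finset.sum_congr rfl fun j _ => ?_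
    rw [Finset.sum_mul]
    refine Finset.sum_congr rfl fun k _ => ?_
    ring
  rw [h4]
  exact Finset.sum_nonpos fun k _ => hess_le hf hm fun i => B k i

end CalM

open CalM in
theorem specCal : SpecCal := by
  intro n g y hg
  exact ⟨fun f g' h => lap_congr_left f h, fun f h hf => lap_congr hf, fun c => lap_const g c y,
    fun f h hf hh => ⟨lap_add hg hf hh, lap_sub hg hf hh, lap_mul hg hf hh⟩,
    fun c f hf => lap_const_mul hg c hf, fun φ f hf hφ => lap_comp hg hf hφ,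
    fun f hf hm => lap_le hg hf hm⟩

end Pool.Agent.Lib.MPdbccd7
end

section
/-!
# ENV: the energy density of `v = α y`
-/
open scoped Manifold ContDiff Matrix

namespace Pool.Agent.Lib.MPdbccd7

namespace EnvM

variable {m : ℕ}

/-- The bilinear form of a matrix of the shape of the inverse of `gA`. -/
theorem sum_form (G : Matrix (Fin (m + 3)) (Fin (m + 3)) ℝ) (y J : Fin (m + 3) → ℝ) (b N : ℝ)
    (hG : ∀ i j, G i j = (if i = j then 1 else 0) + y i * y j
      - b * (J i * (if j = 0 then 1 else 0) + (if i = 0 then 1 else 0) * J j)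
      + N * J i * J j) (X Y : Fin (m + 3) → ℝ) :
    ∑ i, ∑ j, G i j * X i * Y j = (∑ i, X i * Y i) + (∑ i, y i * X i) * (∑ i, y i * Y i)
      - b * ((∑ i, J i * X i) * Y 0 + X 0 * (∑ i, J i * Y i))
      + N * ((∑ i, J i * X i) * (∑ i, J i * Y i)) := by
  have h : ∀ i j, G i j * X i * Y j = (if i = j then X i * Y j else 0)
      + (y i * X i) * (y j * Y j)
      - b * ((J i * X i) * (if j = 0 then Y j else 0) + (if i = 0 then X i else 0) * (J j * Y j))
      + N * ((J i * X i) * (J j * Y j)) := by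
    intro i j
    rw [hG]
    split_ifs <;> ring
  simp only [h, Finset.sum_add_distrib, Finset.sum_sub_distrib, ← Finset.mul_sum, ← Finset.sum_mul,
    Finset.sum_ite_eq, Finset.sum_ite_eq', Finset.mem_univ, if_true]

theorem form (hM : SpecMat) {T : Tw} (h1 : ContDiff ℝ ∞ T.tau) (h2 : ContDiff ℝ ∞ T.lam)
    (y : E (m + 3)) (X Y : Fin (m + 3) → ℝ) :
    ∑ i, ∑ j, (gA T y)⁻¹ i j * X i * Y j = (∑ i, X i * Y i)
      + (∑ i, y i * X i) * (∑ i, y i * Y i)
      - bb T y * ((∑ i, Jv y i * X i) * Y 0 + X 0 * (∑ i, Jv y i * Y i))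
      + Nn T y * ((∑ i, Jv y i * X i) * (∑ i, Jv y i * Y i)) :=
  sum_form _ _ _ _ _ (hM m T h1 h2 y).1 X Y

theorem two_ne_zero' : (2 : Fin (m + 3)) ≠ 0 := by
  intro h
  have h2 := congrArg Fin.val h
  have h3 : (2 : Fin (m + 3)).val = 2 := Nat.mod_eq_of_lt (a := 2) (b := m + 3) (by omega)
  rw [h3] at h2
  exact absurd h2 (by simp)

theorem two_ne_one' : (2 : Fin (m + 3)) ≠ 1 := by
  intro h
  have h2 := congrArg Fin.val h
  have h3 : (2 : Fin (m + 3)).val = 2 := Nat.mod_eq_of_lt (a := 2) (b := m + 3) (by omega)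
  rw [h3] at h2
  exact absurd h2 (by simp)

theorem one_ne_zero' : (1 : Fin (m + 3)) ≠ 0 := by simp

theorem Jv_zero (y : E (m + 3)) : Jv y 0 = 0 := by
  unfold Jv
  rw [if_neg one_ne_zero'.symm, if_neg two_ne_zero'.symm]

theorem Jv_one (y : E (m + 3)) : Jv y 1 = - y 2 := by
  unfold Jv
  rw [if_pos rfl]

theorem Jv_two (y : E (m + 3)) : Jv y 2 = y 1 := by
  unfold Jv
  rw [if_neg two_ne_one', if_pos rfl]

/-- Sums of functions supported on the indices `1, 2`. -/
theorem sum_two (a b : ℝ) (X : Fin (m + 3) → ℝ) :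
    ∑ i, (if i = 1 then a else if i = 2 then b else 0) * X i = a * X 1 + b * X 2 := by
  have h : ∀ i : Fin (m + 3), (if i = 1 then a else if i = 2 then b else 0) * X i
      = (if i = 1 then a * X i else 0) + (if i = 2 then b * X i else 0) := by
    intro i
    by_cases h1 : i = 1
    · subst h1
      rw [if_pos rfl, if_pos rfl, if_neg two_ne_one'.symm]
      ring
    · rw [if_neg h1, if_neg h1]
      split_ifs <;> ring
  simp only [h, Finset.sum_add_distrib, Finset.sum_ite_eq', Finset.mem_univ, if_true]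

theorem sum_Jv (y : E (m + 3)) (X : Fin (m + 3) → ℝ) :
    ∑ i, Jv y i * X i = - y 2 * X 1 + y 1 * X 2 := sum_two _ _ X

theorem sum_Jv_y (y : E (m + 3)) : ∑ i, Jv y i * y i = 0 := by
  rw [sum_Jv]; ring

theorem sum_Jv_Jv (y : E (m + 3)) : ∑ i, Jv y i * Jv y i = wsq y := by
  rw [sum_Jv, Jv_one, Jv_two, wsq]
  ring

theorem sum_y_y (y : E (m + 3)) : ∑ i, y i * y i = y0 y ^ 2 - 1 := by
  rw [y0_sq]
  rw [add_sub_cancel_left]
  exact Finset.sum_congr rfl fun i _ => (sq _).symm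

theorem y0_vA (T : Tw) (y : E (m + 3)) :
    y0 (vA T y) ^ 2 = 1 - al T y ^ 2 + al T y ^ 2 * y0 y ^ 2 := by
  rw [y0_sq, y0_sq]
  have h : ∀ i, (vA T y) i ^ 2 = al T y ^ 2 * y i ^ 2 := by
    intro i
    change (al T y * y i) ^ 2 = _
    ring
  simp only [h, ← Finset.mul_sum]
  ring

/-- The derivatives of `v`. -/
theorem pd_vA {T : Tw} {y : E (m + 3)} (ha : DifferentiableAt ℝ (al T) y) (i k : Fin (m + 3)) :
    pd i (fun z => vA T z k) y = pd i (al T) y * y k + al T y * (if i = k then 1 else 0) := by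
  have h : (fun z => vA T z k) = fun z : E (m + 3) => al T z * z k := rfl
  rw [h, pd_mul ha (differentiable_coord k y), pd_coord]

theorem sum_pd_pd {T : Tw} {y : E (m + 3)} (ha : DifferentiableAt ℝ (al T) y)
    (i j : Fin (m + 3)) :
    ∑ k, pd i (fun z => vA T z k) y * pd j (fun z => vA T z k) y
      = pd i (al T) y * pd j (al T) y * (y0 y ^ 2 - 1)
        + al T y * (pd i (al T) y * y j + y i * pd j (al T) y)
        + al T y ^ 2 * (if i = j then 1 else 0) := by
  rw [← sum_y_y]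
  have h : ∀ k, pd i (fun z => vA T z k) y * pd j (fun z => vA T z k) y
      = pd i (al T) y * pd j (al T) y * (y k * y k)
        + (al T y * pd i (al T) y * (if j = k then y k else 0)
          + al T y * pd j (al T) y * (if i = k then y k else 0))
        + al T y ^ 2 * (if i = k then (if j = k then 1 else 0) else 0) := by
    intro k
    rw [pd_vA ha, pd_vA ha]
    split_ifs <;> ring
  simp only [h, Finset.sum_add_distrib, ← Finset.mul_sum, Finset.sum_ite_eq, Finset.mem_univ,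
    if_true]
  simp only [eq_comm (a := j) (b := i)]
  ring

theorem sum_v_pd {T : Tw} {y : E (m + 3)} (ha : DifferentiableAt ℝ (al T) y)
    (i : Fin (m + 3)) :
    ∑ k, vA T y k * pd i (fun z => vA T z k) y
      = al T y * (y0 y ^ 2 - 1) * pd i (al T) y + al T y ^ 2 * y i := by
  rw [← sum_y_y]
  have h : ∀ k, vA T y k * pd i (fun z => vA T z k) y
      = al T y * pd i (al T) y * (y k * y k) + al T y ^ 2 * (if i = k then y k else 0) := by
    intro k
    rw [pd_vA ha]
    change al T y * y k * _ = _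
    split_ifs <;> ring
  simp only [h, Finset.sum_add_distrib, ← Finset.mul_sum, Finset.sum_ite_eq, Finset.mem_univ,
    if_true]
  ring

theorem alg_en {a v Y M N G D : ℝ} (hv : 0 < v) (hv2 : v ^ 2 = 1 - a ^ 2 + a ^ 2 * Y ^ 2)
    (hid : a ^ 2 * ((M + 2) + N) = M + 2) :
    (Y ^ 2 - 1) * G + 2 * a * (Y ^ 2 * D) + a ^ 2 * ((M + 3) + (Y ^ 2 - 1) + N)
        - (a ^ 2 * (Y ^ 2 - 1) ^ 2 * G + 2 * a ^ 3 * (Y ^ 2 - 1) * (Y ^ 2 * D)
          + a ^ 4 * ((Y ^ 2 - 1) * Y ^ 2)) / v ^ 2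
      = (M + 3) - (1 - a ^ 2) / v ^ 2 + (G * (Y ^ 2 - 1) + 2 * a * Y ^ 2 * D) / v ^ 2 := by
  have hv0 : v ≠ 0 := hv.ne'
  have hN : a ^ 2 * N = (M + 2) - a ^ 2 * (M + 2) := by linear_combination hid
  have h1 : a ^ 2 * ((M + 3) + (Y ^ 2 - 1) + N) = (M + 2) + a ^ 2 * Y ^ 2 := by
    linear_combination hN
  rw [h1]
  field_simp
  linear_combination ((Y ^ 2 - 1) * G + 2 * a * Y ^ 2 * D + (a ^ 2 * Y ^ 2) - 1) * hv2

end EnvM

open EnvM in
theorem specEnv (hM : SpecMat) (hA : SpecAlpha) : SpecEnv := by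
  intro m C T ε κ r1 r2 hT y
  refine ⟨y0_vA T y, ?_⟩
  obtain ⟨C1, _, hA⟩ := hA m C
  obtain ⟨hsm, hA⟩ := hA T ε κ r1 r2 hT
  obtain ⟨hJ, hpos, hle, hid, _⟩ := hA y
  have ha : DifferentiableAt ℝ (al T) y := (hsm.differentiable (by simp)) y
  have hF := form hM hT.tsm hT.lsm y
  have hJ' : ∑ i, Jv y i * pd i (al T) y = 0 := hJ
  set a := al T y with ha_def
  set v := y0 (vA T y) with hv_def
  have hv : 0 < v := y0_pos _
  have hv2 : v ^ 2 = 1 - a ^ 2 + a ^ 2 * y0 y ^ 2 := y0_vA T y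
  -- the four contractions
  have e1 : ∑ i, ∑ j, (gA T y)⁻¹ i j * pd i (al T) y * pd j (al T) y
      = gam0 (al T) (al T) y := by
    rw [hF, hJ']
    unfold gam0
    ring
  have e2 : ∑ i, ∑ j, (gA T y)⁻¹ i j * pd i (al T) y * y j = y0 y ^ 2 * Dd (al T) y := by
    rw [hF, hJ', sum_Jv_y, sum_y_y]
    have : ∑ i, pd i (al T) y * y i = Dd (al T) y :=
      Finset.sum_congr rfl fun i _ => mul_comm _ _
    rw [this]
    change Dd (al T) y + Dd (al T) y * _ - _ + _ = _
    ring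
  have e3 : ∑ i, ∑ j, (gA T y)⁻¹ i j * y i * pd j (al T) y = y0 y ^ 2 * Dd (al T) y := by
    rw [hF, hJ', sum_Jv_y, sum_y_y]
    change Dd (al T) y + _ * Dd (al T) y - _ + _ = _
    ring
  have e4 : ∑ i, ∑ j, (gA T y)⁻¹ i j * y i * y j = (y0 y ^ 2 - 1) * y0 y ^ 2 := by
    rw [hF, sum_Jv_y, sum_y_y]
    ring
  have e5 : ∑ i, ∑ j, (gA T y)⁻¹ i j * (if i = j then 1 else 0)
      = (m + 3) + (y0 y ^ 2 - 1) + Nn T y * wsq y := by
    simp only [mul_ite, mul_one, mul_zero, Finset.sum_ite_eq, Finset.mem_univ, if_true]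
    have h : ∀ i, (gA T y)⁻¹ i i = 1 + y i * y i
        - (bb T y * (if i = 0 then 2 * Jv y i else 0)) + Nn T y * (Jv y i * Jv y i) := by
      intro i
      rw [(hM m T hT.tsm hT.lsm y).1 i i, if_pos rfl]
      split_ifs <;> ring
    simp only [h, Finset.sum_add_distrib, Finset.sum_sub_distrib, ← Finset.mul_sum, sum_Jv_Jv,
      sum_y_y, Finset.sum_ite_eq', Finset.mem_univ, if_true, Jv_zero]
    simp
  have key : en (gA T) (vA T) y
      = (y0 y ^ 2 - 1) * gam0 (al T) (al T) y + 2 * a * (y0 y ^ 2 * Dd (al T) y)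
        + a ^ 2 * ((m + 3) + (y0 y ^ 2 - 1) + Nn T y * wsq y)
        - (a ^ 2 * (y0 y ^ 2 - 1) ^ 2 * gam0 (al T) (al T) y
          + 2 * a ^ 3 * (y0 y ^ 2 - 1) * (y0 y ^ 2 * Dd (al T) y)
          + a ^ 4 * ((y0 y ^ 2 - 1) * y0 y ^ 2)) / v ^ 2 := by
    unfold en
    have h : ∀ i j, (gA T y)⁻¹ i j * fI (vA T) y i j
        = ((y0 y ^ 2 - 1) - a ^ 2 * (y0 y ^ 2 - 1) ^ 2 / v ^ 2)
            * ((gA T y)⁻¹ i j * pd i (al T) y * pd j (al T) y)
          + (a - a ^ 3 * (y0 y ^ 2 - 1) / v ^ 2) * ((gA T y)⁻¹ i j * pd i (al T) y * y j)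
          + (a - a ^ 3 * (y0 y ^ 2 - 1) / v ^ 2) * ((gA T y)⁻¹ i j * y i * pd j (al T) y)
          + (- (a ^ 4 / v ^ 2)) * ((gA T y)⁻¹ i j * y i * y j)
          + a ^ 2 * ((gA T y)⁻¹ i j * (if i = j then 1 else 0)) := by
      intro i j
      unfold fI
      rw [sum_pd_pd ha, sum_v_pd ha, sum_v_pd ha]
      ring
    simp only [h, Finset.sum_add_distrib, ← Finset.mul_sum, e1, e2, e3, e4, e5]
    ring
  rw [key]
  exact alg_en hv hv2 hid

end Pool.Agent.Lib.MPdbccd7
end

section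
/-!
# CURVA: the sectional curvatures of the twisted metric
-/
open scoped Manifold ContDiff Matrix

namespace Pool.Agent.Lib.MPdbccd7

namespace CurvaM

theorem smooth_jac_act {n : ℕ} (B : Matrix (Fin (n + 1)) (Fin (n + 1)) ℝ) (i j : Fin n) :
    ContDiff ℝ ∞ fun y : E n => jac (act B) y i j := by
  have h : ContDiff ℝ ∞ fun z : E n => act B z i := (contDiff_coord i).comp (contDiff_act B)
  exact contDiff_pd h j

/-- The pull-back of a metric under a Lorentz transformation is a metric. -/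
theorem metAt_pull {n : ℕ} (B : Matrix (Fin (n + 1)) (Fin (n + 1)) ℝ) (hB : IsLor B) (g : MF n)
    (hs : ∀ i j, ContDiff ℝ ∞ fun z => g z i j) (hp : ∀ z, (g z).PosDef) (y : E n) :
    MetAt (fun y => (jac (act B) y)ᵀ * g (act B y) * jac (act B) y) y := by
  constructor
  · intro i j
    apply ContDiff.contDiffAt
    simp only [Matrix.mul_apply, Matrix.transpose_apply]
    refine ContDiff.sum fun k _ => ContDiff.mul (ContDiff.sum fun l _ => ContDiff.mul ?_ ?_) ?_
    · exact smooth_jac_act B l i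
    · exact (hs l k).comp (contDiff_act B)
    · exact smooth_jac_act B k j
  · refine Filter.Eventually.of_forall fun z => ?_
    have h := (hp (act B z)).conjTranspose_mul_mul_same (B := jac (act B) z) (by
      apply Matrix.mulVec_injective_of_isUnit
      rw [Matrix.isUnit_iff_isUnit_det]
      exact (jac_act_det_ne hB z).isUnit)
    rwa [Matrix.conjTranspose_eq_transpose_of_trivial] at h

theorem mulVec_inv_lin {n : ℕ} (A : Matrix (Fin n) (Fin n) ℝ) (hA : A.det ≠ 0)
    (X Y : Fin n → ℝ) (h : LinearIndependent ℝ ![X, Y]) :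
    A *ᵥ (A⁻¹ *ᵥ X) = X ∧ A *ᵥ (A⁻¹ *ᵥ Y) = Y ∧
      LinearIndependent ℝ ![A⁻¹ *ᵥ X, A⁻¹ *ᵥ Y] := by
  have e : ∀ Z : Fin n → ℝ, A *ᵥ (A⁻¹ *ᵥ Z) = Z := by
    intro Z
    rw [Matrix.mulVec_mulVec, Matrix.mul_nonsing_inv A hA.isUnit, Matrix.one_mulVec]
  refine ⟨e X, e Y, ?_⟩
  rw [LinearIndependent.pair_iff] at h ⊢
  intro s t hst
  apply h s t
  have := congrArg (A *ᵥ ·) hst
  simp only [Matrix.mulVec_add, Matrix.mulVec_smul, e, Matrix.mulVec_zero] at this
  exact this

end CurvaM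

open CurvaM in
theorem specCurva (hNat : SpecNat) (hJet : SpecJet) (hMat : SpecMat) (hGauge : SpecGauge)
    (hPull : SpecPull) : SpecCurva := by
  intro m C
  obtain ⟨CJ, hJ⟩ := hJet (m + 3)
  obtain ⟨C3, hC3, hP⟩ := hPull m C
  refine ⟨max 1 CJ * C3, ?_, ?_⟩
  · have : 1 ≤ max 1 CJ := le_max_left _ _
    nlinarith
  intro T ε κ r1 r2 hT y X Y hsmall hXY
  have hε := hT.hε.1
  have hκ := hT.hκ.1
  have hw : 0 ≤ κ / ε ^ 2 := by positivity
  have hM1 : (1 : ℝ) ≤ max 1 CJ := le_max_left _ _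
  have hC : C3 * (κ / ε ^ 2) ≤ max 1 CJ * C3 * (κ / ε ^ 2) := by
    have : 0 ≤ C3 * (κ / ε ^ 2) := by positivity
    nlinarith
  have hc1 : C3 * (κ / ε ^ 2) ≤ 1 := hC.trans hsmall
  have hc0 : 0 ≤ C3 * (κ / ε ^ 2) := by positivity
  set c : ℝ := T.lam (rk y) with hc
  set T' : Tw := ⟨T.tau, fun r => T.lam r - c⟩ with hT'
  have hl' : ContDiff ℝ ∞ T'.lam := hT.lsm.sub contDiff_const
  have ht' : ContDiff ℝ ∞ T'.tau := hT.tsm
  obtain ⟨hΦ, hG⟩ := hGauge m T c hT.tsm hT.lsm
  have hM' := hMat m T' ht' hl'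
  -- first step: the gauge map
  have hmet : ∀ z, MetAt (gA (m := m) T') z := fun z =>
    ⟨fun i j => ((hM' z).2.2.1 i j).contDiffAt, Filter.Eventually.of_forall fun w => (hM' w).2.2.2⟩
  have h1 := hNat (m + 3) (Phi T c) y (gA T) (gA T') hΦ.contDiffAt
    (by rw [(hG y).2.1]; exact one_ne_zero) (hmet _)
    (Filter.Eventually.of_forall fun z => (hG z).1) X Y
  obtain ⟨-, -, hsec1, hlin1⟩ := h1
  have hlin1 := hlin1 hXY
  set X1 := jac (Phi T c) y *ᵥ X with hX1
  set Y1 := jac (Phi T c) y *ᵥ Y with hY1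
  -- second step: the boost
  obtain ⟨B, hB, hBp⟩ := exists_boost (Phi T c y)
  set G : MF (m + 3) := fun z => (jac (act B) z)ᵀ * gA T' (act B z) * jac (act B) z with hGd
  have hdet := jac_act_det_ne hB (0 : E (m + 3))
  obtain ⟨eX, eY, hlin2⟩ := mulVec_inv_lin _ hdet X1 Y1 hlin1
  have h2 := hNat (m + 3) (act B) 0 G (gA T') (contDiff_act B).contDiffAt hdet (hmet _)
    (Filter.Eventually.of_forall fun z => rfl) ((jac (act B) 0)⁻¹ *ᵥ X1)
    ((jac (act B) 0)⁻¹ *ᵥ Y1)
  obtain ⟨-, -, hsec2, -⟩ := h2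
  rw [eX, eY, hBp] at hsec2
  -- third step: the 2-jet
  have hlam0 : T'.lam (rk (act B (0 : E (m + 3)))) = 0 := by
    rw [hBp]
    show T.lam (rk (Phi T c y)) - c = 0
    rw [rk, (hG y).2.2.1, hc, rk, sub_self]
  have d1 : deriv T'.lam = deriv T.lam := by
    funext r
    exact deriv_sub_const c
  have hκ1 := hT.hκ.2
  have hε1 : ε ≤ 1 := by linarith [hT.hε.2]
  obtain ⟨g1, g2, g3⟩ := hP T' ε κ ht' hl' hε hε1 hκ hκ1 hT.t1 hT.t2
    (by rw [d1]; exact hT.l1) (by rw [d1]; exact hT.l2) B hB hlam0 G rfl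
  have hmetG : MetAt G 0 := metAt_pull B hB _ (fun i j => (hM' 0).2.2.1 i j)
    (fun z => (hM' z).2.2.2) 0
  have h3 := hJ G (C3 * (κ / ε ^ 2)) hc0 hc1 hmetG g1 g2 g3 _ _ hlin2
  rw [hsec2, ← hsec1] at h3
  refine h3.trans ?_
  have : CJ ≤ max 1 CJ := le_max_right _ _
  calc CJ * (C3 * (κ / ε ^ 2)) ≤ max 1 CJ * (C3 * (κ / ε ^ 2)) :=
        mul_le_mul_of_nonneg_right this hc0
    _ = max 1 CJ * C3 * (κ / ε ^ 2) := by ring

end Pool.Agent.Lib.MPdbccd7
end

section
/-!
# PULL: the 2-jet at `0` of the boosted twisted metric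
-/
open scoped Manifold ContDiff Matrix Topology

namespace Pool.Agent.Lib.MPdbccd7

namespace PullM

variable {n : ℕ}

/-! ### Linear functions on the hyperboloid -/

/-- The linear function with coefficients `r`. -/
noncomputable def el (r : Fin (n + 1) → ℝ) (y : E n) : ℝ :=
  r 0 * y0 y + ∑ k : Fin n, r k.succ * y k

theorem contDiff_el (r : Fin (n + 1) → ℝ) : ContDiff ℝ ∞ (el r) :=
  (contDiff_const.mul contDiff_y0).add
    (ContDiff.sum fun k _ => contDiff_const.mul (contDiff_coord k))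

theorem pd_el (r : Fin (n + 1) → ℝ) (i : Fin n) (y : E n) :
    pd i (el r) y = r 0 * (y i / y0 y) + r i.succ := by
  have hd : ∀ k ∈ (Finset.univ : Finset (Fin n)),
      DifferentiableAt ℝ (fun z : E n => r k.succ * z k) y :=
    fun k _ => ((differentiable_coord k) y).const_mul _
  unfold el
  rw [pd_add ((differentiable_y0 y).const_mul _) (DifferentiableAt.fun_sum hd),
    pd_const_mul (differentiable_y0 y), pd_y0, pd_sum hd]
  congr 1
  rw [Finset.sum_eq_single i]
  · rw [pd_const_mul (differentiable_coord i y), pd_coord, if_pos rfl, mul_one]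
  · intro k _ hk
    rw [pd_const_mul (differentiable_coord k y), pd_coord, if_neg hk.symm, mul_zero]
  · intro h
    exact absurd (Finset.mem_univ i) h

theorem el_zero (r : Fin (n + 1) → ℝ) : el r 0 = r 0 := by
  unfold el
  simp [y0_zero]

theorem pd_el_zero (r : Fin (n + 1) → ℝ) (i : Fin n) : pd i (el r) 0 = r i.succ := by
  rw [pd_el]
  simp

theorem pd_pd_el_zero (r : Fin (n + 1) → ℝ) (k i : Fin n) :
    pd k (pd i (el r)) 0 = r 0 * (if k = i then 1 else 0) := by
  have h : pd i (el r) = fun y => r 0 * (y i / y0 y) + r i.succ := funext fun y => pd_el r i y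
  have hc : ContDiff ℝ ∞ fun y : E n => y i / y0 y :=
    (contDiff_coord i).div contDiff_y0 y0_ne
  have hd : DifferentiableAt ℝ (fun y : E n => y i / y0 y) 0 :=
    (hc.differentiable (by simp)) 0
  rw [h, pd_add (hd.const_mul _) (differentiableAt_const _), pd_const_mul hd, pd_const,
    pd_div (differentiable_coord i 0) (differentiable_y0 0) (y0_ne 0), pd_coord, pd_y0, y0_zero]
  simp

/-! ### Second derivatives of products -/

theorem da {f : E n → ℝ} (hf : ContDiff ℝ ∞ f) (y : E n) : DifferentiableAt ℝ f y :=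
  (hf.differentiable (by simp)) y

theorem pd_pd_mul {a b : E n → ℝ} (ha : ContDiff ℝ ∞ a) (hb : ContDiff ℝ ∞ b) (k l : Fin n)
    (y : E n) : pd k (pd l (fun z => a z * b z)) y =
      pd k (pd l a) y * b y + pd l a y * pd k b y + pd k a y * pd l b y
        + a y * pd k (pd l b) y := by
  have h : pd l (fun z => a z * b z) = fun z => pd l a z * b z + a z * pd l b z :=
    funext fun z => pd_mul (da ha z) (da hb z) l
  have ha' := contDiff_pd ha l
  have hb' := contDiff_pd hb l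
  rw [h, pd_add (da (ha'.mul hb) y) (da (ha.mul hb') y), pd_mul (da ha' y) (da hb y),
    pd_mul (da ha y) (da hb' y)]
  ring

theorem pd_pd_add {a b : E n → ℝ} (ha : ContDiff ℝ ∞ a) (hb : ContDiff ℝ ∞ b) (k l : Fin n)
    (y : E n) : pd k (pd l (fun z => a z + b z)) y = pd k (pd l a) y + pd k (pd l b) y := by
  have h : pd l (fun z => a z + b z) = fun z => pd l a z + pd l b z :=
    funext fun z => pd_add (da ha z) (da hb z) l
  rw [h, pd_add (da (contDiff_pd ha l) y) (da (contDiff_pd hb l) y)]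

theorem pd_pd_const_mul {a : E n → ℝ} (ha : ContDiff ℝ ∞ a) (c : ℝ) (k l : Fin n)
    (y : E n) : pd k (pd l (fun z => c * a z)) y = c * pd k (pd l a) y := by
  have h : pd l (fun z => c * a z) = fun z => c * pd l a z :=
    funext fun z => pd_const_mul (da ha z) c l
  rw [h, pd_const_mul (da (contDiff_pd ha l) y)]

theorem pd_pd_comp {φ : ℝ → ℝ} {f : E n → ℝ} (hφ : ContDiff ℝ ∞ φ) (hf : ContDiff ℝ ∞ f)
    (k l : Fin n) (y : E n) : pd k (pd l (fun z => φ (f z))) y =
      deriv (deriv φ) (f y) * pd k f y * pd l f y + deriv φ (f y) * pd k (pd l f) y := by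
  have hd : ContDiff ℝ ∞ (deriv φ) := ((contDiff_infty_iff_deriv (𝕜 := ℝ)).1 hφ).2
  have h : pd l (fun z => φ (f z)) = fun z => deriv φ (f z) * pd l f z :=
    funext fun z => pd_comp (hφ.differentiable (by simp) _) (da hf z) l
  have h2 : ContDiff ℝ ∞ fun z => deriv φ (f z) := hd.comp hf
  rw [h, pd_mul (da h2 y) (da (contDiff_pd hf l) y),
    pd_comp (hd.differentiable (by simp) _) (da hf y)]

/-- The 2-jet of `L P + L² Q` at a zero of `L`. -/
theorem jet_LPQ {L P Q : E n → ℝ} (hL : ContDiff ℝ ∞ L) (hP : ContDiff ℝ ∞ P)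
    (hQ : ContDiff ℝ ∞ Q) (y : E n) (h0 : L y = 0) (k l : Fin n) :
    pd k (fun z => L z * P z + L z * L z * Q z) y = pd k L y * P y ∧
    pd k (pd l (fun z => L z * P z + L z * L z * Q z)) y =
      pd k (pd l L) y * P y + pd l L y * pd k P y + pd k L y * pd l P y
        + 2 * pd k L y * pd l L y * Q y := by
  have hLL : ContDiff ℝ ∞ fun z => L z * L z := hL.mul hL
  constructor
  · rw [pd_add (da (hL.mul hP) y) (da (hLL.mul hQ) y), pd_mul (da hL y) (da hP y),
      pd_mul (da hLL y) (da hQ y), pd_mul (da hL y) (da hL y), h0]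
    ring
  · rw [pd_pd_add (hL.mul hP) (hLL.mul hQ), pd_pd_mul hL hP, pd_pd_mul hLL hQ,
      pd_pd_mul hL hL, pd_mul (da hL y) (da hL y), pd_mul (da hL y) (da hL y), h0]
    ring

/-! ### The hyperbolic metric at `0` -/

theorem contDiff_gH' (i j : Fin n) : ContDiff ℝ ∞ (fun y : E n => gH y i j) := by
  have h : (fun y : E n => gH y i j)
      = fun y => (if i = j then 1 else 0) - y i * y j / y0 y ^ 2 := by
    funext y
    exact gH_apply y i j
  rw [h]
  exact contDiff_const.sub (((contDiff_coord i).mul (contDiff_coord j)).div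
    (contDiff_y0.pow 2) fun y => pow_ne_zero _ (y0_ne y))

theorem gH_zero : gH (0 : E n) = 1 := by
  ext i j
  rw [gH_apply, Matrix.one_apply]
  simp

theorem jet_gH (i j k l : Fin n) :
    pd k (fun y : E n => gH y i j) 0 = 0 ∧
    pd k (pd l (fun y : E n => gH y i j)) 0 =
      - (if i = k ∧ j = l then 1 else 0) - (if i = l ∧ j = k then 1 else 0) := by
  have hb : ContDiff ℝ ∞ fun y : E n => -(y0 y ^ 2)⁻¹ :=
    ((contDiff_y0.pow 2).inv fun y => pow_ne_zero _ (y0_ne y)).neg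
  have hc : ContDiff ℝ ∞ fun y : E n => y j * -(y0 y ^ 2)⁻¹ := (contDiff_coord j).mul hb
  have hi : ContDiff ℝ ∞ fun y : E n => y i := contDiff_coord i
  have hj : ContDiff ℝ ∞ fun y : E n => y j := contDiff_coord j
  have h : (fun y : E n => gH y i j)
      = fun y => (if i = j then 1 else 0) + y i * (y j * -(y0 y ^ 2)⁻¹) := by
    funext y
    rw [gH_apply, div_eq_mul_inv]
    ring
  have hk : ∀ a : Fin n, pd a (fun y : E n => y j * -(y0 y ^ 2)⁻¹) 0 =
      - (if a = j then 1 else 0) := by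
    intro a
    rw [pd_mul (da hj 0) (da hb 0), pd_coord, y0_zero]
    simp
  have hz : (0 : E n) i = 0 := rfl
  have hz' : (0 : E n) j = 0 := rfl
  rw [h]
  constructor
  · rw [pd_add (differentiableAt_const _) (da (hi.mul hc) 0), pd_const, pd_mul (da hi 0) (da hc 0),
      hz, hz']
    simp
  · rw [pd_pd_add contDiff_const (hi.mul hc), pd_pd_mul hi hc, hk, hk, pd_coord, pd_coord, hz, hz']
    have h3 : pd l (fun _ : E n => (if i = j then (1 : ℝ) else 0)) = fun _ => 0 :=
      funext fun y => pd_const _ y l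
    rw [h3, pd_const]
    have hcomm : ∀ a b : Fin n, (if a = b then (1 : ℝ) else 0) = if b = a then 1 else 0 := by
      intro a b
      by_cases h : a = b
      · simp [h]
      · rw [if_neg h, if_neg (Ne.symm h)]
    have e1 : (if i = k ∧ j = l then (1 : ℝ) else 0) =
        (if k = i then 1 else 0) * (if l = j then 1 else 0) := by
      rw [hcomm k i, hcomm l j]
      by_cases h1 : i = k <;> by_cases h2 : j = l <;> simp [h1, h2]
    have e2 : (if i = l ∧ j = k then (1 : ℝ) else 0) =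
        (if l = i then 1 else 0) * (if k = j then 1 else 0) := by
      rw [hcomm l i, hcomm k j]
      by_cases h1 : i = l <;> by_cases h2 : j = k <;> simp [h1, h2]
    rw [e1, e2]
    ring

/-! ### The boosted metric -/

section boost

variable {m : ℕ} (T : Tw) (B : Matrix (Fin (m + 3 + 1)) (Fin (m + 3 + 1)) ℝ)

theorem act_eq (y : E n) (A : Matrix (Fin (n + 1)) (Fin (n + 1)) ℝ) (i : Fin n) :
    act A y i = el (A i.succ) y := act_apply' A y i

theorem y0_eq {A : Matrix (Fin (n + 1)) (Fin (n + 1)) ℝ} (hA : IsLor A) (y : E n) :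
    y0 (act A y) = el (A 0) y := by
  rw [y0_act hA, Matrix.mulVec, dotProduct, Fin.sum_univ_succ]
  rfl

/-- The function `lam(rho)` after the boost. -/
noncomputable def Lf (z : E (m + 3)) : ℝ := T.lam (rk (act B z))

/-- The function `t` after the boost. -/
noncomputable def tf (z : E (m + 3)) : ℝ := tk (act B z)

/-- The function `tau'(t)` after the boost. -/
noncomputable def Sf (z : E (m + 3)) : ℝ := deriv T.tau (tf B z)

/-- The coordinates `1`, `2` after the boost. -/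
noncomputable def Wf (a : Fin (m + 3)) (z : E (m + 3)) : ℝ := act B z a

/-- The rotation one-form after the boost. -/
noncomputable def Jf (i : Fin (m + 3)) (z : E (m + 3)) : ℝ :=
  Wf B 1 z * pd i (Wf B 2) z - Wf B 2 z * pd i (Wf B 1) z

/-- First coefficient. -/
noncomputable def Pc (i j : Fin (m + 3)) (z : E (m + 3)) : ℝ :=
  Sf T B z * (pd i (tf B) z * Jf B j z + Jf B i z * pd j (tf B) z)

/-- Second coefficient. -/
noncomputable def Qc (i j : Fin (m + 3)) (z : E (m + 3)) : ℝ :=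
  (Wf B 1 z * Wf B 1 z + Wf B 2 z * Wf B 2 z) * (Sf T B z * Sf T B z)
    * (pd i (tf B) z * pd j (tf B) z)

theorem contDiff_rk' : ContDiff ℝ ∞ (rk (m := m)) := contDiff_y0.log fun y => y0_ne y

theorem contDiff_tk' : ContDiff ℝ ∞ (tk (m := m)) :=
  (contDiff_coord 0).div contDiff_y0 fun y => y0_ne y

theorem pd_tk (i : Fin (m + 3)) (y : E (m + 3)) : pd i tk y = dtk y i := by
  have h := pd_div (differentiable_coord (0 : Fin (m + 3)) y) (differentiable_y0 y) (y0_ne y) i
  have h2 : (tk : E (m + 3) → ℝ) = fun z => z 0 / y0 z := rfl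
  rw [h2, h, pd_coord, pd_y0]
  unfold dtk
  have := y0_ne y
  field_simp

theorem contDiff_tf : ContDiff ℝ ∞ (tf B) := contDiff_tk'.comp (contDiff_act B)

theorem contDiff_Lf (hl : ContDiff ℝ ∞ T.lam) : ContDiff ℝ ∞ (Lf T B) :=
  hl.comp (contDiff_rk'.comp (contDiff_act B))

theorem contDiff_dtau (hτ : ContDiff ℝ ∞ T.tau) : ContDiff ℝ ∞ (deriv T.tau) :=
  ((contDiff_infty_iff_deriv (𝕜 := ℝ)).1 hτ).2

theorem contDiff_Sf (hτ : ContDiff ℝ ∞ T.tau) : ContDiff ℝ ∞ (Sf T B) :=
  (contDiff_dtau T hτ).comp (contDiff_tf B)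

theorem contDiff_Wf (a : Fin (m + 3)) : ContDiff ℝ ∞ (Wf B a) :=
  (contDiff_coord a).comp (contDiff_act B)

theorem contDiff_Jf (i : Fin (m + 3)) : ContDiff ℝ ∞ (Jf B i) :=
  ((contDiff_Wf B 1).mul (contDiff_pd (contDiff_Wf B 2) i)).sub
    ((contDiff_Wf B 2).mul (contDiff_pd (contDiff_Wf B 1) i))

theorem contDiff_Pc (hτ : ContDiff ℝ ∞ T.tau) (i j : Fin (m + 3)) :
    ContDiff ℝ ∞ (Pc T B i j) :=
  (contDiff_Sf T B hτ).mul (((contDiff_pd (contDiff_tf B) i).mul (contDiff_Jf B j)).add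
    ((contDiff_Jf B i).mul (contDiff_pd (contDiff_tf B) j)))

theorem contDiff_Qc (hτ : ContDiff ℝ ∞ T.tau) (i j : Fin (m + 3)) :
    ContDiff ℝ ∞ (Qc T B i j) :=
  ((((contDiff_Wf B 1).mul (contDiff_Wf B 1)).add
    ((contDiff_Wf B 2).mul (contDiff_Wf B 2))).mul
    ((contDiff_Sf T B hτ).mul (contDiff_Sf T B hτ))).mul
    ((contDiff_pd (contDiff_tf B) i).mul (contDiff_pd (contDiff_tf B) j))

theorem n12 : (1 : Fin (m + 3)) ≠ 2 := by
  intro h
  have := congrArg Fin.val h
  have h1 : ((1 : Fin (m + 3)) : ℕ) = 1 := rfl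
  have h2 : ((2 : Fin (m + 3)) : ℕ) = 2 := rfl
  omega

theorem sum_Jv (y : E (m + 3)) (f : Fin (m + 3) → ℝ) :
    ∑ i, Jv y i * f i = - y 2 * f 1 + y 1 * f 2 := by
  have h : ∀ i, Jv y i * f i = (if i = 1 then - y 2 * f i else 0)
      + (if i = 2 then y 1 * f i else 0) := by
    intro i
    unfold Jv
    by_cases h1 : i = 1
    · subst h1
      simp [n12]
    · by_cases h2 : i = 2
      · subst h2
        simp [n12.symm]
      · simp [h1, h2]
  simp only [h, Finset.sum_add_distrib, Finset.sum_ite_eq', Finset.mem_univ, if_true]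

theorem sum_jac_Av (z : E (m + 3)) (i : Fin (m + 3)) :
    ∑ k, jac (act B) z k i * Av T (act B z) k = Lf T B z * Sf T B z * pd i (tf B) z := by
  have h : pd i (tf B) z = ∑ k, dtk (act B z) k * jac (act B) z k i := by
    have h2 := pd_chain (f := tk) (F := act B) (da contDiff_tk' (act B z))
      (differentiable_act B z) i
    refine h2.trans ?_
    refine Finset.sum_congr rfl fun k _ => ?_
    rw [pd_tk, jac_apply]
  rw [h, Finset.mul_sum]
  refine Finset.sum_congr rfl fun k _ => ?_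
  unfold Av Lf Sf tf
  ring

theorem sum_jac_Jv (z : E (m + 3)) (i : Fin (m + 3)) :
    ∑ k, jac (act B) z k i * Jv (act B z) k = Jf B i z := by
  have h : ∑ k, jac (act B) z k i * Jv (act B z) k =
      ∑ k, Jv (act B z) k * jac (act B) z k i := by
    refine Finset.sum_congr rfl fun k _ => ?_
    ring
  rw [h, sum_Jv]
  unfold Jf
  rw [jac_apply, jac_apply]
  unfold Wf
  ring

theorem G_eq (hB : IsLor B) (z : E (m + 3)) (i j : Fin (m + 3)) :
    ((jac (act B) z)ᵀ * gA T (act B z) * jac (act B) z) i j =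
      gH z i j + (Lf T B z * Pc T B i j z + Lf T B z * Lf T B z * Qc T B i j z) := by
  rw [← jac_act_gH hB z]
  simp only [Matrix.mul_apply, Matrix.transpose_apply]
  have hA := sum_jac_Av T B z
  have hJ := sum_jac_Jv B z
  have e : ∀ (a b : Fin (m + 3) → ℝ), ∑ x, (∑ k, jac (act B) z k i * (a k * b x)) *
      jac (act B) z x j = (∑ k, jac (act B) z k i * a k) * ∑ x, jac (act B) z x j * b x := by
    intro a b
    rw [Finset.mul_sum]
    refine Finset.sum_congr rfl fun x _ => ?_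
    rw [Finset.sum_mul, Finset.sum_mul]
    refine Finset.sum_congr rfl fun k _ => ?_
    ring
  have e1 := e (Av T (act B z)) (Jv (act B z))
  have e2 := e (Jv (act B z)) (Av T (act B z))
  have e3 := e (Av T (act B z)) (Av T (act B z))
  rw [hA, hJ] at e1
  rw [hA, hJ] at e2
  rw [hA, hA] at e3
  have key : ∑ x, (∑ k, jac (act B) z k i * gA T (act B z) k x) * jac (act B) z x j =
      ∑ x, (∑ k, jac (act B) z k i * gH (act B z) k x) * jac (act B) z x j
      + ∑ x, (∑ k, jac (act B) z k i * (Av T (act B z) k * Jv (act B z) x)) *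
        jac (act B) z x j
      + ∑ x, (∑ k, jac (act B) z k i * (Jv (act B z) k * Av T (act B z) x)) *
        jac (act B) z x j
      + wsq (act B z) * ∑ x, (∑ k, jac (act B) z k i * (Av T (act B z) k * Av T (act B z) x)) *
        jac (act B) z x j := by
    rw [Finset.mul_sum, ← Finset.sum_add_distrib, ← Finset.sum_add_distrib,
      ← Finset.sum_add_distrib]
    refine Finset.sum_congr rfl fun x _ => ?_
    simp only [Finset.sum_mul, Finset.mul_sum]
    rw [← Finset.sum_add_distrib, ← Finset.sum_add_distrib, ← Finset.sum_add_distrib]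
    refine Finset.sum_congr rfl fun k _ => ?_
    unfold gA
    rw [Matrix.of_apply]
    ring
  rw [key, e1, e2, e3]
  unfold Pc Qc wsq Wf
  ring

/-! ### Bounds at `0` -/

theorem single_bound {ι : Type*} [Fintype ι] (f : ι → ℝ) (i : ι) {C : ℝ} (hC : 0 ≤ C)
    (h : ∑ i, f i ^ 2 ≤ C ^ 2) : |f i| ≤ C := by
  refine abs_le_of_sq_le_sq ?_ hC
  exact (Finset.single_le_sum (f := fun i => f i ^ 2) (fun j _ => sq_nonneg _)
    (Finset.mem_univ i)).trans h

theorem sum_lin_sq {ι : Type*} [Fintype ι] (u v : ι → ℝ) (α β : ℝ) :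
    ∑ i, (α * u i - β * v i) ^ 2 =
      α ^ 2 * (∑ i, u i * u i) - 2 * α * β * (∑ i, u i * v i) + β ^ 2 * ∑ i, v i * v i := by
  rw [Finset.mul_sum, Finset.mul_sum, Finset.mul_sum, ← Finset.sum_sub_distrib,
    ← Finset.sum_add_distrib]
  refine Finset.sum_congr rfl fun i _ => ?_
  ring

theorem wedge_bound {ι : Type*} [Fintype ι] (u v : ι → ℝ) (k i : ι) :
    (u k * v i - v k * u i) ^ 2 ≤
      2 * ((∑ i, u i * u i) * (∑ i, v i * v i) - (∑ i, u i * v i) ^ 2) := by
  have h1 : (u k * v i - v k * u i) ^ 2 ≤ ∑ b, (u k * v b - v k * u b) ^ 2 :=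
    Finset.single_le_sum (f := fun b => (u k * v b - v k * u b) ^ 2) (fun j _ => sq_nonneg _)
      (Finset.mem_univ i)
  have h2 : ∑ b, (u k * v b - v k * u b) ^ 2 ≤ ∑ a, ∑ b, (u a * v b - v a * u b) ^ 2 :=
    Finset.single_le_sum (f := fun a => ∑ b, (u a * v b - v a * u b) ^ 2)
      (fun j _ => Finset.sum_nonneg fun _ _ => sq_nonneg _) (Finset.mem_univ k)
  have h3 : ∑ a, ∑ b, (u a * v b - v a * u b) ^ 2 =
      2 * ((∑ i, u i * u i) * (∑ i, v i * v i) - (∑ i, u i * v i) ^ 2) := by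
    have h4 : ∀ a, ∑ b, (u a * v b - v a * u b) ^ 2 =
        (∑ b, v b * v b) * (u a * u a) - 2 * (∑ b, u b * v b) * (u a * v a)
          + (∑ b, u b * u b) * (v a * v a) := by
      intro a
      have h5 := sum_lin_sq v u (u a) (v a)
      have h6 : ∑ b, v b * u b = ∑ b, u b * v b :=
        Finset.sum_congr rfl fun b _ => mul_comm _ _
      rw [h5, h6]
      ring
    simp only [h4]
    rw [Finset.sum_add_distrib, Finset.sum_sub_distrib, ← Finset.mul_sum, ← Finset.mul_sum,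
      ← Finset.mul_sum]
    ring
  linarith

variable {B}

theorem row_sum (hB : IsLor B) (a b : Fin (m + 3)) :
    ∑ k : Fin (m + 3), B a.succ k.succ * B b.succ k.succ =
      (if a = b then 1 else 0) + B a.succ 0 * B b.succ 0 := by
  have h := hB.row a.succ b.succ
  rw [Pool.Agent.Lib.MPdbccd7.lf_eq] at h
  have h2 : eta (m + 3) a.succ b.succ = if a = b then 1 else 0 := by
    unfold eta
    by_cases hab : a = b
    · subst hab
      simp
    · rw [Matrix.diagonal_apply_ne _ (fun h => hab (Fin.succ_injective _ h)), if_neg hab]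
  rw [h2] at h
  linarith

theorem row_sum_zero (hB : IsLor B) (b : Fin (m + 3)) :
    ∑ k : Fin (m + 3), B 0 k.succ * B b.succ k.succ = B 0 0 * B b.succ 0 := by
  have h := hB.row 0 b.succ
  rw [Pool.Agent.Lib.MPdbccd7.lf_eq] at h
  have h2 : eta (m + 3) 0 b.succ = 0 := by
    unfold eta
    rw [Matrix.diagonal_apply_ne _ (Fin.succ_ne_zero b).symm]
  rw [h2] at h
  linarith

theorem row_sum_zero_zero (hB : IsLor B) :
    ∑ k : Fin (m + 3), B 0 k.succ * B 0 k.succ = B 0 0 ^ 2 - 1 := by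
  have h := hB.row 0 0
  rw [Pool.Agent.Lib.MPdbccd7.lf_eq, eta_zero_zero] at h
  linarith [sq (B 0 0)]

theorem val_zero (a : Fin (m + 3)) : act B (0 : E (m + 3)) a = B a.succ 0 := by
  rw [act_eq, el_zero]

theorem val_le (hB : IsLor B) : 1 + B 1 0 ^ 2 + (B (1 : Fin (m + 3)).succ 0 ^ 2 +
    B (2 : Fin (m + 3)).succ 0 ^ 2) ≤ B 0 0 ^ 2 := by
  have h := y0_sq (act B (0 : E (m + 3)))
  rw [act_zero_zero hB] at h
  have h2 : ∑ i, act B (0 : E (m + 3)) i ^ 2 = ∑ i : Fin (m + 3), B i.succ 0 ^ 2 :=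
    Finset.sum_congr rfl fun i _ => by rw [val_zero]
  rw [h2] at h
  have h3 : ∑ i ∈ ({0, 1, 2} : Finset (Fin (m + 3))), B i.succ 0 ^ 2 ≤
      ∑ i : Fin (m + 3), B i.succ 0 ^ 2 :=
    Finset.sum_le_sum_of_subset_of_nonneg (Finset.subset_univ _) fun _ _ _ => sq_nonneg _
  have n01 : (0 : Fin (m + 3)) ≠ 1 := by
    intro h
    have := congrArg Fin.val h
    have h1 : ((1 : Fin (m + 3)) : ℕ) = 1 := rfl
    have h0 : ((0 : Fin (m + 3)) : ℕ) = 0 := rfl
    omega
  have n02 : (0 : Fin (m + 3)) ≠ 2 := by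
    intro h
    have := congrArg Fin.val h
    have h1 : ((2 : Fin (m + 3)) : ℕ) = 2 := rfl
    have h0 : ((0 : Fin (m + 3)) : ℕ) = 0 := rfl
    omega
  rw [Finset.sum_insert (by simp [n01, n02]), Finset.sum_insert (by simp [n12]),
    Finset.sum_singleton] at h3
  have h4 : (0 : Fin (m + 3)).succ = 1 := rfl
  rw [h4] at h3
  linarith

variable (B) in
theorem Wf_fun (a : Fin (m + 3)) : Wf B a = el (B a.succ) := funext fun z => act_eq z B a

theorem tf_fun (hB : IsLor B) : tf B = fun z => el (B 1) z / el (B 0) z := by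
  funext z
  unfold tf tk
  rw [y0_eq hB, act_eq]
  rfl

theorem rho_fun (hB : IsLor B) : (fun z => rk (act B z)) = fun z => Real.log (el (B 0) z) := by
  funext z
  unfold rk
  rw [y0_eq hB]

theorem el_pos (hB : IsLor B) (z : E (m + 3)) : 0 < el (B 0) z := by
  rw [← y0_eq hB]
  exact y0_pos _

theorem pd_tf (hB : IsLor B) (i : Fin (m + 3)) : pd i (tf B) = fun z =>
    (pd i (el (B 1)) z * el (B 0) z - el (B 1) z * pd i (el (B 0)) z) / (el (B 0) z) ^ 2 := by
  funext z
  rw [tf_fun hB, pd_div (da (contDiff_el _) z) (da (contDiff_el _) z) (el_pos hB z).ne']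

theorem pd_tf_zero (hB : IsLor B) (i : Fin (m + 3)) : pd i (tf B) 0 =
    (B 0 0 * B 1 i.succ - B 1 0 * B 0 i.succ) / B 0 0 ^ 2 := by
  rw [pd_tf hB]
  simp only [el_zero, pd_el_zero]
  ring

theorem pd_pd_tf_zero (hB : IsLor B) (k i : Fin (m + 3)) : pd k (pd i (tf B)) 0 =
    - (B 0 k.succ * (B 0 0 * B 1 i.succ - B 1 0 * B 0 i.succ)
      + B 0 i.succ * (B 0 0 * B 1 k.succ - B 1 0 * B 0 k.succ)) / B 0 0 ^ 3 := by
  have h1 : ContDiff ℝ ∞ (fun z : E (m + 3) => pd i (el (B 1)) z * el (B 0) z) :=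
    (contDiff_pd (contDiff_el _) i).mul (contDiff_el _)
  have h2 : ContDiff ℝ ∞ (fun z : E (m + 3) => el (B 1) z * pd i (el (B 0)) z) :=
    (contDiff_el _).mul (contDiff_pd (contDiff_el _) i)
  have h3 : ContDiff ℝ ∞ (fun z : E (m + 3) => (el (B 0) z) ^ 2) := (contDiff_el _).pow 2
  have h0 : B 0 0 ≠ 0 := hB.2.ne'
  rw [pd_tf hB, pd_div (da (h1.sub h2) 0) (da h3 0) (pow_ne_zero _ (el_pos hB 0).ne'),
    pd_sub (da h1 0) (da h2 0),
    pd_mul (da (contDiff_pd (contDiff_el _) i) 0) (da (contDiff_el _) 0),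
    pd_mul (da (contDiff_el _) 0) (da (contDiff_pd (contDiff_el _) i) 0),
    pd_pow (da (contDiff_el _) 0)]
  simp only [el_zero, pd_el_zero, pd_pd_el_zero]
  field_simp
  ring

theorem pd_rho_zero (hB : IsLor B) (i : Fin (m + 3)) : pd i (fun z => rk (act B z)) 0 =
    B 0 i.succ / B 0 0 := by
  rw [rho_fun hB, pd_log (da (contDiff_el _) 0) (el_pos hB 0).ne', el_zero, pd_el_zero]

theorem pd_pd_rho_zero (hB : IsLor B) (k i : Fin (m + 3)) :
    pd k (pd i (fun z => rk (act B z))) 0 =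
      (if k = i then 1 else 0) - (B 0 k.succ / B 0 0) * (B 0 i.succ / B 0 0) := by
  have h : pd i (fun z => rk (act B z)) = fun z => pd i (el (B 0)) z / el (B 0) z := by
    funext z
    rw [rho_fun hB, pd_log (da (contDiff_el _) z) (el_pos hB z).ne']
  have h0 : B 0 0 ≠ 0 := hB.2.ne'
  rw [h, pd_div (da (contDiff_pd (contDiff_el _) i) 0) (da (contDiff_el _) 0) (el_pos hB 0).ne']
  simp only [el_zero, pd_el_zero, pd_pd_el_zero]
  field_simp

theorem Jf_zero (i : Fin (m + 3)) : Jf B i 0 =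
    B (1 : Fin (m + 3)).succ 0 * B (2 : Fin (m + 3)).succ i.succ
      - B (2 : Fin (m + 3)).succ 0 * B (1 : Fin (m + 3)).succ i.succ := by
  unfold Jf
  rw [Wf_fun, Wf_fun]
  simp only [el_zero, pd_el_zero]

theorem pd_Jf_zero (k i : Fin (m + 3)) : pd k (Jf B i) 0 =
    B (1 : Fin (m + 3)).succ k.succ * B (2 : Fin (m + 3)).succ i.succ
      - B (2 : Fin (m + 3)).succ k.succ * B (1 : Fin (m + 3)).succ i.succ := by
  have h : Jf B i = fun z => el (B (1 : Fin (m + 3)).succ) z *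
      pd i (el (B (2 : Fin (m + 3)).succ)) z - el (B (2 : Fin (m + 3)).succ) z *
      pd i (el (B (1 : Fin (m + 3)).succ)) z := by
    funext z
    unfold Jf
    rw [Wf_fun, Wf_fun]
  have c := fun r : Fin (m + 3 + 1) → ℝ => contDiff_el r
  have c' := fun r : Fin (m + 3 + 1) → ℝ => contDiff_pd (contDiff_el r) i
  rw [h, pd_sub (da ((c _).mul (c' _)) 0) (da ((c _).mul (c' _)) 0),
    pd_mul (da (c _) 0) (da (c' _) 0), pd_mul (da (c _) 0) (da (c' _) 0)]
  simp only [el_zero, pd_el_zero, pd_pd_el_zero]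
  ring

theorem bound_Y (hB : IsLor B) (i : Fin (m + 3)) : |B 0 i.succ| ≤ B 0 0 := by
  have h := row_sum_zero_zero hB
  refine single_bound (fun i : Fin (m + 3) => B 0 i.succ) i hB.2.le ?_
  have h2 : ∑ i : Fin (m + 3), B 0 i.succ ^ 2 = ∑ i : Fin (m + 3), B 0 i.succ * B 0 i.succ :=
    Finset.sum_congr rfl fun _ _ => sq _
  rw [h2, h]
  linarith

theorem bound_N (hB : IsLor B) (i : Fin (m + 3)) :
    |B 0 0 * B 1 i.succ - B 1 0 * B 0 i.succ| ≤ B 0 0 := by
  refine single_bound (fun i : Fin (m + 3) => B 0 0 * B 1 i.succ - B 1 0 * B 0 i.succ) i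
    hB.2.le ?_
  have h := sum_lin_sq (fun i : Fin (m + 3) => B 1 i.succ) (fun i : Fin (m + 3) => B 0 i.succ)
    (B 0 0) (B 1 0)
  rw [h]
  have h1 := row_sum hB 0 0
  have h2 := row_sum_zero hB 0
  have h3 := row_sum_zero_zero hB
  have h4 : (0 : Fin (m + 3)).succ = 1 := rfl
  rw [h4, if_pos rfl] at h1
  rw [h4] at h2
  have h5 : ∑ i : Fin (m + 3), B 1 i.succ * B 0 i.succ = B 0 0 * B 1 0 := by
    rw [← h2]
    exact Finset.sum_congr rfl fun _ _ => mul_comm _ _
  rw [h1, h5, h3]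
  nlinarith [sq_nonneg (B 1 0)]

theorem bound_J (hB : IsLor B) (i : Fin (m + 3)) : |Jf B i 0| ≤ B 0 0 := by
  rw [Jf_zero]
  refine single_bound (fun i : Fin (m + 3) => B (1 : Fin (m + 3)).succ 0 *
    B (2 : Fin (m + 3)).succ i.succ - B (2 : Fin (m + 3)).succ 0 *
    B (1 : Fin (m + 3)).succ i.succ) i hB.2.le ?_
  have h := sum_lin_sq (fun i : Fin (m + 3) => B (2 : Fin (m + 3)).succ i.succ)
    (fun i : Fin (m + 3) => B (1 : Fin (m + 3)).succ i.succ)
    (B (1 : Fin (m + 3)).succ 0) (B (2 : Fin (m + 3)).succ 0)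
  rw [h, row_sum hB, row_sum hB, row_sum hB, if_pos rfl, if_pos rfl, if_neg n12.symm]
  have h2 := val_le hB
  nlinarith [sq_nonneg (B 1 0)]

theorem bound_dJ (hB : IsLor B) (k i : Fin (m + 3)) : |pd k (Jf B i) 0| ≤ 2 * B 0 0 := by
  rw [pd_Jf_zero]
  have h := wedge_bound (fun i : Fin (m + 3) => B (1 : Fin (m + 3)).succ i.succ)
    (fun i : Fin (m + 3) => B (2 : Fin (m + 3)).succ i.succ) k i
  rw [row_sum hB, row_sum hB, row_sum hB, if_pos rfl, if_pos rfl, if_neg n12] at h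
  have h2 := val_le hB
  have h3 := hB.2
  refine abs_le_of_sq_le_sq ?_ (by linarith)
  refine h.trans ?_
  nlinarith [sq_nonneg (B 1 0)]

theorem one_le (hB : IsLor B) : 1 ≤ B 0 0 := by
  rw [← act_zero_zero hB]
  exact y0_ge_one _

theorem bound_t (hB : IsLor B) (i : Fin (m + 3)) : |pd i (tf B) 0| ≤ 1 / B 0 0 := by
  rw [pd_tf_zero hB, abs_div, abs_of_pos (pow_pos hB.2 2)]
  have h := bound_N hB i
  have h0 := hB.2
  calc _ ≤ B 0 0 / B 0 0 ^ 2 := by
        apply div_le_div_of_nonneg_right h (pow_pos h0 2).le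
    _ = 1 / B 0 0 := by field_simp

theorem bound_tt (hB : IsLor B) (k i : Fin (m + 3)) : |pd k (pd i (tf B)) 0| ≤ 2 / B 0 0 := by
  rw [pd_pd_tf_zero hB, abs_div, abs_neg, abs_of_pos (pow_pos hB.2 3)]
  have h0 := hB.2
  have h1 : |B 0 k.succ * (B 0 0 * B 1 i.succ - B 1 0 * B 0 i.succ)
      + B 0 i.succ * (B 0 0 * B 1 k.succ - B 1 0 * B 0 k.succ)| ≤
      B 0 0 * B 0 0 + B 0 0 * B 0 0 := by
    refine (abs_add_le _ _).trans ?_
    rw [abs_mul, abs_mul]
    exact add_le_add (mul_le_mul (bound_Y hB k) (bound_N hB i) (abs_nonneg _) h0.le)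
      (mul_le_mul (bound_Y hB i) (bound_N hB k) (abs_nonneg _) h0.le)
  calc _ ≤ (B 0 0 * B 0 0 + B 0 0 * B 0 0) / B 0 0 ^ 3 := by
        apply div_le_div_of_nonneg_right h1 (pow_pos h0 3).le
    _ = 2 / B 0 0 := by
        field_simp
        ring

theorem bound_rho (hB : IsLor B) (i : Fin (m + 3)) : |pd i (fun z => rk (act B z)) 0| ≤ 1 := by
  rw [pd_rho_zero hB, abs_div, abs_of_pos hB.2, div_le_one hB.2]
  exact bound_Y hB i

theorem bound_rho2 (hB : IsLor B) (k i : Fin (m + 3)) :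
    |pd k (pd i (fun z => rk (act B z))) 0| ≤ 2 := by
  rw [pd_pd_rho_zero hB]
  have h1 := bound_rho hB k
  have h2 := bound_rho hB i
  rw [pd_rho_zero hB] at h1 h2
  refine (abs_sub _ _).trans ?_
  rw [abs_mul]
  have h3 : |(if k = i then (1 : ℝ) else 0)| ≤ 1 := by
    split_ifs <;> simp
  have h4 : |B 0 k.succ / B 0 0| * |B 0 i.succ / B 0 0| ≤ 1 * 1 :=
    mul_le_mul h1 h2 (abs_nonneg _) zero_le_one
  linarith

theorem mul_le' {a b c d : ℝ} (h1 : |a| ≤ c) (h2 : |b| ≤ d) : |a * b| ≤ c * d := by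
  rw [abs_mul]
  exact mul_le_mul h1 h2 (abs_nonneg _) ((abs_nonneg _).trans h1)

theorem bound_tJ (hB : IsLor B) (i j : Fin (m + 3)) : |pd i (tf B) 0 * Jf B j 0| ≤ 1 := by
  have h := mul_le' (bound_t hB i) (bound_J hB j)
  have h0 := hB.2.ne'
  have e : 1 / B 0 0 * B 0 0 = 1 := by field_simp
  rwa [e] at h

theorem bound_ttJ (hB : IsLor B) (k i j : Fin (m + 3)) :
    |pd k (pd i (tf B)) 0 * Jf B j 0| ≤ 2 := by
  have h := mul_le' (bound_tt hB k i) (bound_J hB j)
  have h0 := hB.2.ne'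
  have e : 2 / B 0 0 * B 0 0 = 2 := by field_simp
  rwa [e] at h

theorem bound_tdJ (hB : IsLor B) (k i j : Fin (m + 3)) :
    |pd i (tf B) 0 * pd k (Jf B j) 0| ≤ 2 := by
  have h := mul_le' (bound_t hB i) (bound_dJ hB k j)
  have h0 := hB.2.ne'
  have e : 1 / B 0 0 * (2 * B 0 0) = 2 := by field_simp
  rwa [e] at h

theorem bound_P (hB : IsLor B) {s : ℝ} (hs : |Sf T B 0| ≤ s) (i j : Fin (m + 3)) :
    |Pc T B i j 0| ≤ 2 * s := by
  have h1 : |pd i (tf B) 0 * Jf B j 0 + Jf B i 0 * pd j (tf B) 0| ≤ 2 := by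
    refine (abs_add_le _ _).trans ?_
    have h2 := bound_tJ hB i j
    have h3 := bound_tJ hB j i
    rw [mul_comm] at h3
    linarith
  have h := mul_le' hs h1
  unfold Pc
  linarith

theorem bound_dP (hB : IsLor B) (hτ : ContDiff ℝ ∞ T.tau) {s s' : ℝ} (hs : |Sf T B 0| ≤ s)
    (hs' : |deriv (deriv T.tau) (tf B 0)| ≤ s') (k i j : Fin (m + 3)) :
    |pd k (Pc T B i j) 0| ≤ 2 * s' + 8 * s := by
  have cS := contDiff_Sf T B hτ
  have ct := fun i => contDiff_pd (contDiff_tf B) i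
  have cJ := contDiff_Jf B
  have h : pd k (Pc T B i j) 0 = pd k (Sf T B) 0 *
      (pd i (tf B) 0 * Jf B j 0 + Jf B i 0 * pd j (tf B) 0) + Sf T B 0 *
      (pd k (pd i (tf B)) 0 * Jf B j 0 + pd i (tf B) 0 * pd k (Jf B j) 0 +
        (pd k (Jf B i) 0 * pd j (tf B) 0 + Jf B i 0 * pd k (pd j (tf B)) 0)) := by
    have c1 : ContDiff ℝ ∞ fun z => pd i (tf B) z * Jf B j z := (ct i).mul (cJ j)
    have c2 : ContDiff ℝ ∞ fun z => Jf B i z * pd j (tf B) z := (cJ i).mul (ct j)
    have c3 : ContDiff ℝ ∞ fun z => pd i (tf B) z * Jf B j z + Jf B i z * pd j (tf B) z :=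
      c1.add c2
    unfold Pc
    rw [pd_mul (da cS 0) (da c3 0), pd_add (da c1 0) (da c2 0), pd_mul (da (ct i) 0) (da (cJ j) 0),
      pd_mul (da (cJ i) 0) (da (ct j) 0)]
  have hS : |pd k (Sf T B) 0| ≤ s' * (1 / B 0 0) := by
    have e : pd k (Sf T B) 0 = deriv (deriv T.tau) (tf B 0) * pd k (tf B) 0 := by
      unfold Sf
      exact pd_comp ((contDiff_dtau T hτ).differentiable (by simp) _) (da (contDiff_tf B) 0) k
    rw [e]
    exact mul_le' hs' (bound_t hB k)
  have h0 := one_le hB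
  have hs0 : 0 ≤ s' := (abs_nonneg _).trans hs'
  have hS' : |pd k (Sf T B) 0| ≤ s' := by
    refine hS.trans ?_
    have : 1 / B 0 0 ≤ 1 := by
      rw [div_le_one hB.2]
      exact h0
    nlinarith
  have h1 : |pd i (tf B) 0 * Jf B j 0 + Jf B i 0 * pd j (tf B) 0| ≤ 2 := by
    refine (abs_add_le _ _).trans ?_
    have h2 := bound_tJ hB i j
    have h3 := bound_tJ hB j i
    rw [mul_comm] at h3
    linarith
  have h2 : |pd k (pd i (tf B)) 0 * Jf B j 0 + pd i (tf B) 0 * pd k (Jf B j) 0 +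
        (pd k (Jf B i) 0 * pd j (tf B) 0 + Jf B i 0 * pd k (pd j (tf B)) 0)| ≤ 8 := by
    have a1 := bound_ttJ hB k i j
    have a2 := bound_tdJ hB k i j
    have a3 := bound_tdJ hB k j i
    have a4 := bound_ttJ hB k j i
    rw [mul_comm] at a3 a4
    have b1 := abs_add_le (pd k (pd i (tf B)) 0 * Jf B j 0) (pd i (tf B) 0 * pd k (Jf B j) 0)
    have b2 := abs_add_le (pd k (Jf B i) 0 * pd j (tf B) 0) (Jf B i 0 * pd k (pd j (tf B)) 0)
    have b3 := abs_add_le (pd k (pd i (tf B)) 0 * Jf B j 0 + pd i (tf B) 0 * pd k (Jf B j) 0)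
      (pd k (Jf B i) 0 * pd j (tf B) 0 + Jf B i 0 * pd k (pd j (tf B)) 0)
    linarith
  rw [h]
  refine (abs_add_le _ _).trans ?_
  have c1 := mul_le' hS' h1
  have c2 := mul_le' hs h2
  linarith

theorem bound_Q (hB : IsLor B) {s : ℝ} (hs : |Sf T B 0| ≤ s) (i j : Fin (m + 3)) :
    |Qc T B i j 0| ≤ s * s := by
  have h0 := hB.2
  have h1 := mul_le' (bound_t hB i) (bound_t hB j)
  have h2 := mul_le' hs hs
  have h3 : |Wf B 1 0 * Wf B 1 0 + Wf B 2 0 * Wf B 2 0| ≤ B 0 0 ^ 2 := by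
    have h4 := val_le hB
    have h5 : 0 ≤ B (1 : Fin (m + 3)).succ 0 * B (1 : Fin (m + 3)).succ 0 +
        B (2 : Fin (m + 3)).succ 0 * B (2 : Fin (m + 3)).succ 0 :=
      add_nonneg (mul_self_nonneg _) (mul_self_nonneg _)
    rw [Wf_fun, Wf_fun, el_zero, el_zero, abs_of_nonneg h5]
    nlinarith [sq_nonneg (B 1 0)]
  have h5 := mul_le' (mul_le' h3 h2) h1
  have e : B 0 0 ^ 2 * (s * s) * (1 / B 0 0 * (1 / B 0 0)) = s * s := by
    field_simp
  rw [e] at h5
  exact h5

theorem bound_L (hB : IsLor B) (hl : ContDiff ℝ ∞ T.lam) {κ : ℝ}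
    (h1 : ∀ r, |deriv T.lam r| ≤ κ) (k : Fin (m + 3)) : |pd k (Lf T B) 0| ≤ κ := by
  have cr : ContDiff ℝ ∞ fun z => rk (act B z) := contDiff_rk'.comp (contDiff_act B)
  have e : pd k (Lf T B) 0 = deriv T.lam (rk (act B 0)) * pd k (fun z => rk (act B z)) 0 := by
    unfold Lf
    exact pd_comp (f := fun z => rk (act B z)) (hl.differentiable (by simp) _) (da cr 0) k
  rw [e]
  have h := mul_le' (h1 (rk (act B (0 : E (m + 3))))) (bound_rho hB k)
  linarith

theorem bound_L2 (hB : IsLor B) (hl : ContDiff ℝ ∞ T.lam) {κ : ℝ}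
    (h1 : ∀ r, |deriv T.lam r| ≤ κ) (h2 : ∀ r, |deriv (deriv T.lam) r| ≤ κ)
    (k l : Fin (m + 3)) : |pd k (pd l (Lf T B)) 0| ≤ 3 * κ := by
  have cr : ContDiff ℝ ∞ fun z => rk (act B z) := contDiff_rk'.comp (contDiff_act B)
  have e := pd_pd_comp (f := fun z => rk (act B z)) hl cr k l 0
  have e2 : Lf T B = fun z => T.lam (rk (act B z)) := rfl
  rw [e2, e]
  refine (abs_add_le _ _).trans ?_
  have a1 := mul_le' (mul_le' (h2 (rk (act B (0 : E (m + 3))))) (bound_rho hB k)) (bound_rho hB l)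
  have a2 := mul_le' (h1 (rk (act B (0 : E (m + 3))))) (bound_rho2 hB k l)
  linarith

end boost

end PullM

open PullM in
/-- PULL. -/
theorem specPull : SpecPull := by
  intro m C
  refine ⟨1 + 26 * |C| + 2 * C ^ 2, by nlinarith [abs_nonneg C, sq_nonneg C], ?_⟩
  intro T ε κ hτ hl hε hε1 hκ hκ1 h1 h2 h3 h4 B hB h0 G hG
  have hC : 0 ≤ C := by
    have h := (abs_nonneg _).trans (h1 0)
    have := mul_nonneg h hε.le
    rwa [div_mul_cancel₀ _ hε.ne'] at this
  have hε2 : 0 < ε ^ 2 := pow_pos hε 2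
  set c := κ / ε ^ 2 with hc
  have hc0 : 0 ≤ c := (div_pos hκ hε2).le
  have hκe : κ * (C / ε) ≤ C * c := by
    rw [hc, mul_div_assoc', mul_div_assoc', div_le_div_iff₀ hε hε2]
    have : ε ^ 2 ≤ ε := by nlinarith
    nlinarith [mul_nonneg hκ.le hC, mul_nonneg (mul_nonneg hκ.le hC) (sub_nonneg.2 this)]
  have hκe2 : κ * (C / ε ^ 2) = C * c := by
    rw [hc]
    ring
  have hκe3 : κ * κ * ((C / ε) * (C / ε)) ≤ C ^ 2 * c := by
    have e : κ * κ * ((C / ε) * (C / ε)) = κ * (C ^ 2 * c) := by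
      rw [hc]
      field_simp
    rw [e]
    have : 0 ≤ C ^ 2 * c := mul_nonneg (sq_nonneg _) hc0
    nlinarith
  have hL0 : Lf T B (0 : E (m + 3)) = 0 := h0
  have cL := contDiff_Lf T B hl
  have hs : |Sf T B (0 : E (m + 3))| ≤ C / ε := h1 _
  have hs' : |deriv (deriv T.tau) (tf B (0 : E (m + 3)))| ≤ C / ε ^ 2 := h2 _
  have hGe : ∀ z i j, G z i j =
      gH z i j + (Lf T B z * Pc T B i j z + Lf T B z * Lf T B z * Qc T B i j z) := by
    intro z i j
    rw [hG]
    exact G_eq T B hB z i j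
  have hCabs : |C| = C := abs_of_nonneg hC
  have hd : ∀ i j, ContDiff ℝ ∞ fun z =>
      Lf T B z * Pc T B i j z + Lf T B z * Lf T B z * Qc T B i j z := fun i j =>
    (cL.mul (contDiff_Pc T B hτ i j)).add ((cL.mul cL).mul (contDiff_Qc T B hτ i j))
  refine ⟨?_, ?_, ?_⟩
  · ext i j
    rw [hGe, hL0, gH_zero]
    ring
  · intro i j k
    have e : (fun z => G z i j) = fun z => gH z i j +
        (Lf T B z * Pc T B i j z + Lf T B z * Lf T B z * Qc T B i j z) :=
      funext fun z => hGe z i j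
    rw [e, pd_add (da (contDiff_gH' i j) 0) (da (hd i j) 0), (jet_gH i j k k).1, zero_add,
      (jet_LPQ cL (contDiff_Pc T B hτ i j) (contDiff_Qc T B hτ i j) 0 hL0 k k).1]
    have h := mul_le' (bound_L T hB hl h3 k) (bound_P T hB hs i j)
    rw [hCabs]
    nlinarith [mul_nonneg hC hc0, mul_nonneg (sq_nonneg C) hc0]
  · intro i j k l
    have e : (fun z => G z i j) = fun z => gH z i j +
        (Lf T B z * Pc T B i j z + Lf T B z * Lf T B z * Qc T B i j z) :=
      funext fun z => hGe z i j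
    have hP0 := bound_P T hB hs i j
    have hQ0 := bound_Q T hB hs i j
    have hPk := bound_dP T hB hτ hs hs' k i j
    have hPl := bound_dP T hB hτ hs hs' l i j
    have hLk := bound_L T hB hl h3 k
    have hLl := bound_L T hB hl h3 l
    have hLkl := bound_L2 T hB hl h3 h4 k l
    rw [e, pd_pd_add (contDiff_gH' i j) (hd i j), (jet_gH i j k l).2,
      (jet_LPQ cL (contDiff_Pc T B hτ i j) (contDiff_Qc T B hτ i j) 0 hL0 k l).2]
    have e2 : ∀ a b x : ℝ, -a - b + x + a + b = x := fun a b x => by ring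
    rw [e2]
    have a1 := mul_le' hLkl hP0
    have a2 := mul_le' hLl hPk
    have a3 := mul_le' hLk hPl
    have a4 := mul_le' (mul_le' hLk hLl) hQ0
    have b1 := abs_add_le (pd k (pd l (Lf T B)) 0 * Pc T B i j 0 + pd l (Lf T B) 0 *
      pd k (Pc T B i j) 0 + pd k (Lf T B) 0 * pd l (Pc T B i j) 0)
      (2 * pd k (Lf T B) 0 * pd l (Lf T B) 0 * Qc T B i j 0)
    have b2 := abs_add_le (pd k (pd l (Lf T B)) 0 * Pc T B i j 0 + pd l (Lf T B) 0 *
      pd k (Pc T B i j) 0) (pd k (Lf T B) 0 * pd l (Pc T B i j) 0)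
    have b3 := abs_add_le (pd k (pd l (Lf T B)) 0 * Pc T B i j 0) (pd l (Lf T B) 0 *
      pd k (Pc T B i j) 0)
    have b4 : |2 * pd k (Lf T B) 0 * pd l (Lf T B) 0 * Qc T B i j 0| =
        2 * |pd k (Lf T B) 0 * pd l (Lf T B) 0 * Qc T B i j 0| := by
      have : 2 * pd k (Lf T B) 0 * pd l (Lf T B) 0 * Qc T B i j 0 =
        2 * (pd k (Lf T B) 0 * pd l (Lf T B) 0 * Qc T B i j 0) := by ring
      rw [this, abs_mul]
      norm_num
    rw [b4] at b1
    rw [hCabs]
    have c1 : 3 * κ * (2 * (C / ε)) = 6 * (κ * (C / ε)) := by ring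
    have c2 : κ * (2 * (C / ε ^ 2) + 8 * (C / ε)) = 2 * (κ * (C / ε ^ 2)) + 8 * (κ * (C / ε)) := by
      ring
    rw [c1] at a1
    rw [c2] at a2 a3
    rw [hκe2] at a2 a3
    have d1 : (1 + 26 * C + 2 * C ^ 2) * c = c + 26 * (C * c) + 2 * (C ^ 2 * c) := by ring
    rw [d1]
    linarith

end Pool.Agent.Lib.MPdbccd7
end

section
/-!
# LOR: linear algebra of pairs of points of the hyperboloid
-/
open scoped Matrix

namespace Pool.Agent.Lib.MPdbccd7

namespace LorM

section abs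

variable {V : Type*} [AddCommGroup V] [Module ℝ V]

/-- LOR in an abstract Lorentz space. -/
theorem lor (B : V →ₗ[ℝ] V →ₗ[ℝ] ℝ) (hs : ∀ a b, B a b = B b a) (x y X Y : V) (q : ℝ)
    (hx : B x x = -1) (hy : B y y = -1) (hxy : B x y = -q) (hq : 1 < q)
    (hpos : ∀ z, B x z = 0 → 0 ≤ B z z) (hX : B x X = 0) (hY : B y Y = 0) :
    q * (q - 1) * ((B X X - B X y ^ 2 / (q ^ 2 - 1)) + (B Y Y - B x Y ^ 2 / (q ^ 2 - 1)))
      ≤ q ^ 2 * (B X X + B Y Y) - 2 * q * B X Y - (B X y + B x Y) ^ 2 := by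
  have hq1 : 0 < q ^ 2 - 1 := by nlinarith
  obtain ⟨a, ha⟩ : ∃ a, B X y = a * (q ^ 2 - 1) := ⟨B X y / (q ^ 2 - 1), by field_simp⟩
  obtain ⟨b, hb⟩ : ∃ b, B x Y = b * (q ^ 2 - 1) := ⟨B x Y / (q ^ 2 - 1), by field_simp⟩
  have hz := hpos (X - a • (y - q • x) - (Y - b • (x - q • y))) (by
    simp only [map_sub, map_smul, smul_eq_mul, hx, hxy, hX, hb]
    ring)
  have e1 : B y X = a * (q ^ 2 - 1) := by rw [hs]; exact ha
  have e2 : B Y x = b * (q ^ 2 - 1) := by rw [hs]; exact hb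
  have e3 : B X x = 0 := by rw [hs]; exact hX
  have e4 : B Y y = 0 := by rw [hs]; exact hY
  have e5 : B y x = -q := by rw [hs]; exact hxy
  have e6 : B Y X = B X Y := hs _ _
  simp only [map_sub, map_smul, smul_eq_mul, LinearMap.sub_apply, LinearMap.smul_apply,
    hx, hy, hxy, e1, e2, e3, e4, e5, e6, hX, hY, ha, hb] at hz
  rw [ha, hb]
  have e7 : (a * (q ^ 2 - 1)) ^ 2 / (q ^ 2 - 1) = a ^ 2 * (q ^ 2 - 1) := by field_simp
  have e8 : (b * (q ^ 2 - 1)) ^ 2 / (q ^ 2 - 1) = b ^ 2 * (q ^ 2 - 1) := by field_simp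
  rw [e7, e8]
  have hq0 : 0 < q := by linarith
  have h1 := mul_nonneg hq0.le hz
  have h2 : 0 ≤ (q ^ 2 - 1) * (a + b) ^ 2 := by positivity
  nlinarith [h1, h2]

/-- Cauchy-Schwarz in the orthogonal complement of a time-like vector. -/
theorem cs (B : V →ₗ[ℝ] V →ₗ[ℝ] ℝ) (hs : ∀ a b, B a b = B b a) (x a b : V)
    (hpos : ∀ z, B x z = 0 → 0 ≤ B z z) (ha : B x a = 0) (hb : B x b = 0) :
    B a b ^ 2 ≤ B a a * B b b := by
  have h : ∀ t : ℝ, 0 ≤ B a a + 2 * t * B a b + t ^ 2 * B b b := by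
    intro t
    have := hpos (a + t • b) (by simp [ha, hb])
    simp only [map_add, map_smul, smul_eq_mul, LinearMap.add_apply, LinearMap.smul_apply] at this
    rw [hs b a] at this
    nlinarith [this]
  rcases (hpos b hb).eq_or_lt with h0 | h0
  · -- `B b b = 0`
    by_cases hab : B a b = 0
    · rw [hab, ← h0]; simp
    · exfalso
      have := h (-(B a a + 1) / (2 * B a b))
      rw [← h0] at this
      have h2 : 2 * (-(B a a + 1) / (2 * B a b)) * B a b = -(B a a + 1) := by field_simp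
      rw [h2] at this
      linarith
  · have := h (-(B a b) / B b b)
    have e : B a a + 2 * (-(B a b) / B b b) * B a b + (-(B a b) / B b b) ^ 2 * B b b
        = (B a a * B b b - B a b ^ 2) / B b b := by field_simp; ring
    rw [e] at this
    have := (div_nonneg_iff.mp this)
    rcases this with h3 | h3
    · linarith [h3.1]
    · linarith [h3.2]

end abs

variable {n : ℕ}

/-- the Lorentz form as a bilinear form -/
noncomputable def LB (n : ℕ) : (Fin (n + 1) → ℝ) →ₗ[ℝ] (Fin (n + 1) → ℝ) →ₗ[ℝ] ℝ :=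
  Matrix.toLinearMap₂' ℝ (eta n)

theorem LB_apply (a b : Fin (n + 1) → ℝ) :
    LB n a b = - (a 0 * b 0) + ∑ i : Fin n, a i.succ * b i.succ := by
  rw [LB, Matrix.toLinearMap₂'_apply', ← lf_eq]
  rfl

theorem LB_comm (a b : Fin (n + 1) → ℝ) : LB n a b = LB n b a := by
  rw [LB_apply, LB_apply]
  simp only [mul_comm]

/-- the tangent vector at `p` with spatial part `X` -/
noncomputable def tg (p : E n) (X : Fin n → ℝ) : Fin (n + 1) → ℝ :=
  Fin.cons ((∑ k, p k * X k) / y0 p) X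

theorem tg_self (p : E n) (X : Fin n → ℝ) : LB n (emb p) (tg p X) = 0 := by
  rw [LB_apply]
  simp only [tg, emb_zero', emb_succ, Fin.cons_zero, Fin.cons_succ]
  rw [mul_div_cancel₀ _ (y0_ne p)]
  ring

theorem tg_emb (p r : E n) (X : Fin n → ℝ) :
    LB n (tg p X) (emb r) = (∑ k, X k * r k) - (∑ k, p k * X k) / y0 p * y0 r := by
  rw [LB_apply]
  simp only [tg, emb_zero', emb_succ, Fin.cons_zero, Fin.cons_succ]
  ring

theorem tg_tg (p r : E n) (X Y : Fin n → ℝ) :
    LB n (tg p X) (tg r Y)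
      = (∑ k, X k * Y k) - (∑ k, p k * X k) * (∑ k, r k * Y k) / (y0 p * y0 r) := by
  rw [LB_apply]
  simp only [tg, Fin.cons_zero, Fin.cons_succ]
  have := y0_ne p
  have := y0_ne r
  field_simp
  ring

theorem tg_sq (p : E n) (X : Fin n → ℝ) :
    LB n (tg p X) (tg p X) = (∑ k, X k ^ 2) - (∑ k, p k * X k) ^ 2 / y0 p ^ 2 := by
  rw [tg_tg, ← sq, ← sq]
  simp only [← sq]

theorem emb_emb (p r : E n) : LB n (emb p) (emb r) = - q p r := by
  rw [LB_apply, q_eq_lf, lf_eq]
  ring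

theorem pos (p : E n) (z : Fin (n + 1) → ℝ) (hz : LB n (emb p) z = 0) : 0 ≤ LB n z z := by
  rw [LB_apply] at hz ⊢
  simp only [emb_zero', emb_succ] at hz
  have h1 : y0 p * z 0 = ∑ i : Fin n, p i * z i.succ := by linarith
  have h2 := Finset.sum_mul_sq_le_sq_mul_sq Finset.univ (fun i => p i) (fun i => z (Fin.succ i))
  rw [← h1] at h2
  have h3 := y0_sq p
  have h4 : 0 ≤ ∑ i : Fin n, z i.succ ^ 2 := Finset.sum_nonneg fun i _ => sq_nonneg _
  have h5 : ∑ i : Fin n, z i.succ * z i.succ = ∑ i : Fin n, z i.succ ^ 2 := by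
    simp only [sq]
  rw [h5]
  have h6 : 0 < y0 p ^ 2 := pow_pos (y0_pos p) 2
  by_contra hc
  push Not at hc
  have h7 : ∑ i : Fin n, z i.succ ^ 2 < z 0 ^ 2 := by nlinarith
  have h8 : y0 p ^ 2 * (∑ i : Fin n, z i.succ ^ 2) < y0 p ^ 2 * z 0 ^ 2 :=
    mul_lt_mul_of_pos_left h7 h6
  nlinarith

theorem tg_cs (p r : E n) (Y : Fin n → ℝ) :
    ((∑ k, Y k * p k) - (∑ k, r k * Y k) / y0 r * y0 p) ^ 2
      ≤ ((∑ k, Y k ^ 2) - (∑ k, r k * Y k) ^ 2 / y0 r ^ 2) * (q p r ^ 2 - 1) := by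
  have h := cs (LB n) LB_comm (emb r) (tg r Y) (emb p - q p r • emb r) (pos r) (tg_self r Y) (by
    rw [map_sub, map_smul, emb_emb, emb_emb, q_self, q_comm r p]
    simp)
  have e1 : LB n (tg r Y) (emb p - q p r • emb r)
      = (∑ k, Y k * p k) - (∑ k, r k * Y k) / y0 r * y0 p := by
    rw [map_sub, map_smul, LB_comm _ (emb r), tg_self, tg_emb]
    simp
  have e2 : LB n (emb p - q p r • emb r) (emb p - q p r • emb r) = q p r ^ 2 - 1 := by
    simp only [map_sub, map_smul, LinearMap.sub_apply, LinearMap.smul_apply, smul_eq_mul,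
      emb_emb, q_self, q_comm r p]
    ring
  rw [e1, e2, tg_sq] at h
  exact h

end LorM

open LorM in
theorem specLor : SpecLor := by
  refine ⟨fun n p r X Y hq => ?_, fun n p r X hq => ?_, fun n p r Y => ?_⟩
  · have h := lor (LB n) LB_comm (emb p) (emb r) (tg p X) (tg r Y) (q p r)
      (by rw [emb_emb, q_self]) (by rw [emb_emb, q_self]) (emb_emb p r) hq (pos p)
      (tg_self p X) (tg_self r Y)
    rw [tg_sq, tg_sq, tg_tg, tg_emb, LB_comm (emb p), tg_emb] at h
    exact h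
  · have h := tg_cs r p X
    rw [q_comm r p] at h
    have hq1 : 0 < q p r ^ 2 - 1 := by nlinarith
    rw [sub_nonneg, div_le_iff₀ hq1]
    exact h
  · have h := tg_cs p r Y
    unfold hn
    have hq1 : 0 ≤ q p r ^ 2 - 1 := by nlinarith [q_ge_one p r]
    rw [← Real.sqrt_mul hq1]
    apply Real.abs_le_sqrt
    exact h.trans_eq (mul_comm _ _)

end Pool.Agent.Lib.MPdbccd7
end

section
/-!
# TVV: the tension vector of `v = α y`
-/
open scoped Manifold ContDiff Matrix

namespace Pool.Agent.Lib.MPdbccd7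

namespace TvvM

open EnvM

variable {m : ℕ}

theorem metAt (hM : SpecMat) {T : Tw} (h1 : ContDiff ℝ ∞ T.tau) (h2 : ContDiff ℝ ∞ T.lam)
    (y : E (m + 3)) : MetAt (gA T) y where
  smooth i j := ((hM m T h1 h2 y).2.2.1 i j).contDiffAt
  posDef := Filter.Eventually.of_forall fun z => (hM m T h1 h2 z).2.2.2

theorem gam_coord (hM : SpecMat) {T : Tw} (h1 : ContDiff ℝ ∞ T.tau) (h2 : ContDiff ℝ ∞ T.lam)
    (y : E (m + 3)) (f : E (m + 3) → ℝ) (hf : Jd f y = 0) (k : Fin (m + 3)) :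
    gam (gA T) f (fun z => z k) y = pd k f y + y k * Dd f y - bb T y * Jv y k * pd 0 f y := by
  have hJ : ∑ i, Jv y i * pd i f y = 0 := hf
  unfold gam
  rw [form hM h1 h2 y, hJ]
  simp only [pd_coord, mul_ite, mul_one, mul_zero, zero_mul, ite_self, Finset.sum_ite_eq',
    Finset.mem_univ, if_true]
  unfold Dd
  ring

end TvvM

open EnvM TvvM in
theorem specTvv (hC : SpecCal) (hM : SpecMat) (hL : SpecLapa) (hA : SpecAlpha) (hE : SpecEnv) :
    SpecTvv := by
  intro m C T ε κ r1 r2 hT y k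
  obtain ⟨C1, _, hA⟩ := hA m C
  obtain ⟨hsm, hA⟩ := hA T ε κ r1 r2 hT
  obtain ⟨hJ, _⟩ := hA y
  obtain ⟨_, hen⟩ := hE m C T ε κ r1 r2 hT y
  obtain ⟨_, _, _, hcal, _⟩ := hC (m + 3) (gA T) y (metAt hM hT.tsm hT.lsm y)
  obtain ⟨_, _, hmul⟩ := hcal (al T) (fun z => z k) hsm.contDiffAt (contDiff_coord k).contDiffAt
  obtain ⟨_, hl2, hl3⟩ := hL m T hT.tsm hT.lsm y
  obtain ⟨hl2, _⟩ := hl2 (al T) hsm.contDiffAt (Filter.Eventually.of_forall fun z => (hA z).1)
  have e : (fun z : E (m + 3) => vA T z k) = fun z => al T z * z k := rfl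
  have e2 : vA T y k = al T y * y k := rfl
  unfold tv
  rw [hen, e, hmul, hl2, hl3, gam_coord hM hT.tsm hT.lsm y _ hJ, e2]
  ring

end Pool.Agent.Lib.MPdbccd7
end
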