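import Pool.Agent.Lib.MP_dbccd7_gt.B.Nat
import Pool.Agent.Lib.MP_dbccd7_gt.B.Tvv
import Pool.Agent.Lib.MP_dbccd7_gt.Calc0

/-!
# JET: the curvature of a metric whose 2-jet at `0` is close to the hyperbolic one
-/

open scoped Manifold ContDiff Matrix Topology

namespace Pool.Agent.Lib.MPdbccd7

namespace JetM

open NatM

variable {n : ℕ}

/-- The second derivatives of the metric at `0`. -/
noncomputable def D2 (g : MF n) (a b i j : Fin n) : ℝ := pd a (pd b (fun z => g z i j)) 0

theorem symm_ev {g : MF n} (hg : MetAt g 0) (i j : Fin n) :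
    (fun z => g z i j) =ᶠ[𝓝 0] fun z => g z j i := by
  filter_upwards [hg.posDef] with z hz
  have h := hz.isHermitian
  have h2 := congrFun (congrFun h j) i
  rw [Matrix.conjTranspose_apply] at h2
  exact h2

theorem chr_zero {g : MF n} (h1 : g 0 = 1) (k i j : Fin n) : chr g k i j 0 = chl g k i j 0 := by
  rw [chr_eq, h1, inv_one, Finset.sum_eq_single k]
  · rw [Matrix.one_apply_eq, one_mul]
  · intro b _ hb
    rw [Matrix.one_apply_ne hb.symm, zero_mul]
  · intro h
    exact absurd (Finset.mem_univ k) h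

theorem da' {f : E n → ℝ} {y : E n} (hf : ContDiffAt ℝ ∞ f y) : DifferentiableAt ℝ f y :=
  hf.differentiableAt (by simp)

theorem pd_chr_zero {g : MF n} (hg : MetAt g 0) (h1 : g 0 = 1) (a m j k : Fin n) :
    pd a (chr g m j k) 0 = pd a (chl g m j k) 0
      - ∑ p, pd a (fun z => g z m p) 0 * chl g p j k 0 := by
  have hdet : ∀ᶠ z in 𝓝 (0 : E n), (g z).det ≠ 0 := by
    filter_upwards [hg.posDef] with z hz
    exact hz.det_pos.ne'
  have e : (fun z => ∑ p, g z m p * chr g p j k z) =ᶠ[𝓝 0] chl g m j k := by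
    filter_upwards [hdet] with z hz
    exact congrFun (mulVec_chv hz j k) m
  have hc : ∀ p, DifferentiableAt ℝ (chr g p j k) 0 := fun p =>
    da' (contDiffAt_chr hg.smooth (by rw [h1]; simp) p j k)
  have hm : ∀ p, DifferentiableAt ℝ (fun z => g z m p) 0 := fun p => da' (hg.smooth m p)
  have h2 := e.pd_eq a
  have hmc : ∀ p ∈ (Finset.univ : Finset (Fin n)),
      DifferentiableAt ℝ (fun z => g z m p * chr g p j k z) 0 := fun p _ => (hm p).mul (hc p)
  rw [pd_sum hmc] at h2
  have h3 : ∀ p, pd a (fun z => g z m p * chr g p j k z) 0 =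
      pd a (fun z => g z m p) 0 * chl g p j k 0 + (1 : Matrix (Fin n) (Fin n) ℝ) m p *
        pd a (chr g p j k) 0 := by
    intro p
    rw [pd_mul (hm p) (hc p), chr_zero h1, h1]
  rw [Finset.sum_congr rfl fun p _ => h3 p, Finset.sum_add_distrib] at h2
  have h4 : ∑ p, (1 : Matrix (Fin n) (Fin n) ℝ) m p * pd a (chr g p j k) 0 =
      pd a (chr g m j k) 0 := by
    rw [Finset.sum_eq_single m]
    · rw [Matrix.one_apply_eq, one_mul]
    · intro b _ hb
      rw [Matrix.one_apply_ne hb.symm, zero_mul]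
    · intro h
      exact absurd (Finset.mem_univ m) h
  rw [h4] at h2
  linarith

theorem pd_chl_zero {g : MF n} (hg : MetAt g 0) (a l j k : Fin n) :
    pd a (chl g l j k) 0 = (1 / 2) * (D2 g a j k l + D2 g a k j l - D2 g a l j k) := by
  have hd : ∀ b i j, DifferentiableAt ℝ (pd b fun z => g z i j) 0 := fun b i j =>
    differentiableAt_pd (hg.smooth i j) b
  have h1 : DifferentiableAt ℝ (fun y => pd j (fun z => g z k l) y + pd k (fun z => g z j l) y) 0 :=
    (hd _ _ _).add (hd _ _ _)
  have h2 : DifferentiableAt ℝ (fun y => pd j (fun z => g z k l) y + pd k (fun z => g z j l) y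
      - pd l (fun z => g z j k) y) 0 := h1.sub (hd _ _ _)
  unfold chl D2
  rw [pd_const_mul h2, pd_sub h1 (hd _ _ _), pd_add (hd _ _ _) (hd _ _ _)]

theorem pd_g_zero {g : MF n} (hg : MetAt g 0) (a l p : Fin n) :
    pd a (fun z => g z l p) 0 = chl g l a p 0 + chl g p a l 0 := by
  have h := (symm_ev hg p l).pd_eq a
  unfold chl
  rw [h]
  ring

/-- The formula for the curvature at `0`. -/
noncomputable def F (g : MF n) (l k i j : Fin n) : ℝ :=
  (1 / 2) * (D2 g i k j l - D2 g i l j k - D2 g j k i l + D2 g j l i k)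
    + ∑ p, (chl g p j l 0 * chl g p i k 0 - chl g p i l 0 * chl g p j k 0)

theorem riem_zero {g : MF n} (hg : MetAt g 0) (h1 : g 0 = 1) (l k i j : Fin n) :
    riem g l k i j 0 = F g l k i j := by
  unfold riem F
  rw [pd_chr_zero hg h1, pd_chr_zero hg h1, pd_chl_zero hg, pd_chl_zero hg]
  have hc : D2 g i j k l = D2 g j i k l := by
    unfold D2
    exact pd_pd_comm ((hg.smooth k l).of_le (by norm_cast)) i j
  simp only [chr_zero h1, pd_g_zero hg]
  rw [hc]
  have e1 : ∑ p, (chl g l i p 0 + chl g p i l 0) * chl g p j k 0 =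
      ∑ p, chl g l i p 0 * chl g p j k 0 + ∑ p, chl g p i l 0 * chl g p j k 0 := by
    rw [← Finset.sum_add_distrib]
    exact Finset.sum_congr rfl fun _ _ => by ring
  have e2 : ∑ p, (chl g l j p 0 + chl g p j l 0) * chl g p i k 0 =
      ∑ p, chl g l j p 0 * chl g p i k 0 + ∑ p, chl g p j l 0 * chl g p i k 0 := by
    rw [← Finset.sum_add_distrib]
    exact Finset.sum_congr rfl fun _ _ => by ring
  rw [e1, e2, Finset.sum_sub_distrib, Finset.sum_sub_distrib]
  ring

/-- Kronecker's symbol. -/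
noncomputable def dl (a b : Fin n) : ℝ := if a = b then 1 else 0

theorem dl_comm (a b : Fin n) : dl a b = dl b a := by
  unfold dl
  by_cases h : a = b
  · simp [h]
  · rw [if_neg h, if_neg (Ne.symm h)]

theorem ite_and' (a b i j : Fin n) : (if a = b ∧ i = j then (1 : ℝ) else 0) =
    dl a b * dl i j := by
  unfold dl
  by_cases h1 : a = b <;> by_cases h2 : i = j <;> simp [h1, h2]

theorem sum_dl (f : Fin n → ℝ) (a : Fin n) : ∑ b, dl a b * f b = f a := by
  unfold dl
  simp

theorem sum_dl' (f : Fin n → ℝ) (a : Fin n) : ∑ b, dl b a * f b = f a := by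
  unfold dl
  simp

/-- The curvature tensor of the hyperbolic metric at `0`. -/
noncomputable def Md (l k i j : Fin n) : ℝ := dl j l * dl i k - dl j k * dl i l

/-- The error. -/
noncomputable def Er (g : MF n) (l k i j : Fin n) : ℝ := F g l k i j - Md l k i j

theorem Er_swap (g : MF n) (l k i j : Fin n) : Er g l k j i = - Er g l k i j := by
  unfold Er F Md
  have : ∑ p, (chl g p i l 0 * chl g p j k 0 - chl g p j l 0 * chl g p i k 0) =
      - ∑ p, (chl g p j l 0 * chl g p i k 0 - chl g p i l 0 * chl g p j k 0) := by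
    rw [← Finset.sum_neg_distrib]
    exact Finset.sum_congr rfl fun _ _ => by ring
  rw [this]
  ring

theorem Er_swap' (g : MF n) (l k i j : Fin n) : Er g k l i j = - Er g l k i j := by
  unfold Er F Md
  have : ∑ p, (chl g p j k 0 * chl g p i l 0 - chl g p i k 0 * chl g p j l 0) =
      - ∑ p, (chl g p j l 0 * chl g p i k 0 - chl g p i l 0 * chl g p j k 0) := by
    rw [← Finset.sum_neg_distrib]
    exact Finset.sum_congr rfl fun _ _ => by ring
  rw [this]
  ring

theorem bound_Er {g : MF n} {c : ℝ} (hc0 : 0 ≤ c) (hc1 : c ≤ 1)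
    (h1 : ∀ i j k, |pd k (fun z => g z i j) 0| ≤ c)
    (h2 : ∀ i j k l, |pd k (pd l (fun z => g z i j)) 0 + (if i = k ∧ j = l then 1 else 0)
      + (if i = l ∧ j = k then 1 else 0)| ≤ c) (l k i j : Fin n) :
    |Er g l k i j| ≤ (2 + 9 / 2 * n) * c := by
  have hch : ∀ p a b, |chl g p a b 0| ≤ 3 / 2 * c := by
    intro p a b
    unfold chl
    have a1 := abs_le.1 (h1 b p a)
    have a2 := abs_le.1 (h1 a p b)
    have a3 := abs_le.1 (h1 a b p)
    rw [abs_le]
    constructor <;> linarith [a1.1, a1.2, a2.1, a2.2, a3.1, a3.2]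
  have hQ : |∑ p, (chl g p j l 0 * chl g p i k 0 - chl g p i l 0 * chl g p j k 0)| ≤
      9 / 2 * n * c := by
    refine (Finset.abs_sum_le_sum_abs _ _).trans ?_
    have : ∀ p ∈ (Finset.univ : Finset (Fin n)),
        |chl g p j l 0 * chl g p i k 0 - chl g p i l 0 * chl g p j k 0| ≤ 9 / 2 * c := by
      intro p _
      refine (abs_sub _ _).trans ?_
      have b1 := PullM.mul_le' (hch p j l) (hch p i k)
      have b2 := PullM.mul_le' (hch p i l) (hch p j k)
      nlinarith
    refine (Finset.sum_le_sum this).trans ?_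
    rw [Finset.sum_const, Finset.card_univ, Fintype.card_fin, nsmul_eq_mul]
    apply le_of_eq
    ring
  have e1 := abs_le.1 (h2 j l i k)
  have e2 := abs_le.1 (h2 j k i l)
  have e3 := abs_le.1 (h2 i l j k)
  have e4 := abs_le.1 (h2 i k j l)
  rw [ite_and', ite_and', dl_comm j i, dl_comm l k, dl_comm l i] at e1
  rw [ite_and', ite_and', dl_comm j i, dl_comm k i] at e2
  rw [ite_and', ite_and', dl_comm l k, dl_comm l j] at e3
  rw [ite_and', ite_and', dl_comm k j] at e4
  unfold Er F Md D2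
  have a5 := abs_le.1 hQ
  rw [abs_le]
  constructor <;> linarith [e1.1, e1.2, e2.1, e2.2, e3.1, e3.2, e4.1, e4.2, a5.1, a5.2,
    mul_comm (dl i l) (dl j k), mul_comm (dl i k) (dl j l)]

/-- A fourfold sum. -/
noncomputable def S4 (f : Fin n → Fin n → Fin n → Fin n → ℝ) : ℝ :=
  ∑ i, ∑ j, ∑ k, ∑ l, f i j k l

theorem S4_congr {f f' : Fin n → Fin n → Fin n → Fin n → ℝ} (h : ∀ i j k l, f i j k l = f' i j k l) :
    S4 f = S4 f' := by
  unfold S4
  exact Finset.sum_congr rfl fun i _ => Finset.sum_congr rfl fun j _ =>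
    Finset.sum_congr rfl fun k _ => Finset.sum_congr rfl fun l _ => h i j k l

theorem S4_add (f f' : Fin n → Fin n → Fin n → Fin n → ℝ) :
    S4 (fun i j k l => f i j k l + f' i j k l) = S4 f + S4 f' := by
  unfold S4
  simp only [Finset.sum_add_distrib]

theorem S4_swap (f : Fin n → Fin n → Fin n → Fin n → ℝ) :
    S4 f = S4 fun i j k l => f j i k l := by
  unfold S4
  exact Finset.sum_comm

theorem S4_swap' (f : Fin n → Fin n → Fin n → Fin n → ℝ) :
    S4 f = S4 fun i j k l => f i j l k := by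
  unfold S4
  exact Finset.sum_congr rfl fun i _ => Finset.sum_congr rfl fun j _ => Finset.sum_comm

theorem S4_prod (u v : Fin n → Fin n → ℝ) :
    S4 (fun i j k l => u i j * v k l) = (∑ i, ∑ j, u i j) * ∑ k, ∑ l, v k l := by
  unfold S4
  rw [Finset.sum_mul]
  refine Finset.sum_congr rfl fun i _ => ?_
  rw [Finset.sum_mul]
  refine Finset.sum_congr rfl fun j _ => ?_
  rw [Finset.mul_sum]
  refine Finset.sum_congr rfl fun k _ => ?_
  rw [Finset.mul_sum]

/-- The error form. -/
theorem four_S4 (g : MF n) (X Y : Fin n → ℝ) :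
    4 * S4 (fun i j k l => Er g l k i j * X i * Y j * Y k * X l) =
      S4 fun i j k l => Er g l k i j * ((X i * Y j - X j * Y i) * (X l * Y k - X k * Y l)) := by
  have a1 : S4 (fun i j k l => Er g l k i j * X i * Y j * Y k * X l) =
      S4 fun i j k l => Er g l k i j * (-(X j * Y i) * (Y k * X l)) := by
    rw [S4_swap]
    refine S4_congr fun i j k l => ?_
    rw [Er_swap]
    ring
  have a2 : S4 (fun i j k l => Er g l k i j * X i * Y j * Y k * X l) =
      S4 fun i j k l => Er g l k i j * ((X i * Y j) * -(X k * Y l)) := by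
    rw [S4_swap']
    refine S4_congr fun i j k l => ?_
    rw [Er_swap']
    ring
  have a3 : S4 (fun i j k l => Er g l k i j * X i * Y j * Y k * X l) =
      S4 fun i j k l => Er g l k i j * ((X j * Y i) * (X k * Y l)) := by
    rw [S4_swap, S4_swap']
    refine S4_congr fun i j k l => ?_
    rw [Er_swap, Er_swap']
    ring
  have a4 : S4 (fun i j k l => Er g l k i j * X i * Y j * Y k * X l) =
      S4 fun i j k l => Er g l k i j * ((X i * Y j) * (Y k * X l)) :=
    S4_congr fun i j k l => by ring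
  have e : 4 * S4 (fun i j k l => Er g l k i j * X i * Y j * Y k * X l) =
      (S4 (fun i j k l => Er g l k i j * X i * Y j * Y k * X l) +
      S4 (fun i j k l => Er g l k i j * X i * Y j * Y k * X l)) +
      (S4 (fun i j k l => Er g l k i j * X i * Y j * Y k * X l) +
      S4 (fun i j k l => Er g l k i j * X i * Y j * Y k * X l)) := by ring
  rw [e]
  nth_rewrite 1 [a1]
  nth_rewrite 1 [a2]
  nth_rewrite 1 [a3]
  nth_rewrite 1 [a4]
  rw [← S4_add, ← S4_add, ← S4_add]
  exact S4_congr fun i j k l => by ring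

theorem sum_wedge (X Y : Fin n → ℝ) : ∑ i, ∑ j, (X i * Y j - X j * Y i) ^ 2 =
    2 * ((∑ i, X i * X i) * (∑ i, Y i * Y i) - (∑ i, X i * Y i) ^ 2) := by
  have h4 : ∀ a, ∑ b, (X a * Y b - X b * Y a) ^ 2 =
      (∑ b, Y b * Y b) * (X a * X a) - 2 * (∑ b, X b * Y b) * (X a * Y a)
        + (∑ b, X b * X b) * (Y a * Y a) := by
    intro a
    have h5 := PullM.sum_lin_sq Y X (X a) (Y a)
    have h6 : ∑ b, Y b * X b = ∑ b, X b * Y b :=
      Finset.sum_congr rfl fun b _ => mul_comm _ _
    have h7 : ∑ b, (X a * Y b - X b * Y a) ^ 2 = ∑ b, (X a * Y b - Y a * X b) ^ 2 :=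
      Finset.sum_congr rfl fun b _ => by ring
    rw [h7, h5, h6]
    ring
  simp only [h4]
  rw [Finset.sum_add_distrib, Finset.sum_sub_distrib, ← Finset.mul_sum, ← Finset.mul_sum,
    ← Finset.mul_sum]
  ring

theorem sum_abs_sq (w : Fin n → Fin n → ℝ) :
    (∑ i, ∑ j, |w i j|) ^ 2 ≤ (n : ℝ) ^ 2 * ∑ i, ∑ j, w i j ^ 2 := by
  have h1 := sq_sum_le_card_mul_sum_sq (s := (Finset.univ : Finset (Fin n)))
    (f := fun i => ∑ j, |w i j|)
  rw [Finset.card_univ, Fintype.card_fin] at h1
  refine h1.trans ?_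
  rw [sq (n : ℝ), mul_assoc]
  refine mul_le_mul_of_nonneg_left ?_ (Nat.cast_nonneg n)
  rw [Finset.mul_sum]
  refine Finset.sum_le_sum fun i _ => ?_
  have h2 := sq_sum_le_card_mul_sum_sq (s := (Finset.univ : Finset (Fin n)))
    (f := fun j => |w i j|)
  rw [Finset.card_univ, Fintype.card_fin] at h2
  refine h2.trans ?_
  simp only [sq_abs]
  exact le_rfl

theorem bound_S4 {g : MF n} {K : ℝ} (hK : ∀ l k i j, |Er g l k i j| ≤ K) (X Y : Fin n → ℝ) :
    |S4 fun i j k l => Er g l k i j * X i * Y j * Y k * X l| ≤ K * (n ^ 2 / 2) *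
      ((∑ i, X i * X i) * (∑ i, Y i * Y i) - (∑ i, X i * Y i) ^ 2) := by
  by_cases hn : n = 0
  · subst hn
    simp [S4]
  have hK0 : 0 ≤ K := by
    have i0 : Fin n := ⟨0, Nat.pos_of_ne_zero hn⟩
    exact (abs_nonneg _).trans (hK i0 i0 i0 i0)
  have h1 : |4 * S4 fun i j k l => Er g l k i j * X i * Y j * Y k * X l| ≤
      K * (∑ i, ∑ j, |X i * Y j - X j * Y i|) ^ 2 := by
    rw [four_S4]
    have h2 : |S4 fun i j k l => Er g l k i j * ((X i * Y j - X j * Y i) *
        (X l * Y k - X k * Y l))| ≤ S4 fun i j k l =>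
          (K * |X i * Y j - X j * Y i|) * |X k * Y l - X l * Y k| := by
      unfold S4
      refine (Finset.abs_sum_le_sum_abs _ _).trans (Finset.sum_le_sum fun i _ => ?_)
      refine (Finset.abs_sum_le_sum_abs _ _).trans (Finset.sum_le_sum fun j _ => ?_)
      refine (Finset.abs_sum_le_sum_abs _ _).trans (Finset.sum_le_sum fun k _ => ?_)
      refine (Finset.abs_sum_le_sum_abs _ _).trans (Finset.sum_le_sum fun l _ => ?_)
      rw [abs_mul, abs_mul, abs_sub_comm (X l * Y k)]
      beta_reduce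
      rw [mul_assoc]
      exact mul_le_mul_of_nonneg_right (hK l k i j)
        (mul_nonneg (abs_nonneg _) (abs_nonneg _))
    refine h2.trans (le_of_eq ?_)
    rw [S4_prod]
    simp only [← Finset.mul_sum]
    ring
  have h3 := sum_abs_sq fun i j => X i * Y j - X j * Y i
  rw [sum_wedge] at h3
  rw [abs_mul, abs_of_pos (by norm_num : (0 : ℝ) < 4)] at h1
  have h4 := mul_le_mul_of_nonneg_left h3 hK0
  nlinarith

theorem sum_model (X Y : Fin n → ℝ) :
    S4 (fun i j k l => Md l k i j * X i * Y j * Y k * X l) =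
      (∑ i, X i * Y i) ^ 2 - (∑ i, X i * X i) * ∑ i, Y i * Y i := by
  have h1 : S4 (fun i j k l => Md l k i j * X i * Y j * Y k * X l) =
      S4 (fun i j k l => dl j l * dl i k * (X i * Y j * Y k * X l)) +
      S4 (fun i j k l => - (dl j k * dl i l * (X i * Y j * Y k * X l))) := by
    rw [← S4_add]
    refine S4_congr fun i j k l => ?_
    unfold Md
    ring
  have h2 : S4 (fun i j k l => dl j l * dl i k * (X i * Y j * Y k * X l)) =
      (∑ i, X i * Y i) ^ 2 := by
    unfold S4
    rw [sq, Finset.sum_mul]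
    refine Finset.sum_congr rfl fun i _ => ?_
    rw [Finset.mul_sum]
    refine Finset.sum_congr rfl fun j _ => ?_
    have e1 : ∀ k, ∑ l, dl j l * dl i k * (X i * Y j * Y k * X l) =
        dl i k * (X i * Y j * Y k * X j) := by
      intro k
      have e := sum_dl (fun l => dl i k * (X i * Y j * Y k * X l)) j
      rw [← e]
      exact Finset.sum_congr rfl fun l _ => by ring
    simp only [e1]
    rw [sum_dl (fun k => X i * Y j * Y k * X j) i]
    ring
  have h3 : S4 (fun i j k l => - (dl j k * dl i l * (X i * Y j * Y k * X l))) =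
      - ((∑ i, X i * X i) * ∑ i, Y i * Y i) := by
    unfold S4
    rw [Finset.sum_mul, ← Finset.sum_neg_distrib]
    refine Finset.sum_congr rfl fun i _ => ?_
    rw [Finset.mul_sum, ← Finset.sum_neg_distrib]
    refine Finset.sum_congr rfl fun j _ => ?_
    have e1 : ∀ k, ∑ l, - (dl j k * dl i l * (X i * Y j * Y k * X l)) =
        dl j k * (- (X i * Y j * Y k * X i)) := by
      intro k
      have e := sum_dl (fun l => - (dl j k * (X i * Y j * Y k * X l))) i
      have e' : dl j k * (- (X i * Y j * Y k * X i)) = - (dl j k * (X i * Y j * Y k * X i)) := by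
        ring
      rw [e', ← e]
      exact Finset.sum_congr rfl fun l _ => by ring
    simp only [e1]
    rw [sum_dl (fun k => - (X i * Y j * Y k * X i)) j]
    ring
  rw [h1, h2, h3]
  ring

theorem secNum_zero {g : MF n} (hg : MetAt g 0) (h1 : g 0 = 1) (X Y : Fin n → ℝ) :
    secNum g 0 X Y = S4 (fun i j k l => Md l k i j * X i * Y j * Y k * X l) +
      S4 fun i j k l => Er g l k i j * X i * Y j * Y k * X l := by
  rw [← S4_add]
  unfold secNum S4
  refine Finset.sum_congr rfl fun i _ => Finset.sum_congr rfl fun j _ =>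
    Finset.sum_congr rfl fun k _ => Finset.sum_congr rfl fun l _ => ?_
  rw [h1]
  rw [Finset.sum_eq_single l]
  · rw [Matrix.one_apply_eq, riem_zero hg h1]
    unfold Er
    ring
  · intro b _ hb
    rw [Matrix.one_apply_ne hb.symm]
    ring
  · intro h
    exact absurd (Finset.mem_univ l) h

theorem ip_zero {g : MF n} (h1 : g 0 = 1) (X Y : Fin n → ℝ) : ip g 0 X Y = ∑ i, X i * Y i := by
  unfold ip
  refine Finset.sum_congr rfl fun i _ => ?_
  rw [h1, Finset.sum_eq_single i]
  · rw [Matrix.one_apply_eq]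
    ring
  · intro b _ hb
    rw [Matrix.one_apply_ne hb.symm]
    ring
  · intro h
    exact absurd (Finset.mem_univ i) h

end JetM

open JetM in
/-- JET. -/
theorem specJet : SpecJet := by
  intro n
  refine ⟨(2 + 9 / 2 * n) * (n ^ 2 / 2), ?_⟩
  intro g c hc0 hc1 hg hone h1 h2 X Y hXY
  have hgram := HypM.gram_pos (g := g) (y := 0) hg.posDef.self_of_nhds hXY
  have hb := bound_S4 (bound_Er hc0 hc1 h1 h2) X Y
  unfold sec
  rw [secNum_zero hg hone, sum_model]
  rw [ip_zero hone, ip_zero hone, ip_zero hone] at hgram ⊢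
  set G := (∑ i, X i * X i) * (∑ i, Y i * Y i) - (∑ i, X i * Y i) ^ 2 with hG
  have e : ((∑ i, X i * Y i) ^ 2 - (∑ i, X i * X i) * ∑ i, Y i * Y i +
      S4 fun i j k l => Er g l k i j * X i * Y j * Y k * X l) / G + 1 =
      (S4 fun i j k l => Er g l k i j * X i * Y j * Y k * X l) / G := by
    have : (∑ i, X i * Y i) ^ 2 - (∑ i, X i * X i) * ∑ i, Y i * Y i = - G := by
      rw [hG]
      ring
    rw [this]
    field_simp
    ring
  rw [e, abs_div, abs_of_pos hgram, div_le_iff₀ hgram]
  refine hb.trans (le_of_eq ?_)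
  ring

end Pool.Agent.Lib.MPdbccd7
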