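import Pool.Agent.Lib.MP_dbccd7_gt.SpecB
import Pool.Agent.Lib.MP_dbccd7_gt.HypFin
import Pool.Agent.Lib.MP_dbccd7_gt.B.Tvv

/-!
# NAT: naturality of the curvature under local diffeomorphisms
-/

open scoped Manifold ContDiff Matrix Topology

namespace Pool.Agent.Lib.MPdbccd7

namespace NatM

variable {n : ℕ}

/-! ### Bilinear and trilinear forms -/

/-- A bilinear form. -/
def bl (A : Fin n → Fin n → ℝ) (u v : Fin n → ℝ) : ℝ := ∑ a, ∑ b, A a b * u a * v b

/-- A trilinear form. -/
def tl (A : Fin n → Fin n → Fin n → ℝ) (u v w : Fin n → ℝ) : ℝ :=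
  ∑ a, ∑ b, ∑ c, A a b c * u a * v b * w c

/-- A matrix as a function. -/
def mt (M : Matrix (Fin n) (Fin n) ℝ) (a b : Fin n) : ℝ := M a b

theorem bl_add_left (A : Fin n → Fin n → ℝ) (u u' v : Fin n → ℝ) :
    bl A (fun a => u a + u' a) v = bl A u v + bl A u' v := by
  unfold bl
  simp only [← Finset.sum_add_distrib]
  refine Finset.sum_congr rfl fun a _ => Finset.sum_congr rfl fun b _ => ?_
  ring

theorem bl_add_right (A : Fin n → Fin n → ℝ) (u v v' : Fin n → ℝ) :
    bl A u (fun a => v a + v' a) = bl A u v + bl A u v' := by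
  unfold bl
  simp only [← Finset.sum_add_distrib]
  refine Finset.sum_congr rfl fun a _ => Finset.sum_congr rfl fun b _ => ?_
  ring

theorem bl_symm {A : Fin n → Fin n → ℝ} (h : ∀ a b, A a b = A b a) (u v : Fin n → ℝ) :
    bl A u v = bl A v u := by
  unfold bl
  rw [Finset.sum_comm]
  refine Finset.sum_congr rfl fun a _ => Finset.sum_congr rfl fun b _ => ?_
  rw [h b a]
  ring

theorem bl_mulVec_left (A : Fin n → Fin n → ℝ) (J : Matrix (Fin n) (Fin n) ℝ)
    (u v : Fin n → ℝ) : bl A (J *ᵥ u) v = ∑ k, bl A (fun a => J a k) v * u k := by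
  unfold bl
  simp only [Finset.sum_mul]
  symm
  rw [Finset.sum_comm]
  refine Finset.sum_congr rfl fun a _ => ?_
  rw [Finset.sum_comm]
  refine Finset.sum_congr rfl fun b _ => ?_
  simp only [Matrix.mulVec, dotProduct, Finset.mul_sum, Finset.sum_mul]
  refine Finset.sum_congr rfl fun k _ => ?_
  ring

theorem bl_mulVec_right (A : Fin n → Fin n → ℝ) (J : Matrix (Fin n) (Fin n) ℝ)
    (u v : Fin n → ℝ) : bl A v (J *ᵥ u) = ∑ k, bl A v (fun a => J a k) * u k := by
  unfold bl
  simp only [Finset.sum_mul]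
  symm
  rw [Finset.sum_comm]
  refine Finset.sum_congr rfl fun a _ => ?_
  rw [Finset.sum_comm]
  refine Finset.sum_congr rfl fun b _ => ?_
  simp only [Matrix.mulVec, dotProduct, Finset.mul_sum]
  refine Finset.sum_congr rfl fun k _ => ?_
  ring

theorem tl_mulVec_one (A : Fin n → Fin n → Fin n → ℝ) (J : Matrix (Fin n) (Fin n) ℝ)
    (u v w : Fin n → ℝ) : tl A (J *ᵥ u) v w = ∑ k, tl A (fun a => J a k) v w * u k := by
  unfold tl
  simp only [Finset.sum_mul]
  symm
  rw [Finset.sum_comm]
  refine Finset.sum_congr rfl fun a _ => ?_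
  rw [Finset.sum_comm]
  refine Finset.sum_congr rfl fun b _ => ?_
  rw [Finset.sum_comm]
  refine Finset.sum_congr rfl fun c _ => ?_
  simp only [Matrix.mulVec, dotProduct, Finset.mul_sum, Finset.sum_mul]
  refine Finset.sum_congr rfl fun k _ => ?_
  ring

theorem tl_mulVec_two (A : Fin n → Fin n → Fin n → ℝ) (J : Matrix (Fin n) (Fin n) ℝ)
    (u v w : Fin n → ℝ) : tl A v (J *ᵥ u) w = ∑ k, tl A v (fun a => J a k) w * u k := by
  unfold tl
  simp only [Finset.sum_mul]
  symm
  rw [Finset.sum_comm]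
  refine Finset.sum_congr rfl fun a _ => ?_
  rw [Finset.sum_comm]
  refine Finset.sum_congr rfl fun b _ => ?_
  rw [Finset.sum_comm]
  refine Finset.sum_congr rfl fun c _ => ?_
  simp only [Matrix.mulVec, dotProduct, Finset.mul_sum, Finset.sum_mul]
  refine Finset.sum_congr rfl fun k _ => ?_
  ring

theorem tl_mulVec_three (A : Fin n → Fin n → Fin n → ℝ) (J : Matrix (Fin n) (Fin n) ℝ)
    (u v w : Fin n → ℝ) : tl A v w (J *ᵥ u) = ∑ k, tl A v w (fun a => J a k) * u k := by
  unfold tl
  simp only [Finset.sum_mul]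
  symm
  rw [Finset.sum_comm]
  refine Finset.sum_congr rfl fun a _ => ?_
  rw [Finset.sum_comm]
  refine Finset.sum_congr rfl fun b _ => ?_
  rw [Finset.sum_comm]
  refine Finset.sum_congr rfl fun c _ => ?_
  simp only [Matrix.mulVec, dotProduct, Finset.mul_sum]
  refine Finset.sum_congr rfl fun k _ => ?_
  ring

/-- Cyclic change of the order of summation. -/
theorem sum3_rot (f : Fin n → Fin n → Fin n → ℝ) :
    ∑ a, ∑ b, ∑ c, f a b c = ∑ c, ∑ a, ∑ b, f a b c := by
  rw [Finset.sum_congr rfl fun a _ => Finset.sum_comm (f := f a)]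
  exact Finset.sum_comm

/-! ### The derivative of a pulled back metric -/

/-- The lowered Christoffel symbols. -/
noncomputable def chl (g : MF n) (l i j : Fin n) (y : E n) : ℝ :=
  (1 / 2) * (pd i (fun z => g z j l) y + pd j (fun z => g z i l) y - pd l (fun z => g z i j) y)

theorem chr_eq (g : MF n) (k i j : Fin n) (y : E n) :
    chr g k i j y = ∑ l, (g y)⁻¹ k l * chl g l i j y := by
  unfold chr chl
  rw [Finset.mul_sum]
  refine Finset.sum_congr rfl fun l _ => ?_
  ring

/-- The vector `(Γ^k_{ij})_k`. -/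
noncomputable def chv (g : MF n) (i j : Fin n) (y : E n) : Fin n → ℝ := fun k => chr g k i j y

theorem mulVec_chv {g : MF n} {y : E n} (h : (g y).det ≠ 0) (i j : Fin n) :
    g y *ᵥ chv g i j y = fun l => chl g l i j y := by
  have h1 : chv g i j y = (g y)⁻¹ *ᵥ fun l => chl g l i j y := by
    funext k
    rw [chv, chr_eq]
    rfl
  rw [h1, Matrix.mulVec_mulVec, Matrix.mul_nonsing_inv _ (isUnit_iff_ne_zero.2 h),
    Matrix.one_mulVec]

/-- The form `Γ(u, v)`. -/
noncomputable def G2 (g : MF n) (y : E n) (u v : Fin n → ℝ) (a : Fin n) : ℝ :=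
  bl (fun b c => chr g a b c y) u v

/-- The form `(∂_u Γ)(v, w)`. -/
noncomputable def G3 (g : MF n) (y : E n) (u v w : Fin n → ℝ) (a : Fin n) : ℝ :=
  tl (fun d b c => pd d (chr g a b c) y) u v w

/-- The curvature `R(u, v) w`. -/
noncomputable def R3 (g : MF n) (y : E n) (w u v : Fin n → ℝ) (a : Fin n) : ℝ :=
  tl (fun c d e => riem g a c d e y) w u v

theorem R3_eq (g : MF n) (y : E n) (w u v : Fin n → ℝ) (a : Fin n) :
    R3 g y w u v a = G3 g y u v w a - G3 g y v u w a
      + (G2 g y u (G2 g y v w) a - G2 g y v (G2 g y u w) a) := by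
  have e1 : G3 g y u v w a = ∑ c, ∑ d, ∑ e, pd d (chr g a e c) y * w c * u d * v e := by
    unfold G3 tl
    rw [sum3_rot fun x y' z => pd x (chr g a y' z) y * u x * v y' * w z]
    refine Finset.sum_congr rfl fun c _ => Finset.sum_congr rfl fun d _ =>
      Finset.sum_congr rfl fun e _ => ?_
    ring
  have e2 : G3 g y v u w a = ∑ c, ∑ d, ∑ e, pd e (chr g a d c) y * w c * u d * v e := by
    unfold G3 tl
    rw [sum3_rot fun x y' z => pd x (chr g a y' z) y * v x * u y' * w z]
    refine Finset.sum_congr rfl fun c _ => ?_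
    rw [Finset.sum_comm]
    refine Finset.sum_congr rfl fun d _ => Finset.sum_congr rfl fun e _ => ?_
    ring
  have e3 : G2 g y u (G2 g y v w) a
      = ∑ c, ∑ d, ∑ e, (∑ m, chr g a d m y * chr g m e c y) * w c * u d * v e := by
    have h1 : G2 g y u (G2 g y v w) a
        = ∑ d, ∑ m, ∑ e, ∑ c, chr g a d m y * chr g m e c y * w c * u d * v e := by
      unfold G2 bl
      refine Finset.sum_congr rfl fun d _ => Finset.sum_congr rfl fun m _ => ?_
      rw [Finset.mul_sum]
      refine Finset.sum_congr rfl fun e _ => ?_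
      rw [Finset.mul_sum]
      refine Finset.sum_congr rfl fun c _ => ?_
      ring
    rw [h1]
    rw [Finset.sum_comm (f := fun c d => ∑ e, (∑ m, chr g a d m y * chr g m e c y)
      * w c * u d * v e)]
    refine Finset.sum_congr rfl fun d _ => ?_
    rw [sum3_rot fun m e c => chr g a d m y * chr g m e c y * w c * u d * v e]
    refine Finset.sum_congr rfl fun c _ => ?_
    rw [Finset.sum_comm]
    refine Finset.sum_congr rfl fun e _ => ?_
    rw [Finset.sum_mul, Finset.sum_mul, Finset.sum_mul]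
  have e4 : G2 g y v (G2 g y u w) a
      = ∑ c, ∑ d, ∑ e, (∑ m, chr g a e m y * chr g m d c y) * w c * u d * v e := by
    have h1 : G2 g y v (G2 g y u w) a
        = ∑ e, ∑ m, ∑ d, ∑ c, chr g a e m y * chr g m d c y * w c * u d * v e := by
      unfold G2 bl
      refine Finset.sum_congr rfl fun e _ => Finset.sum_congr rfl fun m _ => ?_
      rw [Finset.mul_sum]
      refine Finset.sum_congr rfl fun d _ => ?_
      rw [Finset.mul_sum]
      refine Finset.sum_congr rfl fun c _ => ?_
      ring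
    rw [h1]
    rw [← sum3_rot (fun d e c => (∑ m, chr g a e m y * chr g m d c y) * w c * u d * v e)]
    rw [Finset.sum_comm (f := fun d e => ∑ c, (∑ m, chr g a e m y * chr g m d c y)
      * w c * u d * v e)]
    refine Finset.sum_congr rfl fun e _ => ?_
    rw [Finset.sum_comm]
    refine Finset.sum_congr rfl fun d _ => ?_
    rw [Finset.sum_comm]
    refine Finset.sum_congr rfl fun c _ => ?_
    rw [Finset.sum_mul, Finset.sum_mul, Finset.sum_mul]
  rw [e1, e2, e3, e4]
  unfold R3 tl
  simp only [← Finset.sum_add_distrib, ← Finset.sum_sub_distrib]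
  refine Finset.sum_congr rfl fun c _ => Finset.sum_congr rfl fun d _ =>
    Finset.sum_congr rfl fun e _ => ?_
  simp only [riem, Finset.sum_sub_distrib]
  ring

/-! ### The situation -/

/-- What we need at a point `z`. -/
structure Good (F : E n → E n) (g g' : MF n) (z : E n) : Prop where
  smF : ContDiffAt ℝ 2 F z
  smg : ∀ a b, DifferentiableAt ℝ (fun x => g' x a b) (F z)
  symm : ∀ a b, ∀ᶠ x in 𝓝 (F z), g' x a b = g' x b a
  eq : ∀ᶠ w in 𝓝 z, g w = (jac F w)ᵀ * g' (F w) * jac F w
  det' : (g' (F z)).det ≠ 0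
  detJ : (jac F z).det ≠ 0

theorem contDiffAt_comp_coord {k : WithTop ℕ∞} {F : E n → E n} {z : E n}
    (h : ContDiffAt ℝ k F z) (a : Fin n) : ContDiffAt ℝ k (fun w => F w a) z :=
  (contDiff_coord (m := k) a).contDiffAt.comp z h

/-- The column `J_i = ∂_i F`. -/
noncomputable def Jc (F : E n → E n) (z : E n) (i : Fin n) : Fin n → ℝ :=
  fun a => pd i (fun w => F w a) z

/-- The second derivatives `∂_i ∂_j F`. -/
noncomputable def Hc (F : E n → E n) (z : E n) (i j : Fin n) : Fin n → ℝ :=
  fun a => pd i (pd j fun w => F w a) z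

theorem Hc_symm {F : E n → E n} {z : E n} (h : ContDiffAt ℝ 2 F z) (i j : Fin n) :
    Hc F z i j = Hc F z j i := by
  funext a
  exact pd_pd_comm (contDiffAt_comp_coord h a) i j

theorem diff_pd {F : E n → E n} {z : E n} (h : ContDiffAt ℝ 2 F z) (i a : Fin n) :
    DifferentiableAt ℝ (pd i fun w => F w a) z := by
  have h1 : ContDiffAt ℝ ((1 : ℕ) + 1) (fun w => F w a) z := by
    have := contDiffAt_comp_coord h a
    refine this.of_le (le_of_eq ?_)
    norm_num
  exact (contDiffAt_pd_nat h1 i).differentiableAt (by simp)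

theorem pull_apply (F : E n → E n) (g' : MF n) (w : E n) (i j : Fin n) :
    ((jac F w)ᵀ * g' (F w) * jac F w) i j
      = ∑ a, ∑ b, g' (F w) a b * pd i (fun x => F x a) w * pd j (fun x => F x b) w := by
  rw [Matrix.mul_assoc, Matrix.mul_apply]
  refine Finset.sum_congr rfl fun a _ => ?_
  rw [Matrix.mul_apply, Finset.mul_sum]
  refine Finset.sum_congr rfl fun b _ => ?_
  rw [Matrix.transpose_apply, jac_apply, jac_apply]
  ring

theorem pd_g {F : E n → E n} {g g' : MF n} {z : E n} (h : Good F g g' z) (k i j : Fin n) :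
    pd k (fun w => g w i j) z
      = tl (fun c a b => pd c (fun x => g' x a b) (F z)) (Jc F z k) (Jc F z i) (Jc F z j)
        + bl (mt (g' (F z))) (Hc F z k i) (Jc F z j) + bl (mt (g' (F z))) (Jc F z i) (Hc F z k j) := by
  have h1 : (fun w => g w i j) =ᶠ[𝓝 z] fun w => ∑ a, ∑ b, g' (F w) a b
      * pd i (fun x => F x a) w * pd j (fun x => F x b) w := by
    filter_upwards [h.eq] with w hw
    rw [hw, pull_apply]
  have hF : DifferentiableAt ℝ F z := h.smF.differentiableAt (by simp)
  have hG : ∀ a b, DifferentiableAt ℝ (fun w => g' (F w) a b) z := fun a b =>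
    (h.smg a b).comp z hF
  have hd := diff_pd h.smF
  have h2 : ∀ a b, pd k (fun w => g' (F w) a b) z
      = ∑ c, pd c (fun x => g' x a b) (F z) * pd k (fun x => F x c) z := fun a b =>
    pd_chain (f := fun x => g' x a b) (h.smg a b) hF k
  rw [h1.pd_eq k]
  rw [pd_sum (f := fun a w => ∑ b, g' (F w) a b
      * pd i (fun x => F x a) w * pd j (fun x => F x b) w) (fun a _ => DifferentiableAt.fun_sum
      fun b _ => ((hG a b).mul (hd i a)).mul (hd j b))]
  have h3 : ∀ a, pd k (fun w => ∑ b, g' (F w) a b * pd i (fun x => F x a) w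
      * pd j (fun x => F x b) w) z
      = ∑ b, (((∑ c, pd c (fun x => g' x a b) (F z) * pd k (fun x => F x c) z)
          * pd i (fun x => F x a) z + g' (F z) a b * pd k (pd i fun x => F x a) z)
            * pd j (fun x => F x b) z
          + g' (F z) a b * pd i (fun x => F x a) z * pd k (pd j fun x => F x b) z) := by
    intro a
    rw [pd_sum (f := fun b w => g' (F w) a b
      * pd i (fun x => F x a) w * pd j (fun x => F x b) w)
      (fun b _ => ((hG a b).mul (hd i a)).mul (hd j b))]
    refine Finset.sum_congr rfl fun b _ => ?_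
    rw [pd_mul (f := fun w => g' (F w) a b * pd i (fun x => F x a) w)
      ((hG a b).mul (hd i a)) (hd j b), pd_mul (hG a b) (hd i a), h2]
  simp only [h3]
  unfold tl bl Jc Hc mt
  rw [← sum3_rot fun a b c => pd c (fun x => g' x a b) (F z) * pd k (fun w => F w c) z
    * pd i (fun w => F w a) z * pd j (fun w => F w b) z]
  simp only [← Finset.sum_add_distrib]
  refine Finset.sum_congr rfl fun a _ => Finset.sum_congr rfl fun b _ => ?_
  have h4 : ∀ x y' : ℝ, ∑ c, pd c (fun x => g' x a b) (F z) * pd k (fun x => F x c) z * x * y'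
      = (∑ c, pd c (fun x => g' x a b) (F z) * pd k (fun x => F x c) z) * x * y' := by
    intro x y'
    rw [Finset.sum_mul, Finset.sum_mul]
  rw [h4]
  ring

/-- The trilinear form of the derivative of `g'`. -/
theorem tl_symm {A : Fin n → Fin n → Fin n → ℝ} (h : ∀ c a b, A c a b = A c b a)
    (u v w : Fin n → ℝ) : tl A u v w = tl A u w v := by
  unfold tl
  refine Finset.sum_congr rfl fun a _ => ?_
  rw [Finset.sum_comm]
  refine Finset.sum_congr rfl fun b _ => Finset.sum_congr rfl fun c _ => ?_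
  rw [h a c b]
  ring

theorem chl_tl (g : MF n) (x : E n) (u v w : Fin n → ℝ) :
    bl (fun a b => ∑ c, chl g c a b x * w c) u v
      = (1 / 2) * (tl (fun c a b => pd c (fun x => g x a b) x) u v w
        + tl (fun c a b => pd c (fun x => g x a b) x) v u w
        - tl (fun c a b => pd c (fun x => g x a b) x) w u v) := by
  have e1 : tl (fun c a b => pd c (fun x => g x a b) x) v u w
      = ∑ a, ∑ b, ∑ c, pd b (fun x => g x a c) x * u a * v b * w c := by
    unfold tl
    rw [Finset.sum_comm]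
    refine Finset.sum_congr rfl fun a _ => Finset.sum_congr rfl fun b _ =>
      Finset.sum_congr rfl fun c _ => ?_
    ring
  have e2 : tl (fun c a b => pd c (fun x => g x a b) x) w u v
      = ∑ a, ∑ b, ∑ c, pd c (fun x => g x a b) x * u a * v b * w c := by
    unfold tl
    rw [← sum3_rot fun a b c => pd c (fun x => g x a b) x * w c * u a * v b]
    refine Finset.sum_congr rfl fun a _ => Finset.sum_congr rfl fun b _ =>
      Finset.sum_congr rfl fun c _ => ?_
    ring
  rw [e1, e2]
  unfold tl bl chl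
  simp only [← Finset.sum_add_distrib, ← Finset.sum_sub_distrib, Finset.mul_sum, Finset.sum_mul]
  refine Finset.sum_congr rfl fun a _ => Finset.sum_congr rfl fun b _ =>
    Finset.sum_congr rfl fun c _ => ?_
  ring

theorem chl_pull {F : E n → E n} {g g' : MF n} {z : E n} (h : Good F g g' z) (l i j : Fin n) :
    chl g l i j z = bl (mt (g' (F z))) (Hc F z i j) (Jc F z l)
      + bl (fun a b => ∑ c, chl g' c a b (F z) * Jc F z l c) (Jc F z i) (Jc F z j) := by
  have hg : ∀ a b, mt (g' (F z)) a b = mt (g' (F z)) b a :=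
    fun a b => (h.symm a b).self_of_nhds
  rw [chl_tl g' (F z)]
  unfold chl
  rw [pd_g h, pd_g h, pd_g h, Hc_symm h.smF j i, Hc_symm h.smF l i, Hc_symm h.smF l j,
    bl_symm hg (Jc F z j) (Hc F z i l)]
  ring

/-- The transformation law of the Christoffel symbols. -/
theorem chr_pull {F : E n → E n} {g g' : MF n} {z : E n} (h : Good F g g' z) (i j a : Fin n) :
    ∑ l, pd l (fun w => F w a) z * chr g l i j z
      = Hc F z i j a + G2 g' (F z) (Jc F z i) (Jc F z j) a := by
  have hg : (g z).det ≠ 0 := by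
    rw [h.eq.self_of_nhds, Matrix.det_mul, Matrix.det_mul, Matrix.det_transpose]
    exact mul_ne_zero (mul_ne_zero h.detJ h.det') h.detJ
  have h1 := mulVec_chv hg i j
  have hgs : ∀ a b, mt (g' (F z)) a b = mt (g' (F z)) b a :=
    fun a b => (h.symm a b).self_of_nhds
  set p : Fin n → ℝ := jac F z *ᵥ chv g i j z with hp
  set r : Fin n → ℝ := fun b => Hc F z i j b + G2 g' (F z) (Jc F z i) (Jc F z j) b with hr
  have h2 : (jac F z)ᵀ *ᵥ (g' (F z) *ᵥ p) = (jac F z)ᵀ *ᵥ (g' (F z) *ᵥ r) := by
    have e1 : (jac F z)ᵀ *ᵥ (g' (F z) *ᵥ p) = fun l => chl g l i j z := by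
      rw [← h1, hp, h.eq.self_of_nhds, Matrix.mulVec_mulVec, Matrix.mulVec_mulVec,
        Matrix.mul_assoc]
    rw [e1]
    funext l
    rw [chl_pull h]
    have e2 : ((jac F z)ᵀ *ᵥ (g' (F z) *ᵥ r)) l = bl (mt (g' (F z))) r (Jc F z l) := by
      rw [bl_symm hgs]
      unfold bl Jc mt
      simp only [Matrix.mulVec, dotProduct, Matrix.transpose_apply, jac_apply, Finset.mul_sum]
      refine Finset.sum_congr rfl fun a _ => Finset.sum_congr rfl fun b _ => ?_
      ring
    rw [e2, hr, bl_add_left]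
    congr 1
    have e3 : g' (F z) *ᵥ (G2 g' (F z) (Jc F z i) (Jc F z j))
        = fun c => bl (fun a b => chl g' c a b (F z)) (Jc F z i) (Jc F z j) := by
      have e4 : ∀ a b, g' (F z) *ᵥ chv g' a b (F z) = fun c => chl g' c a b (F z) :=
        fun a b => mulVec_chv h.det' a b
      funext c
      have e5 : (g' (F z) *ᵥ (G2 g' (F z) (Jc F z i) (Jc F z j))) c
          = bl (fun a b => (g' (F z) *ᵥ chv g' a b (F z)) c) (Jc F z i) (Jc F z j) := by
        unfold G2 bl chv
        simp only [Matrix.mulVec, dotProduct, Finset.mul_sum, Finset.sum_mul]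
        rw [sum3_rot fun a b x => g' (F z) c x * chr g' x a b (F z) * Jc F z i a * Jc F z j b]
        refine Finset.sum_congr rfl fun a _ => Finset.sum_congr rfl fun b _ =>
          Finset.sum_congr rfl fun c _ => ?_
        ring
      rw [e5]
      simp only [e4]
    have e6 : bl (mt (g' (F z))) (G2 g' (F z) (Jc F z i) (Jc F z j)) (Jc F z l)
        = ∑ c, (g' (F z) *ᵥ (G2 g' (F z) (Jc F z i) (Jc F z j))) c * Jc F z l c := by
      rw [bl_symm hgs]
      unfold bl mt
      simp only [Matrix.mulVec, dotProduct, Finset.sum_mul]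
      refine Finset.sum_congr rfl fun a _ => Finset.sum_congr rfl fun b _ => ?_
      ring
    rw [e6, e3]
    unfold bl
    simp only [Finset.sum_mul]
    rw [sum3_rot fun a b c => chl g' c a b (F z) * Jc F z l c * Jc F z i a * Jc F z j b]
    refine Finset.sum_congr rfl fun a _ => Finset.sum_congr rfl fun b _ =>
      Finset.sum_congr rfl fun c _ => ?_
    ring
  have h3 : ((jac F z)ᵀ * g' (F z)) *ᵥ (p - r) = 0 := by
    rw [Matrix.mulVec_sub, ← Matrix.mulVec_mulVec, ← Matrix.mulVec_mulVec, h2, sub_self]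
  have h4 : ((jac F z)ᵀ * g' (F z)).det ≠ 0 := by
    rw [Matrix.det_mul, Matrix.det_transpose]
    exact mul_ne_zero h.detJ h.det'
  have h5 := Matrix.eq_zero_of_mulVec_eq_zero h4 h3
  have h6 : p = r := sub_eq_zero.1 h5
  exact congrFun h6 a

/-! ### The curvature -/

theorem contDiffAt_chr {g : MF n} {y : E n} (h : ∀ i j, ContDiffAt ℝ ∞ (fun z => g z i j) y)
    (h0 : (g y).det ≠ 0) (k i j : Fin n) : ContDiffAt ℝ ∞ (chr g k i j) y := by
  have h1 : chr g k i j = fun z => (1 / 2) * ∑ l, (g z)⁻¹ k l *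
    (pd i (fun z => g z j l) z + pd j (fun z => g z i l) z - pd l (fun z => g z i j) z) := rfl
  rw [h1]
  refine contDiffAt_const.mul (ContDiffAt.sum fun l _ => ?_)
  exact (CalM.contDiffAt_inv' h h0 k l).mul
    (((contDiffAt_pd (h j l) i).add (contDiffAt_pd (h i l) j)).sub (contDiffAt_pd (h i j) l))

theorem chr_diff {F : E n → E n} {g g' : MF n} {y : E n} (hF : ContDiffAt ℝ ∞ F y)
    (hg : ∀ k i j, ContDiffAt ℝ ∞ (chr g k i j) y)
    (hg' : ∀ k i j, ContDiffAt ℝ ∞ (chr g' k i j) (F y))
    (h : ∀ᶠ z in 𝓝 y, Good F g g' z) (k i j a : Fin n) :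
    ∑ l, (Hc F y k l a * chr g l i j y + Jc F y l a * pd k (chr g l i j) y)
      = pd k (pd i (pd j fun w => F w a)) y + G3 g' (F y) (Jc F y k) (Jc F y i) (Jc F y j) a
        + G2 g' (F y) (Hc F y k i) (Jc F y j) a + G2 g' (F y) (Jc F y i) (Hc F y k j) a := by
  have h0 : (fun z => ∑ l, pd l (fun w => F w a) z * chr g l i j z)
      =ᶠ[𝓝 y] fun z => pd i (pd j fun w => F w a) z
        + ∑ b, ∑ c, chr g' a b c (F z) * pd i (fun w => F w b) z * pd j (fun w => F w c) z := by
    filter_upwards [h] with z hz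
    exact chr_pull hz i j a
  have h1 := h0.pd_eq k
  have sF : ∀ b, ContDiffAt ℝ ∞ (fun w => F w b) y := fun b => contDiffAt_comp_coord hF b
  have dF : ∀ i b, DifferentiableAt ℝ (pd i fun w => F w b) y :=
    fun i b => differentiableAt_pd (sF b) i
  have dg : ∀ l i j, DifferentiableAt ℝ (chr g l i j) y :=
    fun l i j => (hg l i j).differentiableAt (by simp)
  have dg1 : ∀ l i j, DifferentiableAt ℝ (chr g' l i j) (F y) :=
    fun l i j => (hg' l i j).differentiableAt (by simp)
  have dFF : DifferentiableAt ℝ F y := hF.differentiableAt (by simp)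
  have dg' : ∀ l i j, DifferentiableAt ℝ (fun z => chr g' l i j (F z)) y :=
    fun l i j => (dg1 l i j).comp y dFF
  have e1 : pd k (fun z => ∑ l, pd l (fun w => F w a) z * chr g l i j z) y
      = ∑ l, (Hc F y k l a * chr g l i j y + Jc F y l a * pd k (chr g l i j) y) := by
    rw [pd_sum (f := fun l z => pd l (fun w => F w a) z * chr g l i j z)
      fun l _ => (dF l a).mul (dg l i j)]
    refine Finset.sum_congr rfl fun l _ => ?_
    rw [pd_mul (dF l a) (dg l i j)]
    rfl
  have e2 : pd k (fun z => pd i (pd j fun w => F w a) z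
        + ∑ b, ∑ c, chr g' a b c (F z) * pd i (fun w => F w b) z * pd j (fun w => F w c) z) y
      = pd k (pd i (pd j fun w => F w a)) y
        + ∑ b, ∑ c, (((∑ d, pd d (chr g' a b c) (F y) * Jc F y k d) * Jc F y i b
            + chr g' a b c (F y) * Hc F y k i b) * Jc F y j c
          + chr g' a b c (F y) * Jc F y i b * Hc F y k j c) := by
    rw [pd_add (f := pd i (pd j fun w => F w a)) (g := fun z => ∑ b, ∑ c, chr g' a b c (F z)
        * pd i (fun w => F w b) z * pd j (fun w => F w c) z)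
      (differentiableAt_pd (contDiffAt_pd (sF a) j) i)
      (DifferentiableAt.fun_sum fun b _ => DifferentiableAt.fun_sum fun c _ =>
        ((dg' a b c).mul (dF i b)).mul (dF j c))]
    congr 1
    rw [pd_sum (f := fun b z => ∑ c, chr g' a b c (F z)
        * pd i (fun w => F w b) z * pd j (fun w => F w c) z)
      (fun b _ => DifferentiableAt.fun_sum fun c _ => ((dg' a b c).mul (dF i b)).mul (dF j c))]
    refine Finset.sum_congr rfl fun b _ => ?_
    rw [pd_sum (f := fun c z => chr g' a b c (F z)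
        * pd i (fun w => F w b) z * pd j (fun w => F w c) z)
      (fun c _ => ((dg' a b c).mul (dF i b)).mul (dF j c))]
    refine Finset.sum_congr rfl fun c _ => ?_
    rw [pd_mul (f := fun z => chr g' a b c (F z) * pd i (fun w => F w b) z)
      ((dg' a b c).mul (dF i b)) (dF j c), pd_mul (dg' a b c) (dF i b),
      pd_chain (dg1 a b c) dFF]
    rfl
  rw [e1, e2] at h1
  rw [h1]
  unfold G3 G2 tl bl
  rw [← sum3_rot fun b c d => pd d (chr g' a b c) (F y) * Jc F y k d * Jc F y i b * Jc F y j c]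
  rw [add_assoc, add_assoc]
  congr 1
  simp only [← Finset.sum_add_distrib]
  refine Finset.sum_congr rfl fun b _ => Finset.sum_congr rfl fun c _ => ?_
  have h4 : ∀ x y' : ℝ, ∑ d, pd d (chr g' a b c) (F y) * Jc F y k d * x * y'
      = (∑ d, pd d (chr g' a b c) (F y) * Jc F y k d) * x * y' := by
    intro x y'
    rw [Finset.sum_mul, Finset.sum_mul]
  rw [h4]
  ring

theorem G2_add_right (g : MF n) (y : E n) (u v v' : Fin n → ℝ) (a : Fin n) :
    G2 g y u (fun b => v b + v' b) a = G2 g y u v a + G2 g y u v' a :=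
  bl_add_right _ _ _ _

theorem G2_sum (g : MF n) (y : E n) (J : Fin n → Fin n → ℝ) (u c : Fin n → ℝ) (a : Fin n) :
    G2 g y u (fun b => ∑ m, J m b * c m) a = ∑ m, G2 g y u (J m) a * c m := by
  have h := bl_mulVec_right (fun b c => chr g a b c y) (Matrix.of fun a k => J k a) c u
  exact h

theorem riem_pull {F : E n → E n} {g g' : MF n} {y : E n} (hF : ContDiffAt ℝ ∞ F y)
    (hg : ∀ k i j, ContDiffAt ℝ ∞ (chr g k i j) y)
    (hg' : ∀ k i j, ContDiffAt ℝ ∞ (chr g' k i j) (F y))
    (h : ∀ᶠ z in 𝓝 y, Good F g g' z) (k i j a : Fin n) :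
    ∑ l, Jc F y l a * riem g l k i j y
      = R3 g' (F y) (Jc F y k) (Jc F y i) (Jc F y j) a := by
  have hy := h.self_of_nhds
  have d1 := chr_diff hF hg hg' h i j k a
  have d2 := chr_diff hF hg hg' h j i k a
  have hsym : pd i (pd j (pd k fun w => F w a)) y = pd j (pd i (pd k fun w => F w a)) y :=
    pd_pd_comm ((contDiffAt_pd (contDiffAt_comp_coord hF a) k).of_le CalM.two_le_infty) i j
  have c1 : ∀ i j a, ∑ l, Jc F y l a * chr g l i j y
      = Hc F y i j a + G2 g' (F y) (Jc F y i) (Jc F y j) a := fun i j a => chr_pull hy i j a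
  have e1 : ∑ l, Jc F y l a * riem g l k i j y
      = (∑ l, Jc F y l a * pd i (chr g l j k) y) - (∑ l, Jc F y l a * pd j (chr g l i k) y)
        + ((∑ m, (∑ l, Jc F y l a * chr g l i m y) * chr g m j k y)
          - ∑ m, (∑ l, Jc F y l a * chr g l j m y) * chr g m i k y) := by
    have f1 : ∀ i j, ∑ m, (∑ l, Jc F y l a * chr g l i m y) * chr g m j k y
        = ∑ l, Jc F y l a * ∑ m, chr g l i m y * chr g m j k y := by
      intro i j
      simp only [Finset.sum_mul, Finset.mul_sum]
      rw [Finset.sum_comm]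
      refine Finset.sum_congr rfl fun l _ => Finset.sum_congr rfl fun m _ => ?_
      ring
    rw [f1, f1]
    simp only [← Finset.sum_sub_distrib, ← Finset.sum_add_distrib]
    refine Finset.sum_congr rfl fun l _ => ?_
    rw [riem, Finset.sum_sub_distrib]
    ring
  have e2 : ∀ i j, ∑ m, (∑ l, Jc F y l a * chr g l i m y) * chr g m j k y
      = (∑ m, Hc F y i m a * chr g m j k y)
        + (G2 g' (F y) (Jc F y i) (Hc F y j k) a
          + G2 g' (F y) (Jc F y i) (G2 g' (F y) (Jc F y j) (Jc F y k)) a) := by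
    intro i j
    rw [← G2_add_right]
    have f1 : (fun b => Hc F y j k b + G2 g' (F y) (Jc F y j) (Jc F y k) b)
        = fun b => ∑ m, Jc F y m b * chr g m j k y := by
      funext b
      exact (c1 j k b).symm
    rw [f1, G2_sum, ← Finset.sum_add_distrib]
    refine Finset.sum_congr rfl fun m _ => ?_
    rw [c1]
    ring
  rw [e1, e2, e2, R3_eq]
  simp only [Finset.sum_add_distrib] at d1 d2
  rw [Hc_symm hy.smF j i] at d2
  linarith [d1, d2, hsym]

theorem ip_eq (g : MF n) (y : E n) (X Y : Fin n → ℝ) : ip g y X Y = bl (mt (g y)) X Y := rfl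

theorem ip_pull (J A B : Matrix (Fin n) (Fin n) ℝ) (h : A = Jᵀ * B * J) (X Y : Fin n → ℝ) :
    bl (mt A) X Y = bl (mt B) (J *ᵥ X) (J *ᵥ Y) := by
  have e : ∀ (M : Matrix (Fin n) (Fin n) ℝ) (u v : Fin n → ℝ), bl (mt M) u v = u ⬝ᵥ (M *ᵥ v) := by
    intro M u v
    unfold bl mt
    simp only [Matrix.mulVec, dotProduct, Finset.mul_sum]
    refine Finset.sum_congr rfl fun a _ => Finset.sum_congr rfl fun b _ => ?_
    ring
  rw [e, e, h, ← Matrix.mulVec_mulVec, ← Matrix.mulVec_mulVec, Matrix.dotProduct_mulVec,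
    Matrix.vecMul_transpose]

theorem secNum_eq (g : MF n) (y : E n) (X Y : Fin n → ℝ) :
    secNum g y X Y = bl (mt (g y)) (R3 g y Y X Y) X := by
  unfold secNum bl R3 tl mt
  have h1 : ∀ l m, g y l m * (∑ c, ∑ d, ∑ e, riem g l c d e y * Y c * X d * Y e) * X m
      = ∑ d, ∑ e, ∑ c, g y l m * riem g l c d e y * X d * Y e * Y c * X m := by
    intro l m
    rw [← sum3_rot fun d e c => riem g l c d e y * Y c * X d * Y e]
    simp only [Finset.mul_sum, Finset.sum_mul]
    refine Finset.sum_congr rfl fun a _ => Finset.sum_congr rfl fun b _ =>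
      Finset.sum_congr rfl fun c _ => ?_
    ring
  simp only [h1]
  have h2 : ∀ i, ∑ j, ∑ k, ∑ l, ∑ m, g y l m * riem g l k i j y * X i * Y j * Y k * X m
      = ∑ l, ∑ m, ∑ j, ∑ k, g y l m * riem g l k i j y * X i * Y j * Y k * X m := by
    intro i
    rw [sum3_rot fun j k l => ∑ m, g y l m * riem g l k i j y * X i * Y j * Y k * X m]
    refine Finset.sum_congr rfl fun l _ => ?_
    rw [sum3_rot fun j k m => g y l m * riem g l k i j y * X i * Y j * Y k * X m]
  simp only [h2]
  rw [← sum3_rot fun l m i => ∑ j, ∑ k, g y l m * riem g l k i j y * X i * Y j * Y k * X m]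

end NatM

open NatM in
theorem specNat : SpecNat := by
  intro n F y g g' hF hJ hM hE X Y
  have sg : ∀ i j, ContDiffAt ℝ ∞ (fun z => g z i j) y := by
    intro i j
    have h1 : (fun z => g z i j) =ᶠ[𝓝 y] fun z => ∑ a, ∑ b, g' (F z) a b
        * pd i (fun x => F x a) z * pd j (fun x => F x b) z := by
      filter_upwards [hE] with w hw
      rw [hw, pull_apply]
    refine ContDiffAt.congr_of_eventuallyEq ?_ h1
    refine ContDiffAt.sum fun a _ => ContDiffAt.sum fun b _ => ?_
    exact (((hM.smooth a b).comp y hF).mul (contDiffAt_pd (contDiffAt_comp_coord hF a) i)).mul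
      (contDiffAt_pd (contDiffAt_comp_coord hF b) j)
  have hy := hE.self_of_nhds
  have hd' : (g' (F y)).det ≠ 0 := (CalM.det_pos hM).ne'
  have hd : (g y).det ≠ 0 := by
    rw [hy, Matrix.det_mul, Matrix.det_mul, Matrix.det_transpose]
    exact mul_ne_zero (mul_ne_zero hJ hd') hJ
  have hg : ∀ k i j, ContDiffAt ℝ ∞ (chr g k i j) y := contDiffAt_chr sg hd
  have hg' : ∀ k i j, ContDiffAt ℝ ∞ (chr g' k i j) (F y) := contDiffAt_chr hM.smooth hd'
  have h : ∀ᶠ z in 𝓝 y, Good F g g' z := by
    have a1 : ∀ᶠ z in 𝓝 y, ContDiffAt ℝ 2 F z :=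
      (hF.of_le CalM.two_le_infty).eventually (by simp)
    have hc : ContinuousAt F y := hF.continuousAt
    have a2 : ∀ᶠ z in 𝓝 y, ∀ a b, DifferentiableAt ℝ (fun x => g' x a b) (F z) := by
      rw [Filter.eventually_all]
      intro a
      rw [Filter.eventually_all]
      intro b
      exact hc.eventually (CalM.eventually_diff (hM.smooth a b))
    have a3 : ∀ᶠ z in 𝓝 y, ∀ a b, ∀ᶠ x in 𝓝 (F z), g' x a b = g' x b a := by
      have b1 : ∀ᶠ x in 𝓝 (F y), ∀ a b, g' x a b = g' x b a := by
        filter_upwards [hM.posDef] with x hx a b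
        have := hx.isHermitian.apply b a
        simpa using this
      filter_upwards [hc.eventually b1.eventually_nhds] with z hz a b
      filter_upwards [hz] with x hx
      exact hx a b
    have a4 : ∀ᶠ z in 𝓝 y, (g' (F z)).det ≠ 0 := by
      filter_upwards [hc.eventually hM.posDef] with z hz
      exact hz.det_pos.ne'
    have a5 : ∀ᶠ z in 𝓝 y, (jac F z).det ≠ 0 := by
      have b1 : ContDiffAt ℝ ∞ (fun z => (jac F z).det) y :=
        CalM.contDiffAt_det fun i j => contDiffAt_pd (contDiffAt_comp_coord hF i) j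
      exact b1.continuousAt.eventually_ne hJ
    filter_upwards [a1, a2, a3, a4, a5, hE.eventually_nhds] with z h1 h2 h3 h4 h5 h6
    exact ⟨h1, h2, h3, h6, h4, h5⟩
  have key : ∀ w u v, jac F y *ᵥ R3 g y w u v
      = R3 g' (F y) (jac F y *ᵥ w) (jac F y *ᵥ u) (jac F y *ᵥ v) := by
    intro w u v
    funext a
    have e1 : R3 g' (F y) (jac F y *ᵥ w) (jac F y *ᵥ u) (jac F y *ᵥ v) a
        = ∑ k, ∑ i, ∑ j, R3 g' (F y) (Jc F y k) (Jc F y i) (Jc F y j) a * w k * u i * v j := by
      unfold R3
      rw [tl_mulVec_one]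
      refine Finset.sum_congr rfl fun k _ => ?_
      rw [tl_mulVec_two, Finset.sum_mul]
      refine Finset.sum_congr rfl fun i _ => ?_
      rw [tl_mulVec_three, Finset.sum_mul, Finset.sum_mul]
      refine Finset.sum_congr rfl fun j _ => ?_
      have : ∀ A : Fin n → Fin n → Fin n → ℝ, tl A (fun a => jac F y a k)
          (fun a => jac F y a i) (fun a => jac F y a j)
          = tl A (Jc F y k) (Jc F y i) (Jc F y j) := fun A => rfl
      rw [this]
      ring
    rw [e1]
    have e2 : (jac F y *ᵥ R3 g y w u v) a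
        = ∑ l, ∑ k, ∑ i, ∑ j, Jc F y l a * riem g l k i j y * w k * u i * v j := by
      simp only [Matrix.mulVec, dotProduct]
      refine Finset.sum_congr rfl fun l _ => ?_
      unfold R3 tl
      simp only [Finset.mul_sum]
      refine Finset.sum_congr rfl fun k _ => Finset.sum_congr rfl fun i _ =>
        Finset.sum_congr rfl fun j _ => ?_
      rw [jac_apply]
      unfold Jc
      ring
    rw [e2, Finset.sum_comm]
    refine Finset.sum_congr rfl fun k _ => ?_
    rw [Finset.sum_comm]
    refine Finset.sum_congr rfl fun i _ => ?_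
    rw [Finset.sum_comm]
    refine Finset.sum_congr rfl fun j _ => ?_
    rw [← riem_pull hF hg hg' h k i j a, Finset.sum_mul, Finset.sum_mul, Finset.sum_mul]
  have k1 : ∀ X Y, ip g y X Y = ip g' (F y) (jac F y *ᵥ X) (jac F y *ᵥ Y) :=
    fun X Y => ip_pull (jac F y) (g y) (g' (F y)) hy X Y
  have k2 : secNum g y X Y = secNum g' (F y) (jac F y *ᵥ X) (jac F y *ᵥ Y) := by
    rw [secNum_eq, secNum_eq, ip_pull (jac F y) (g y) (g' (F y)) hy, key]
  refine ⟨k1 X Y, k2, ?_, ?_⟩
  · rw [sec, sec, k2, k1, k1, k1]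
  · intro hli
    have h1 : LinearMap.ker (Matrix.mulVecLin (jac F y)) = ⊥ := by
      rw [LinearMap.ker_eq_bot']
      intro v hv
      exact Matrix.eq_zero_of_mulVec_eq_zero hJ hv
    have h2 := hli.map' (Matrix.mulVecLin (jac F y)) h1
    have h3 : (Matrix.mulVecLin (jac F y)) ∘ ![X, Y] = ![jac F y *ᵥ X, jac F y *ᵥ Y] := by
      funext i
      fin_cases i <;> rfl
    rwa [h3] at h2

end Pool.Agent.Lib.MPdbccd7
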