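import Pool.Agent.Lib.MP_dbccd7_gt.Calc0
import Pool.Agent.Lib.MP_dbccd7_gt.SpecB

section
/-!
# ALPHA: bounds for `α = (1 + P)^{-1/2}`
-/
open scoped Manifold ContDiff Matrix Topology

namespace Pool.Agent.Lib.MPdbccd7

namespace AlphaM

open HypM C0 K0

/-- `(1 + x)^{-1/2}`. -/
noncomputable def ps (x : ℝ) : ℝ := (Real.sqrt (1 + x))⁻¹

theorem ps_pos {x : ℝ} (hx : 0 ≤ x) : 0 < ps x :=
  inv_pos.2 (Real.sqrt_pos.2 (by linarith))

theorem ps_le_one {x : ℝ} (hx : 0 ≤ x) : ps x ≤ 1 := by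
  refine inv_le_one_of_one_le₀ ?_
  rw [Real.one_le_sqrt]
  linarith

theorem ps_sq {x : ℝ} (hx : 0 ≤ x) : ps x ^ 2 = (1 + x)⁻¹ := by
  rw [ps, inv_pow, Real.sq_sqrt (by linarith)]

theorem hasDerivAt_ps {x : ℝ} (hx : 0 ≤ x) : HasDerivAt ps (-(1 / 2) * ps x ^ 3) x := by
  have h1 : HasDerivAt (fun x : ℝ => 1 + x) 1 x := (hasDerivAt_id x).const_add 1
  have hpos : 0 < 1 + x := by linarith
  have h2 := (h1.sqrt hpos.ne').inv (Real.sqrt_pos.2 hpos).ne'
  have h3 : -(1 / (2 * Real.sqrt (1 + x))) / Real.sqrt (1 + x) ^ 2 = -(1 / 2) * ps x ^ 3 := by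
    have := Real.sqrt_pos.2 hpos
    rw [ps]
    field_simp
  rw [h3] at h2
  exact h2

theorem hasDerivAt_ps' {x : ℝ} (hx : 0 ≤ x) :
    HasDerivAt (fun x => -(1 / 2) * ps x ^ 3) (3 / 4 * ps x ^ 5) x := by
  have h := ((hasDerivAt_ps hx).fun_pow 3).const_mul (-(1 / 2))
  refine h.congr_deriv ?_
  push_cast
  ring

end AlphaM

open HypM C0 K0 AlphaM in
theorem specAlpha (hP : SpecPbd) : SpecAlpha := by
  intro m C
  obtain ⟨A, hA, hP⟩ := hP m C
  refine ⟨2 * A ^ 2, by nlinarith, ?_⟩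
  intro T ε κ r1 r2 hT
  obtain ⟨hsm, hP⟩ := hP T ε κ r1 r2 hT
  have hε0 := hT.hε.1
  have hε1 : ε ≤ 1 := by linarith [hT.hε.2]
  have hκ := hT.hκ
  have hal : al (m := m) T = fun z => ps (Pf T z) := rfl
  have hnn : ∀ z : E (m + 3), 0 ≤ Pf T z := fun z => (hP z).2.1
  have hsma : ContDiff ℝ ∞ (al T (m := m)) := by
    have h1 : ∀ z : E (m + 3), 1 + Pf T z ≠ 0 := fun z => by linarith [hnn z]
    have h2 : ∀ z : E (m + 3), Real.sqrt (1 + Pf T z) ≠ 0 := fun z =>
      (Real.sqrt_pos.2 (by linarith [hnn z])).ne'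
    exact ((contDiff_const.add hsm).sqrt h1).inv h2
  refine ⟨hsma, fun y => ?_⟩
  obtain ⟨hJ, h0, h1, h2, h3, h4⟩ := hP y
  have hi0 : 0 < 1 / y0 y := by have := y0_pos y; positivity
  have hi1 : 1 / y0 y ≤ 1 := by
    have := one_le_y0 y
    rw [div_le_one (by linarith)]
    exact this
  have hd : DifferentiableAt ℝ (Pf T (m := m)) y := diffAt hsm
  have hc : ContDiffAt ℝ 2 (Pf T (m := m)) y := cd2 hsm
  have e1 : ∀ᶠ z in 𝓝 y, HasDerivAt ps ((fun x => -(1 / 2) * ps x ^ 3) (Pf T z)) (Pf T z) :=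
    Filter.Eventually.of_forall fun z => hasDerivAt_ps (hnn z)
  have ha0 := ps_pos h0
  have ha1 := ps_le_one h0
  have hav : al T y = ps (Pf T y) := rfl
  set a := ps (Pf T y) with ha
  set s := κ + 1 / y0 y with hs
  have hs0 : 0 < s := by linarith [hκ.1]
  have hs2 : s ≤ 2 := by linarith [hκ.2]
  have hb : |-(1 / 2) * a ^ 3| ≤ a := by
    rw [abs_mul, abs_neg, abs_of_pos (by norm_num : (0 : ℝ) < 1 / 2), abs_of_pos (pow_pos ha0 3)]
    have : a ^ 3 ≤ a := by
      have : a ^ 2 ≤ 1 := by nlinarith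
      nlinarith
    linarith
  have hA0 : 0 < A := by linarith
  have hAA : A ≤ 2 * A ^ 2 := by nlinarith
  have hε4 : A / ε ^ 4 * s ≤ 2 * A ^ 2 / ε ^ 4 * s := by gcongr
  refine ⟨?_, ?_, ?_, ?_, ?_, ?_, ?_, ?_⟩
  · rw [hal, Jd_comp e1.self_of_nhds hd, hJ, mul_zero]
  · rw [hav]; exact ha0
  · rw [hav]; exact ha1
  · rw [hav, ha, ps_sq h0]
    have h5 : (m + 2 : ℝ) + Nn T y * wsq y = (m + 2) * (1 + Pf T y) := by
      rw [Pf]
      field_simp
    have h6 : 0 < 1 + Pf T y := by linarith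
    rw [h5]
    field_simp
  · have h6 : 0 < 1 + Pf T y := by linarith
    rw [hav, ha, ps_sq h0, one_div, inv_inv]
    refine h1.trans ?_
    gcongr
  · rw [hal, gam0_comp_left _ e1.self_of_nhds hd, gam0_comp_right _ e1.self_of_nhds hd,
      ← mul_assoc, Real.sqrt_mul (mul_self_nonneg _), Real.sqrt_mul_self_eq_abs]
    exact mul_le_mul hb (h2.trans hε4) (Real.sqrt_nonneg _) ha0.le
  · rw [hal, lap0_comp e1 (hasDerivAt_ps' h0) hc]
    have h7 : gam0 (Pf T) (Pf T) y ≤ (A / ε ^ 4 * s) ^ 2 := by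
      have := Real.sq_sqrt (gam0_nonneg (Pf T) y)
      rw [← this]
      exact pow_le_pow_left₀ (Real.sqrt_nonneg _) h2 2
    have h8 : |3 / 4 * a ^ 5| ≤ 3 / 4 * a := by
      rw [abs_of_pos (by positivity)]
      have : a ^ 5 ≤ a := by
        have : a ^ 4 ≤ 1 := pow_le_one₀ ha0.le ha1
        nlinarith
      linarith
    have hb2 : |-(1 / 2) * a ^ 3| ≤ 1 / 2 * a := by
      rw [abs_mul, abs_neg, abs_of_pos (by norm_num : (0 : ℝ) < 1 / 2),
        abs_of_pos (pow_pos ha0 3)]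
      have : a ^ 3 ≤ a := by
        have : a ^ 2 ≤ 1 := by nlinarith
        nlinarith
      linarith
    have h9 : |-(1 / 2) * a ^ 3 * lap0 (Pf T) y| ≤ 1 / 2 * a * (A / ε ^ 4 * s) := by
      rw [abs_mul]
      exact mul_le_mul hb2 h3 (abs_nonneg _) (by positivity)
    have h10 : |3 / 4 * a ^ 5 * gam0 (Pf T) (Pf T) y| ≤ 3 / 4 * a * (A / ε ^ 4 * s) ^ 2 := by
      rw [abs_mul, abs_of_nonneg (gam0_nonneg _ _)]
      exact mul_le_mul h8 h7 (gam0_nonneg _ _) (by positivity)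
    have h11 : A / ε ^ 4 * s ≤ A ^ 2 / ε ^ 8 * s := by
      have : A / ε ^ 4 ≤ A ^ 2 / ε ^ 8 := by
        rw [div_le_div_iff₀ (by positivity) (by positivity)]
        have h12 : ε ^ 8 ≤ ε ^ 4 := pow_le_pow_of_le_one hε0.le hε1 (by norm_num)
        have h13 : A ≤ A ^ 2 := by nlinarith
        exact mul_le_mul h13 h12 (by positivity) (by positivity)
      gcongr
    have h12 : (A / ε ^ 4 * s) ^ 2 ≤ 2 * (A ^ 2 / ε ^ 8 * s) := by
      have : (A / ε ^ 4 * s) ^ 2 = (A ^ 2 / ε ^ 8 * s) * s := by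
        field_simp
      rw [this]
      have h13 : 0 ≤ A ^ 2 / ε ^ 8 * s := by positivity
      nlinarith
    calc |-(1 / 2) * a ^ 3 * lap0 (Pf T) y + 3 / 4 * a ^ 5 * gam0 (Pf T) (Pf T) y|
        ≤ |-(1 / 2) * a ^ 3 * lap0 (Pf T) y| + |3 / 4 * a ^ 5 * gam0 (Pf T) (Pf T) y| :=
          abs_add_le _ _
      _ ≤ 1 / 2 * a * (A / ε ^ 4 * s) + 3 / 4 * a * (A / ε ^ 4 * s) ^ 2 := add_le_add h9 h10
      _ ≤ 1 / 2 * a * (A ^ 2 / ε ^ 8 * s) + 3 / 4 * a * (2 * (A ^ 2 / ε ^ 8 * s)) := by gcongr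
      _ = a * (2 * A ^ 2 / ε ^ 8 * s) := by ring
  · rw [hal, Dd_comp e1.self_of_nhds hd, abs_mul]
    exact mul_le_mul hb (h4.trans hε4) (abs_nonneg _) ha0.le

end Pool.Agent.Lib.MPdbccd7
end

section
/-!
# BARS: the barrier `S = δ + B (s - c)² s^m`, `s = 1 / y₀`

The chain rule for the hyperbolic Laplacian `lap0`, and its values on `a y_0 + b y₀`.
-/
open scoped Manifold ContDiff Matrix

namespace Pool.Agent.Lib.MPdbccd7

namespace BarsM

open HypM

theorem pd_congr {n : ℕ} {f g : E n → ℝ} {y : E n} (i : Fin n) (h : f =ᶠ[nhds y] g) :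
    pd i f y = pd i g y := by
  simp only [pd]
  rw [h.fderiv_eq]

theorem contDiff_pd {n : ℕ} {f : E n → ℝ} (hf : ContDiff ℝ ∞ f) (i : Fin n) :
    ContDiff ℝ ∞ (pd i f) := by
  have h : ContDiff ℝ ∞ (fun z => fderiv ℝ f z (EuclideanSpace.single i (1 : ℝ))) :=
    (hf.fderiv_right (m := ∞) (by simp)).clm_apply contDiff_const
  exact h

variable {m : ℕ}

/-- The chain rule for `lap0`. -/
theorem lap0_comp {f : E (m + 3) → ℝ} {φ φ1 : ℝ → ℝ} {φ2 : ℝ} {y : E (m + 3)}
    (hf : ContDiff ℝ ∞ f) (h1 : ∀ z, HasDerivAt φ (φ1 (f z)) (f z))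
    (h2 : HasDerivAt φ1 φ2 (f y)) :
    lap0 (fun z => φ (f z)) y = φ1 (f y) * lap0 f y + φ2 * gam0 f f y := by
  have hfd : ∀ z, DifferentiableAt ℝ f z := fun z => (hf.differentiable (by simp)) z
  have hpd : ∀ j z, DifferentiableAt ℝ (pd j f) z := fun j z =>
    ((contDiff_pd hf j).differentiable (by simp)) z
  have e1 : ∀ j, pd j (fun z => φ (f z)) = fun z => φ1 (f z) * pd j f z := by
    intro j
    funext z
    exact pd_comp j (h1 z) (hfd z)
  have hφ1 : DifferentiableAt ℝ (fun z => φ1 (f z)) y := by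
    have := h2.comp_hasFDerivAt y (hfd y).hasFDerivAt
    exact this.differentiableAt
  have e2 : ∀ i j, pd i (fun z => pd j (fun z => φ (f z)) z) y
      = φ2 * (pd i f y * pd j f y) + φ1 (f y) * pd i (fun z => pd j f z) y := by
    intro i j
    rw [e1 j, pd_mul i hφ1 (hpd j y), pd_comp i h2 (hfd y)]
    ring
  simp only [lap0, gam0, e2, pd_comp _ (h1 y) (hfd y)]
  have e3 : ∀ i j : Fin (m + 3), ((if i = j then (1 : ℝ) else 0) + y i * y j)
      * (φ2 * (pd i f y * pd j f y) + φ1 (f y) * pd i (fun z => pd j f z) y)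
      = φ2 * ((if i = j then pd i f y * pd j f y else 0) + (y i * pd i f y) * (y j * pd j f y))
        + φ1 (f y) * (((if i = j then (1 : ℝ) else 0) + y i * y j)
          * pd i (fun z => pd j f z) y) := by
    intro i j
    split_ifs <;> ring
  simp only [e3, Finset.sum_add_distrib, ← Finset.mul_sum]
  have e4 : ∑ i : Fin (m + 3), ∑ j : Fin (m + 3), (if i = j then pd i f y * pd j f y else 0)
      = ∑ i : Fin (m + 3), pd i f y * pd i f y := by
    refine Finset.sum_congr rfl fun i _ => ?_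
    simp
  have e5 : ∑ i : Fin (m + 3), ∑ j : Fin (m + 3), y i * pd i f y * (y j * pd j f y)
      = (∑ i : Fin (m + 3), y i * pd i f y) * (∑ i : Fin (m + 3), y i * pd i f y) := by
    rw [Finset.sum_mul]
    refine Finset.sum_congr rfl fun i _ => ?_
    rw [Finset.mul_sum]
  have e6 : ∑ i : Fin (m + 3), y i * (φ1 (f y) * pd i f y)
      = φ1 (f y) * ∑ i : Fin (m + 3), y i * pd i f y := by
    rw [Finset.mul_sum]
    refine Finset.sum_congr rfl fun i _ => ?_
    ring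
  rw [e6]
  simp only [← Finset.mul_sum] at e5
  rw [e4, e5]
  ring

/-- The function `a y_0 + b y₀`. -/
noncomputable def lin (a b : ℝ) (y : E (m + 3)) : ℝ := a * y 0 + b * y0 y

theorem contDiff_lin (a b : ℝ) {k : WithTop ℕ∞} : ContDiff ℝ k (lin a b (m := m)) :=
  (contDiff_const.mul (contDiff_coord 0)).add (contDiff_const.mul contDiff_y0)

theorem pd_lin (a b : ℝ) (j : Fin (m + 3)) (y : E (m + 3)) :
    pd j (lin a b) y = a * (if j = 0 then 1 else 0) + b * (y j * (y0 y)⁻¹) := by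
  have h : lin a b (m := m) = fun z => a * z 0 + b * y0 z := rfl
  rw [h, pd_add j ((diff_coord 0 y).const_mul a) ((diff_y0 y).const_mul b),
    pd_const_mul j a (diff_coord 0 y), pd_const_mul j b (diff_y0 y), pd_coord, pd_y0,
    div_eq_mul_inv]

theorem pd_pd_lin (a b : ℝ) (i j : Fin (m + 3)) (y : E (m + 3)) :
    pd i (fun z => pd j (lin a b) z) y
      = b * ((if i = j then 1 else 0) * (y0 y)⁻¹ - y i * y j * (y0 y)⁻¹ ^ 3) := by
  have hy := y0_pos y
  have h : (fun z => pd j (lin a b (m := m)) z)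
      = fun z => a * (if j = 0 then 1 else 0) + b * (z j * (y0 z)⁻¹) := by
    funext z
    exact pd_lin a b j z
  have hd : DifferentiableAt ℝ (fun z : E (m + 3) => (y0 z)⁻¹) y := (diff_y0 y).inv hy.ne'
  have hd2 : DifferentiableAt ℝ (fun z : E (m + 3) => z j * (y0 z)⁻¹) y :=
    (diff_coord j y).fun_mul hd
  rw [h, pd_add i (differentiableAt_const _) (hd2.const_mul b), pd_const,
    pd_const_mul i b hd2, pd_mul i (diff_coord j y) hd, pd_coord,
    pd_comp (φ := fun t => t⁻¹) i (hasDerivAt_inv hy.ne') (diff_y0 y), pd_y0]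
  field_simp
  ring

theorem sum_sq (y : E (m + 3)) : ∑ i, y i ^ 2 = y0 y ^ 2 - 1 := by rw [y0_sq]; ring

theorem lap0_lin (a b : ℝ) (y : E (m + 3)) : lap0 (lin a b) y = (m + 3) * lin a b y := by
  have hy := y0_pos y
  have e0 : ∀ i j : Fin (m + 3), pd i (fun z => pd j (lin a b) z) y
      = b * ((if i = j then 1 else 0) * (y0 y)⁻¹ - y i * y j * (y0 y)⁻¹ ^ 3) :=
    fun i j => pd_pd_lin a b i j y
  rw [lap0]
  simp only [e0]
  simp only [pd_lin]
  have e1 : ∀ i j : Fin (m + 3), ((if i = j then (1 : ℝ) else 0) + y i * y j)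
      * (b * ((if i = j then 1 else 0) * (y0 y)⁻¹ - y i * y j * (y0 y)⁻¹ ^ 3))
      = (if i = j then b * ((y0 y)⁻¹ - y i ^ 2 * (y0 y)⁻¹ ^ 3 + y i ^ 2 * (y0 y)⁻¹) else 0)
        - b * (y0 y)⁻¹ ^ 3 * (y i ^ 2 * y j ^ 2) := by
    intro i j
    split_ifs with h
    · subst h; ring
    · ring
  simp only [e1, Finset.sum_sub_distrib, Finset.sum_ite_eq, Finset.mem_univ, if_true,
    ← Finset.mul_sum, Finset.sum_add_distrib, ← Finset.sum_mul, sum_sq]
  have e2 : ∀ i : Fin (m + 3), y i * (a * (if i = 0 then (1 : ℝ) else 0) + b * (y i * (y0 y)⁻¹))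
      = (if i = 0 then a * y i else 0) + b * (y0 y)⁻¹ * y i ^ 2 := by
    intro i
    split_ifs <;> ring
  simp only [e2, Finset.sum_add_distrib, Finset.sum_ite_eq', Finset.mem_univ, if_true,
    ← Finset.mul_sum, sum_sq, Finset.sum_const, Finset.card_univ, Fintype.card_fin,
    nsmul_eq_mul, lin]
  field_simp
  push_cast
  ring

theorem gam0_lin (a b : ℝ) (y : E (m + 3)) :
    gam0 (lin a b) (lin a b) y = a ^ 2 - b ^ 2 + lin a b y ^ 2 := by
  have hy := y0_pos y
  simp only [gam0, pd_lin]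
  have e1 : ∀ i : Fin (m + 3), (a * (if i = 0 then (1 : ℝ) else 0) + b * (y i * (y0 y)⁻¹))
      * (a * (if i = 0 then (1 : ℝ) else 0) + b * (y i * (y0 y)⁻¹))
      = (if i = 0 then a ^ 2 + 2 * a * b * (y i * (y0 y)⁻¹) else 0)
        + b ^ 2 * (y0 y)⁻¹ ^ 2 * y i ^ 2 := by
    intro i
    split_ifs <;> ring
  have e2 : ∀ i : Fin (m + 3), y i * (a * (if i = 0 then (1 : ℝ) else 0) + b * (y i * (y0 y)⁻¹))
      = (if i = 0 then a * y i else 0) + b * (y0 y)⁻¹ * y i ^ 2 := by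
    intro i
    split_ifs <;> ring
  simp only [e1, e2, Finset.sum_add_distrib, Finset.sum_ite_eq', Finset.mem_univ, if_true,
    ← Finset.mul_sum, sum_sq, lin]
  field_simp
  ring

theorem Jd_lin (a b : ℝ) (y : E (m + 3)) : Jd (lin a b) y = 0 := by
  simp only [Jd, pd_lin, Jv]
  have h1 : (1 : Fin (m + 3)) ≠ 0 := by simp
  have h2 : (2 : Fin (m + 3)) ≠ 0 := by
    intro h
    have := congrArg Fin.val h
    simp [Nat.mod_eq_of_lt] at this
  have h12 : (1 : Fin (m + 3)) ≠ 2 := by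
    intro h
    have := congrArg Fin.val h
    simp [Nat.mod_eq_of_lt] at this
  have e : ∀ i : Fin (m + 3), (if i = 1 then - y 2 else if i = 2 then y 1 else 0)
      * (a * (if i = 0 then (1 : ℝ) else 0) + b * (y i * (y0 y)⁻¹))
      = (if i = 1 then - y 2 * (b * (y i * (y0 y)⁻¹)) else 0)
        + (if i = 2 then y 1 * (b * (y i * (y0 y)⁻¹)) else 0) := by
    intro i
    by_cases hi1 : i = 1
    · subst hi1
      simp [h1, h12]
    · by_cases hi2 : i = 2
      · subst hi2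
        simp [h2, hi1]
      · simp [hi1, hi2]
  simp only [e, Finset.sum_add_distrib, Finset.sum_ite_eq', Finset.mem_univ, if_true]
  ring

theorem Jd_comp {f : E (m + 3) → ℝ} {φ : ℝ → ℝ} {φ1 : ℝ} {y : E (m + 3)}
    (hf : DifferentiableAt ℝ f y) (h1 : HasDerivAt φ φ1 (f y)) (h0 : Jd f y = 0) :
    Jd (fun z => φ (f z)) y = 0 := by
  simp only [Jd] at h0 ⊢
  have e : ∀ i, Jv y i * pd i (fun z => φ (f z)) y = φ1 * (Jv y i * pd i f y) := by
    intro i
    rw [pd_comp i h1 hf]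
    ring
  simp only [e, ← Finset.mul_sum, h0, mul_zero]

/-- The derivative of `x⁻¹ ^ j`. -/
theorem hasDerivAt_invpow (j : ℕ) {x : ℝ} (hx : x ≠ 0) :
    HasDerivAt (fun x : ℝ => x⁻¹ ^ j) (-(j * x⁻¹ ^ (j + 1))) x := by
  have h := (hasDerivAt_inv hx).fun_pow j
  refine h.congr_deriv ?_
  rcases j with _ | k
  · simp
  · simp only [Nat.add_sub_cancel]
    rw [← inv_pow]
    ring

end BarsM

open HypM BarsM

/-- BARS. -/
theorem specBars (hL : SpecLapa) : SpecBars := by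
  intro m T htau hlam δ B c hB hc
  -- the function of `x = y₀`
  set φ : ℝ → ℝ := fun x => δ + B * (x⁻¹ ^ (m + 2) - 2 * c * x⁻¹ ^ (m + 1) + c ^ 2 * x⁻¹ ^ m)
    with hφ
  have hlin : ∀ z : E (m + 3), lin 0 1 z = y0 z := fun z => by simp [lin]
  have hS : Sb δ B c (m := m) = fun z => φ (lin 0 1 z) := by
    funext z
    simp only [Sb, hφ, hlin]
    ring
  have hsm : ContDiff ℝ ∞ (Sb δ B c (m := m)) := by
    have h1 : ContDiff ℝ ∞ (fun z : E (m + 3) => (y0 z)⁻¹) :=
      contDiff_y0.inv fun z => (y0_pos z).ne'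
    exact contDiff_const.add ((contDiff_const.mul ((h1.sub contDiff_const).pow 2)).mul (h1.pow m))
  refine ⟨hsm, ?_⟩
  intro y
  have hy := y0_pos y
  have hy1 := one_le_y0 y
  -- first and second derivatives of `φ`
  set φ1 : ℝ → ℝ := fun x => B * (-((m + 2) * x⁻¹ ^ (m + 3)) + 2 * c * ((m + 1) * x⁻¹ ^ (m + 2))
    - c ^ 2 * (m * x⁻¹ ^ (m + 1))) with hφ1
  set φ2 : ℝ := B * ((m + 2) * ((m + 3) * (y0 y)⁻¹ ^ (m + 4))
    - 2 * c * ((m + 1) * ((m + 2) * (y0 y)⁻¹ ^ (m + 3)))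
    + c ^ 2 * (m * ((m + 1) * (y0 y)⁻¹ ^ (m + 2)))) with hφ2
  have hd1 : ∀ x : ℝ, x ≠ 0 → HasDerivAt φ (φ1 x) x := by
    intro x hx
    have h1 := hasDerivAt_invpow (m + 2) hx
    have h2 := (hasDerivAt_invpow (m + 1) hx).const_mul (2 * c)
    have h3 := (hasDerivAt_invpow m hx).const_mul (c ^ 2)
    have h4 := (((h1.sub h2).add h3).const_mul B).const_add δ
    refine h4.congr_deriv ?_
    simp only [hφ1]
    push_cast
    ring
  have hd2 : HasDerivAt φ1 φ2 (lin 0 1 y) := by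
    rw [hlin]
    have hx := hy.ne'
    have h1 := ((hasDerivAt_invpow (m + 3) hx).const_mul ((m : ℝ) + 2)).neg
    have h2 := ((hasDerivAt_invpow (m + 2) hx).const_mul ((m : ℝ) + 1)).const_mul (2 * c)
    have h3 := ((hasDerivAt_invpow (m + 1) hx).const_mul (m : ℝ)).const_mul (c ^ 2)
    have h4 := ((h1.add h2).sub h3).const_mul B
    refine h4.congr_deriv ?_
    simp only [hφ2]
    push_cast
    ring
  have hJ : ∀ z, Jd (Sb δ B c (m := m)) z = 0 := by
    intro z
    rw [hS]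
    refine Jd_comp ((contDiff_lin 0 1 (k := 1)).differentiable one_ne_zero z) (hd1 _ ?_)
      (Jd_lin 0 1 z)
    rw [hlin]
    exact (y0_pos z).ne'
  have h0 := ((hL m T htau hlam y).2.1 (Sb δ B c) hsm.contDiffAt
    (Filter.Eventually.of_forall hJ)).1
  rw [h0, hS, lap0_comp (contDiff_lin 0 1) (fun z => hd1 _ (by rw [hlin]; exact (y0_pos z).ne'))
    hd2, lap0_lin, gam0_lin, hlin]
  set s : ℝ := (y0 y)⁻¹ with hs
  have hs0 : 0 < s := inv_pos.2 hy
  have hs1 : s ≤ 1 := inv_le_one_of_one_le₀ hy1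
  have hys : y0 y = s⁻¹ := by rw [hs, inv_inv]
  have hp : ∀ k, 0 ≤ s ^ k ∧ s ^ k ≤ 1 := fun k => ⟨by positivity, pow_le_one₀ hs0.le hs1⟩
  have key : φ1 (y0 y) * ((m + 3) * y0 y) + φ2 * (0 ^ 2 - 1 ^ 2 + y0 y ^ 2)
      = B * (-((m + 2) * (m + 3) * s ^ (m + 4)) + 2 * c * (m + 1) * s ^ (m + 1)
        + 2 * c * (m + 1) * (m + 2) * s ^ (m + 3) - 2 * c ^ 2 * m * s ^ m
        - c ^ 2 * m * (m + 1) * s ^ (m + 2)) := by
    simp only [hφ1, hφ2, ← hs]
    rw [hys]
    field_simp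
    ring
  rw [key]
  have hm : (0 : ℝ) ≤ m := Nat.cast_nonneg m
  have h1 : 0 ≤ ((m : ℝ) + 2) * (m + 3) * s ^ (m + 4) := by positivity
  have h2 : 2 * c * (m + 1) * s ^ (m + 1) ≤ 2 * c * (m + 1) :=
    mul_le_of_le_one_right (by positivity) (hp _).2
  have h3 : 2 * c * (m + 1) * (m + 2) * s ^ (m + 3) ≤ 2 * c * (m + 1) * (m + 2) :=
    mul_le_of_le_one_right (by positivity) (hp _).2
  have h4 : 0 ≤ 2 * c ^ 2 * m * s ^ m := by positivity
  have h5 : 0 ≤ c ^ 2 * m * (m + 1) * s ^ (m + 2) := by positivity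
  have h6 : -((m + 2) * (m + 3) * s ^ (m + 4)) + 2 * c * (m + 1) * s ^ (m + 1)
        + 2 * c * (m + 1) * (m + 2) * s ^ (m + 3) - 2 * c ^ 2 * m * s ^ m
        - c ^ 2 * m * (m + 1) * s ^ (m + 2) ≤ 2 * (m + 3) ^ 2 * c := by
    have : 2 * c * (m + 1) + 2 * c * (m + 1) * (m + 2) ≤ 2 * (m + 3) ^ 2 * c := by
      have : 0 ≤ c * (m : ℝ) := mul_nonneg hc hm
      nlinarith
    linarith
  calc B * _ ≤ B * (2 * (m + 3) ^ 2 * c) := mul_le_mul_of_nonneg_left h6 hB
    _ = 2 * (m + 3) ^ 2 * B * c := by ring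

end Pool.Agent.Lib.MPdbccd7
end

section
/-!
# BARH: the barrier `H`

`H(y) = G(l₊) - G(l₋)`, `G' = (1+x²)^{-n/2}`, `l± = (y_0 ± 2 ε y₀)/√(1-4ε²)`.
-/
open scoped Manifold ContDiff Matrix

namespace Pool.Agent.Lib.MPdbccd7

namespace BarhM

open HypM BarsM

/-- The integrand. -/
noncomputable def gi (m : ℕ) (x : ℝ) : ℝ := (Real.sqrt (1 + x ^ 2))⁻¹ ^ (m + 3)

theorem one_add_sq_pos' (x : ℝ) : 0 < 1 + x ^ 2 := by positivity

theorem sqrt_ge_one (x : ℝ) : 1 ≤ Real.sqrt (1 + x ^ 2) := by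
  rw [Real.one_le_sqrt]
  nlinarith [sq_nonneg x]

theorem contDiff_gi (m : ℕ) {k : WithTop ℕ∞} : ContDiff ℝ k (gi m) := by
  have h1 : ContDiff ℝ k (fun x : ℝ => Real.sqrt (1 + x ^ 2)) :=
    (contDiff_const.add (contDiff_id.pow 2)).sqrt fun x => (one_add_sq_pos' x).ne'
  exact (h1.inv fun x => (Real.sqrt_pos.2 (one_add_sq_pos' x)).ne').pow _

theorem continuous_gi (m : ℕ) : Continuous (gi m) := (contDiff_gi m (k := 0)).continuous

theorem gi_nonneg (m : ℕ) (x : ℝ) : 0 ≤ gi m x := by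
  unfold gi
  positivity

theorem gi_le_one (m : ℕ) (x : ℝ) : gi m x ≤ 1 :=
  pow_le_one₀ (by positivity) (inv_le_one_of_one_le₀ (sqrt_ge_one x))

theorem gi_le (m : ℕ) (x : ℝ) : gi m x ≤ (1 + x ^ 2)⁻¹ := by
  have h1 := sqrt_ge_one x
  have h2 : (Real.sqrt (1 + x ^ 2))⁻¹ ^ (m + 3) ≤ (Real.sqrt (1 + x ^ 2))⁻¹ ^ 2 :=
    pow_le_pow_of_le_one (by positivity) (inv_le_one_of_one_le₀ h1) (by omega)
  have h3 : (Real.sqrt (1 + x ^ 2))⁻¹ ^ 2 = (1 + x ^ 2)⁻¹ := by
    rw [inv_pow, Real.sq_sqrt (one_add_sq_pos' x).le]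
  rw [h3] at h2
  exact h2

/-- The primitive of `gi`. -/
noncomputable def Gi (m : ℕ) (x : ℝ) : ℝ := ∫ t in (0 : ℝ)..x, gi m t

theorem hasDerivAt_Gi (m : ℕ) (x : ℝ) : HasDerivAt (Gi m) (gi m x) x :=
  intervalIntegral.integral_hasDerivAt_right ((continuous_gi m).intervalIntegrable _ _)
    ((continuous_gi m).stronglyMeasurableAtFilter _ _) (continuous_gi m).continuousAt

theorem contDiff_Gi (m : ℕ) : ContDiff ℝ ∞ (Gi m) := by
  rw [contDiff_infty_iff_deriv]
  refine ⟨fun x => (hasDerivAt_Gi m x).differentiableAt, ?_⟩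
  have : deriv (Gi m) = gi m := by
    funext x
    exact (hasDerivAt_Gi m x).deriv
  rw [this]
  exact contDiff_gi m

/-- The derivative of the integrand. -/
theorem hasDerivAt_gi (m : ℕ) (x : ℝ) :
    HasDerivAt (gi m) (-((m + 3) * x * (1 + x ^ 2)⁻¹ * gi m x)) x := by
  have hp := one_add_sq_pos' x
  have hs := Real.sqrt_pos.2 hp
  have h1 : HasDerivAt (fun x : ℝ => 1 + x ^ 2) (2 * x) x := by
    simpa using ((hasDerivAt_id x).pow 2).const_add 1
  have h2 := (h1.sqrt hp.ne').fun_inv hs.ne'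
  have h3 := h2.fun_pow (m + 3)
  refine h3.congr_deriv ?_
  have e : (1 + x ^ 2) = Real.sqrt (1 + x ^ 2) ^ 2 := (Real.sq_sqrt hp.le).symm
  have e3 : (Real.sqrt (1 + x ^ 2))⁻¹ ^ (m + 3)
      = (Real.sqrt (1 + x ^ 2))⁻¹ ^ (m + 2) * (Real.sqrt (1 + x ^ 2))⁻¹ := pow_succ _ _
  have e4 : m + 3 - 1 = m + 2 := by omega
  rw [gi, e3, e4]
  generalize (Real.sqrt (1 + x ^ 2))⁻¹ ^ (m + 2) = w
  set s := Real.sqrt (1 + x ^ 2) with hsd
  rw [e]
  push_cast
  field_simp

variable {m : ℕ}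

/-- `H` in terms of the primitive. -/
theorem Hb_eq (ε : ℝ) (y : E (m + 3)) :
    Hb ε y = Gi m (lin (Real.sqrt (1 - 4 * ε ^ 2))⁻¹ (2 * ε * (Real.sqrt (1 - 4 * ε ^ 2))⁻¹) y)
      - Gi m (lin (Real.sqrt (1 - 4 * ε ^ 2))⁻¹ (-(2 * ε * (Real.sqrt (1 - 4 * ε ^ 2))⁻¹)) y) := by
  have h : ∀ a b : ℝ, IntervalIntegrable (gi m) MeasureTheory.volume a b := fun a b =>
    (continuous_gi m).intervalIntegrable a b
  rw [Gi, Gi, intervalIntegral.integral_interval_sub_left (h _ _) (h _ _)]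
  have e1 : (y 0 - 2 * ε * y0 y) / Real.sqrt (1 - 4 * ε ^ 2)
      = lin (Real.sqrt (1 - 4 * ε ^ 2))⁻¹ (-(2 * ε * (Real.sqrt (1 - 4 * ε ^ 2))⁻¹)) y := by
    simp only [lin, div_eq_mul_inv]
    ring
  have e2 : (y 0 + 2 * ε * y0 y) / Real.sqrt (1 - 4 * ε ^ 2)
      = lin (Real.sqrt (1 - 4 * ε ^ 2))⁻¹ (2 * ε * (Real.sqrt (1 - 4 * ε ^ 2))⁻¹) y := by
    simp only [lin, div_eq_mul_inv]
    ring
  rw [← e1, ← e2]
  rfl

/-- A primitive of `gi` of a linear function with `a² - b² = 1` is harmonic. -/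
theorem lap0_Gi {a b : ℝ} (h : a ^ 2 - b ^ 2 = 1) (y : E (m + 3)) :
    lap0 (fun z => Gi m (lin a b z)) y = 0 := by
  rw [lap0_comp (contDiff_lin a b) (fun z => hasDerivAt_Gi m _) (hasDerivAt_gi m _), lap0_lin,
    gam0_lin, h]
  have := one_add_sq_pos' (lin a b y)
  field_simp
  ring

theorem lap0_sub {f g : E (m + 3) → ℝ} (hf : ContDiff ℝ ∞ f) (hg : ContDiff ℝ ∞ g)
    (y : E (m + 3)) : lap0 (fun z => f z - g z) y = lap0 f y - lap0 g y := by
  have hfd : ∀ z, DifferentiableAt ℝ f z := fun z => (hf.differentiable (by simp)) z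
  have hgd : ∀ z, DifferentiableAt ℝ g z := fun z => (hg.differentiable (by simp)) z
  have hfp : ∀ j z, DifferentiableAt ℝ (pd j f) z := fun j z =>
    ((contDiff_pd hf j).differentiable (by simp)) z
  have hgp : ∀ j z, DifferentiableAt ℝ (pd j g) z := fun j z =>
    ((contDiff_pd hg j).differentiable (by simp)) z
  have e1 : ∀ j, pd j (fun z => f z - g z) = fun z => pd j f z - pd j g z := by
    intro j
    funext z
    exact pd_sub j (hfd z) (hgd z)
  have e2 : ∀ i j, pd i (fun z => pd j (fun z => f z - g z) z) y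
      = pd i (fun z => pd j f z) y - pd i (fun z => pd j g z) y := by
    intro i j
    rw [e1 j, pd_sub i (hfp j y) (hgp j y)]
  simp only [lap0, e2, pd_sub _ (hfd y) (hgd y), mul_sub, Finset.sum_sub_distrib]
  ring

theorem Jd_sub {f g : E (m + 3) → ℝ} {y : E (m + 3)} (hf : DifferentiableAt ℝ f y)
    (hg : DifferentiableAt ℝ g y) : Jd (fun z => f z - g z) y = Jd f y - Jd g y := by
  simp only [Jd, pd_sub _ hf hg, mul_sub, Finset.sum_sub_distrib]

/-- Upper bound of the integral. -/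
theorem int_le {a b M : ℝ} (hab : a ≤ b) (h : ∀ x ∈ Set.Icc a b, gi m x ≤ M) :
    ∫ x in a..b, gi m x ≤ (b - a) * M := by
  have h1 := intervalIntegral.integral_mono_on (μ := MeasureTheory.volume) hab
    ((continuous_gi m).intervalIntegrable a b)
    (continuous_const.intervalIntegrable a b) h
  simpa using h1

end BarhM

open HypM BarsM BarhM

/-- BARH. -/
theorem specBarh (hL : SpecLapa) : SpecBarh := by
  intro m T htau hlam ε hε hε8
  have hc : 0 < 1 - 4 * ε ^ 2 := by nlinarith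
  set r : ℝ := Real.sqrt (1 - 4 * ε ^ 2) with hr
  have hr0 : 0 < r := Real.sqrt_pos.2 hc
  have hr2 : r ^ 2 = 1 - 4 * ε ^ 2 := Real.sq_sqrt hc.le
  have hr1 : r ≤ 1 := by nlinarith
  set f1 : E (m + 3) → ℝ := fun z => Gi m (lin r⁻¹ (2 * ε * r⁻¹) z) with hf1
  set f2 : E (m + 3) → ℝ := fun z => Gi m (lin r⁻¹ (-(2 * ε * r⁻¹)) z) with hf2
  have hH : Hb ε (m := m) = fun z => f1 z - f2 z := by
    funext z
    exact Hb_eq ε z
  have hs1 : ContDiff ℝ ∞ f1 := (contDiff_Gi m).comp (contDiff_lin _ _)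
  have hs2 : ContDiff ℝ ∞ f2 := (contDiff_Gi m).comp (contDiff_lin _ _)
  have hsm : ContDiff ℝ ∞ (Hb ε (m := m)) := by
    rw [hH]
    exact hs1.sub hs2
  refine ⟨hsm, ?_⟩
  intro y
  have hy := y0_pos y
  have hd1 : ∀ z, DifferentiableAt ℝ f1 z := fun z => (hs1.differentiable (by simp)) z
  have hd2 : ∀ z, DifferentiableAt ℝ f2 z := fun z => (hs2.differentiable (by simp)) z
  have hJ : ∀ z, Jd (Hb ε (m := m)) z = 0 := by
    intro z
    rw [hH, Jd_sub (hd1 z) (hd2 z), hf1, hf2,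
      Jd_comp ((contDiff_lin _ _ (k := 1)).differentiable one_ne_zero z) (hasDerivAt_Gi m _)
        (Jd_lin _ _ z),
      Jd_comp ((contDiff_lin _ _ (k := 1)).differentiable one_ne_zero z) (hasDerivAt_Gi m _)
        (Jd_lin _ _ z), sub_zero]
  have hab : r⁻¹ ^ 2 - (2 * ε * r⁻¹) ^ 2 = 1 := by
    have : r⁻¹ ^ 2 - (2 * ε * r⁻¹) ^ 2 = (1 - 4 * ε ^ 2) * (r ^ 2)⁻¹ := by
      rw [← inv_pow]; ring
    rw [this, ← hr2]
    exact mul_inv_cancel₀ (by positivity)
  have hab' : r⁻¹ ^ 2 - (-(2 * ε * r⁻¹)) ^ 2 = 1 := by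
    rw [neg_sq]; exact hab
  have hlap : lap (gA T) (Hb ε) y = 0 := by
    rw [((hL m T htau hlam y).2.1 (Hb ε) hsm.contDiffAt (Filter.Eventually.of_forall hJ)).1,
      hH, lap0_sub hs1 hs2, hf1, hf2, lap0_Gi hab, lap0_Gi hab', sub_zero]
  -- the interval
  set P : ℝ := (y 0 + 2 * ε * y0 y) / r with hP
  set Q : ℝ := (y 0 - 2 * ε * y0 y) / r with hQ
  have hHi : Hb ε y = ∫ x in Q..P, gi m x := rfl
  have hPQ : P - Q = 4 * ε * y0 y / r := by
    rw [hP, hQ]; ring
  have hQP : Q ≤ P := by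
    have : 0 ≤ 4 * ε * y0 y / r := by positivity
    linarith
  have hr89 : 8 / 9 ≤ r := by
    by_contra hcon
    push Not at hcon
    have : r ^ 2 < (8 / 9) ^ 2 := pow_lt_pow_left₀ hcon hr0.le two_ne_zero
    nlinarith
  have hPQ2 : P - Q ≤ 9 / 2 * ε * y0 y := by
    rw [hPQ, div_le_iff₀ hr0]
    have h1 : 4 * ε * y0 y = 9 / 2 * ε * y0 y * (8 / 9) := by ring
    rw [h1]
    apply mul_le_mul_of_nonneg_left hr89
    positivity
  -- dividing by `r` increases absolute values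
  have hdiv : ∀ u v : ℝ, 0 ≤ u → u ≤ v → u ≤ v / r := by
    intro u v hu huv
    rw [le_div_iff₀ hr0]
    have : u * r ≤ u * 1 := mul_le_mul_of_nonneg_left hr1 hu
    linarith
  refine ⟨hlap, ?_, ?_, ?_, ?_⟩
  · rw [hHi]
    exact intervalIntegral.integral_nonneg hQP fun x _ => gi_nonneg m x
  · intro ht h1
    have hz : |y 0| ≤ ε * y0 y := by
      rw [tk, abs_div, abs_of_pos hy, div_le_iff₀ hy] at ht
      exact ht
    rw [abs_le] at hz
    have hP1 : 1 ≤ P := hdiv _ _ zero_le_one (by linarith)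
    have hQ1 : Q ≤ -1 := by
      have := hdiv 1 (2 * ε * y0 y - y 0) zero_le_one (by linarith)
      have e : Q = -((2 * ε * y0 y - y 0) / r) := by rw [hQ]; ring
      rw [e]; linarith
    have h2 : ∫ x in (-1 : ℝ)..1, gi m x ≤ ∫ x in Q..P, gi m x :=
      intervalIntegral.integral_mono_interval hQ1 (by norm_num) hP1
        (Filter.Eventually.of_forall fun x => gi_nonneg m x)
        ((continuous_gi m).intervalIntegrable _ _)
    have h3 : ∀ x ∈ Set.Icc (-1 : ℝ) 1, (1 / 2 : ℝ) ^ (m + 3) ≤ gi m x := by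
      intro x hx
      have hx2 : 1 + x ^ 2 ≤ 2 ^ 2 := by nlinarith [hx.1, hx.2]
      have hs : Real.sqrt (1 + x ^ 2) ≤ 2 := by
        rw [Real.sqrt_le_left (by norm_num)]
        exact hx2
      have hs0 := Real.sqrt_pos.2 (one_add_sq_pos' x)
      unfold gi
      apply pow_le_pow_left₀ (by norm_num)
      rw [one_div]
      exact inv_anti₀ hs0 hs
    have h4 := intervalIntegral.integral_mono_on (μ := MeasureTheory.volume)
      (by norm_num : (-1 : ℝ) ≤ 1) (continuous_const.intervalIntegrable (-1) 1)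
      ((continuous_gi m).intervalIntegrable (-1) 1) h3
    rw [intervalIntegral.integral_const, smul_eq_mul] at h4
    have h5 : (0 : ℝ) < (1 / 2) ^ (m + 3) := by positivity
    rw [hHi]
    linarith
  · intro h2
    have h3 := int_le (m := m) hQP fun x _ => gi_le_one m x
    rw [hHi]
    have h4 : 9 / 2 * ε * y0 y ≤ 9 / 2 * ε * 2 :=
      mul_le_mul_of_nonneg_left h2 (by positivity)
    linarith
  · intro ht
    have hz : 1 / 2 * y0 y ≤ |y 0| := by
      rw [tk, abs_div, abs_of_pos hy, le_div_iff₀ hy] at ht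
      exact ht
    have hε2 : 2 * ε * y0 y ≤ 1 / 4 * y0 y :=
      mul_le_mul_of_nonneg_right (by linarith) hy.le
    have hx : ∀ x ∈ Set.Icc Q P, (y0 y / 4) ^ 2 ≤ x ^ 2 := by
      intro x hx
      rcases abs_cases (y 0) with ⟨h, _⟩ | ⟨h, _⟩
      · rw [h] at hz
        have hQ4 : y0 y / 4 ≤ Q := hdiv _ _ (by positivity) (by linarith)
        exact pow_le_pow_left₀ (by positivity) (hQ4.trans hx.1) 2
      · rw [h] at hz
        have h5 := hdiv (y0 y / 4) (-(y 0 + 2 * ε * y0 y)) (by positivity) (by linarith)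
        have e : P = -(-(y 0 + 2 * ε * y0 y) / r) := by rw [hP]; ring
        have hP4 : P ≤ -(y0 y / 4) := by rw [e]; linarith
        have h6 : y0 y / 4 ≤ -x := by linarith [hx.2]
        have h7 := pow_le_pow_left₀ (by positivity) h6 2
        rw [neg_sq] at h7
        exact h7
    have h3 := int_le (m := m) (M := (1 + (y0 y / 4) ^ 2)⁻¹) hQP fun x hx' =>
      (gi_le m x).trans (inv_anti₀ (by positivity) (by linarith [hx x hx']))
    rw [hHi]
    refine h3.trans ?_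
    have h8 : 0 < (1 + (y0 y / 4) ^ 2) := by positivity
    rw [← div_eq_mul_inv, div_le_iff₀ h8]
    refine hPQ2.trans ?_
    have h9 : 0 ≤ 9 * ε * (y0 y / 4 - 1) ^ 2 := by positivity
    nlinarith

end Pool.Agent.Lib.MPdbccd7
end

section
/-!
# MAT: inverse, determinant, smoothness and positivity of the twisted metric
-/
open scoped Manifold ContDiff Matrix

namespace Pool.Agent.Lib.MPdbccd7

namespace MatM

open HypM Finset

variable {m : ℕ}

theorem v1 : ((1 : Fin (m + 3)) : ℕ) = 1 := rfl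

theorem v2 : ((2 : Fin (m + 3)) : ℕ) = 2 := rfl

theorem ne01 : (0 : Fin (m + 3)) ≠ 1 := by
  intro h
  have h2 := congrArg Fin.val h
  rw [v1] at h2
  simp at h2

theorem ne02 : (0 : Fin (m + 3)) ≠ 2 := by
  intro h
  have h2 := congrArg Fin.val h
  rw [v2] at h2
  simp at h2

theorem ne12 : (1 : Fin (m + 3)) ≠ 2 := by
  intro h
  have h2 := congrArg Fin.val h
  rw [v2, v1] at h2
  omega

/-- The vector `e_0`. -/
def e0 (i : Fin (m + 3)) : ℝ := if i = 0 then 1 else 0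

theorem Jv_zero (y : E (m + 3)) : Jv y 0 = 0 := by
  simp [Jv, ne02]

theorem Jv_one (y : E (m + 3)) : Jv y 1 = - y 2 := by
  simp [Jv]

theorem Jv_two (y : E (m + 3)) : Jv y 2 = y 1 := by
  simp [Jv, ne12.symm]

theorem sum_Jv_mul (y : E (m + 3)) (f : Fin (m + 3) → ℝ) :
    ∑ i, Jv y i * f i = - y 2 * f 1 + y 1 * f 2 := by
  have h : ∀ i, Jv y i * f i = (if i = 1 then - y 2 * f i else 0)
      + (if i = 2 then y 1 * f i else 0) := by
    intro i
    unfold Jv
    by_cases h1 : i = 1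
    · subst h1
      simp [ne12]
    · by_cases h2 : i = 2
      · subst h2
        simp [ne12.symm]
      · simp [h1, h2]
  simp only [h, sum_add_distrib, sum_ite_eq', mem_univ, if_true]

theorem sum_y_Jv (y : E (m + 3)) : ∑ i, y i * Jv y i = 0 := by
  have h := sum_Jv_mul y (fun i => y i)
  simp only [mul_comm] at h ⊢
  rw [h]
  ring

theorem sum_Jv_sq (y : E (m + 3)) : ∑ i, Jv y i * Jv y i = wsq y := by
  rw [sum_Jv_mul, Jv_one, Jv_two]
  unfold wsq
  ring

theorem sum_y_sq (y : E (m + 3)) : ∑ i, y i * y i = y0 y ^ 2 - 1 := by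
  rw [y0_sq]
  simp [pow_two]

theorem sum_e0_mul (f : Fin (m + 3) → ℝ) : ∑ i, e0 i * f i = f 0 := by
  simp [e0]

theorem Av_eq (T : Tw) (y : E (m + 3)) (i : Fin (m + 3)) :
    Av T y i = bb T y * (e0 i - tk y * y i / y0 y) := by
  have := y0_pos y
  unfold Av bb dtk tk e0
  field_simp

theorem sum_Av_Jv (T : Tw) (y : E (m + 3)) : ∑ i, Av T y i * Jv y i = 0 := by
  have h : ∀ i, Av T y i * Jv y i
      = bb T y * (e0 i * Jv y i) - bb T y * tk y / y0 y * (y i * Jv y i) := by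
    intro i
    rw [Av_eq]
    ring
  simp only [h, sum_sub_distrib, ← mul_sum, sum_y_Jv, sum_e0_mul, Jv_zero]
  ring

theorem sum_Av_y (T : Tw) (y : E (m + 3)) : ∑ i, Av T y i * y i = bb T y * tk y / y0 y := by
  have h : ∀ i, Av T y i * y i
      = bb T y * (e0 i * y i) - bb T y * tk y / y0 y * (y i * y i) := by
    intro i
    rw [Av_eq]
    ring
  simp only [h, sum_sub_distrib, ← mul_sum, sum_y_sq, sum_e0_mul]
  have := y0_pos y
  unfold tk
  field_simp
  ring

/-- `A + (A·y) y = b e_0`. -/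
theorem Av_add (T : Tw) (y : E (m + 3)) (i : Fin (m + 3)) :
    Av T y i + bb T y * tk y / y0 y * y i = bb T y * e0 i := by
  rw [Av_eq]
  ring

theorem Av_zero (T : Tw) (y : E (m + 3)) : Av T y 0 = bb T y * (1 - tk y ^ 2) := by
  have := y0_pos y
  rw [Av_eq]
  unfold e0 tk
  simp only [if_true]
  field_simp

theorem Nn_eq (T : Tw) (y : E (m + 3)) : Nn T y = bb T y * Av T y 0 := by
  rw [Av_zero]
  unfold Nn
  ring

/-- The inverse matrix. -/
noncomputable def GA (T : Tw) (y : E (m + 3)) : Matrix (Fin (m + 3)) (Fin (m + 3)) ℝ :=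
  Matrix.of fun i j => (if i = j then 1 else 0) + y i * y j
      - bb T y * (Jv y i * e0 j + e0 i * Jv y j)
      + Nn T y * Jv y i * Jv y j

theorem gA_apply (T : Tw) (y : E (m + 3)) (i j : Fin (m + 3)) :
    gA T y i j = gH y i j + Av T y i * Jv y j + Jv y i * Av T y j
      + wsq y * Av T y i * Av T y j := rfl

/-- The quadratic form of `gA`. -/
theorem sum_gA (T : Tw) (y : E (m + 3)) (i : Fin (m + 3)) (f : Fin (m + 3) → ℝ) :
    ∑ k, gA T y i k * f k = f i - y i / y0 y ^ 2 * (∑ k, y k * f k)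
      + Av T y i * (∑ k, Jv y k * f k) + Jv y i * (∑ k, Av T y k * f k)
      + wsq y * Av T y i * (∑ k, Av T y k * f k) := by
  have h : ∀ k, gA T y i k * f k = (if i = k then f k else 0) - y i / y0 y ^ 2 * (y k * f k)
      + Av T y i * (Jv y k * f k) + Jv y i * (Av T y k * f k)
      + wsq y * Av T y i * (Av T y k * f k) := by
    intro k
    rw [gA_apply, gH_apply]
    split_ifs <;> ring
  simp only [h, sum_add_distrib, sum_sub_distrib, ← mul_sum, sum_ite_eq, mem_univ, if_true]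

theorem gA_mul_GA (T : Tw) (y : E (m + 3)) : gA T y * GA T y = 1 := by
  have hy := y0_pos y
  ext i j
  rw [Matrix.mul_apply, sum_gA]
  have hg : ∀ k, GA T y k j = (if k = j then 1 else 0) + y k * y j
      - bb T y * (Jv y k * e0 j + e0 k * Jv y j) + Nn T y * Jv y k * Jv y j := fun k => rfl
  have h1 : ∑ k, y k * GA T y k j = y0 y ^ 2 * y j - bb T y * y 0 * Jv y j := by
    have h : ∀ k, y k * GA T y k j = (if k = j then y k else 0) + y j * (y k * y k)
        - bb T y * e0 j * (y k * Jv y k) - bb T y * Jv y j * (e0 k * y k)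
        + Nn T y * Jv y j * (y k * Jv y k) := by
      intro k
      rw [hg]
      split_ifs <;> ring
    simp only [h, sum_add_distrib, sum_sub_distrib, ← mul_sum, sum_ite_eq', mem_univ, if_true,
      sum_y_sq, sum_y_Jv, sum_e0_mul]
    ring
  have h2 : ∑ k, Jv y k * GA T y k j = Jv y j - bb T y * wsq y * e0 j
      + Nn T y * wsq y * Jv y j := by
    have h : ∀ k, Jv y k * GA T y k j = (if k = j then Jv y k else 0) + y j * (y k * Jv y k)
        - bb T y * e0 j * (Jv y k * Jv y k) - bb T y * Jv y j * (e0 k * Jv y k)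
        + Nn T y * Jv y j * (Jv y k * Jv y k) := by
      intro k
      rw [hg]
      split_ifs <;> ring
    simp only [h, sum_add_distrib, sum_sub_distrib, ← mul_sum, sum_ite_eq', mem_univ, if_true,
      sum_Jv_sq, sum_y_Jv, sum_e0_mul, Jv_zero]
    ring
  have h3 : ∑ k, Av T y k * GA T y k j = bb T y * e0 j - Nn T y * Jv y j := by
    have h : ∀ k, Av T y k * GA T y k j = (if k = j then Av T y k else 0)
        + y j * (Av T y k * y k)
        - bb T y * e0 j * (Av T y k * Jv y k) - bb T y * Jv y j * (e0 k * Av T y k)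
        + Nn T y * Jv y j * (Av T y k * Jv y k) := by
      intro k
      rw [hg]
      split_ifs <;> ring
    simp only [h, sum_add_distrib, sum_sub_distrib, ← mul_sum, sum_ite_eq', mem_univ, if_true,
      sum_Av_Jv, sum_Av_y, sum_e0_mul]
    rw [Nn_eq, ← Av_add]
    ring
  rw [h1, h2, h3, hg, Matrix.one_apply]
  have hA : Av T y i = bb T y * e0 i - bb T y * tk y / y0 y * y i := by
    rw [← Av_add]
    ring
  have ht : y 0 = tk y * y0 y := by
    unfold tk
    field_simp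
  rw [hA, ht]
  field_simp
  ring

theorem inv_gA (T : Tw) (y : E (m + 3)) : (gA T y)⁻¹ = GA T y :=
  Matrix.inv_eq_right_inv (gA_mul_GA T y)

/-! ### The determinant -/

theorem det_one_add (u v : Fin (m + 3) → ℝ) :
    (1 + Matrix.vecMulVec u v).det = 1 + ∑ i, v i * u i := by
  rw [Matrix.vecMulVec_eq Unit, Matrix.det_one_add_replicateCol_mul_replicateRow]
  rfl

theorem det_gH (y : E (m + 3)) : (gH y).det = 1 / y0 y ^ 2 := by
  have hy := y0_pos y
  have h : gH y = 1 + Matrix.vecMulVec (fun i => - (y i / y0 y ^ 2)) (fun i => y i) := by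
    ext i j
    rw [gH_apply, Matrix.add_apply, Matrix.one_apply, Matrix.vecMulVec_apply]
    ring
  rw [h, det_one_add]
  have h2 : ∀ i, y i * (-(y i / y0 y ^ 2)) = - (1 / y0 y ^ 2) * (y i * y i) := by
    intro i
    ring
  simp only [h2, ← mul_sum, sum_y_sq]
  field_simp
  ring

theorem gA_factor (T : Tw) (y : E (m + 3)) :
    gA T y = (1 + Matrix.vecMulVec (Av T y) (Jv y)) * gH y
      * (1 + Matrix.vecMulVec (Jv y) (Av T y)) := by
  have h1 : ∀ i k, ((1 + Matrix.vecMulVec (Av T y) (Jv y)) * gH y) i k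
      = gH y i k + Av T y i * Jv y k := by
    intro i k
    rw [Matrix.mul_apply]
    have h : ∀ l, (1 + Matrix.vecMulVec (Av T y) (Jv y)) i l * gH y l k
        = (if i = l then gH y l k else 0) + (if l = k then Av T y i * Jv y l else 0)
          - Av T y i * y k / y0 y ^ 2 * (y l * Jv y l) := by
      intro l
      rw [Matrix.add_apply, Matrix.one_apply, Matrix.vecMulVec_apply, gH_apply]
      split_ifs <;> ring
    simp only [h, sum_add_distrib, sum_sub_distrib, ← mul_sum, sum_ite_eq, sum_ite_eq', mem_univ,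
      if_true, sum_y_Jv]
    ring
  ext i j
  rw [Matrix.mul_apply]
  have h : ∀ k, ((1 + Matrix.vecMulVec (Av T y) (Jv y)) * gH y) i k
      * (1 + Matrix.vecMulVec (Jv y) (Av T y)) k j
      = (if k = j then gH y i k + Av T y i * Jv y k else 0)
        + (if i = k then Jv y k * Av T y j else 0)
        - y i / y0 y ^ 2 * Av T y j * (y k * Jv y k)
        + Av T y i * Av T y j * (Jv y k * Jv y k) := by
    intro k
    rw [h1, Matrix.add_apply, Matrix.one_apply, Matrix.vecMulVec_apply, gH_apply]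
    split_ifs <;> ring
  simp only [h, sum_add_distrib, sum_sub_distrib, ← mul_sum, sum_ite_eq, sum_ite_eq', mem_univ,
    if_true, sum_y_Jv, sum_Jv_sq, gA_apply]
  ring

theorem det_gA (T : Tw) (y : E (m + 3)) : (gA T y).det = 1 / y0 y ^ 2 := by
  rw [gA_factor, Matrix.det_mul, Matrix.det_mul, det_one_add, det_one_add, det_gH]
  have h := sum_Av_Jv T y
  have h2 : ∑ i, Jv y i * Av T y i = 0 := by
    simp only [mul_comm (Jv y _)]
    exact h
  rw [h, h2]
  ring

/-! ### Positivity -/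

theorem gA_symm (T : Tw) (y : E (m + 3)) (i j : Fin (m + 3)) : gA T y i j = gA T y j i := by
  rw [gA_apply, gA_apply, gH_symm]
  ring

theorem posDef_gA (T : Tw) (y : E (m + 3)) : (gA T y).PosDef := by
  have hy := y0_pos y
  refine Matrix.PosDef.of_dotProduct_mulVec_pos ?_ ?_
  · ext i j
    rw [Matrix.conjTranspose_apply, gA_symm]
    simp
  · intro x hx
    -- the vector `x' = x + A(x) J`
    set a : ℝ := ∑ k, Av T y k * x k with ha
    set x' : Fin (m + 3) → ℝ := fun i => x i + a * Jv y i with hx'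
    have hq : star x ⬝ᵥ (gA T y *ᵥ x) = (∑ i, x' i * x' i) - (∑ i, y i * x' i) ^ 2 / y0 y ^ 2 := by
      have h1 : star x ⬝ᵥ (gA T y *ᵥ x) = ∑ i, x i * ∑ k, gA T y i k * x k := rfl
      have h2 : ∀ i, x i * ∑ k, gA T y i k * x k = x i * x i
          - 1 / y0 y ^ 2 * (∑ k, y k * x k) * (y i * x i)
          + (∑ k, Jv y k * x k) * (Av T y i * x i) + a * (Jv y i * x i)
          + wsq y * a * (Av T y i * x i) := by
        intro i
        rw [sum_gA]
        ring
      have h3 : ∀ i, x' i * x' i = x i * x i + 2 * a * (Jv y i * x i)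
          + a ^ 2 * (Jv y i * Jv y i) := by
        intro i
        simp only [hx']
        ring
      have h4 : ∀ i, y i * x' i = y i * x i + a * (y i * Jv y i) := by
        intro i
        simp only [hx']
        ring
      rw [h1]
      simp only [h2, h3, h4, sum_add_distrib, sum_sub_distrib, ← mul_sum, sum_Jv_sq, sum_y_Jv,
        ← ha]
      ring
    have hne : ∃ i, x' i ≠ 0 := by
      by_contra hcon
      push Not at hcon
      have ha0 : a = 0 := by
        have h1 : ∑ i, Av T y i * x' i = a := by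
          have h2 : ∀ i, Av T y i * x' i = Av T y i * x i + a * (Av T y i * Jv y i) := by
            intro i
            simp only [hx']
            ring
          simp only [h2, sum_add_distrib, ← mul_sum, sum_Av_Jv, ← ha]
          ring
        rw [← h1]
        exact sum_eq_zero fun i _ => by rw [hcon i, mul_zero]
      apply hx
      funext i
      have := hcon i
      simp only [hx', ha0, zero_mul, add_zero] at this
      exact this
    obtain ⟨i0, hi0⟩ := hne
    have hpos : 0 < ∑ i, x' i * x' i := by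
      have h1 : x' i0 * x' i0 ≤ ∑ i, x' i * x' i :=
        single_le_sum (f := fun i => x' i * x' i) (fun i _ => mul_self_nonneg _) (mem_univ i0)
      have h2 : 0 < x' i0 * x' i0 := mul_self_pos.2 hi0
      linarith
    have hcs : (∑ i, y i * x' i) ^ 2 ≤ (∑ i, y i ^ 2) * (∑ i, x' i ^ 2) :=
      sum_mul_sq_le_sq_mul_sq _ _ _
    have e1 : ∑ i, y i ^ 2 = y0 y ^ 2 - 1 := by rw [y0_sq]; ring
    have e2 : ∑ i, x' i ^ 2 = ∑ i, x' i * x' i := by simp [pow_two]
    rw [e1, e2] at hcs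
    rw [hq]
    have h3 : (∑ i, y i * x' i) ^ 2 / y0 y ^ 2 < ∑ i, x' i * x' i := by
      rw [div_lt_iff₀ (by positivity)]
      nlinarith
    linarith

/-! ### Smoothness -/

theorem contDiff_tk : ContDiff ℝ ∞ (tk (m := m)) := by
  unfold tk
  exact (contDiff_coord 0).div contDiff_y0 fun y => (y0_pos y).ne'

theorem contDiff_rk : ContDiff ℝ ∞ (rk (m := m)) := by
  unfold rk
  exact contDiff_y0.log fun y => (y0_pos y).ne'

theorem contDiff_wsq : ContDiff ℝ ∞ (wsq (m := m)) := by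
  unfold wsq
  exact ((contDiff_coord 1).pow 2).add ((contDiff_coord 2).pow 2)

theorem contDiff_Jv (i : Fin (m + 3)) : ContDiff ℝ ∞ (fun y : E (m + 3) => Jv y i) := by
  unfold Jv
  split_ifs
  · exact (contDiff_coord 2).neg
  · exact contDiff_coord 1
  · exact contDiff_const

theorem contDiff_deriv {f : ℝ → ℝ} (h : ContDiff ℝ ∞ f) : ContDiff ℝ ∞ (deriv f) := by
  have h2 := (contDiff_infty_iff_deriv (𝕜 := ℝ)).1 h
  exact h2.2

theorem contDiff_bb (T : Tw) (hτ : ContDiff ℝ ∞ T.tau) (hl : ContDiff ℝ ∞ T.lam) :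
    ContDiff ℝ ∞ (bb T (m := m)) := by
  unfold bb
  exact ((hl.comp contDiff_rk).mul ((contDiff_deriv hτ).comp contDiff_tk)).div contDiff_y0
    fun y => (y0_pos y).ne'

theorem contDiff_Nn (T : Tw) (hτ : ContDiff ℝ ∞ T.tau) (hl : ContDiff ℝ ∞ T.lam) :
    ContDiff ℝ ∞ (Nn T (m := m)) := by
  unfold Nn
  exact ((contDiff_bb T hτ hl).pow 2).mul (contDiff_const.sub (contDiff_tk.pow 2))

theorem contDiff_Av (T : Tw) (hτ : ContDiff ℝ ∞ T.tau) (hl : ContDiff ℝ ∞ T.lam)
    (i : Fin (m + 3)) : ContDiff ℝ ∞ (fun y : E (m + 3) => Av T y i) := by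
  have h : (fun y : E (m + 3) => Av T y i)
      = fun y => bb T y * (e0 i - tk y * y i / y0 y) := by
    funext y
    exact Av_eq T y i
  rw [h]
  exact (contDiff_bb T hτ hl).mul (contDiff_const.sub
    ((contDiff_tk.mul (contDiff_coord i)).div contDiff_y0 fun y => (y0_pos y).ne'))

theorem contDiff_gA (T : Tw) (hτ : ContDiff ℝ ∞ T.tau) (hl : ContDiff ℝ ∞ T.lam)
    (i j : Fin (m + 3)) : ContDiff ℝ ∞ (fun y : E (m + 3) => gA T y i j) := by
  have h : (fun y : E (m + 3) => gA T y i j)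
      = fun y => gH y i j + Av T y i * Jv y j + Jv y i * Av T y j
        + wsq y * Av T y i * Av T y j := rfl
  rw [h]
  have h1 := contDiff_Av (m := m) T hτ hl
  have h2 := contDiff_Jv (m := m)
  exact (((contDiff_gH i j).add ((h1 i).mul (h2 j))).add ((h2 i).mul (h1 j))).add
    ((contDiff_wsq.mul (h1 i)).mul (h1 j))

theorem metAt_gA (T : Tw) (hτ : ContDiff ℝ ∞ T.tau) (hl : ContDiff ℝ ∞ T.lam)
    (y : E (m + 3)) : MetAt (gA T) y :=
  ⟨fun i j => (contDiff_gA T hτ hl i j).contDiffAt, Filter.Eventually.of_forall (posDef_gA T)⟩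

end MatM

theorem specMat : SpecMat := by
  intro m T hτ hl y
  refine ⟨fun i j => ?_, MatM.det_gA T y, fun i j => MatM.contDiff_gA T hτ hl i j,
    MatM.posDef_gA T y⟩
  rw [MatM.inv_gA]
  rfl

end Pool.Agent.Lib.MPdbccd7
end

section
/-!
# LAPA: the Laplacian of the twisted metric
-/
open scoped Manifold ContDiff Matrix Topology

namespace Pool.Agent.Lib.MPdbccd7

namespace LapaM

open HypM C0 MatM Finset

variable {m : ℕ} {f g : E (m + 3) → ℝ} {y : E (m + 3)}

/-! ### The derivative along `J` -/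

theorem Jd_add (hf : DifferentiableAt ℝ f y) (hg : DifferentiableAt ℝ g y) :
    Jd (fun z => f z + g z) y = Jd f y + Jd g y := by
  simp only [Jd, pd_add _ hf hg, mul_add, sum_add_distrib]

theorem Jd_mul (hf : DifferentiableAt ℝ f y) (hg : DifferentiableAt ℝ g y) :
    Jd (fun z => f z * g z) y = Jd f y * g y + f y * Jd g y := by
  simp only [Jd, pd_mul _ hf hg, mul_add, sum_add_distrib, sum_mul, mul_sum]
  congr 1 <;> refine sum_congr rfl fun i _ => ?_ <;> ring

theorem Jd_comp {φ : ℝ → ℝ} {φ' : ℝ} (hφ : HasDerivAt φ φ' (f y))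
    (hf : DifferentiableAt ℝ f y) : Jd (fun z => φ (f z)) y = φ' * Jd f y := by
  simp only [Jd, pd_comp _ hφ hf, mul_sum]
  refine sum_congr rfl fun i _ => ?_
  ring

theorem Jd_const (c : ℝ) (y : E (m + 3)) : Jd (fun _ => c) y = 0 := by
  simp [Jd, pd_const]

theorem Jd_congr (h : f =ᶠ[𝓝 y] g) : Jd f y = Jd g y := by
  simp only [Jd, pd_congr _ h]

theorem Jd_coord (k : Fin (m + 3)) (y : E (m + 3)) : Jd (fun z => z k) y = Jv y k := by
  simp [Jd, pd_coord]

theorem Jd_y0 (y : E (m + 3)) : Jd y0 y = 0 := by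
  have hy := y0_pos y
  have h : ∀ i, Jv y i * pd i y0 y = 1 / y0 y * (y i * Jv y i) := by
    intro i
    rw [pd_y0]
    ring
  simp only [Jd, h, ← mul_sum, sum_y_Jv, mul_zero]

theorem Jd_div_y0 (hf : DifferentiableAt ℝ f y) :
    Jd (fun z => f z / y0 z) y = Jd f y / y0 y := by
  have hy := y0_pos y
  have h : (fun z => f z / y0 z) = fun z => f z * (y0 z)⁻¹ := by
    funext z
    exact div_eq_mul_inv _ _
  have h2 : Jd (fun z : E (m + 3) => (y0 z)⁻¹) y = 0 := by
    rw [Jd_comp (φ := fun t => t⁻¹) (hasDerivAt_inv hy.ne') (diff_y0 y), Jd_y0, mul_zero]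
  rw [h, Jd_mul hf ((diff_y0 y).fun_inv hy.ne'), h2]
  ring

theorem diff_tk (y : E (m + 3)) : DifferentiableAt ℝ (tk (m := m)) y :=
  contDiff_tk.differentiable (by simp) y

theorem diff_rk (y : E (m + 3)) : DifferentiableAt ℝ (rk (m := m)) y :=
  contDiff_rk.differentiable (by simp) y

theorem Jd_tk (y : E (m + 3)) : Jd tk y = 0 := by
  have h : Jd tk y = Jd (fun z : E (m + 3) => z 0 / y0 z) y := rfl
  rw [h, Jd_div_y0 (diff_coord 0 y), Jd_coord, Jv_zero, zero_div]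

theorem Jd_rk (y : E (m + 3)) : Jd rk y = 0 := by
  have h : Jd rk y = Jd (fun z : E (m + 3) => Real.log (y0 z)) y := rfl
  rw [h, Jd_comp (Real.hasDerivAt_log (y0_pos y).ne') (diff_y0 y), Jd_y0, mul_zero]

theorem Jd_of_rk {φ : ℝ → ℝ} (hφ : Differentiable ℝ φ) (y : E (m + 3)) :
    Jd (fun z => φ (rk z)) y = 0 := by
  rw [Jd_comp (hφ _).hasDerivAt (diff_rk y), Jd_rk, mul_zero]

theorem Jd_of_tk {φ : ℝ → ℝ} (hφ : Differentiable ℝ φ) (y : E (m + 3)) :
    Jd (fun z => φ (tk z)) y = 0 := by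
  rw [Jd_comp (hφ _).hasDerivAt (diff_tk y), Jd_tk, mul_zero]

variable {T : Tw}

theorem diff_bb (hτ : ContDiff ℝ ∞ T.tau) (hl : ContDiff ℝ ∞ T.lam) (y : E (m + 3)) :
    DifferentiableAt ℝ (bb T (m := m)) y :=
  (contDiff_bb T hτ hl).differentiable (by simp) y

theorem diff_Nn (hτ : ContDiff ℝ ∞ T.tau) (hl : ContDiff ℝ ∞ T.lam) (y : E (m + 3)) :
    DifferentiableAt ℝ (Nn T (m := m)) y :=
  (contDiff_Nn T hτ hl).differentiable (by simp) y

theorem Jd_bb (hτ : ContDiff ℝ ∞ T.tau) (hl : ContDiff ℝ ∞ T.lam) (y : E (m + 3)) :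
    Jd (bb T) y = 0 := by
  have h1 : Differentiable ℝ T.lam := hl.differentiable (by simp)
  have h2 : Differentiable ℝ (deriv T.tau) := (contDiff_deriv hτ).differentiable (by simp)
  have h3 : DifferentiableAt ℝ (fun z : E (m + 3) => T.lam (rk z)) y :=
    (h1 _).comp y (diff_rk y)
  have h4 : DifferentiableAt ℝ (fun z : E (m + 3) => deriv T.tau (tk z)) y :=
    (h2 _).comp y (diff_tk y)
  have h : Jd (bb T) y
      = Jd (fun z : E (m + 3) => T.lam (rk z) * deriv T.tau (tk z) / y0 z) y := rfl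
  rw [h, Jd_div_y0 (f := fun z : E (m + 3) => T.lam (rk z) * deriv T.tau (tk z))
    (h3.fun_mul h4), Jd_mul h3 h4, Jd_of_rk h1, Jd_of_tk h2]
  ring

theorem Jd_Nn (hτ : ContDiff ℝ ∞ T.tau) (hl : ContDiff ℝ ∞ T.lam) (y : E (m + 3)) :
    Jd (Nn T) y = 0 := by
  have h1 : DifferentiableAt ℝ (fun z : E (m + 3) => bb T z ^ 2) y := (diff_bb hτ hl y).pow 2
  have h2 : DifferentiableAt ℝ (fun z : E (m + 3) => 1 - tk z ^ 2) y :=
    (differentiableAt_const _).sub ((diff_tk y).pow 2)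
  have h3 : Jd (fun z : E (m + 3) => bb T z ^ 2) y = 0 := by
    rw [Jd_comp (φ := fun t => t ^ 2) (hasDerivAt_pow 2 _) (diff_bb hτ hl y), Jd_bb hτ hl,
      mul_zero]
  have h4 : Jd (fun z : E (m + 3) => 1 - tk z ^ 2) y = 0 :=
    Jd_of_tk (φ := fun t => 1 - t ^ 2) (by fun_prop) y
  have h : Jd (Nn T) y = Jd (fun z : E (m + 3) => bb T z ^ 2 * (1 - tk z ^ 2)) y := rfl
  rw [h, Jd_mul h1 h2, h3, h4]
  ring

/-! ### Derivatives of the components of `J` -/

theorem diff_Jv (k : Fin (m + 3)) (y : E (m + 3)) :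
    DifferentiableAt ℝ (fun z : E (m + 3) => Jv z k) y :=
  (contDiff_Jv k).differentiable (by simp) y

theorem pd_Jv (i k : Fin (m + 3)) (y : E (m + 3)) :
    pd i (fun z => Jv z k) y = if k = 1 then (if i = 2 then -1 else 0)
      else if k = 2 then (if i = 1 then 1 else 0) else 0 := by
  by_cases h1 : k = 1
  · subst h1
    have h : (fun z : E (m + 3) => Jv z 1) = fun z => - z 2 := by
      funext z
      exact Jv_one z
    rw [h, pd_neg (f := fun z : E (m + 3) => z 2), pd_coord]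
    by_cases h3 : i = 2 <;> simp [h3]
  · by_cases h2 : k = 2
    · subst h2
      have h : (fun z : E (m + 3) => Jv z 2) = fun z => z 1 := by
        funext z
        exact Jv_two z
      rw [h, pd_coord]
      simp [ne12.symm]
    · have h : (fun z : E (m + 3) => Jv z k) = fun _ => 0 := by
        funext z
        simp [Jv, h1, h2]
      rw [h, pd_const]
      simp [h1, h2]

theorem pd_Jv_self (i : Fin (m + 3)) (y : E (m + 3)) : pd i (fun z => Jv z i) y = 0 := by
  rw [pd_Jv]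
  by_cases h1 : i = 1
  · subst h1
    simp [ne12]
  · by_cases h2 : i = 2
    · subst h2
      simp [ne12.symm]
    · simp [h1, h2]

theorem pd_zero_Jv (k : Fin (m + 3)) (y : E (m + 3)) : pd 0 (fun z => Jv z k) y = 0 := by
  rw [pd_Jv]
  simp [ne02]

theorem Jd_Jv (k : Fin (m + 3)) (y : E (m + 3)) :
    Jd (fun z => Jv z k) y = - (if k = 1 ∨ k = 2 then y k else 0) := by
  unfold Jd
  rw [sum_Jv_mul, pd_Jv, pd_Jv]
  by_cases h1 : k = 1
  · subst h1
    simp [ne12]
  · by_cases h2 : k = 2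
    · subst h2
      simp [ne12.symm]
    · simp [h1, h2]

/-- `J` is divergence free. -/
theorem div_J (hf : DifferentiableAt ℝ f y) :
    ∑ i, pd i (fun z => Jv z i * f z) y = Jd f y := by
  unfold Jd
  refine sum_congr rfl fun i _ => ?_
  rw [pd_mul i (diff_Jv i y) hf, pd_Jv_self]
  ring

theorem cd_pd (hf : ContDiffAt ℝ ∞ f y) (i : Fin (m + 3)) : ContDiffAt ℝ ∞ (pd i f) y :=
  contDiffAt_pd i hf (by simp)

theorem cd_Jd (hf : ContDiffAt ℝ ∞ f y) : ContDiffAt ℝ ∞ (Jd f) y :=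
  ContDiffAt.sum fun i _ => (contDiff_Jv i).contDiffAt.mul (cd_pd hf i)

theorem df_of (hf : ContDiffAt ℝ ∞ f y) : DifferentiableAt ℝ f y :=
  hf.differentiableAt (by simp)

theorem pd_zero_Jd (hf : ContDiffAt ℝ ∞ f y) : pd 0 (Jd f) y = Jd (pd 0 f) y := by
  have h : Jd f = fun z => ∑ i, Jv z i * pd i f z := rfl
  rw [h, pd_sum _ 0 fun i _ => (diff_Jv i y).fun_mul (df_of (cd_pd hf i))]
  unfold Jd
  refine sum_congr rfl fun i _ => ?_
  rw [pd_mul 0 (diff_Jv i y) (df_of (cd_pd hf i)), pd_zero_Jv, pd_pd_comm 0 i (cd2At hf)]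
  ring

/-! ### The function `b / y₀` -/

theorem pd_tk_zero (y : E (m + 3)) : pd 0 tk y = (1 - tk y ^ 2) / y0 y := by
  have hy := y0_pos y
  have h : pd 0 tk y = pd 0 (kl (n := m + 3) 0) y := rfl
  rw [h, pd_kl]
  simp only [if_true]
  unfold tk
  field_simp

theorem pd_rk (i : Fin (m + 3)) (y : E (m + 3)) : pd i rk y = y i / y0 y ^ 2 := pd_lg i y

theorem pd_tk (i : Fin (m + 3)) (y : E (m + 3)) : pd i tk y = dtk y i := by
  have hy := y0_pos y
  have h : pd i tk y = pd i (kl (n := m + 3) 0) y := rfl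
  rw [h, pd_kl]
  unfold dtk
  ring

/-- `y₀ ∂_0 (b / y₀) = div A`. -/
theorem pd_zero_bb (hτ : ContDiff ℝ ∞ T.tau) (hl : ContDiff ℝ ∞ T.lam) (y : E (m + 3)) :
    y0 y * pd 0 (fun z => (y0 z)⁻¹ * bb T z) y = dA T y := by
  have hy := y0_pos y
  have h1 : Differentiable ℝ T.lam := hl.differentiable (by simp)
  have h2 : Differentiable ℝ (deriv T.tau) := (contDiff_deriv hτ).differentiable (by simp)
  have h3 : DifferentiableAt ℝ (fun z : E (m + 3) => T.lam (rk z)) y :=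
    (h1 _).comp y (diff_rk y)
  have h4 : DifferentiableAt ℝ (fun z : E (m + 3) => deriv T.tau (tk z)) y :=
    (h2 _).comp y (diff_tk y)
  have h7 : DifferentiableAt ℝ (fun z : E (m + 3) => y0 z ^ 2) y := (diff_y0 y).fun_pow 2
  have h8 : y0 y ^ 2 ≠ 0 := by positivity
  have h5 : DifferentiableAt ℝ (fun z : E (m + 3) => (y0 z ^ 2)⁻¹) y := h7.fun_inv h8
  have h6 : pd 0 (fun z : E (m + 3) => (y0 z ^ 2)⁻¹) y = - (2 * y 0) / y0 y ^ 4 := by
    rw [pd_comp (f := fun z : E (m + 3) => y0 z ^ 2) (φ := fun t => t⁻¹) 0 (hasDerivAt_inv h8) h7,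
      pd_y0sq]
    field_simp
  have e : (fun z : E (m + 3) => (y0 z)⁻¹ * bb T z)
      = fun z => (T.lam (rk z) * deriv T.tau (tk z)) * (y0 z ^ 2)⁻¹ := by
    funext z
    have := y0_pos z
    unfold bb
    field_simp
  rw [e, pd_mul 0 (h3.fun_mul h4) h5, pd_mul 0 h3 h4, h6,
    pd_comp 0 (h1 _).hasDerivAt (diff_rk y), pd_comp 0 (h2 _).hasDerivAt (diff_tk y),
    pd_tk_zero, pd_rk]
  unfold dA tk
  field_simp
  ring

/-! ### The Laplacian -/

theorem sqrt_det_gA (T : Tw) (y : E (m + 3)) : Real.sqrt (gA T y).det = (y0 y)⁻¹ := by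
  have hy := y0_pos y
  rw [MatM.det_gA, Real.sqrt_div zero_le_one, Real.sqrt_one, Real.sqrt_sq hy.le, one_div]

/-- The difference of the inverse matrices. -/
noncomputable def KA (T : Tw) (y : E (m + 3)) (i j : Fin (m + 3)) : ℝ :=
  - (bb T y * (Jv y i * e0 j + e0 i * Jv y j)) + Nn T y * Jv y i * Jv y j

theorem inv_gA_eq (T : Tw) (y : E (m + 3)) (i j : Fin (m + 3)) :
    (gA T y)⁻¹ i j = (gH y)⁻¹ i j + KA T y i j := by
  rw [inv_gA, inv_gH]
  unfold GA GH KA
  simp only [Matrix.of_apply]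
  ring

theorem lap_gA (hτ : ContDiff ℝ ∞ T.tau) (hl : ContDiff ℝ ∞ T.lam)
    (hf : ContDiffAt ℝ ∞ f y) : lap (gA T) f y = LA T f y := by
  have hy := y0_pos y
  have hinv : DifferentiableAt ℝ (fun z : E (m + 3) => (y0 z)⁻¹) y :=
    (diff_y0 y).fun_inv hy.ne'
  have hb := diff_bb hτ hl y
  have hN := diff_Nn hτ hl y
  have hKA : ∀ i j, DifferentiableAt ℝ (fun z => KA T z i j) y := by
    intro i j
    unfold KA
    exact ((hb.fun_mul (((diff_Jv i y).fun_mul (differentiableAt_const _)).fun_add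
      ((differentiableAt_const _).fun_mul (diff_Jv j y)))).fun_neg).fun_add
      ((hN.fun_mul (diff_Jv i y)).fun_mul (diff_Jv j y))
  have hpf : ∀ j, DifferentiableAt ℝ (pd j f) y := fun j => df_of (cd_pd hf j)
  have hGH : ∀ i j, DifferentiableAt ℝ (fun z : E (m + 3) => (gH z)⁻¹ i j) y := by
    intro i j
    have h : (fun z : E (m + 3) => (gH z)⁻¹ i j)
        = fun z => (if i = j then (1 : ℝ) else 0) + z i * z j := by
      funext z
      rw [inv_gH]
      rfl
    rw [h]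
    exact (differentiableAt_const _).fun_add ((diff_coord i y).fun_mul (diff_coord j y))
  -- split the divergence
  have h1 : ∀ i j, pd i (fun z => Real.sqrt (gA T z).det * (gA T z)⁻¹ i j * pd j f z) y
      = pd i (fun z => Real.sqrt (gH z).det * (gH z)⁻¹ i j * pd j f z) y
        + pd i (fun z => (y0 z)⁻¹ * KA T z i j * pd j f z) y := by
    intro i j
    rw [← pd_add i _ ((hinv.fun_mul (hKA i j)).fun_mul (hpf j))]
    · congr 1
      funext z
      rw [sqrt_det_gA, sqrt_det_gH, inv_gA_eq]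
      ring
    · have h : (fun z : E (m + 3) => Real.sqrt (gH z).det * (gH z)⁻¹ i j * pd j f z)
          = fun z => (y0 z)⁻¹ * (gH z)⁻¹ i j * pd j f z := by
        funext z
        rw [sqrt_det_gH]
      rw [h]
      exact (hinv.fun_mul (hGH i j)).fun_mul (hpf j)
  have h2 : lap (gA T) f y = lap gH f y
      + y0 y * ∑ i, ∑ j, pd i (fun z => (y0 z)⁻¹ * KA T z i j * pd j f z) y := by
    unfold lap
    simp only [h1, sum_add_distrib]
    rw [sqrt_det_gA, sqrt_det_gH, inv_inv]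
    ring
  -- the additional part
  set φ1 : E (m + 3) → ℝ := fun z => (y0 z)⁻¹ * bb T z with hφ1
  set φ2 : E (m + 3) → ℝ := fun z => (y0 z)⁻¹ * Nn T z with hφ2
  have d1 : DifferentiableAt ℝ φ1 y := hinv.fun_mul hb
  have d2 : DifferentiableAt ℝ φ2 y := hinv.fun_mul hN
  have dJ : DifferentiableAt ℝ (Jd f) y := df_of (cd_Jd hf)
  have J1 : Jd φ1 y = 0 := by
    rw [hφ1, Jd_mul hinv hb, Jd_bb hτ hl,
      Jd_comp (φ := fun t => t⁻¹) (hasDerivAt_inv hy.ne') (diff_y0 y), Jd_y0]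
    ring
  have J2 : Jd φ2 y = 0 := by
    rw [hφ2, Jd_mul hinv hN, Jd_Nn hτ hl,
      Jd_comp (φ := fun t => t⁻¹) (hasDerivAt_inv hy.ne') (diff_y0 y), Jd_y0]
    ring
  have h3 : ∀ i, ∑ j, pd i (fun z => (y0 z)⁻¹ * KA T z i j * pd j f z) y
      = - pd i (fun z => Jv z i * (φ1 z * pd 0 f z)) y
        - e0 i * pd i (fun z => φ1 z * Jd f z) y
        + pd i (fun z => Jv z i * (φ2 z * Jd f z)) y := by
    intro i
    rw [← pd_sum _ i fun j _ => (hinv.fun_mul (hKA i j)).fun_mul (hpf j)]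
    have e1 : (fun z => ∑ j, (y0 z)⁻¹ * KA T z i j * pd j f z)
        = fun z => (- (Jv z i * (φ1 z * pd 0 f z)) - e0 i * (φ1 z * Jd f z))
          + Jv z i * (φ2 z * Jd f z) := by
      funext z
      have e2 : ∀ j, (y0 z)⁻¹ * KA T z i j * pd j f z
          = - (Jv z i * φ1 z) * (e0 j * pd j f z) - (e0 i * φ1 z) * (Jv z j * pd j f z)
            + (Jv z i * φ2 z) * (Jv z j * pd j f z) := by
        intro j
        simp only [KA, hφ1, hφ2]
        ring
      simp only [e2, sum_add_distrib, sum_sub_distrib, ← mul_sum, sum_e0_mul]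
      unfold Jd
      ring
    have k1 : DifferentiableAt ℝ (fun z => Jv z i * (φ1 z * pd 0 f z)) y :=
      (diff_Jv i y).fun_mul (d1.fun_mul (hpf 0))
    have k2 : DifferentiableAt ℝ (fun z => φ1 z * Jd f z) y := d1.fun_mul dJ
    have k3 : DifferentiableAt ℝ (fun z => Jv z i * (φ2 z * Jd f z)) y :=
      (diff_Jv i y).fun_mul (d2.fun_mul dJ)
    rw [e1, pd_add i (k1.fun_neg.fun_sub (k2.const_mul _)) k3,
      pd_sub i k1.fun_neg (k2.const_mul _), pd_neg, pd_const_mul i _ k2]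
  have h4 : ∑ i, ∑ j, pd i (fun z => (y0 z)⁻¹ * KA T z i j * pd j f z) y
      = - (φ1 y * pd 0 (Jd f) y) - (pd 0 φ1 y * Jd f y + φ1 y * pd 0 (Jd f) y)
        + φ2 y * Jd (Jd f) y := by
    simp only [h3, sum_add_distrib, sum_sub_distrib, sum_neg_distrib]
    rw [div_J (f := fun z => φ1 z * pd 0 f z) (d1.fun_mul (hpf 0)),
      div_J (f := fun z => φ2 z * Jd f z) (d2.fun_mul dJ), Jd_mul d1 (hpf 0), Jd_mul d2 dJ,
      sum_e0_mul, pd_mul 0 d1 dJ, J1, J2, pd_zero_Jd hf]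
    ring
  have h5 : y0 y * φ1 y = bb T y := by
    simp only [hφ1]
    field_simp
  have h6 : y0 y * φ2 y = Nn T y := by
    simp only [hφ2]
    field_simp
  have h7 : y0 y * pd 0 φ1 y = dA T y := pd_zero_bb hτ hl y
  rw [h2, h4, lap_gH (cd2At hf), ← lap0_eq]
  unfold LA
  rw [← h5, ← h6, ← h7]
  ring

theorem gam_gA (T : Tw) (f g : E (m + 3) → ℝ) (y : E (m + 3)) :
    gam (gA T) f g y = gam0 f g y - bb T y * (Jd f y * pd 0 g y + pd 0 f y * Jd g y)
      + Nn T y * (Jd f y * Jd g y) := by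
  have h : ∀ i j, (gA T y)⁻¹ i j * pd i f y * pd j g y
      = ((if i = j then 1 else 0) + y i * y j) * (pd i f y * pd j g y)
        + (- (bb T y * (Jv y i * pd i f y)) * (e0 j * pd j g y)
        - (bb T y * (e0 i * pd i f y)) * (Jv y j * pd j g y)
        + (Nn T y * (Jv y i * pd i f y)) * (Jv y j * pd j g y)) := by
    intro i j
    rw [inv_gA]
    unfold GA
    simp only [Matrix.of_apply]
    ring
  unfold gam
  simp only [h, sum_add_distrib, sum_sub_distrib, ← mul_sum, sum_e0_mul]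
  rw [sum_form_gr0, gam0_eq]
  have h2 : ∑ j, Jv y j * pd j g y = Jd g y := rfl
  simp only [h2, ← sum_mul, ← mul_sum, sum_neg_distrib, sum_e0_mul]
  have h3 : ∑ j, Jv y j * pd j f y = Jd f y := rfl
  rw [h3]
  ring

end LapaM

theorem specLapa : SpecLapa := by
  intro m T hτ hl y
  refine ⟨fun f hf => LapaM.lap_gA hτ hl hf, fun f hf hJ => ?_, fun k => ?_⟩
  · have h0 : Jd f =ᶠ[𝓝 y] fun _ => 0 := hJ
    have h1 : Jd f y = 0 := h0.eq_of_nhds
    have h2 : pd 0 (Jd f) y = 0 := by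
      rw [C0.pd_congr 0 h0, HypM.pd_const]
    have h3 : Jd (Jd f) y = 0 := by
      rw [LapaM.Jd_congr h0, LapaM.Jd_const]
    constructor
    · rw [LapaM.lap_gA hτ hl hf]
      unfold LA
      rw [h1, h2, h3]
      ring
    · rw [LapaM.gam_gA, h1]
      ring
  · have h1 : Jd (fun z : E (m + 3) => z k) = fun z => Jv z k := by
      funext z
      exact LapaM.Jd_coord k z
    rw [LapaM.lap_gA hτ hl (HypM.contDiff_coord k).contDiffAt]
    unfold LA
    rw [h1, LapaM.pd_zero_Jv, LapaM.Jd_Jv, C0.lap0_eq, C0.lpn_coord]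
    push_cast
    ring

end Pool.Agent.Lib.MPdbccd7
end

section
/-!
# GAUGE: the twisted metric is a pull-back under a rotation
-/
open scoped Manifold ContDiff Matrix Topology

namespace Pool.Agent.Lib.MPdbccd7

namespace GaugeM

open HypM C0 MatM LapaM Finset

variable {m : ℕ}

/-- The rotation matrix. -/
noncomputable def R (θ : ℝ) : Matrix (Fin (m + 3)) (Fin (m + 3)) ℝ :=
  Matrix.of fun i j => if i = 1 then (if j = 1 then Real.cos θ else if j = 2 then - Real.sin θ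
      else 0)
    else if i = 2 then (if j = 1 then Real.sin θ else if j = 2 then Real.cos θ else 0)
    else if i = j then 1 else 0

theorem R_one (θ : ℝ) (j : Fin (m + 3)) :
    R θ 1 j = if j = 1 then Real.cos θ else if j = 2 then - Real.sin θ else 0 := by
  simp [R]

theorem R_two (θ : ℝ) (j : Fin (m + 3)) :
    R θ 2 j = if j = 1 then Real.sin θ else if j = 2 then Real.cos θ else 0 := by
  simp [R, ne12.symm]

theorem R_of_ne (θ : ℝ) {i : Fin (m + 3)} (h1 : i ≠ 1) (h2 : i ≠ 2) (j : Fin (m + 3)) :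
    R θ i j = if i = j then 1 else 0 := by
  simp [R, h1, h2]

theorem sum_two (a b : ℝ) (f : Fin (m + 3) → ℝ) :
    ∑ j, (if j = 1 then a else if j = 2 then b else 0) * f j = a * f 1 + b * f 2 := by
  have h : ∀ j : Fin (m + 3), (if j = 1 then a else if j = 2 then b else 0) * f j
      = (if j = 1 then a * f j else 0) + (if j = 2 then b * f j else 0) := by
    intro j
    by_cases h1 : j = 1
    · subst h1
      simp [ne12]
    · by_cases h2 : j = 2
      · subst h2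
        simp [ne12.symm]
      · simp [h1, h2]
  simp only [h, sum_add_distrib, sum_ite_eq', mem_univ, if_true]

theorem R_mulVec_one (θ : ℝ) (f : Fin (m + 3) → ℝ) :
    ∑ j, R θ 1 j * f j = Real.cos θ * f 1 - Real.sin θ * f 2 := by
  simp only [R_one, sum_two]
  ring

theorem R_mulVec_two (θ : ℝ) (f : Fin (m + 3) → ℝ) :
    ∑ j, R θ 2 j * f j = Real.sin θ * f 1 + Real.cos θ * f 2 := by
  simp only [R_two, sum_two]

theorem R_mulVec_ne (θ : ℝ) {i : Fin (m + 3)} (h1 : i ≠ 1) (h2 : i ≠ 2)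
    (f : Fin (m + 3) → ℝ) : ∑ j, R θ i j * f j = f i := by
  simp [R_of_ne θ h1 h2]

theorem rotE_one (θ : ℝ) (y : E (m + 3)) :
    rotE θ y 1 = Real.cos θ * y 1 - Real.sin θ * y 2 := by
  simp [rotE]

theorem rotE_two (θ : ℝ) (y : E (m + 3)) :
    rotE θ y 2 = Real.sin θ * y 1 + Real.cos θ * y 2 := by
  simp [rotE, ne12.symm]

theorem rotE_ne (θ : ℝ) (y : E (m + 3)) {i : Fin (m + 3)} (h1 : i ≠ 1) (h2 : i ≠ 2) :
    rotE θ y i = y i := by
  simp [rotE, h1, h2]

theorem rotE_eq (θ : ℝ) (y : E (m + 3)) (i : Fin (m + 3)) :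
    rotE θ y i = ∑ j, R θ i j * y j := by
  by_cases h1 : i = 1
  · subst h1
    rw [rotE_one, R_mulVec_one]
  · by_cases h2 : i = 2
    · subst h2
      rw [rotE_two, R_mulVec_two]
    · rw [rotE_ne θ y h1 h2, R_mulVec_ne θ h1 h2]

/-- Sums of products are preserved by the rotation. -/
theorem sum_rot (θ : ℝ) (f g : Fin (m + 3) → ℝ) :
    ∑ i, (∑ j, R θ i j * f j) * (∑ j, R θ i j * g j) = ∑ i, f i * g i := by
  have h : ∀ i, (∑ j, R θ i j * f j) * (∑ j, R θ i j * g j) = f i * g i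
      + (if i = 1 then (Real.cos θ * f 1 - Real.sin θ * f 2)
          * (Real.cos θ * g 1 - Real.sin θ * g 2) - f 1 * g 1
        else if i = 2 then (Real.sin θ * f 1 + Real.cos θ * f 2)
          * (Real.sin θ * g 1 + Real.cos θ * g 2) - f 2 * g 2 else 0) * 1 := by
    intro i
    by_cases h1 : i = 1
    · subst h1
      rw [R_mulVec_one, R_mulVec_one, if_pos rfl]
      ring
    · by_cases h2 : i = 2
      · subst h2
        rw [R_mulVec_two, R_mulVec_two, if_neg ne12.symm, if_pos rfl]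
        ring
      · rw [R_mulVec_ne θ h1 h2, R_mulVec_ne θ h1 h2, if_neg h1, if_neg h2]
        ring
  simp only [h, sum_add_distrib]
  rw [sum_two _ _ fun _ => 1]
  have := Real.sin_sq_add_cos_sq θ
  linear_combination (f 1 * g 1 + f 2 * g 2) * this

theorem Rt_mul_R (θ : ℝ) : (R θ)ᵀ * R (m := m) θ = 1 := by
  ext i j
  rw [Matrix.mul_apply, Matrix.one_apply]
  have h := sum_rot (m := m) θ (fun a => if a = i then 1 else 0) (fun a => if a = j then 1 else 0)
  have h1 : ∀ a b : Fin (m + 3), ∑ c, R θ a c * (if c = b then 1 else 0) = R θ a b := by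
    intro a b
    simp
  simp only [h1] at h
  simp only [Matrix.transpose_apply]
  rw [h]
  simp [eq_comm]

theorem det_R (θ : ℝ) : (R (m := m) θ).det = 1 := by
  have h : R (m := m) θ = 1 + (Matrix.of fun (i : Fin (m + 3)) (a : Fin 2) =>
      if i = 1 then (if a = 0 then (1 : ℝ) else 0) else if i = 2 then (if a = 1 then 1 else 0)
      else 0) * (Matrix.of fun (a : Fin 2) (j : Fin (m + 3)) =>
      if a = 0 then (if j = 1 then Real.cos θ - 1 else if j = 2 then - Real.sin θ else 0)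
      else (if j = 1 then Real.sin θ else if j = 2 then Real.cos θ - 1 else 0)) := by
    ext i j
    rw [Matrix.add_apply, Matrix.mul_apply, Matrix.one_apply, Fin.sum_univ_two]
    simp only [Matrix.of_apply]
    by_cases h1 : i = 1
    · subst h1
      rw [R_one]
      by_cases k1 : j = 1
      · subst k1
        simp
      · by_cases k2 : j = 2
        · subst k2
          simp [ne12, ne12.symm]
        · simp [k1, k2, Ne.symm k1]
    · by_cases h2 : i = 2
      · subst h2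
        rw [R_two]
        by_cases k1 : j = 1
        · subst k1
          simp [ne12.symm]
        · by_cases k2 : j = 2
          · subst k2
            simp [ne12.symm]
          · simp [ne12.symm, k1, k2, Ne.symm k2]
      · rw [R_of_ne θ h1 h2]
        simp [h1, h2]
  rw [h, Matrix.det_one_add_mul_comm, Matrix.det_fin_two]
  have e1 : ∀ f : Fin (m + 3) → ℝ, ∀ a b : ℝ,
      ∑ j, (if j = 1 then a else if j = 2 then b else 0) * f j = a * f 1 + b * f 2 :=
    fun f a b => sum_two a b f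
  simp only [Matrix.add_apply, Matrix.mul_apply, Matrix.of_apply, Matrix.one_apply, if_true]
  simp only [e1, Fin.isValue, one_ne_zero, zero_ne_one, if_false, if_true, ne12.symm]
  have := Real.sin_sq_add_cos_sq θ
  linear_combination this

/-! ### Invariance -/

theorem R_mulVec_Jv (θ : ℝ) (y : E (m + 3)) (i : Fin (m + 3)) :
    ∑ j, R θ i j * Jv y j = Jv (rotE θ y) i := by
  by_cases h1 : i = 1
  · subst h1
    rw [R_mulVec_one, Jv_one, Jv_two, Jv_one, rotE_two]
    ring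
  · by_cases h2 : i = 2
    · subst h2
      rw [R_mulVec_two, Jv_one, Jv_two, Jv_two, rotE_one]
      ring
    · rw [R_mulVec_ne θ h1 h2]
      simp [Jv, h1, h2]

theorem y0_rotE (θ : ℝ) (y : E (m + 3)) : y0 (rotE θ y) = y0 y := by
  unfold y0
  congr 2
  have h := sum_rot (m := m) θ (fun j => y j) (fun j => y j)
  simp only [← rotE_eq] at h
  simpa only [pow_two] using h

theorem rotE_zero_coord (θ : ℝ) (y : E (m + 3)) : (rotE θ y) 0 = y 0 :=
  rotE_ne θ y ne01 ne02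

theorem tk_rotE (θ : ℝ) (y : E (m + 3)) : tk (rotE θ y) = tk y := by
  unfold tk
  rw [y0_rotE, rotE_zero_coord]

theorem rk_rotE (θ : ℝ) (y : E (m + 3)) : rk (rotE θ y) = rk y := by
  unfold rk
  rw [y0_rotE]

theorem bb_rotE (T : Tw) (θ : ℝ) (y : E (m + 3)) : bb T (rotE θ y) = bb T y := by
  unfold bb
  rw [y0_rotE, tk_rotE, rk_rotE]

theorem sum_rotE_R (θ : ℝ) (y : E (m + 3)) (j : Fin (m + 3)) :
    ∑ i, rotE θ y i * R θ i j = y j := by
  have h := sum_rot (m := m) θ (fun a => y a) (fun a => if a = j then 1 else 0)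
  have h1 : ∀ a : Fin (m + 3), ∑ c, R θ a c * (if c = j then 1 else 0) = R θ a j := by
    intro a
    simp
  simp only [h1, ← rotE_eq] at h
  rw [h]
  simp

theorem sum_Av_R (T : Tw) (θ : ℝ) (y : E (m + 3)) (j : Fin (m + 3)) :
    ∑ i, Av T (rotE θ y) i * R θ i j = Av T y j := by
  have h : ∀ i, Av T (rotE θ y) i * R θ i j
      = bb T y * (e0 i * R θ i j) - bb T y * tk y / y0 y * (rotE θ y i * R θ i j) := by
    intro i
    rw [Av_eq, bb_rotE, tk_rotE, y0_rotE]
    ring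
  simp only [h, sum_sub_distrib, ← mul_sum, sum_rotE_R, sum_e0_mul]
  rw [R_of_ne θ ne01 ne02, Av_eq]
  unfold e0
  simp only [eq_comm (a := (0 : Fin (m + 3))) (b := j)]
  ring

theorem Rt_gH_R (θ : ℝ) (y : E (m + 3)) : (R θ)ᵀ * gH (rotE θ y) * R θ = gH y := by
  have h1 : gH (rotE θ y) = 1 - (1 / y0 y ^ 2) • Matrix.vecMulVec (fun i => rotE θ y i)
      (fun i => rotE θ y i) := by
    ext i j
    rw [gH_apply, Matrix.sub_apply, Matrix.one_apply, Matrix.smul_apply, Matrix.vecMulVec_apply,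
      y0_rotE, smul_eq_mul]
    ring
  have h2 : gH y = 1 - (1 / y0 y ^ 2) • Matrix.vecMulVec (fun i => y i) (fun i => y i) := by
    ext i j
    rw [gH_apply, Matrix.sub_apply, Matrix.one_apply, Matrix.smul_apply, Matrix.vecMulVec_apply,
      smul_eq_mul]
    ring
  have h3 : (R θ)ᵀ *ᵥ (fun i => rotE θ y i) = fun i => y i := by
    funext j
    have h4 : ((R θ)ᵀ *ᵥ (fun i => rotE θ y i)) j = ∑ i, R θ i j * rotE θ y i := rfl
    rw [h4, ← sum_rotE_R θ y j]
    exact sum_congr rfl fun i _ => mul_comm _ _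
  have h5 : (fun i => rotE θ y i) ᵥ* R θ = fun i => y i := by
    funext j
    exact sum_rotE_R θ y j
  rw [h1, h2, Matrix.mul_sub, Matrix.sub_mul, Matrix.mul_one, Rt_mul_R, Matrix.mul_smul,
    Matrix.smul_mul, Matrix.mul_vecMulVec, Matrix.vecMulVec_mul, h3, h5]

/-! ### The Jacobian -/

/-- The differential of the angle. -/
noncomputable def dth (T : Tw) (c : ℝ) (y : E (m + 3)) (i : Fin (m + 3)) : ℝ :=
  c * deriv T.tau (tk y) * dtk y i

theorem sum_dth_Jv (T : Tw) (c : ℝ) (y : E (m + 3)) : ∑ i, dth T c y i * Jv y i = 0 := by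
  have h : ∀ i, dth T c y i * Jv y i = c * deriv T.tau (tk y) / y0 y * (e0 i * Jv y i)
      - c * deriv T.tau (tk y) * y 0 / y0 y ^ 3 * (y i * Jv y i) := by
    intro i
    unfold dth dtk e0
    ring
  simp only [h, sum_sub_distrib, ← mul_sum, sum_e0_mul, sum_y_Jv, Jv_zero]
  ring

variable {T : Tw}

theorem contDiff_th (hτ : ContDiff ℝ ∞ T.tau) (c : ℝ) :
    ContDiff ℝ ∞ fun y : E (m + 3) => c * T.tau (tk y) :=
  contDiff_const.mul (hτ.comp MatM.contDiff_tk)

theorem diff_th (hτ : ContDiff ℝ ∞ T.tau) (c : ℝ) (y : E (m + 3)) :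
    DifferentiableAt ℝ (fun y : E (m + 3) => c * T.tau (tk y)) y :=
  (contDiff_th hτ c).differentiable (by simp) y

theorem pd_th (hτ : ContDiff ℝ ∞ T.tau) (c : ℝ) (y : E (m + 3)) (j : Fin (m + 3)) :
    pd j (fun y : E (m + 3) => c * T.tau (tk y)) y = dth T c y j := by
  have h1 : DifferentiableAt ℝ T.tau (tk y) := hτ.differentiable (by simp) _
  have h2 : DifferentiableAt ℝ (fun z : E (m + 3) => T.tau (tk z)) y := h1.comp y (diff_tk y)
  rw [pd_const_mul j c h2, pd_comp j h1.hasDerivAt (diff_tk y), LapaM.pd_tk]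
  unfold dth
  ring

theorem Phi_one (c : ℝ) (y : E (m + 3)) : Phi T c y 1
    = Real.cos (c * T.tau (tk y)) * y 1 - Real.sin (c * T.tau (tk y)) * y 2 := rotE_one _ _

theorem Phi_two (c : ℝ) (y : E (m + 3)) : Phi T c y 2
    = Real.sin (c * T.tau (tk y)) * y 1 + Real.cos (c * T.tau (tk y)) * y 2 := rotE_two _ _

theorem Phi_ne (c : ℝ) (y : E (m + 3)) {i : Fin (m + 3)} (h1 : i ≠ 1) (h2 : i ≠ 2) :
    Phi T c y i = y i := rotE_ne _ _ h1 h2

theorem contDiff_Phi_apply (hτ : ContDiff ℝ ∞ T.tau) (c : ℝ) (i : Fin (m + 3)) :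
    ContDiff ℝ ∞ fun y : E (m + 3) => Phi T c y i := by
  have ht := contDiff_th (m := m) hτ c
  have hc := Real.contDiff_cos.comp ht
  have hs := Real.contDiff_sin.comp ht
  by_cases h1 : i = 1
  · subst h1
    have h : (fun y : E (m + 3) => Phi T c y 1) = fun y =>
        Real.cos (c * T.tau (tk y)) * y 1 - Real.sin (c * T.tau (tk y)) * y 2 := by
      funext y
      exact Phi_one c y
    rw [h]
    exact (hc.mul (contDiff_coord 1)).sub (hs.mul (contDiff_coord 2))
  · by_cases h2 : i = 2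
    · subst h2
      have h : (fun y : E (m + 3) => Phi T c y 2) = fun y =>
          Real.sin (c * T.tau (tk y)) * y 1 + Real.cos (c * T.tau (tk y)) * y 2 := by
        funext y
        exact Phi_two c y
      rw [h]
      exact (hs.mul (contDiff_coord 1)).add (hc.mul (contDiff_coord 2))
    · have h : (fun y : E (m + 3) => Phi T c y i) = fun y => y i := by
        funext y
        exact Phi_ne c y h1 h2
      rw [h]
      exact contDiff_coord i

theorem contDiff_Phi (hτ : ContDiff ℝ ∞ T.tau) (c : ℝ) :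
    ContDiff ℝ ∞ (Phi T c (m := m)) :=
  contDiff_euclidean.2 fun i => contDiff_Phi_apply hτ c i

theorem pd_Phi (hτ : ContDiff ℝ ∞ T.tau) (c : ℝ) (y : E (m + 3)) (i j : Fin (m + 3)) :
    pd j (fun z => Phi T c z i) y
      = R (c * T.tau (tk y)) i j + Jv (Phi T c y) i * dth T c y j := by
  have ht := diff_th (m := m) hτ c y
  have hc : DifferentiableAt ℝ (fun z : E (m + 3) => Real.cos (c * T.tau (tk z))) y :=
    (Real.differentiable_cos _).comp y ht
  have hs : DifferentiableAt ℝ (fun z : E (m + 3) => Real.sin (c * T.tau (tk z))) y :=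
    (Real.differentiable_sin _).comp y ht
  have pc : pd j (fun z : E (m + 3) => Real.cos (c * T.tau (tk z))) y
      = - Real.sin (c * T.tau (tk y)) * dth T c y j := by
    rw [pd_comp (f := fun z : E (m + 3) => c * T.tau (tk z)) j (Real.hasDerivAt_cos _) ht,
      pd_th hτ]
  have ps : pd j (fun z : E (m + 3) => Real.sin (c * T.tau (tk z))) y
      = Real.cos (c * T.tau (tk y)) * dth T c y j := by
    rw [pd_comp (f := fun z : E (m + 3) => c * T.tau (tk z)) j (Real.hasDerivAt_sin _) ht,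
      pd_th hτ]
  by_cases h1 : i = 1
  · subst h1
    have h : (fun y : E (m + 3) => Phi T c y 1) = fun y =>
        Real.cos (c * T.tau (tk y)) * y 1 - Real.sin (c * T.tau (tk y)) * y 2 := by
      funext y
      exact Phi_one c y
    rw [h, pd_sub j (hc.fun_mul (diff_coord 1 y)) (hs.fun_mul (diff_coord 2 y)),
      pd_mul j hc (diff_coord 1 y), pd_mul j hs (diff_coord 2 y), pc, ps, pd_coord, pd_coord,
      R_one, Jv_one, Phi_two]
    by_cases k1 : j = 1
    · subst k1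
      simp only [if_true, ne12, if_false]
      ring
    · by_cases k2 : j = 2
      · subst k2
        simp only [if_true, ne12.symm, if_false]
        ring
      · simp only [k1, k2, if_false]
        ring
  · by_cases h2 : i = 2
    · subst h2
      have h : (fun y : E (m + 3) => Phi T c y 2) = fun y =>
          Real.sin (c * T.tau (tk y)) * y 1 + Real.cos (c * T.tau (tk y)) * y 2 := by
        funext y
        exact Phi_two c y
      rw [h, pd_add j (hs.fun_mul (diff_coord 1 y)) (hc.fun_mul (diff_coord 2 y)),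
        pd_mul j hs (diff_coord 1 y), pd_mul j hc (diff_coord 2 y), pc, ps, pd_coord, pd_coord,
        R_two, Jv_two, Phi_one]
      by_cases k1 : j = 1
      · subst k1
        simp only [if_true, ne12, if_false]
        ring
      · by_cases k2 : j = 2
        · subst k2
          simp only [if_true, ne12.symm, if_false]
          ring
        · simp only [k1, k2, if_false]
          ring
    · have h : (fun y : E (m + 3) => Phi T c y i) = fun y => y i := by
        funext y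
        exact Phi_ne c y h1 h2
      rw [h, pd_coord, R_of_ne _ h1 h2]
      simp only [Jv, h1, h2, if_false, eq_comm (a := j) (b := i)]
      ring

theorem jac_Phi (hτ : ContDiff ℝ ∞ T.tau) (c : ℝ) (y : E (m + 3)) :
    jac (Phi T c) y
      = R (c * T.tau (tk y)) + Matrix.vecMulVec (Jv (Phi T c y)) (dth T c y) := by
  ext i j
  rw [Matrix.add_apply, Matrix.vecMulVec_apply]
  exact pd_Phi hτ c y i j

theorem R_mulVec_Jv' (θ : ℝ) (y : E (m + 3)) : R θ *ᵥ Jv y = Jv (rotE θ y) := by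
  funext i
  exact R_mulVec_Jv θ y i

theorem jac_Phi' (hτ : ContDiff ℝ ∞ T.tau) (c : ℝ) (y : E (m + 3)) :
    jac (Phi T c) y
      = R (c * T.tau (tk y)) * (1 + Matrix.vecMulVec (Jv y) (dth T c y)) := by
  rw [jac_Phi hτ, Matrix.mul_add, Matrix.mul_one, Matrix.mul_vecMulVec, R_mulVec_Jv']
  rfl

theorem det_jac_Phi (hτ : ContDiff ℝ ∞ T.tau) (c : ℝ) (y : E (m + 3)) :
    (jac (Phi T c) y).det = 1 := by
  rw [jac_Phi' hτ, Matrix.det_mul, det_R, det_one_add, sum_dth_Jv]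
  ring

theorem factor_jac (hτ : ContDiff ℝ ∞ T.tau) (c : ℝ) (y : E (m + 3)) :
    (1 + Matrix.vecMulVec (Jv (Phi T c y))
        (Av ⟨T.tau, fun r => T.lam r - c⟩ (Phi T c y))) * jac (Phi T c) y
      = R (c * T.tau (tk y)) * (1 + Matrix.vecMulVec (Jv y) (Av T y)) := by
  set T' : Tw := ⟨T.tau, fun r => T.lam r - c⟩ with hT'
  set θ : ℝ := c * T.tau (tk y) with hθ
  have hP : Phi T c y = rotE θ y := rfl
  have h1 : Av T' (Phi T c y) ᵥ* R θ = Av T' y := by
    funext j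
    exact sum_Av_R T' θ y j
  have h2 : Av T' (Phi T c y) ᵥ* jac (Phi T c) y = Av T' y + 0 := by
    rw [jac_Phi' hτ, ← hθ, ← Matrix.vecMul_vecMul, h1, Matrix.vecMul_add, Matrix.vecMul_one]
    congr 1
    funext j
    have h3 : (Av T' y ᵥ* Matrix.vecMulVec (Jv y) (dth T c y)) j
        = ∑ i, Av T' y i * (Jv y i * dth T c y j) := rfl
    rw [h3]
    have h4 : ∀ i, Av T' y i * (Jv y i * dth T c y j)
        = (Av T' y i * Jv y i) * dth T c y j := fun i => by ring
    simp only [h4, ← sum_mul, sum_Av_Jv, zero_mul]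
    rfl
  rw [Matrix.add_mul, Matrix.one_mul, Matrix.vecMulVec_mul, h2, add_zero, jac_Phi hτ, ← hθ,
    add_assoc, ← Matrix.vecMulVec_add, Matrix.mul_add, Matrix.mul_one, Matrix.mul_vecMulVec,
    R_mulVec_Jv', ← hP]
  congr 2
  funext j
  simp only [Pi.add_apply, Av, dth, hT']
  ring

theorem gauge (hτ : ContDiff ℝ ∞ T.tau) (c : ℝ) (y : E (m + 3)) :
    gA T y = (jac (Phi T c) y)ᵀ * gA ⟨T.tau, fun r => T.lam r - c⟩ (Phi T c y)
        * jac (Phi T c) y := by
  have h1 := factor_jac (m := m) hτ c y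
  have h2 : (jac (Phi T c) y)ᵀ * (1 + Matrix.vecMulVec
        (Av ⟨T.tau, fun r => T.lam r - c⟩ (Phi T c y)) (Jv (Phi T c y)))
      = (1 + Matrix.vecMulVec (Av T y) (Jv y)) * (R (c * T.tau (tk y)))ᵀ := by
    have h3 := congrArg Matrix.transpose h1
    rw [Matrix.transpose_mul, Matrix.transpose_mul, Matrix.transpose_add, Matrix.transpose_add,
      Matrix.transpose_one, Matrix.transpose_vecMulVec, Matrix.transpose_vecMulVec] at h3
    exact h3
  have h4 : (R (c * T.tau (tk y)))ᵀ * gH (Phi T c y) * R (c * T.tau (tk y)) = gH y :=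
    Rt_gH_R _ y
  have e : ∀ P A' G' B' : Matrix (Fin (m + 3)) (Fin (m + 3)) ℝ,
      Pᵀ * (A' * G' * B') * P = (Pᵀ * A') * G' * (B' * P) := by
    intro P A' G' B'
    simp only [Matrix.mul_assoc]
  rw [gA_factor ⟨T.tau, fun r => T.lam r - c⟩ (Phi T c y), gA_factor T y, e, h2, h1, ← h4]
  simp only [Matrix.mul_assoc]

end GaugeM

theorem specGauge : SpecGauge := by
  intro m T c hτ _
  exact ⟨GaugeM.contDiff_Phi hτ c, fun y => ⟨GaugeM.gauge hτ c y, GaugeM.det_jac_Phi hτ c y,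
    GaugeM.y0_rotE _ y, GaugeM.rotE_zero_coord _ y⟩⟩

end Pool.Agent.Lib.MPdbccd7
end

section
/-!
# HEQ: the tension field of a map to hyperbolic space
-/
open scoped Matrix

namespace Pool.Agent.Lib.MPdbccd7

namespace HeqM

variable {n : ℕ}

theorem gH_sum (p : E n) (X Y : Fin n → ℝ) :
    ∑ a, ∑ b, gH p a b * X a * Y b
      = (∑ k, X k * Y k) - (∑ k, p k * X k) * (∑ k, p k * Y k) / y0 p ^ 2 := by
  have h : ∀ a b, gH p a b * X a * Y b
      = (if a = b then X a * Y b else 0) - (p a * X a) * (p b * Y b) / y0 p ^ 2 := by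
    intro a b
    rw [HypM.gH_apply]
    split_ifs <;> ring
  simp only [h, Finset.sum_sub_distrib, Finset.sum_ite_eq, Finset.mem_univ, if_true]
  congr 1
  rw [Finset.sum_mul_sum, Finset.sum_div]
  apply Finset.sum_congr rfl
  intro a _
  rw [Finset.sum_div]

end HeqM

theorem specHeq : SpecHeq := by
  intro n g u k y
  unfold tension tv en
  rw [sub_eq_add_neg]
  congr 1
  rw [Finset.sum_mul, ← Finset.sum_neg_distrib]
  apply Finset.sum_congr rfl
  intro i _
  rw [Finset.sum_mul, ← Finset.sum_neg_distrib]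
  apply Finset.sum_congr rfl
  intro j _
  have h := HeqM.gH_sum (u y) (fun a => pd i (fun z => u z a) y) (fun b => pd j (fun z => u z b) y)
  have h2 : fI u y i j
      = ∑ a, ∑ b, gH (u y) a b * pd i (fun z => u z a) y * pd j (fun z => u z b) y := by
    rw [h]; rfl
  rw [h2, Finset.mul_sum, Finset.sum_mul, ← Finset.sum_neg_distrib]
  apply Finset.sum_congr rfl
  intro a _
  rw [Finset.mul_sum, Finset.sum_mul, ← Finset.sum_neg_distrib]
  apply Finset.sum_congr rfl
  intro b _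
  rw [HypM.chr_gH]
  ring

end Pool.Agent.Lib.MPdbccd7
end

section
/-!
# PBD: bounds for `P = λ² τ'² (1 - t²) |w|² / (y₀² (n - 1))`
-/
open scoped Manifold ContDiff Matrix Topology

namespace Pool.Agent.Lib.MPdbccd7

namespace PbdM

open HypM C0 K0

variable {m : ℕ} {f g : E (m + 3) → ℝ} {y : E (m + 3)} {A B G H : ℝ}

/-- `|f| ≤ A`, and `|df|₀`, `|Δ₀ f|`, `|D f| ≤ G` at the point `y`. -/
structure Bd (f : E (m + 3) → ℝ) (y : E (m + 3)) (A G : ℝ) : Prop where
  cd : ContDiffAt ℝ 2 f y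
  abs : |f y| ≤ A
  gam : Real.sqrt (gam0 f f y) ≤ G
  lap : |lap0 f y| ≤ G
  dd : |Dd f y| ≤ G

theorem Bd.A_nonneg (h : Bd f y A G) : 0 ≤ A := (abs_nonneg _).trans h.abs

theorem Bd.G_nonneg (h : Bd f y A G) : 0 ≤ G := (abs_nonneg _).trans h.lap

theorem Bd.mono (h : Bd f y A G) (hA : A ≤ B) (hG : G ≤ H) : Bd f y B H :=
  ⟨h.cd, h.abs.trans hA, h.gam.trans hG, h.lap.trans hG, h.dd.trans hG⟩

theorem gam0_abs_le (f g : E (m + 3) → ℝ) (y : E (m + 3)) :
    |gam0 f g y| ≤ Real.sqrt (gam0 f f y) * Real.sqrt (gam0 g g y) := by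
  rw [← Real.sqrt_mul (gam0_nonneg f y)]
  refine Real.abs_le_sqrt ?_
  exact gam0_sq_le f g y

theorem Bd.mul (hf : Bd f y A G) (hg : Bd g y B H) :
    Bd (fun z => f z * g z) y (A * B) (B * G + A * H + 2 * (G * H)) := by
  have hA := hf.A_nonneg
  have hB := hg.A_nonneg
  have hG := hf.G_nonneg
  have hH := hg.G_nonneg
  have d1 := diff_of hf.cd
  have d2 := diff_of hg.cd
  set a := Real.sqrt (gam0 f f y) with ha
  set b := Real.sqrt (gam0 g g y) with hb
  have ha0 : 0 ≤ a := Real.sqrt_nonneg _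
  have hb0 : 0 ≤ b := Real.sqrt_nonneg _
  have hgf : |gam0 f g y| ≤ a * b := gam0_abs_le f g y
  have haG : a ≤ G := hf.gam
  have hbH : b ≤ H := hg.gam
  have e1 : |g y| * a ≤ B * G := mul_le_mul hg.abs haG ha0 hB
  have e2 : |f y| * b ≤ A * H := mul_le_mul hf.abs hbH hb0 hA
  have e3 : a * b ≤ G * H := mul_le_mul haG hbH hb0 hG
  have e4 : |g y| * |lap0 f y| ≤ B * G := mul_le_mul hg.abs hf.lap (abs_nonneg _) hB
  have e5 : |f y| * |lap0 g y| ≤ A * H := mul_le_mul hf.abs hg.lap (abs_nonneg _) hA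
  have e6 : |g y| * |Dd f y| ≤ B * G := mul_le_mul hg.abs hf.dd (abs_nonneg _) hB
  have e7 : |f y| * |Dd g y| ≤ A * H := mul_le_mul hf.abs hg.dd (abs_nonneg _) hA
  have hGH : 0 ≤ G * H := mul_nonneg hG hH
  refine ⟨hf.cd.mul hg.cd, ?_, ?_, ?_, ?_⟩
  · rw [abs_mul]
    exact mul_le_mul hf.abs hg.abs (abs_nonneg _) hA
  · have h1 : gam0 (fun z => f z * g z) (fun z => f z * g z) y
        = g y ^ 2 * gam0 f f y + 2 * (f y * g y) * gam0 f g y + f y ^ 2 * gam0 g g y := by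
      rw [gam0_mul_left _ d1 d2, gam0_mul_right _ d1 d2, gam0_mul_right _ d1 d2, gam0_comm g f]
      ring
    have h2 : gam0 (fun z => f z * g z) (fun z => f z * g z) y
        ≤ (|g y| * a + |f y| * b) ^ 2 := by
      have e8 : gam0 f f y = a ^ 2 := (Real.sq_sqrt (gam0_nonneg f y)).symm
      have e9 : gam0 g g y = b ^ 2 := (Real.sq_sqrt (gam0_nonneg g y)).symm
      have e10 : (f y * g y) * gam0 f g y ≤ (|f y| * |g y|) * (a * b) := by
        calc (f y * g y) * gam0 f g y ≤ |(f y * g y) * gam0 f g y| := le_abs_self _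
          _ = (|f y| * |g y|) * |gam0 f g y| := by rw [abs_mul, abs_mul]
          _ ≤ _ := mul_le_mul_of_nonneg_left hgf (by positivity)
      rw [h1, e8, e9]
      have e11 : (|g y| * a + |f y| * b) ^ 2
          = g y ^ 2 * a ^ 2 + 2 * ((|f y| * |g y|) * (a * b)) + f y ^ 2 * b ^ 2 := by
        rw [← sq_abs (g y), ← sq_abs (f y)]
        ring
      rw [e11]
      linarith
    have h3 : 0 ≤ |g y| * a + |f y| * b := by positivity
    calc Real.sqrt (gam0 (fun z => f z * g z) (fun z => f z * g z) y)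
        ≤ |g y| * a + |f y| * b := Real.sqrt_le_iff.2 ⟨h3, h2⟩
      _ ≤ _ := by linarith
  · rw [lap0_mul hf.cd hg.cd]
    calc |g y * lap0 f y + f y * lap0 g y + 2 * gam0 f g y|
        ≤ |g y * lap0 f y| + |f y * lap0 g y| + |2 * gam0 f g y| := abs_add_three _ _ _
      _ = |g y| * |lap0 f y| + |f y| * |lap0 g y| + 2 * |gam0 f g y| := by
        rw [abs_mul, abs_mul, abs_mul, abs_two]
      _ ≤ _ := by linarith
  · rw [Dd_mul d1 d2]
    calc |Dd f y * g y + f y * Dd g y| ≤ |Dd f y * g y| + |f y * Dd g y| := abs_add_le _ _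
      _ = |g y| * |Dd f y| + |f y| * |Dd g y| := by rw [abs_mul, abs_mul, mul_comm]
      _ ≤ _ := by linarith

theorem Bd.const_mul (c : ℝ) (hf : Bd f y A G) :
    Bd (fun z => c * f z) y (|c| * A) (|c| * G) := by
  have d1 := diff_of hf.cd
  refine ⟨contDiffAt_const.mul hf.cd, ?_, ?_, ?_, ?_⟩
  · rw [abs_mul]
    exact mul_le_mul_of_nonneg_left hf.abs (abs_nonneg _)
  · rw [gam0_const_mul_left c _ d1, gam0_const_mul_right c _ d1, ← mul_assoc,
      Real.sqrt_mul (mul_self_nonneg c), Real.sqrt_mul_self_eq_abs]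
    exact mul_le_mul_of_nonneg_left hf.gam (abs_nonneg _)
  · rw [lap0_const_mul c hf.cd, abs_mul]
    exact mul_le_mul_of_nonneg_left hf.lap (abs_nonneg _)
  · rw [Dd_const_mul c d1, abs_mul]
    exact mul_le_mul_of_nonneg_left hf.dd (abs_nonneg _)

/-- Composition with a function of one variable. -/
theorem Bd.comp {φ φ' : ℝ → ℝ} {φ'' a b c : ℝ}
    (h1 : ∀ᶠ z in 𝓝 y, HasDerivAt φ (φ' (f z)) (f z)) (h2 : HasDerivAt φ' φ'' (f y))
    (hs : ContDiffAt ℝ 2 (fun z => φ (f z)) y) (h0 : |φ (f y)| ≤ a) (hb : |φ' (f y)| ≤ b)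
    (hc : |φ''| ≤ c) (hf : Bd f y A G) :
    Bd (fun z => φ (f z)) y a (b * G + c * G ^ 2) := by
  have hG := hf.G_nonneg
  have hb0 : 0 ≤ b := (abs_nonneg _).trans hb
  have hc0 : 0 ≤ c := (abs_nonneg _).trans hc
  have d1 := diff_of hf.cd
  have e1 : 0 ≤ c * G ^ 2 := by positivity
  refine ⟨hs, h0, ?_, ?_, ?_⟩
  · rw [gam0_comp_left _ h1.self_of_nhds d1, gam0_comp_right _ h1.self_of_nhds d1, ← mul_assoc,
      Real.sqrt_mul (mul_self_nonneg _), Real.sqrt_mul_self_eq_abs]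
    have := mul_le_mul hb hf.gam (Real.sqrt_nonneg _) hb0
    linarith
  · rw [lap0_comp h1 h2 hf.cd]
    have e2 : gam0 f f y ≤ G ^ 2 := by
      have := Real.sq_sqrt (gam0_nonneg f y)
      rw [← this]
      exact pow_le_pow_left₀ (Real.sqrt_nonneg _) hf.gam 2
    have e3 : |φ''| * |gam0 f f y| ≤ c * G ^ 2 := by
      rw [abs_of_nonneg (gam0_nonneg f y)]
      exact mul_le_mul hc e2 (gam0_nonneg f y) hc0
    have e4 : |φ' (f y)| * |lap0 f y| ≤ b * G := mul_le_mul hb hf.lap (abs_nonneg _) hb0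
    calc |φ' (f y) * lap0 f y + φ'' * gam0 f f y|
        ≤ |φ' (f y) * lap0 f y| + |φ'' * gam0 f f y| := abs_add_le _ _
      _ = |φ' (f y)| * |lap0 f y| + |φ''| * |gam0 f f y| := by rw [abs_mul, abs_mul]
      _ ≤ _ := by linarith
  · rw [Dd_comp h1.self_of_nhds d1, abs_mul]
    have := mul_le_mul hb hf.dd (abs_nonneg _) hb0
    linarith

/-! ### The three factors -/

theorem inv_le_one (y : E (m + 3)) : 1 / y0 y ≤ 1 := by
  have := one_le_y0 y
  rw [div_le_one (by linarith)]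
  exact this

theorem inv_pos (y : E (m + 3)) : 0 < 1 / y0 y := by
  have := y0_pos y
  positivity

theorem inv_sq_le (y : E (m + 3)) : 1 / y0 y ^ 2 ≤ 1 / y0 y := by
  have h1 := inv_le_one y
  have h2 := inv_pos y
  have : 1 / y0 y ^ 2 = (1 / y0 y) * (1 / y0 y) := by
    field_simp
  rw [this]
  nlinarith

theorem bd_rk (y : E (m + 3)) : Bd rk y (rk y) (m + 3) := by
  have h1 := inv_sq_le y
  have h2 := inv_le_one y
  have h3 : 0 < 1 / y0 y ^ 2 := by have := y0_pos y; positivity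
  have hm : (0 : ℝ) ≤ m := Nat.cast_nonneg m
  refine ⟨contDiff_rk.contDiffAt.of_le (by norm_cast), ?_, ?_, ?_, ?_⟩
  · rw [abs_of_nonneg (show 0 ≤ rk y from lg_nonneg y)]
  · rw [gam0_rk]
    refine Real.sqrt_le_iff.2 ⟨by positivity, ?_⟩
    nlinarith
  · rw [lap0_rk, abs_of_nonneg (by positivity)]
    linarith
  · rw [Dd_rk, abs_of_nonneg (by linarith)]
    linarith

theorem tk_sq_lt (y : E (m + 3)) : tk y ^ 2 < 1 := by
  have := tk_abs_lt y
  rw [← sq_abs]
  have h0 := abs_nonneg (tk y)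
  nlinarith

theorem bd_tk (y : E (m + 3)) : Bd tk y 1 (2 * (1 / y0 y)) := by
  have h1 := inv_sq_le y
  have h2 := inv_le_one y
  have h3 := inv_pos y
  have hy := y0_pos y
  have ht := tk_abs_lt y
  have ht2 := tk_sq_lt y
  refine ⟨contDiff_tk.contDiffAt.of_le (by norm_cast), ht.le, ?_, ?_, ?_⟩
  · rw [gam0_tk, Real.sqrt_div' _ (by positivity), Real.sqrt_sq hy.le]
    have : Real.sqrt (1 - tk y ^ 2) ≤ 1 := by
      refine Real.sqrt_le_one.2 ?_
      nlinarith [sq_nonneg (tk y)]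
    rw [div_le_iff₀ hy]
    have h4 : 2 * (1 / y0 y) * y0 y = 2 := by field_simp
    rw [h4]
    linarith
  · rw [lap0_tk]
    have : |-2 * tk y / y0 y ^ 2| = 2 * |tk y| * (1 / y0 y ^ 2) := by
      rw [abs_div, abs_mul, abs_neg, abs_two, abs_of_pos (pow_pos hy 2)]
      ring
    rw [this]
    nlinarith [abs_nonneg (tk y)]
  · rw [Dd_tk]
    have : |tk y / y0 y ^ 2| = |tk y| * (1 / y0 y ^ 2) := by
      rw [abs_div, abs_of_pos (pow_pos hy 2)]
      ring
    rw [this]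
    nlinarith [abs_nonneg (tk y)]

theorem Nk_le_one (y : E (m + 3)) : Nk y ≤ 1 := by
  have h := Nk_add_tk_sq_le y
  have h3 : 0 < 1 / y0 y ^ 2 := by have := y0_pos y; positivity
  nlinarith [sq_nonneg (tk y)]

theorem bd_Nk (y : E (m + 3)) : Bd Nk y 1 (4 * (1 / y0 y)) := by
  have h1 := inv_sq_le y
  have h2 := inv_le_one y
  have h3 := inv_pos y
  have hy := y0_pos y
  have hN0 := Nk_nonneg y
  have hN1 := Nk_le_one y
  have h4 : 0 < 1 / y0 y ^ 2 := by positivity
  refine ⟨contDiff_Nk.contDiffAt.of_le (by norm_cast), ?_, ?_, ?_, ?_⟩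
  · rw [abs_of_nonneg hN0]
    exact hN1
  · rw [gam0_Nk]
    refine Real.sqrt_le_iff.2 ⟨by positivity, ?_⟩
    have h5 : 4 * Nk y * (1 - Nk y) / y0 y ^ 2 = (4 * Nk y * (1 - Nk y)) * (1 / y0 y) ^ 2 := by
      field_simp
    have h6 : 4 * Nk y * (1 - Nk y) ≤ 16 := by nlinarith
    rw [h5, mul_pow]
    nlinarith [sq_nonneg (1 / y0 y)]
  · rw [lap0_Nk]
    have h5 : (4 - 6 * Nk y) / y0 y ^ 2 = (4 - 6 * Nk y) * (1 / y0 y ^ 2) := by ring
    rw [h5, abs_mul, abs_of_pos h4]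
    have h6 : |4 - 6 * Nk y| ≤ 4 := by
      rw [abs_le]
      constructor <;> linarith
    calc |4 - 6 * Nk y| * (1 / y0 y ^ 2) ≤ 4 * (1 / y0 y ^ 2) :=
          mul_le_mul_of_nonneg_right h6 h4.le
      _ ≤ _ := by linarith
  · rw [Dd_Nk]
    have h5 : 2 * Nk y / y0 y ^ 2 = (2 * Nk y) * (1 / y0 y ^ 2) := by ring
    rw [h5, abs_mul, abs_of_pos h4, abs_of_nonneg (by linarith)]
    calc 2 * Nk y * (1 / y0 y ^ 2) ≤ 2 * (1 / y0 y ^ 2) :=
          mul_le_mul_of_nonneg_right (by linarith) h4.le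
      _ ≤ _ := by linarith

section twist

variable {T : Tw} {C ε κ r1 r2 : ℝ}

/-- `L = λ²`. -/
theorem bd_L (hT : TwOK T C ε κ r1 r2) (y : E (m + 3)) :
    Bd (fun z => T.lam (rk z) ^ 2) y 1 (8 * (m + 3) ^ 2 * κ) := by
  have hl := hT.lsm
  have hl1 : ContDiff ℝ ∞ (deriv T.lam) := ((contDiff_infty_iff_deriv (𝕜 := ℝ)).1 hl).2
  have hκ := hT.hκ
  have d0 : ∀ r, HasDerivAt T.lam (deriv T.lam r) r := fun r =>
    (hl.differentiable (by simp) r).hasDerivAt
  have d1 : ∀ r, HasDerivAt (deriv T.lam) (deriv (deriv T.lam) r) r := fun r =>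
    (hl1.differentiable (by simp) r).hasDerivAt
  have e0 : ∀ r, HasDerivAt (fun x => T.lam x ^ 2) (2 * T.lam r * deriv T.lam r) r := by
    intro r
    have := (d0 r).fun_pow 2
    simpa using this
  have e1 : ∀ r, HasDerivAt (fun x => 2 * T.lam x * deriv T.lam x)
      (2 * deriv T.lam r * deriv T.lam r + 2 * T.lam r * deriv (deriv T.lam) r) r := by
    intro r
    exact ((d0 r).const_mul 2).fun_mul (d1 r)
  have b0 : ∀ r, |T.lam r| ≤ 1 := by
    intro r
    rw [abs_of_nonneg (hT.l01 r).1]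
    exact (hT.l01 r).2
  have hb : |2 * T.lam (rk y) * deriv T.lam (rk y)| ≤ 2 * κ := by
    rw [abs_mul, abs_mul, abs_two]
    have := mul_le_mul (b0 (rk y)) (hT.l1 (rk y)) (abs_nonneg _) zero_le_one
    linarith
  have hc : |2 * deriv T.lam (rk y) * deriv T.lam (rk y)
      + 2 * T.lam (rk y) * deriv (deriv T.lam) (rk y)| ≤ 4 * κ := by
    have f1 : |deriv T.lam (rk y)| * |deriv T.lam (rk y)| ≤ κ * κ :=
      mul_le_mul (hT.l1 _) (hT.l1 _) (abs_nonneg _) hκ.1.le
    have f2 : |T.lam (rk y)| * |deriv (deriv T.lam) (rk y)| ≤ 1 * κ :=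
      mul_le_mul (b0 _) (hT.l2 _) (abs_nonneg _) zero_le_one
    have f3 := abs_add_le (2 * deriv T.lam (rk y) * deriv T.lam (rk y))
      (2 * T.lam (rk y) * deriv (deriv T.lam) (rk y))
    rw [abs_mul, abs_mul, abs_mul, abs_mul, abs_two] at f3
    nlinarith [hκ.1, hκ.2]
  have h0 : |T.lam (rk y) ^ 2| ≤ 1 := by
    rw [abs_pow]
    have := b0 (rk y)
    have h := abs_nonneg (T.lam (rk y))
    nlinarith
  have hs : ContDiffAt ℝ 2 (fun z : E (m + 3) => T.lam (rk z) ^ 2) y :=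
    cd2 ((hl.comp contDiff_rk).pow 2)
  have := Bd.comp (φ := fun x => T.lam x ^ 2) (Filter.Eventually.of_forall fun z => e0 (rk z))
    (e1 (rk y)) hs h0 hb hc (bd_rk y)
  refine this.mono le_rfl ?_
  have hm : (0 : ℝ) ≤ m := Nat.cast_nonneg m
  nlinarith [mul_nonneg hm hκ.1.le, mul_nonneg (mul_nonneg hm hm) hκ.1.le, hκ.1]

/-- `φ(t) = τ'(t)² (1 - t²)`. -/
theorem bd_Q (hT : TwOK T C ε κ r1 r2) (y : E (m + 3)) :
    Bd (fun z => deriv T.tau (tk z) ^ 2 * (1 - tk z ^ 2)) y (C ^ 2 / ε ^ 2)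
      (64 * C ^ 2 / ε ^ 4 * (1 / y0 y)) := by
  have ht := hT.tsm
  have ht1 : ContDiff ℝ ∞ (deriv T.tau) := ((contDiff_infty_iff_deriv (𝕜 := ℝ)).1 ht).2
  have ht2 : ContDiff ℝ ∞ (deriv (deriv T.tau)) := ((contDiff_infty_iff_deriv (𝕜 := ℝ)).1 ht1).2
  have hε := hT.hε
  have hC := hT.hC
  have d1 : ∀ r, HasDerivAt (deriv T.tau) (deriv (deriv T.tau) r) r := fun r =>
    (ht1.differentiable (by simp) r).hasDerivAt
  have d2 : ∀ r, HasDerivAt (deriv (deriv T.tau)) (deriv (deriv (deriv T.tau)) r) r := fun r =>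
    (ht2.differentiable (by simp) r).hasDerivAt
  have dsq : ∀ r : ℝ, HasDerivAt (fun x : ℝ => 1 - x ^ 2) (-(2 * r)) r := by
    intro r
    have := (hasDerivAt_pow 2 r).const_sub 1
    simpa using this
  have e0 : ∀ r, HasDerivAt (fun x => deriv T.tau x ^ 2 * (1 - x ^ 2))
      (2 * deriv T.tau r * deriv (deriv T.tau) r * (1 - r ^ 2) - 2 * r * deriv T.tau r ^ 2) r := by
    intro r
    have h := ((d1 r).fun_pow 2).fun_mul (dsq r)
    refine h.congr_deriv ?_
    simp only [Nat.cast_ofNat, Nat.add_one_sub_one, pow_one]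
    ring
  have e1 : ∀ r, HasDerivAt (fun r => 2 * deriv T.tau r * deriv (deriv T.tau) r * (1 - r ^ 2)
        - 2 * r * deriv T.tau r ^ 2)
      (2 * (deriv (deriv T.tau) r ^ 2 + deriv T.tau r * deriv (deriv (deriv T.tau)) r)
        * (1 - r ^ 2) - 8 * r * (deriv T.tau r * deriv (deriv T.tau) r)
        - 2 * deriv T.tau r ^ 2) r := by
    intro r
    have h1 := (((d1 r).const_mul 2).fun_mul (d2 r)).fun_mul (dsq r)
    have h2 := ((hasDerivAt_id' r).const_mul 2).fun_mul ((d1 r).fun_pow 2)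
    have h := h1.fun_sub h2
    refine h.congr_deriv ?_
    simp only [Nat.cast_ofNat, Nat.add_one_sub_one, pow_one]
    ring
  have hty := tk_abs_lt y
  have hty2 := tk_sq_lt y
  have hty0 := sq_nonneg (tk y)
  set t := tk y with htdef
  set p := |deriv T.tau t| with hp
  set q' := |deriv (deriv T.tau) t| with hq
  set s := |deriv (deriv (deriv T.tau)) t| with hs'
  have hp0 : 0 ≤ p := abs_nonneg _
  have hq0 : 0 ≤ q' := abs_nonneg _
  have hs0 : 0 ≤ s := abs_nonneg _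
  have hp1 : p ≤ C / ε := hT.t1 t
  have hq1 : q' ≤ C / ε ^ 2 := hT.t2 t
  have hs1 : s ≤ C / ε ^ 3 := hT.t3 t
  have hε1 : ε ≤ 1 := by linarith [hε.2]
  have hC2 : 0 < C ^ 2 := by positivity
  have pp : p * p ≤ C ^ 2 / ε ^ 2 := by
    calc p * p ≤ (C / ε) * (C / ε) := mul_le_mul hp1 hp1 hp0 (hp0.trans hp1)
      _ = _ := by ring
  have pq : p * q' ≤ C ^ 2 / ε ^ 3 := by
    calc p * q' ≤ (C / ε) * (C / ε ^ 2) := mul_le_mul hp1 hq1 hq0 (hp0.trans hp1)
      _ = _ := by ring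
  have qq : q' * q' ≤ C ^ 2 / ε ^ 4 := by
    calc q' * q' ≤ (C / ε ^ 2) * (C / ε ^ 2) := mul_le_mul hq1 hq1 hq0 (hq0.trans hq1)
      _ = _ := by ring
  have ps : p * s ≤ C ^ 2 / ε ^ 4 := by
    calc p * s ≤ (C / ε) * (C / ε ^ 3) := mul_le_mul hp1 hs1 hs0 (hp0.trans hp1)
      _ = _ := by ring
  have l23 : C ^ 2 / ε ^ 2 ≤ C ^ 2 / ε ^ 4 := by
    apply div_le_div_of_nonneg_left hC2.le (by have := hε.1; positivity)
    exact pow_le_pow_of_le_one hε.1.le hε1 (by norm_num)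
  have l34 : C ^ 2 / ε ^ 3 ≤ C ^ 2 / ε ^ 4 := by
    apply div_le_div_of_nonneg_left hC2.le (by have := hε.1; positivity)
    exact pow_le_pow_of_le_one hε.1.le hε1 (by norm_num)
  have h1t : |1 - t ^ 2| ≤ 1 := by
    rw [abs_of_nonneg (by linarith)]
    linarith
  have h0 : |deriv T.tau t ^ 2 * (1 - t ^ 2)| ≤ C ^ 2 / ε ^ 2 := by
    rw [abs_mul, abs_pow, ← hp, pow_two]
    have := mul_le_mul pp h1t (abs_nonneg _) (by positivity)
    linarith
  have hb : |2 * deriv T.tau t * deriv (deriv T.tau) t * (1 - t ^ 2)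
      - 2 * t * deriv T.tau t ^ 2| ≤ 4 * (C ^ 2 / ε ^ 4) := by
    have f1 := abs_sub (2 * deriv T.tau t * deriv (deriv T.tau) t * (1 - t ^ 2))
      (2 * t * deriv T.tau t ^ 2)
    rw [abs_mul, abs_mul, abs_mul, abs_two, abs_mul, abs_mul, abs_two, abs_pow, ← hp, ← hq] at f1
    have f2 : 2 * p * q' * |1 - t ^ 2| ≤ 2 * (C ^ 2 / ε ^ 4) := by
      have := mul_le_mul (pq.trans l34) h1t (abs_nonneg _) (by positivity)
      linarith
    have f3 : 2 * |t| * p ^ 2 ≤ 2 * (C ^ 2 / ε ^ 4) := by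
      have := mul_le_mul (pp.trans l23) hty.le (abs_nonneg _) (by positivity)
      nlinarith
    linarith
  have hc : |2 * (deriv (deriv T.tau) t ^ 2 + deriv T.tau t * deriv (deriv (deriv T.tau)) t)
        * (1 - t ^ 2) - 8 * t * (deriv T.tau t * deriv (deriv T.tau) t)
        - 2 * deriv T.tau t ^ 2| ≤ 14 * (C ^ 2 / ε ^ 4) := by
    have f1 := abs_sub (2 * (deriv (deriv T.tau) t ^ 2
        + deriv T.tau t * deriv (deriv (deriv T.tau)) t) * (1 - t ^ 2)
        - 8 * t * (deriv T.tau t * deriv (deriv T.tau) t)) (2 * deriv T.tau t ^ 2)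
    have f2 := abs_sub (2 * (deriv (deriv T.tau) t ^ 2
        + deriv T.tau t * deriv (deriv (deriv T.tau)) t) * (1 - t ^ 2))
        (8 * t * (deriv T.tau t * deriv (deriv T.tau) t))
    have f3 : |2 * (deriv (deriv T.tau) t ^ 2
        + deriv T.tau t * deriv (deriv (deriv T.tau)) t) * (1 - t ^ 2)| ≤ 4 * (C ^ 2 / ε ^ 4) := by
      rw [abs_mul, abs_mul, abs_two]
      have f4 := abs_add_le (deriv (deriv T.tau) t ^ 2)
        (deriv T.tau t * deriv (deriv (deriv T.tau)) t)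
      rw [abs_pow, abs_mul, ← hp, ← hq, ← hs', pow_two q'] at f4
      have f5 := mul_le_mul (f4.trans (add_le_add qq ps)) h1t (abs_nonneg _) (by positivity)
      linarith
    have f6 : |8 * t * (deriv T.tau t * deriv (deriv T.tau) t)| ≤ 8 * (C ^ 2 / ε ^ 4) := by
      rw [abs_mul, abs_mul, abs_mul, ← hp, ← hq, abs_of_pos (by norm_num : (0 : ℝ) < 8)]
      have := mul_le_mul (pq.trans l34) hty.le (abs_nonneg _) (by positivity)
      linarith
    have f7 : |2 * deriv T.tau t ^ 2| ≤ 2 * (C ^ 2 / ε ^ 4) := by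
      rw [abs_mul, abs_pow, ← hp, abs_two, pow_two]
      linarith
    linarith
  have hsm : ContDiffAt ℝ 2 (fun z : E (m + 3) => deriv T.tau (tk z) ^ 2 * (1 - tk z ^ 2)) y :=
    cd2 (((ht1.comp contDiff_tk).pow 2).mul (contDiff_const.sub (contDiff_tk.pow 2)))
  have := Bd.comp (φ := fun x => deriv T.tau x ^ 2 * (1 - x ^ 2))
    (Filter.Eventually.of_forall fun z => e0 (tk z)) (e1 (tk y)) hsm h0 hb hc (bd_tk y)
  refine this.mono le_rfl ?_
  have g1 := inv_le_one y
  have g2 := inv_pos y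
  have g3 : 0 < C ^ 2 / ε ^ 4 := by have := hε.1; positivity
  have g4 : (1 / y0 y) ^ 2 ≤ 1 / y0 y := by nlinarith
  have g5 : 4 * (C ^ 2 / ε ^ 4) * (2 * (1 / y0 y)) + 14 * (C ^ 2 / ε ^ 4) * (2 * (1 / y0 y)) ^ 2
      = C ^ 2 / ε ^ 4 * (8 * (1 / y0 y) + 56 * (1 / y0 y) ^ 2) := by ring
  have g6 : 64 * C ^ 2 / ε ^ 4 * (1 / y0 y) = C ^ 2 / ε ^ 4 * (64 * (1 / y0 y)) := by ring
  rw [g5, g6]
  exact mul_le_mul_of_nonneg_left (by linarith) g3.le

theorem Pf_eq (T : Tw) : Pf (m := m) T = fun z => (1 / (m + 2 : ℝ))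
    * ((T.lam (rk z) ^ 2 * (deriv T.tau (tk z) ^ 2 * (1 - tk z ^ 2))) * Nk z) := by
  funext z
  have hz := y0_pos z
  rw [Nk_eq]
  simp only [Pf, Nn, bb]
  field_simp

end twist


/-- Arithmetic. -/
theorem arith12 {M κ X a i : ℝ} (hM : 9 ≤ M) (hκ : 0 < κ) (_hκ1 : κ ≤ 1) (hX : 0 ≤ X) (ha : 1 ≤ a)
    (hi : 0 < i) (hi1 : i ≤ 1) :
    X * a * (8 * M * κ) + 1 * (64 * X * (a * a) * i) + 2 * (8 * M * κ * (64 * X * (a * a) * i))
      ≤ 1100 * M * X * (a * a) * (κ + i) := by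
  have ha0 : 0 ≤ a := by linarith
  have hM0 : 0 ≤ M := by linarith
  have haa : a ≤ a * a := by nlinarith
  have x1 : X * a * (8 * M * κ) ≤ 8 * (M * X * (a * a) * κ) := by
    have h : X * a * (8 * M * κ) = 8 * (M * X * κ) * a := by ring
    have h' : 8 * (M * X * (a * a) * κ) = 8 * (M * X * κ) * (a * a) := by ring
    rw [h, h']
    exact mul_le_mul_of_nonneg_left haa (by positivity)
  have x2 : 1 * (64 * X * (a * a) * i) ≤ 8 * (M * X * (a * a) * i) := by
    have h : 1 * (64 * X * (a * a) * i) = 64 * (X * (a * a) * i) := by ring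
    have h' : 8 * (M * X * (a * a) * i) = (8 * M) * (X * (a * a) * i) := by ring
    rw [h, h']
    exact mul_le_mul_of_nonneg_right (by linarith) (by positivity)
  have x3 : 2 * (8 * M * κ * (64 * X * (a * a) * i)) ≤ 1024 * (M * X * (a * a) * κ) := by
    have h : 2 * (8 * M * κ * (64 * X * (a * a) * i)) = 1024 * (M * X * (a * a) * κ) * i := by ring
    rw [h]
    exact mul_le_of_le_one_right (by positivity) hi1
  have x4 : 0 ≤ M * X * (a * a) * κ := by positivity
  have x5 : 0 ≤ M * X * (a * a) * i := by positivity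
  have h : 1100 * M * X * (a * a) * (κ + i)
      = 1100 * (M * X * (a * a) * κ) + 1100 * (M * X * (a * a) * i) := by ring
  rw [h]
  linarith

theorem arith3 {M κ X a i g : ℝ} (hM : 9 ≤ M) (hκ : 0 < κ) (hX : 0 ≤ X) (ha : 1 ≤ a)
    (hi : 0 < i) (hi1 : i ≤ 1) (hg : 0 ≤ g) (h : g ≤ 1100 * M * X * (a * a) * (κ + i)) :
    1 * g + 1 * (X * a) * (4 * i) + 2 * (g * (4 * i)) ≤ 1000000 * M * X * (a * a) * (κ + i) := by
  have ha0 : 0 ≤ a := by linarith
  have haa : a ≤ a * a := by nlinarith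
  have h1 : 2 * (g * (4 * i)) ≤ 8 * g := by
    have : 2 * (g * (4 * i)) = 8 * g * i := by ring
    rw [this]
    exact mul_le_of_le_one_right (by linarith) hi1
  have h2 : 1 * (X * a) * (4 * i) ≤ M * X * (a * a) * i := by
    have e1 : 1 * (X * a) * (4 * i) = (X * i) * (4 * a) := by ring
    have e2 : M * X * (a * a) * i = (X * i) * (M * (a * a)) := by ring
    rw [e1, e2]
    refine mul_le_mul_of_nonneg_left ?_ (by positivity)
    nlinarith
  have x4 : 0 ≤ M * X * (a * a) * κ := by positivity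
  have x5 : 0 ≤ M * X * (a * a) * i := by positivity
  have e3 : 1100 * M * X * (a * a) * (κ + i)
      = 1100 * (M * X * (a * a) * κ) + 1100 * (M * X * (a * a) * i) := by ring
  have e4 : 1000000 * M * X * (a * a) * (κ + i)
      = 1000000 * (M * X * (a * a) * κ) + 1000000 * (M * X * (a * a) * i) := by ring
  rw [e3] at h
  rw [e4]
  linarith

theorem bd_P {T : Tw} {C ε κ r1 r2 : ℝ} (hT : TwOK T C ε κ r1 r2) (y : E (m + 3)) :
    Bd (Pf T) y (C ^ 2 * (1 / ε ^ 2))
      (1000000 * (m + 3) ^ 2 * C ^ 2 * (1 / ε ^ 2 * (1 / ε ^ 2)) * (κ + 1 / y0 y)) := by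
  have hε0 := hT.hε.1
  have hε1 : ε ≤ 1 := by linarith [hT.hε.2]
  have hκ := hT.hκ
  have hC := hT.hC
  have hm : (0 : ℝ) ≤ m := Nat.cast_nonneg m
  have hbL := bd_L hT y
  have hbQ := bd_Q hT y
  have hbN := bd_Nk y
  have hi0 := inv_pos y
  have hi1 := inv_le_one y
  have hM1 : (9 : ℝ) ≤ (m + 3) ^ 2 := by nlinarith
  have ha1 : 1 ≤ 1 / ε ^ 2 := by
    rw [one_le_div (by positivity)]
    exact pow_le_one₀ hε0.le hε1
  have h := ((hbL.mul hbQ).mul hbN).const_mul (1 / (m + 2 : ℝ))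
  rw [← Pf_eq] at h
  have hc : |1 / (m + 2 : ℝ)| ≤ 1 := by
    rw [abs_of_nonneg (by positivity), div_le_one (by positivity)]
    linarith
  have e1 : C ^ 2 / ε ^ 2 = C ^ 2 * (1 / ε ^ 2) := by ring
  have e2 : 64 * C ^ 2 / ε ^ 4 * (1 / y0 y)
      = 64 * C ^ 2 * (1 / ε ^ 2 * (1 / ε ^ 2)) * (1 / y0 y) := by
    field_simp
  rw [e1, e2] at h
  generalize 1 / y0 y = i at *
  generalize 1 / ε ^ 2 = a at *
  generalize ((m : ℝ) + 3) ^ 2 = M at *
  generalize hX : C ^ 2 = X at *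
  have hX0 : 0 ≤ X := by rw [← hX]; positivity
  have ha0 : 0 ≤ a := by linarith
  have hM0 : 0 ≤ M := by linarith
  refine h.mono ?_ ?_
  · calc |1 / (m + 2 : ℝ)| * (1 * (X * a) * 1) ≤ 1 * (1 * (X * a) * 1) :=
        mul_le_mul_of_nonneg_right hc (by positivity)
      _ = _ := by ring
  · have b12 := arith12 hM1 hκ.1 hκ.2 hX0 ha1 hi0 hi1
    have n12 : 0 ≤ X * a * (8 * M * κ) + 1 * (64 * X * (a * a) * i)
        + 2 * (8 * M * κ * (64 * X * (a * a) * i)) := by
      have := hκ.1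
      positivity
    have b3 := arith3 hM1 hκ.1 hX0 ha1 hi0 hi1 n12 b12
    refine le_trans ?_ b3
    refine mul_le_of_le_one_left ?_ hc
    have := hκ.1
    positivity

end PbdM

open HypM C0 K0 PbdM in
theorem specPbd : SpecPbd := by
  intro m C
  have hm : (0 : ℝ) ≤ m := Nat.cast_nonneg m
  refine ⟨1 + 10000000 * (m + 3) ^ 2 * (1 + C ^ 2), ?_, ?_⟩
  · have : (0 : ℝ) ≤ 10000000 * (m + 3) ^ 2 * (1 + C ^ 2) := by positivity
    linarith
  intro T ε κ r1 r2 hT
  have hε0 := hT.hε.1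
  have hε1 : ε ≤ 1 := by linarith [hT.hε.2]
  have hκ := hT.hκ
  have ht1 : ContDiff ℝ ∞ (deriv T.tau) := ((contDiff_infty_iff_deriv (𝕜 := ℝ)).1 hT.tsm).2
  have hsm : ContDiff ℝ ∞ (Pf T (m := m)) := by
    rw [Pf_eq]
    exact contDiff_const.mul ((((hT.lsm.comp contDiff_rk).pow 2).mul
      (((ht1.comp contDiff_tk).pow 2).mul (contDiff_const.sub (contDiff_tk.pow 2)))).mul
      contDiff_Nk)
  refine ⟨hsm, fun y => ?_⟩
  have hbL := bd_L hT y
  have hbQ := bd_Q hT y
  have hbN := bd_Nk y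
  have hi0 : 0 < 1 / y0 y := PbdM.inv_pos y
  have hP := bd_P hT y
  have hM1 : (9 : ℝ) ≤ (m + 3) ^ 2 := by nlinarith
  have ha1 : 1 ≤ 1 / ε ^ 2 := by
    rw [one_le_div (by positivity)]
    exact pow_le_one₀ hε0.le hε1
  have hbig : 1000000 * (m + 3) ^ 2 * C ^ 2 ≤ 1 + 10000000 * (m + 3) ^ 2 * (1 + C ^ 2) := by
    have : (0 : ℝ) ≤ (m + 3) ^ 2 * C ^ 2 := by positivity
    have : (0 : ℝ) ≤ (m + 3) ^ 2 := by positivity
    nlinarith
  have hfin : 1000000 * (m + 3) ^ 2 * C ^ 2 * (1 / ε ^ 2 * (1 / ε ^ 2)) * (κ + 1 / y0 y)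
      ≤ (1 + 10000000 * (m + 3) ^ 2 * (1 + C ^ 2)) / ε ^ 4 * (κ + 1 / y0 y) := by
    have h1 : (1 + 10000000 * (m + 3) ^ 2 * (1 + C ^ 2)) / ε ^ 4
        = (1 + 10000000 * (m + 3) ^ 2 * (1 + C ^ 2)) * (1 / ε ^ 2 * (1 / ε ^ 2)) := by
      field_simp
    rw [h1]
    refine mul_le_mul_of_nonneg_right ?_ (by linarith [hκ.1])
    exact mul_le_mul_of_nonneg_right hbig (by positivity)
  have hN0 := Nk_nonneg y
  have hPnn : 0 ≤ Pf T y := by
    rw [Pf_eq]
    have := tk_sq_lt y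
    have h1 : 0 ≤ 1 - tk y ^ 2 := by linarith
    positivity
  refine ⟨?_, hPnn, ?_, hP.gam.trans hfin, hP.lap.trans hfin, hP.dd.trans hfin⟩
  · rw [Pf_eq]
    have dL : DifferentiableAt ℝ (fun z : E (m + 3) => T.lam (rk z) ^ 2) y := diff_of hbL.cd
    have dQ : DifferentiableAt ℝ
        (fun z : E (m + 3) => deriv T.tau (tk z) ^ 2 * (1 - tk z ^ 2)) y := diff_of hbQ.cd
    have dN : DifferentiableAt ℝ (Nk (m := m)) y := diff_of hbN.cd
    have jL : Jd (fun z : E (m + 3) => T.lam (rk z) ^ 2) y = 0 := by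
      have h1 : HasDerivAt (fun x => T.lam x ^ 2) (deriv (fun x => T.lam x ^ 2) (rk y)) (rk y) :=
        ((hT.lsm.pow 2).differentiable (by simp) _).hasDerivAt
      rw [Jd_comp h1 (diff_of (bd_rk y).cd), Jd_rk, mul_zero]
    have jQ : Jd (fun z : E (m + 3) => deriv T.tau (tk z) ^ 2 * (1 - tk z ^ 2)) y = 0 := by
      have h1 : HasDerivAt (fun x => deriv T.tau x ^ 2 * (1 - x ^ 2))
          (deriv (fun x => deriv T.tau x ^ 2 * (1 - x ^ 2)) (tk y)) (tk y) :=
        (((ht1.pow 2).mul (contDiff_const.sub (contDiff_id.pow 2))).differentiable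
          (by simp) _).hasDerivAt
      rw [Jd_comp (φ := fun x => deriv T.tau x ^ 2 * (1 - x ^ 2)) h1 (diff_of (bd_tk y).cd),
        Jd_tk, mul_zero]
    rw [Jd_const_mul _ ((dL.fun_mul dQ).fun_mul dN), Jd_mul (dL.fun_mul dQ) dN, Jd_mul dL dQ,
      jL, jQ, Jd_Nk]
    ring
  · have h1 := hP.abs
    rw [abs_of_nonneg hPnn] at h1
    have h2 : (1 + 10000000 * (m + 3) ^ 2 * (1 + C ^ 2)) / ε ^ 2
        = (1 + 10000000 * (m + 3) ^ 2 * (1 + C ^ 2)) * (1 / ε ^ 2) := by ring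
    rw [h2]
    have h3 : 1 + C ^ 2 ≤ 1 + 10000000 * (m + 3) ^ 2 * (1 + C ^ 2) := by
      have : (0 : ℝ) ≤ (m + 3) ^ 2 * C ^ 2 := by positivity
      have h9 : 9 * C ^ 2 ≤ (m + 3 : ℝ) ^ 2 * C ^ 2 :=
        mul_le_mul_of_nonneg_right hM1 (sq_nonneg C)
      nlinarith [sq_nonneg C]
    calc 1 + Pf T y ≤ 1 * (1 / ε ^ 2) + C ^ 2 * (1 / ε ^ 2) := by linarith
      _ = (1 + C ^ 2) * (1 / ε ^ 2) := by ring
      _ ≤ _ := mul_le_mul_of_nonneg_right h3 (by linarith)

end Pool.Agent.Lib.MPdbccd7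
end
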