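import Pool.Agent.Lib.MP_dbccd7_gt.B.Tvv

/-!
# TN: bound of the tension of `v = α y`
-/

open scoped Manifold ContDiff Matrix

namespace Pool.Agent.Lib.MPdbccd7

namespace TnM

open EnvM

variable {m : ℕ}

theorem abs_tk_le (y : E (m + 3)) : |tk y| ≤ 1 := by
  unfold tk
  rw [abs_div, abs_of_pos (y0_pos y), div_le_one (y0_pos y)]
  exact (abs_coord_lt_y0 y 0).le

theorem tk_sq_le (y : E (m + 3)) : tk y ^ 2 ≤ 1 := by
  have h := abs_tk_le y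
  rw [← sq_abs]
  nlinarith [abs_nonneg (tk y)]

theorem wsq_nonneg (y : E (m + 3)) : 0 ≤ wsq y := by
  unfold wsq
  positivity

theorem wsq_le (y : E (m + 3)) : wsq y ≤ y0 y ^ 2 - 1 := by
  rw [y0_sq, add_sub_cancel_left]
  unfold wsq
  have h : y 1 ^ 2 + y 2 ^ 2 = ∑ i ∈ ({1, 2} : Finset (Fin (m + 3))), y i ^ 2 := by
    rw [Finset.sum_pair two_ne_one'.symm]
  rw [h]
  exact Finset.sum_le_sum_of_subset_of_nonneg (Finset.subset_univ _) fun i _ _ => sq_nonneg _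

theorem abs_bb_le {T : Tw} {C ε κ r1 r2 : ℝ} (hT : TwOK T C ε κ r1 r2) (y : E (m + 3)) :
    |bb T y| ≤ C / ε / y0 y := by
  unfold bb
  rw [abs_div, abs_of_pos (y0_pos y)]
  apply div_le_div_of_nonneg_right _ (y0_pos y).le
  rw [abs_mul, abs_of_nonneg (hT.l01 _).1]
  have h1 := (hT.l01 (rk y)).2
  have h2 := hT.t1 (tk y)
  nlinarith [abs_nonneg (deriv T.tau (tk y)), (hT.l01 (rk y)).1]

theorem bb_sq_wsq {T : Tw} {C ε κ r1 r2 : ℝ} (hT : TwOK T C ε κ r1 r2) (y : E (m + 3)) :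
    bb T y ^ 2 * wsq y ≤ (C / ε) ^ 2 := by
  have h1 := abs_bb_le hT y
  have hY := y0_pos y
  have h2 : bb T y ^ 2 ≤ (C / ε / y0 y) ^ 2 := by
    rw [← sq_abs]
    exact pow_le_pow_left₀ (abs_nonneg _) h1 2
  have h3 := wsq_le y
  have h4 := wsq_nonneg y
  calc bb T y ^ 2 * wsq y ≤ (C / ε / y0 y) ^ 2 * y0 y ^ 2 :=
        mul_le_mul h2 (by linarith) h4 (sq_nonneg _)
    _ = (C / ε) ^ 2 := by
        field_simp

theorem Nn_nonneg (T : Tw) (y : E (m + 3)) : 0 ≤ Nn T y := by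
  unfold Nn
  have := tk_sq_le y
  exact mul_nonneg (sq_nonneg _) (by linarith)

theorem Nn_le (T : Tw) (y : E (m + 3)) : Nn T y ≤ bb T y ^ 2 := by
  unfold Nn
  nlinarith [sq_nonneg (tk y), sq_nonneg (bb T y)]

theorem abs_dA_le {T : Tw} {C ε κ r1 r2 : ℝ} (hT : TwOK T C ε κ r1 r2) (y : E (m + 3)) :
    |dA T y| ≤ 2 * (C / ε ^ 2) / y0 y ^ 2 := by
  have hY := y0_pos y
  have hε := hT.hε
  have hC := hT.hC
  have hκ := hT.hκ
  have e : dA T y = (T.lam (rk y) * (deriv (deriv T.tau) (tk y) * (1 - tk y ^ 2)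
      - 2 * deriv T.tau (tk y) * tk y) + deriv T.lam (rk y) * deriv T.tau (tk y) * tk y)
      / y0 y ^ 2 := by
    unfold dA
    ring
  rw [e, abs_div, abs_of_pos (pow_pos hY 2)]
  apply div_le_div_of_nonneg_right _ (pow_pos hY 2).le
  set t := tk y
  set l := T.lam (rk y)
  have ht : |t| ≤ 1 := abs_tk_le y
  have ht2 : t ^ 2 ≤ 1 := tk_sq_le y
  have hl0 : 0 ≤ l := (hT.l01 _).1
  have hl1 : l ≤ 1 := (hT.l01 _).2
  have h1 : |deriv T.tau t| ≤ C / ε := hT.t1 t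
  have h2 : |deriv (deriv T.tau) t| ≤ C / ε ^ 2 := hT.t2 t
  have h3 : |deriv T.lam (rk y)| ≤ κ := hT.l1 _
  have hq : C / ε ≤ C / ε ^ 2 * (1 / 8) := by
    rw [div_mul_eq_mul_div, div_le_div_iff₀ hε.1 (pow_pos hε.1 2)]
    nlinarith [mul_pos (by linarith : 0 < C) hε.1, hε.2,
      mul_le_mul_of_nonneg_left hε.2 (mul_pos (by linarith : 0 < C) hε.1).le]
  have hQ : 0 < C / ε := div_pos (by linarith) hε.1
  have a1 : |deriv (deriv T.tau) t * (1 - t ^ 2)| ≤ C / ε ^ 2 := by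
    rw [abs_mul, abs_of_nonneg (by linarith : 0 ≤ 1 - t ^ 2)]
    nlinarith [abs_nonneg (deriv (deriv T.tau) t), sq_nonneg t]
  have a2 : |2 * deriv T.tau t * t| ≤ 2 * (C / ε) := by
    rw [abs_mul, abs_mul, abs_two]
    nlinarith [abs_nonneg (deriv T.tau t), abs_nonneg t,
      mul_le_mul h1 ht (abs_nonneg t) hQ.le]
  have a3 : |l * (deriv (deriv T.tau) t * (1 - t ^ 2) - 2 * deriv T.tau t * t)|
      ≤ C / ε ^ 2 + 2 * (C / ε) := by
    rw [abs_mul, abs_of_nonneg hl0]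
    have := (abs_sub (deriv (deriv T.tau) t * (1 - t ^ 2)) (2 * deriv T.tau t * t)).trans
      (add_le_add a1 a2)
    nlinarith [abs_nonneg (deriv (deriv T.tau) t * (1 - t ^ 2) - 2 * deriv T.tau t * t)]
  have a4 : |deriv T.lam (rk y) * deriv T.tau t * t| ≤ C / ε := by
    rw [abs_mul, abs_mul]
    have b1 : |deriv T.lam (rk y)| * |deriv T.tau t| ≤ 1 * (C / ε) :=
      mul_le_mul (h3.trans hκ.2) h1 (abs_nonneg _) zero_le_one
    calc |deriv T.lam (rk y)| * |deriv T.tau t| * |t| ≤ (1 * (C / ε)) * 1 :=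
          mul_le_mul b1 ht (abs_nonneg _) (by linarith)
      _ = C / ε := by ring
  have := (abs_add_le (l * (deriv (deriv T.tau) t * (1 - t ^ 2) - 2 * deriv T.tau t * t))
    (deriv T.lam (rk y) * deriv T.tau t * t)).trans (add_le_add a3 a4)
  linarith

/-! ### The norm -/

variable {n : ℕ}

/-- The square of the hyperbolic norm. -/
noncomputable def F (p : E n) (X : Fin n → ℝ) : ℝ := (∑ k, X k ^ 2) - (∑ k, p k * X k) ^ 2 / y0 p ^ 2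

theorem F_nonneg (p : E n) (X : Fin n → ℝ) : 0 ≤ F p X := by
  unfold F
  have h := Finset.sum_mul_sq_le_sq_mul_sq Finset.univ (fun k => p k) X
  have h1 := y0_sq p
  have h2 : 0 ≤ ∑ k, X k ^ 2 := Finset.sum_nonneg fun _ _ => sq_nonneg _
  have h3 := y0_pos p
  rw [sub_nonneg, div_le_iff₀ (by positivity), h1]
  nlinarith

theorem F_le (p : E n) (X : Fin n → ℝ) : F p X ≤ ∑ k, X k ^ 2 := by
  unfold F
  have : 0 ≤ (∑ k, p k * X k) ^ 2 / y0 p ^ 2 := by positivity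
  linarith

theorem F_add (p : E n) (X Y : Fin n → ℝ) :
    F p (fun k => X k + Y k) ≤ 2 * F p X + 2 * F p Y := by
  have h := F_nonneg p (fun k => X k - Y k)
  have e : F p (fun k => X k + Y k) + F p (fun k => X k - Y k) = 2 * F p X + 2 * F p Y := by
    unfold F
    have e1 : ∑ k, (X k + Y k) ^ 2 + ∑ k, (X k - Y k) ^ 2
        = 2 * ∑ k, X k ^ 2 + 2 * ∑ k, Y k ^ 2 := by
      rw [← Finset.sum_add_distrib, Finset.mul_sum, Finset.mul_sum, ← Finset.sum_add_distrib]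
      exact Finset.sum_congr rfl fun k _ => by ring
    have e2 : ∑ k, p k * (X k + Y k) = ∑ k, p k * X k + ∑ k, p k * Y k := by
      rw [← Finset.sum_add_distrib]
      exact Finset.sum_congr rfl fun k _ => by ring
    have e3 : ∑ k, p k * (X k - Y k) = ∑ k, p k * X k - ∑ k, p k * Y k := by
      rw [← Finset.sum_sub_distrib]
      exact Finset.sum_congr rfl fun k _ => by ring
    rw [e2, e3]
    linear_combination e1
  linarith

theorem sum_four (A B D G : Fin n → ℝ) :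
    ∑ k, (A k - B k - D k - G k) ^ 2
      ≤ 4 * (∑ k, A k ^ 2 + ∑ k, B k ^ 2 + ∑ k, D k ^ 2 + ∑ k, G k ^ 2) := by
  rw [← Finset.sum_add_distrib, ← Finset.sum_add_distrib, ← Finset.sum_add_distrib,
    Finset.mul_sum]
  apply Finset.sum_le_sum
  intro k _
  nlinarith [sq_nonneg (A k + B k), sq_nonneg (A k + D k), sq_nonneg (A k + G k),
    sq_nonneg (B k - D k), sq_nonneg (B k - G k), sq_nonneg (D k - G k)]

theorem sum_Jv_sq (y : E (m + 3)) : ∑ i, Jv y i ^ 2 = wsq y := by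
  rw [← sum_Jv_Jv]
  exact Finset.sum_congr rfl fun i _ => sq _

theorem sum_w_sq (y : E (m + 3)) : ∑ i, (if i = 1 ∨ i = 2 then y i else 0) ^ 2 = wsq y := by
  have h : ∀ i : Fin (m + 3), (if i = 1 ∨ i = 2 then y i else 0) ^ 2
      = (if i = 1 then y 1 else if i = 2 then y 2 else 0) * y i := by
    intro i
    by_cases h1 : i = 1
    · subst h1
      simp
      ring
    · by_cases h2 : i = 2
      · subst h2
        rw [if_pos (Or.inr rfl), if_neg two_ne_one', if_pos rfl]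
        ring
      · rw [if_neg (by tauto), if_neg h1, if_neg h2]
        ring
  simp only [h]
  rw [sum_two, wsq]
  ring

/-- The bound of the coefficient of `y`. -/
theorem c1_bound {a Y v G L D R R' Q : ℝ} (ha : 0 < a) (ha1 : a ≤ 1) (hY : 1 ≤ Y) (hv : 0 < v)
    (hv2 : v ^ 2 = 1 - a ^ 2 + a ^ 2 * Y ^ 2) (hL : |L| ≤ a * R) (hD : |D| ≤ a * R') (hG0 : 0 ≤ G)
    (hG : G ≤ a ^ 2 * R' ^ 2) (hQ : 1 / a ^ 2 ≤ Q) :
    |L + 2 * D + a * (1 - a ^ 2) / v ^ 2 - a * (G * (Y ^ 2 - 1) + 2 * a * Y ^ 2 * D) / v ^ 2|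
      ≤ a * (R + 4 * R' + Q / Y ^ 2 + R' ^ 2) := by
  have hY0 : 0 < Y := by linarith
  have ha2 : a ^ 2 ≤ 1 := by nlinarith
  have hvv : 0 < v ^ 2 := by positivity
  have hY2 : 1 ≤ Y ^ 2 := by nlinarith
  have hx : a ^ 2 * Y ^ 2 / v ^ 2 ≤ 1 := by
    rw [div_le_one hvv, hv2]
    linarith
  have hx0 : 0 ≤ a ^ 2 * Y ^ 2 / v ^ 2 := by positivity
  have hx' : a ^ 2 * (Y ^ 2 - 1) / v ^ 2 ≤ 1 := by
    rw [div_le_one hvv, hv2]
    linarith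
  have hx0' : 0 ≤ a ^ 2 * (Y ^ 2 - 1) / v ^ 2 :=
    div_nonneg (mul_nonneg (sq_nonneg _) (by linarith)) hvv.le
  have e : a * (G * (Y ^ 2 - 1) + 2 * a * Y ^ 2 * D) / v ^ 2
      = (G / a) * (a ^ 2 * (Y ^ 2 - 1) / v ^ 2) + 2 * D * (a ^ 2 * Y ^ 2 / v ^ 2) := by
    field_simp
  have h1 : 0 ≤ G / a := by positivity
  have h2 : G / a ≤ a * R' ^ 2 := by
    rw [div_le_iff₀ ha]
    linarith
  have h3 : |(G / a) * (a ^ 2 * (Y ^ 2 - 1) / v ^ 2)| ≤ a * R' ^ 2 := by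
    rw [abs_of_nonneg (mul_nonneg h1 hx0')]
    nlinarith
  have h4 : |2 * D * (a ^ 2 * Y ^ 2 / v ^ 2)| ≤ 2 * (a * R') := by
    rw [abs_mul, abs_mul, abs_two, abs_of_nonneg hx0]
    nlinarith [abs_nonneg D]
  have h5 : |a * (1 - a ^ 2) / v ^ 2| ≤ a * (Q / Y ^ 2) := by
    rw [abs_of_nonneg (div_nonneg (mul_nonneg ha.le (by linarith)) hvv.le)]
    have : a * (1 - a ^ 2) / v ^ 2 ≤ a * (1 / a ^ 2 / Y ^ 2) := by
      rw [div_div, mul_one_div, div_le_div_iff₀ hvv (by positivity), hv2]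
      have : 0 ≤ a * a ^ 2 * Y ^ 2 := by positivity
      nlinarith
    refine this.trans (mul_le_mul_of_nonneg_left ?_ ha.le)
    exact div_le_div_of_nonneg_right hQ (by positivity)
  have h6 : |2 * D| ≤ 2 * (a * R') := by
    rw [abs_mul, abs_two]
    linarith
  rw [e]
  rw [abs_le] at *
  constructor <;> linarith [h3.1, h3.2, h4.1, h4.2, h5.1, h5.2, h6.1, h6.2, hL.1, hL.2]

theorem mono {C1 C d K : ℝ} (h1 : 1 ≤ C1) (h2 : 1 ≤ C) (h3 : 1 ≤ d) (hK : 0 ≤ K) (i j k : ℕ)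
    (hi : i ≤ 2) (hj : j ≤ 2) (hk : k ≤ 10) :
    C1 ^ i * C ^ j * d ^ k * K ≤ C1 ^ 2 * C ^ 2 * d ^ 10 * K := by
  gcongr

theorem F_smul (T : Tw) (y : E (m + 3)) (c : ℝ) :
    F (vA T y) (fun k => c * y k) = c ^ 2 * (y0 y ^ 2 - 1) / y0 (vA T y) ^ 2 := by
  have hv := y0_pos (vA T y)
  have hv2 := y0_vA T y
  unfold F
  have e1 : ∑ k, (c * y k) ^ 2 = c ^ 2 * (y0 y ^ 2 - 1) := by
    rw [← sum_y_y, Finset.mul_sum]
    exact Finset.sum_congr rfl fun k _ => by ring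
  have e2 : ∑ k, vA T y k * (c * y k) = al T y * c * (y0 y ^ 2 - 1) := by
    rw [← sum_y_y, Finset.mul_sum]
    refine Finset.sum_congr rfl fun k _ => ?_
    change al T y * y k * (c * y k) = _
    ring
  rw [e1, e2]
  field_simp
  linear_combination c ^ 2 * (y0 y ^ 2 - 1) * hv2

theorem sum_pd_sq_le (f : E (m + 3) → ℝ) (y : E (m + 3)) :
    ∑ k, pd k f y ^ 2 ≤ gam0 f f y := by
  unfold gam0
  have : ∑ k, pd k f y ^ 2 = ∑ k, pd k f y * pd k f y :=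
    Finset.sum_congr rfl fun k _ => sq _
  rw [this]
  nlinarith [mul_self_nonneg (∑ i, y i * pd i f y)]

theorem gam0_nonneg (f : E (m + 3) → ℝ) (y : E (m + 3)) : 0 ≤ gam0 f f y :=
  (Finset.sum_nonneg fun _ _ => sq_nonneg _).trans (sum_pd_sq_le f y)

theorem t1_bound {T : Tw} {y : E (m + 3)} {R : ℝ} (hp : ∑ k, pd k (al T) y ^ 2 ≤ R ^ 2) :
    ∑ k, (2 * pd k (al T) y) ^ 2 ≤ 4 * R ^ 2 := by
  have e : ∑ k, (2 * pd k (al T) y) ^ 2 = 4 * ∑ k, pd k (al T) y ^ 2 := by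
    rw [Finset.mul_sum]
    exact Finset.sum_congr rfl fun k _ => by ring
  rw [e]
  linarith

theorem t2_bound {T : Tw} {y : E (m + 3)} {R B : ℝ} (hp : pd 0 (al T) y ^ 2 ≤ R ^ 2)
    (hbw : bb T y ^ 2 * wsq y ≤ B ^ 2) :
    ∑ k, (2 * bb T y * pd 0 (al T) y * Jv y k) ^ 2 ≤ 4 * (B * R) ^ 2 := by
  have e : ∑ k, (2 * bb T y * pd 0 (al T) y * Jv y k) ^ 2
      = 4 * ((bb T y ^ 2 * wsq y) * pd 0 (al T) y ^ 2) := by
    rw [← sum_Jv_sq, Finset.mul_sum, Finset.sum_mul, Finset.mul_sum]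
    exact Finset.sum_congr rfl fun k _ => by ring
  rw [e, mul_pow]
  exact mul_le_mul_of_nonneg_left
    (mul_le_mul hbw hp (sq_nonneg _) (sq_nonneg _)) (by norm_num)

theorem t3_bound {T : Tw} {y : E (m + 3)} {a B : ℝ} (ha : 0 < a) (ha1 : a ≤ 1)
    (hdA : |dA T y| ≤ 2 * B / y0 y ^ 2) :
    ∑ k, (a * dA T y * Jv y k) ^ 2 ≤ 4 * (B * (1 / y0 y)) ^ 2 := by
  have hY0 := y0_pos y
  have e : ∑ k, (a * dA T y * Jv y k) ^ 2 = a ^ 2 * (dA T y ^ 2 * wsq y) := by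
    rw [← sum_Jv_sq, Finset.mul_sum, Finset.mul_sum]
    exact Finset.sum_congr rfl fun k _ => by ring
  rw [e]
  have h1 : dA T y ^ 2 ≤ (2 * B / y0 y ^ 2) ^ 2 := by
    rw [← sq_abs]
    exact pow_le_pow_left₀ (abs_nonneg _) hdA 2
  have h2 : dA T y ^ 2 * wsq y ≤ (2 * B / y0 y ^ 2) ^ 2 * y0 y ^ 2 :=
    mul_le_mul h1 (by linarith [wsq_le y]) (wsq_nonneg y) (sq_nonneg _)
  have h3 : (2 * B / y0 y ^ 2) ^ 2 * y0 y ^ 2 = 4 * (B * (1 / y0 y)) ^ 2 := by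
    field_simp
    ring
  have h6 : 0 ≤ dA T y ^ 2 * wsq y := mul_nonneg (sq_nonneg _) (wsq_nonneg y)
  have ha2 : a ^ 2 ≤ 1 := by nlinarith
  calc a ^ 2 * (dA T y ^ 2 * wsq y) ≤ 1 * (dA T y ^ 2 * wsq y) :=
        mul_le_mul_of_nonneg_right ha2 h6
    _ ≤ _ := by rw [one_mul, ← h3]; exact h2

theorem t4_bound {T : Tw} {y : E (m + 3)} {a B : ℝ} (ha : 0 < a) (ha1 : a ≤ 1)
    (hbb : |bb T y| ≤ B / y0 y) (hbw : bb T y ^ 2 * wsq y ≤ B ^ 2) :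
    ∑ k, (a * Nn T y * (if k = 1 ∨ k = 2 then y k else 0)) ^ 2
      ≤ (B ^ 2 * (1 / y0 y)) ^ 2 := by
  have hY0 := y0_pos y
  have hw0 := wsq_nonneg y
  have hN0 := Nn_nonneg T y
  have hNb := Nn_le T y
  have e : ∑ k, (a * Nn T y * (if k = 1 ∨ k = 2 then y k else 0)) ^ 2
      = a ^ 2 * (Nn T y ^ 2 * wsq y) := by
    rw [← sum_w_sq, Finset.mul_sum, Finset.mul_sum]
    refine Finset.sum_congr rfl fun k _ => ?_
    rw [mul_pow, mul_pow]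
    ring
  rw [e]
  have h1 : Nn T y ^ 2 * wsq y ≤ bb T y ^ 2 * (bb T y ^ 2 * wsq y) := by
    have : Nn T y ^ 2 ≤ bb T y ^ 2 * bb T y ^ 2 := by
      rw [sq]
      exact mul_le_mul hNb hNb hN0 (sq_nonneg _)
    rw [← mul_assoc]
    exact mul_le_mul_of_nonneg_right this hw0
  have h2 : bb T y ^ 2 ≤ (B / y0 y) ^ 2 := by
    rw [← sq_abs]
    exact pow_le_pow_left₀ (abs_nonneg _) hbb 2
  have h3 : bb T y ^ 2 * (bb T y ^ 2 * wsq y) ≤ (B / y0 y) ^ 2 * B ^ 2 :=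
    mul_le_mul h2 hbw (mul_nonneg (sq_nonneg _) hw0) (sq_nonneg _)
  have h4 : (B / y0 y) ^ 2 * B ^ 2 = (B ^ 2 * (1 / y0 y)) ^ 2 := by
    field_simp
  have h7 : 0 ≤ Nn T y ^ 2 * wsq y := mul_nonneg (sq_nonneg _) hw0
  have ha2 : a ^ 2 ≤ 1 := by nlinarith
  calc a ^ 2 * (Nn T y ^ 2 * wsq y) ≤ 1 * (Nn T y ^ 2 * wsq y) :=
        mul_le_mul_of_nonneg_right ha2 h7
    _ ≤ _ := by rw [one_mul, ← h4]; exact h1.trans h3

theorem F1_bound (T : Tw) (y : E (m + 3)) {c B : ℝ} (ha : 0 < al T y) (ha1 : al T y ≤ 1)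
    (hc : |c| ≤ al T y * B) : F (vA T y) (fun k => c * y k) ≤ B ^ 2 := by
  have hv := y0_pos (vA T y)
  have hv2 := y0_vA T y
  have hY := y0_ge_one y
  rw [F_smul]
  have h1 : c ^ 2 ≤ (al T y * B) ^ 2 := by
    rw [← sq_abs]
    exact pow_le_pow_left₀ (abs_nonneg _) hc 2
  rw [div_le_iff₀ (by positivity)]
  have ha2 : al T y ^ 2 ≤ 1 := by nlinarith
  have h2 : al T y ^ 2 * (y0 y ^ 2 - 1) ≤ y0 (vA T y) ^ 2 := by
    rw [hv2]
    linarith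
  have h3 : 0 ≤ y0 y ^ 2 - 1 := by nlinarith
  calc c ^ 2 * (y0 y ^ 2 - 1) ≤ (al T y * B) ^ 2 * (y0 y ^ 2 - 1) :=
        mul_le_mul_of_nonneg_right h1 h3
    _ = B ^ 2 * (al T y ^ 2 * (y0 y ^ 2 - 1)) := by ring
    _ ≤ B ^ 2 * y0 (vA T y) ^ 2 := mul_le_mul_of_nonneg_left h2 (sq_nonneg _)

/-- The scales. -/
theorem scales {C1 C d K Y : ℝ} (h1 : 1 ≤ C1) (h2 : 1 ≤ C) (h3 : 1 ≤ d) (hK : 0 < K) (hK2 : K ≤ 2)
    (hY : 1 ≤ Y) (hYK : 1 / Y ≤ K) :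
    0 < C1 ^ 2 * C ^ 2 * d ^ 10 * K ∧
    C1 * d ^ 4 * K ≤ C1 ^ 2 * C ^ 2 * d ^ 10 * K ∧
    C1 * d ^ 8 * K ≤ C1 ^ 2 * C ^ 2 * d ^ 10 * K ∧
    C1 * d ^ 2 / Y ^ 2 ≤ C1 ^ 2 * C ^ 2 * d ^ 10 * K ∧
    (C1 * d ^ 4 * K) ^ 2 ≤ 2 * (C1 ^ 2 * C ^ 2 * d ^ 10 * K) ∧
    (C * d) * (C1 * d ^ 4 * K) ≤ C1 ^ 2 * C ^ 2 * d ^ 10 * K ∧
    (C * d ^ 2) * (1 / Y) ≤ C1 ^ 2 * C ^ 2 * d ^ 10 * K ∧
    (C * d) ^ 2 * (1 / Y) ≤ C1 ^ 2 * C ^ 2 * d ^ 10 * K := by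
  have hm := mono h1 h2 h3 hK.le
  have a1 : 0 < C1 := by linarith
  have a2 : 0 < C := by linarith
  have a3 : 0 < d := by linarith
  have hY0 : 0 < Y := by linarith
  have hYK2 : 1 / Y ^ 2 ≤ K := by
    have : 1 / Y ^ 2 ≤ 1 / Y := by
      apply one_div_le_one_div_of_le hY0
      nlinarith
    linarith
  refine ⟨by positivity, ?_, ?_, ?_, ?_, ?_, ?_, ?_⟩
  · have := hm 1 0 4 (by norm_num) (by norm_num) (by norm_num)
    linarith
  · have := hm 1 0 8 (by norm_num) (by norm_num) (by norm_num)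
    linarith
  · have h1 : C1 * d ^ 2 / Y ^ 2 ≤ C1 * d ^ 2 * K := by
      rw [div_eq_mul_one_div]
      exact mul_le_mul_of_nonneg_left hYK2 (by positivity)
    have := hm 1 0 2 (by norm_num) (by norm_num) (by norm_num)
    linarith
  · have h1 := hm 2 0 8 (by norm_num) (by norm_num) (by norm_num)
    have h2 : (C1 * d ^ 4 * K) ^ 2 = (C1 ^ 2 * C ^ 0 * d ^ 8 * K) * K := by ring
    rw [h2, mul_comm 2]
    exact mul_le_mul h1 hK2 hK.le (by positivity)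
  · have := hm 1 1 5 (by norm_num) (by norm_num) (by norm_num)
    linarith
  · have h1 : (C * d ^ 2) * (1 / Y) ≤ (C * d ^ 2) * K :=
      mul_le_mul_of_nonneg_left hYK (by positivity)
    have := hm 0 1 2 (by norm_num) (by norm_num) (by norm_num)
    linarith
  · have h1 : (C * d) ^ 2 * (1 / Y) ≤ (C * d) ^ 2 * K :=
      mul_le_mul_of_nonneg_left hYK (by positivity)
    have := hm 0 2 2 (by norm_num) (by norm_num) (by norm_num)
    linarith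

end TnM

open EnvM TnM in
theorem specTn (hA : SpecAlpha) (hV : SpecTvv) : SpecTn := by
  intro m C
  obtain ⟨C1, hC1, hA⟩ := hA m C
  have hmax1 : 1 ≤ max C 1 := le_max_right _ _
  refine ⟨19 * C1 ^ 2 * (max C 1) ^ 2, ?_, ?_⟩
  · have h1 : 1 ≤ C1 ^ 2 := by nlinarith
    have h2 : 1 ≤ (max C 1) ^ 2 := by nlinarith
    nlinarith
  intro T ε κ r1 r2 hT y
  obtain ⟨hsm, hA⟩ := hA T ε κ r1 r2 hT
  obtain ⟨hJ, ha, ha1, _, hQ, hG, hL, hD⟩ := hA y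
  have hC := hT.hC
  have hε := hT.hε
  have hκ := hT.hκ
  rw [max_eq_left hC]
  have hY := y0_ge_one y
  have hY0 := y0_pos y
  have hv0 := y0_pos (vA T y)
  have hv2 := y0_vA T y
  have hbw := bb_sq_wsq hT y
  have hbb := abs_bb_le hT y
  have hdA := abs_dA_le hT y
  -- the scales
  obtain ⟨K, hK⟩ : ∃ K, K = κ + 1 / y0 y := ⟨_, rfl⟩
  rw [← hK] at hG hL hD ⊢
  have hYK : 1 / y0 y ≤ K := by linarith
  have hY1 : 1 / y0 y ≤ 1 := by rw [div_le_one hY0]; exact hY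
  have hK0 : 0 < K := by
    have : 0 < 1 / y0 y := by positivity
    linarith
  have hK2 : K ≤ 2 := by linarith
  obtain ⟨d, hd⟩ : ∃ d, d = 1 / ε := ⟨_, rfl⟩
  have hε0 := hε.1
  have hd1 : 1 ≤ d := by
    rw [hd, le_div_iff₀ hε.1]
    linarith
  have eR4 : C1 / ε ^ 4 * K = C1 * d ^ 4 * K := by rw [hd]; field_simp
  have eR8 : C1 / ε ^ 8 * K = C1 * d ^ 8 * K := by rw [hd]; field_simp
  have eQ : C1 / ε ^ 2 = C1 * d ^ 2 := by rw [hd]; field_simp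
  have eC1 : C / ε = C * d := by rw [hd]; field_simp
  have eC2 : C / ε ^ 2 = C * d ^ 2 := by rw [hd]; field_simp
  have eF : 19 * C1 ^ 2 * C ^ 2 / ε ^ 10 * K = 19 * (C1 ^ 2 * C ^ 2 * d ^ 10 * K) := by
    rw [hd]; field_simp
  rw [eR4] at hG hD
  rw [eR8] at hL
  rw [eQ] at hQ
  rw [eF]
  rw [eC1] at hbw hbb
  rw [eC2] at hdA
  obtain ⟨s0, s1, s2, s3, s4, s5, s6, s7⟩ := scales hC1 hC hd1 hK0 hK2 hY hYK
  have hCd : 0 < C * d := mul_pos (by linarith) (by linarith)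
  have hCd2 : 0 < C * d ^ 2 := mul_pos (by linarith) (pow_pos (by linarith) 2)
  have hR'0 : 0 < C1 * d ^ 4 * K :=
    mul_pos (mul_pos (by linarith) (pow_pos (by linarith) 4)) hK0
  obtain ⟨Rf, hRf⟩ : ∃ Rf, Rf = C1 ^ 2 * C ^ 2 * d ^ 10 * K := ⟨_, rfl⟩
  rw [← hRf] at s0 s1 s2 s3 s4 s5 s6 s7 ⊢
  obtain ⟨R', hR'⟩ : ∃ R', R' = C1 * d ^ 4 * K := ⟨_, rfl⟩
  rw [← hR'] at hG hD s1 s4 s5 hR'0
  have hG0 : 0 ≤ gam0 (al T) (al T) y := gam0_nonneg _ _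
  have hG2 : gam0 (al T) (al T) y ≤ al T y ^ 2 * R' ^ 2 := by
    rw [← mul_pow]
    exact (Real.sqrt_le_left (mul_nonneg ha.le hR'0.le)).1 hG
  -- the coefficient of `y`
  have hc1 := c1_bound ha ha1 hY hv0 hv2 hL hD hG0 hG2 hQ
  have hc1' := hc1.trans (mul_le_mul_of_nonneg_left
    (show C1 * d ^ 8 * K + 4 * R' + C1 * d ^ 2 / y0 y ^ 2 + R' ^ 2 ≤ 8 * Rf by linarith) ha.le)
  have hF1 := F1_bound T y ha ha1 hc1'
  -- the other terms
  have ha2 : al T y ^ 2 ≤ 1 := pow_le_one₀ ha.le ha1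
  have hp : ∑ k, pd k (al T) y ^ 2 ≤ R' ^ 2 := by
    refine (sum_pd_sq_le _ _).trans (hG2.trans ?_)
    exact mul_le_of_le_one_left (sq_nonneg _) ha2
  have hp0 : pd 0 (al T) y ^ 2 ≤ R' ^ 2 :=
    (Finset.single_le_sum (f := fun k => pd k (al T) y ^ 2) (fun _ _ => sq_nonneg _)
      (Finset.mem_univ 0)).trans hp
  have t1 := t1_bound hp
  have t2 := t2_bound hp0 hbw
  have t3 := t3_bound ha ha1 hdA
  have t4 := t4_bound ha ha1 hbb hbw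
  have u1 : R' ^ 2 ≤ Rf ^ 2 := pow_le_pow_left₀ hR'0.le s1 2
  have u2 : (C * d * R') ^ 2 ≤ Rf ^ 2 := pow_le_pow_left₀ (mul_nonneg hCd.le hR'0.le) s5 2
  have u3 : (C * d ^ 2 * (1 / y0 y)) ^ 2 ≤ Rf ^ 2 :=
    pow_le_pow_left₀ (mul_nonneg hCd2.le (by positivity)) s6 2
  have u4 : ((C * d) ^ 2 * (1 / y0 y)) ^ 2 ≤ Rf ^ 2 :=
    pow_le_pow_left₀ (mul_nonneg (sq_nonneg _) (by positivity)) s7 2
  -- conclusion
  unfold tn hn
  apply Real.sqrt_le_iff.2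
  refine ⟨by linarith, ?_⟩
  change F (vA T y) (fun k => tv (gA T) (vA T) k y) ≤ _
  have e : (fun k => tv (gA T) (vA T) k y) = fun k => (lap0 (al T) y + 2 * Dd (al T) y
        + al T y * (1 - al T y ^ 2) / y0 (vA T y) ^ 2
        - al T y * (gam0 (al T) (al T) y * (y0 y ^ 2 - 1)
          + 2 * al T y * y0 y ^ 2 * Dd (al T) y) / y0 (vA T y) ^ 2) * y k
      + (2 * pd k (al T) y - 2 * bb T y * pd 0 (al T) y * Jv y k - al T y * dA T y * Jv y k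
        - al T y * Nn T y * (if k = 1 ∨ k = 2 then y k else 0)) := by
    funext k
    rw [hV m C T ε κ r1 r2 hT y k]
    ring
  rw [e]
  refine (F_add _ _ _).trans ?_
  have h1 := (F_le (vA T y) (fun k => 2 * pd k (al T) y - 2 * bb T y * pd 0 (al T) y * Jv y k
    - al T y * dA T y * Jv y k - al T y * Nn T y * (if k = 1 ∨ k = 2 then y k else 0))).trans
    (sum_four _ _ _ _)
  have e2 : (19 * Rf) ^ 2 = 361 * Rf ^ 2 := by ring
  have e3 : (8 * Rf) ^ 2 = 64 * Rf ^ 2 := by ring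
  rw [e3] at hF1
  rw [e2]
  linarith [sq_nonneg Rf]

end Pool.Agent.Lib.MPdbccd7
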