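import Pool.Agent.Lib.MP_dbccd7_gt.B.Pbd
import Pool.Agent.Lib.MP_dbccd7_gt.HypFin

/-!
# Module TRIV: simple facts on `vA`, `Phi T 1`, `gA`
-/

open scoped Manifold ContDiff Matrix Topology

namespace Pool.Agent.Lib.MPdbccd7

namespace TrivM

variable {m : ℕ}

theorem tk_sq_lt (y : E (m + 3)) : tk y ^ 2 < 1 := by
  unfold tk
  have h := abs_coord_lt_y0 y 0
  have h2 : |y 0 / y0 y| < 1 := by
    rw [abs_div, abs_of_pos (Pool.Agent.Lib.MPdbccd7.y0_pos y)]
    exact (div_lt_one (Pool.Agent.Lib.MPdbccd7.y0_pos y)).2 h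
  have := (sq_lt_one_iff_abs_lt_one (y 0 / y0 y)).2 h2
  exact this

theorem Nn_nonneg (T : Tw) (y : E (m + 3)) : 0 ≤ Nn T y := by
  unfold Nn
  exact mul_nonneg (sq_nonneg _) (by linarith [tk_sq_lt y])

theorem wsq_nonneg (y : E (m + 3)) : 0 ≤ wsq y := by
  unfold wsq
  positivity

theorem Pf_nonneg (T : Tw) (y : E (m + 3)) : 0 ≤ Pf T y := by
  unfold Pf
  exact div_nonneg (mul_nonneg (Nn_nonneg T y) (wsq_nonneg y)) (by positivity)

theorem al_pos (T : Tw) (y : E (m + 3)) : 0 < al T y := by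
  unfold al
  exact inv_pos.2 (Real.sqrt_pos.2 (by linarith [Pf_nonneg T y]))

theorem al_le_one (T : Tw) (y : E (m + 3)) : al T y ≤ 1 := by
  unfold al
  exact inv_le_one_of_one_le₀ (Real.one_le_sqrt.2 (by linarith [Pf_nonneg T y]))

theorem contDiff_al (T : Tw) (hτ : ContDiff ℝ ∞ T.tau) (hl : ContDiff ℝ ∞ T.lam) :
    ContDiff ℝ ∞ (al T (m := m)) := by
  unfold al
  have h1 : ContDiff ℝ ∞ (Pf T (m := m)) := by
    unfold Pf
    exact ((MatM.contDiff_Nn T hτ hl).mul MatM.contDiff_wsq).div_const _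
  refine ContDiff.inv ((contDiff_const.add h1).sqrt fun y => ?_) fun y => ?_
  · linarith [Pf_nonneg T y]
  · exact (Real.sqrt_pos.2 (by linarith [Pf_nonneg T y])).ne'

theorem contDiff_vA (T : Tw) (hτ : ContDiff ℝ ∞ T.tau) (hl : ContDiff ℝ ∞ T.lam) :
    ContDiff ℝ ∞ (vA T (m := m)) := by
  unfold vA
  exact (contDiff_al T hτ hl).smul contDiff_id

theorem deriv_zero_right {f : ℝ → ℝ} (hf : Differentiable ℝ f) {a t c : ℝ} (ht : a ≤ t)
    (h : ∀ x, a ≤ x → f x = c) : deriv f t = 0 := by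
  have h1 : HasDerivWithinAt f (deriv f t) (Set.Ici t) t := (hf t).hasDerivAt.hasDerivWithinAt
  have h2 : HasDerivWithinAt f 0 (Set.Ici t) t := by
    refine (hasDerivWithinAt_const t (Set.Ici t) c).congr (fun x hx => h x (ht.trans hx)) (h t ht)
  exact (uniqueDiffOn_Ici t t Set.self_mem_Ici).eq_deriv _ h1 h2

theorem deriv_zero_left {f : ℝ → ℝ} (hf : Differentiable ℝ f) {a t c : ℝ} (ht : t ≤ a)
    (h : ∀ x, x ≤ a → f x = c) : deriv f t = 0 := by
  have h1 : HasDerivWithinAt f (deriv f t) (Set.Iic t) t := (hf t).hasDerivAt.hasDerivWithinAt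
  have h2 : HasDerivWithinAt f 0 (Set.Iic t) t := by
    refine (hasDerivWithinAt_const t (Set.Iic t) c).congr (fun x hx => h x (le_trans hx ht)) (h t ht)
  exact (uniqueDiffOn_Iic t t Set.self_mem_Iic).eq_deriv _ h1 h2

theorem vA_eq_of_bb {T : Tw} {y : E (m + 3)} (h : bb T y = 0) : vA T y = y := by
  have : al T y = 1 := by
    unfold al Pf Nn
    rw [h]
    simp
  unfold vA
  rw [this, one_smul]

theorem rotE_zero (y : E (m + 3)) : rotE 0 y = y := by
  ext i
  unfold rotE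
  simp only [Real.cos_zero, Real.sin_zero, one_mul, zero_mul, sub_zero, zero_add]
  split_ifs with h1 h2
  · rw [h1]
  · rw [h2]
  · rfl

theorem rotE_two_pi (y : E (m + 3)) : rotE (2 * Real.pi) y = y := by
  ext i
  unfold rotE
  simp only [Real.cos_two_pi, Real.sin_two_pi, one_mul, zero_mul, sub_zero, zero_add]
  split_ifs with h1 h2
  · rw [h1]
  · rw [h2]
  · rfl

/-- The sign of the coordinate `i` under `rh`. -/
noncomputable def sg (i : Fin (m + 3)) : ℝ := if i = 1 ∨ i = 2 then -1 else 1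

theorem sg_sq (i : Fin (m + 3)) : sg i * sg i = 1 := by
  unfold sg
  split_ifs <;> norm_num

theorem sg_zero : sg (0 : Fin (m + 3)) = 1 := by
  unfold sg
  rw [if_neg]
  rintro (h | h)
  · exact MatM.ne01 h
  · exact MatM.ne02 h

theorem sg_one : sg (1 : Fin (m + 3)) = -1 := by
  unfold sg
  rw [if_pos (Or.inl rfl)]

theorem sg_two : sg (2 : Fin (m + 3)) = -1 := by
  unfold sg
  rw [if_pos (Or.inr rfl)]

theorem rh_apply (y : E (m + 3)) (i : Fin (m + 3)) : rh y i = sg i * y i := by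
  unfold rh sg
  change (if i = 1 ∨ i = 2 then - y i else y i) = _
  split_ifs <;> ring

theorem y0_rh (y : E (m + 3)) : y0 (rh y) = y0 y := by
  unfold y0
  congr 2
  refine Finset.sum_congr rfl fun i _ => ?_
  rw [rh_apply, mul_pow]
  have : sg i ^ 2 = 1 := by rw [sq, sg_sq]
  rw [this, one_mul]

theorem tk_rh (y : E (m + 3)) : tk (rh y) = tk y := by
  unfold tk
  rw [y0_rh, rh_apply, sg_zero, one_mul]

theorem rk_rh (y : E (m + 3)) : rk (rh y) = rk y := by
  unfold rk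
  rw [y0_rh]

theorem wsq_rh (y : E (m + 3)) : wsq (rh y) = wsq y := by
  unfold wsq
  rw [rh_apply, rh_apply, sg_one, sg_two]
  ring

theorem Jv_rh (y : E (m + 3)) (i : Fin (m + 3)) : Jv (rh y) i = sg i * Jv y i := by
  unfold Jv
  rw [rh_apply, rh_apply, sg_one, sg_two]
  split_ifs with h1 h2
  · rw [h1, sg_one]
    ring
  · rw [h2, sg_two]
  · rw [mul_zero]

theorem dtk_rh (y : E (m + 3)) (i : Fin (m + 3)) : dtk (rh y) i = sg i * dtk y i := by
  unfold dtk
  rw [y0_rh, rh_apply, rh_apply, sg_zero]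
  split_ifs with h
  · rw [h, sg_zero]
    ring
  · ring

theorem Av_rh (T : Tw) (y : E (m + 3)) (i : Fin (m + 3)) : Av T (rh y) i = sg i * Av T y i := by
  unfold Av
  rw [tk_rh, rk_rh, dtk_rh]
  ring

theorem gH_rh (y : E (m + 3)) (i j : Fin (m + 3)) : gH (rh y) i j = sg i * sg j * gH y i j := by
  rw [gH_apply, gH_apply, y0_rh, rh_apply, rh_apply]
  split_ifs with h
  · rw [h]
    have := sg_sq j
    linear_combination (-1 : ℝ) * this
  · ring

theorem gA_rh (T : Tw) (y : E (m + 3)) (i j : Fin (m + 3)) :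
    gA T (rh y) i j = sg i * sg j * gA T y i j := by
  change gH (rh y) i j + Av T (rh y) i * Jv (rh y) j + Jv (rh y) i * Av T (rh y) j
    + wsq (rh y) * Av T (rh y) i * Av T (rh y) j = sg i * sg j * (gH y i j + Av T y i * Jv y j
    + Jv y i * Av T y j + wsq y * Av T y i * Av T y j)
  rw [gH_rh, Av_rh, Av_rh, Jv_rh, Jv_rh, wsq_rh]
  ring

end TrivM

theorem specTriv : SpecTriv := by
  intro m C T ε κ r1 r2 hT
  refine ⟨TrivM.contDiff_vA T hT.tsm hT.lsm, fun y => ⟨fun h => ?_, fun h => ?_, ?_, fun i j =>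
    TrivM.gA_rh T y i j⟩⟩
  · have hd : Differentiable ℝ T.tau := hT.tsm.differentiable (by simp)
    have key : deriv T.tau (tk y) = 0 ∧ (T.tau (tk y) = 0 ∨ T.tau (tk y) = 2 * Real.pi) := by
      rcases le_abs.1 h with h1 | h1
      · exact ⟨TrivM.deriv_zero_right hd h1 hT.tpos, Or.inl (hT.tpos _ h1)⟩
      · have h2 : tk y ≤ -ε := by linarith
        exact ⟨TrivM.deriv_zero_left hd h2 hT.tneg, Or.inr (hT.tneg _ h2)⟩
    refine ⟨?_, TrivM.vA_eq_of_bb ?_⟩
    · unfold Phi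
      rcases key.2 with h1 | h1
      · rw [h1, mul_zero, TrivM.rotE_zero]
      · rw [h1, one_mul, TrivM.rotE_two_pi]
    · unfold bb
      rw [key.1, mul_zero, zero_div]
  · have hl : T.lam (rk y) = 0 := hT.lzero _ h
    refine ⟨TrivM.vA_eq_of_bb ?_, ?_⟩
    · unfold bb
      rw [hl, zero_mul, zero_div]
    · have hA : ∀ i, Av T y i = 0 := by
        intro i
        unfold Av
        rw [hl, zero_mul, zero_mul]
      ext i j
      change gH y i j + Av T y i * Jv y j + Jv y i * Av T y j + wsq y * Av T y i * Av T y j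
        = gH y i j
      rw [hA, hA]
      ring
  · have h1 : y0 (vA T y) ^ 2 ≤ y0 y ^ 2 := by
      rw [y0_sq', y0_sq']
      unfold vA
      rw [norm_smul, mul_pow, Real.norm_eq_abs, abs_of_pos (TrivM.al_pos T y)]
      have h2 := TrivM.al_le_one T y
      have h3 := TrivM.al_pos T y
      have h4 : al T y ^ 2 ≤ 1 := by nlinarith
      nlinarith [sq_nonneg ‖y‖]
    exact (pow_le_pow_iff_left₀ (Pool.Agent.Lib.MPdbccd7.y0_pos _).le
      (Pool.Agent.Lib.MPdbccd7.y0_pos _).le two_ne_zero).1 h1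

end Pool.Agent.Lib.MPdbccd7
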