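import Pool.Agent.Lib.MP_dbccd7_gt.SpecB

/-!
# TW: existence of the twists
-/

open scoped Manifold ContDiff Matrix

namespace Pool.Agent.Lib.MPdbccd7

namespace TwM

theorem deriv_aff (f : ℝ → ℝ) (hf : ContDiff ℝ ∞ f) (A B p q : ℝ) :
    deriv (fun t => A + B * f (p * t + q)) = fun t => 0 + (B * p) * deriv f (p * t + q) := by
  funext t
  have h1 : HasDerivAt (fun t : ℝ => p * t + q) p t := by
    simpa using ((hasDerivAt_id t).const_mul p).add_const q
  have h2 : HasDerivAt f (deriv f (p * t + q)) (p * t + q) :=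
    (hf.differentiable (by simp) _).hasDerivAt
  have h3 := (((h2.comp t h1).const_mul B).const_add A).deriv
  have e : (fun t => A + B * f (p * t + q)) = fun t => A + B * (f ∘ fun t => p * t + q) t := rfl
  rw [e, h3]
  ring

theorem bound_of_cont (f : ℝ → ℝ) (hf : Continuous f) (h0 : ∀ x, x < 0 → f x = 0)
    (h1 : ∀ x, 1 < x → f x = 0) : ∃ M : ℝ, ∀ x, |f x| ≤ M := by
  obtain ⟨M, hM⟩ := (isCompact_Icc (a := (0 : ℝ)) (b := 1)).exists_bound_of_continuousOn
    hf.continuousOn
  refine ⟨max M 0, fun x => ?_⟩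
  by_cases hx : x ∈ Set.Icc (0 : ℝ) 1
  · exact (hM x hx).trans (le_max_left _ _)
  · have : f x = 0 := by
      rw [Set.mem_Icc, not_and_or, not_le, not_le] at hx
      rcases hx with hx | hx
      · exact h0 x hx
      · exact h1 x hx
    rw [this, abs_zero]
    exact le_max_right _ _

theorem deriv_zero_left (f : ℝ → ℝ) (c : ℝ) (h : ∀ x, x < 0 → f x = c) :
    ∀ x, x < 0 → deriv f x = 0 := by
  intro x hx
  have : f =ᶠ[nhds x] fun _ => c := by
    filter_upwards [Iio_mem_nhds hx] with z hz
    exact h z hz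
  rw [this.deriv_eq]
  simp

theorem deriv_zero_right (f : ℝ → ℝ) (c : ℝ) (h : ∀ x, 1 < x → f x = c) :
    ∀ x, 1 < x → deriv f x = 0 := by
  intro x hx
  have : f =ᶠ[nhds x] fun _ => c := by
    filter_upwards [Ioi_mem_nhds hx] with z hz
    exact h z hz
  rw [this.deriv_eq]
  simp

theorem contDiff_deriv {f : ℝ → ℝ} (hf : ContDiff ℝ ∞ f) : ContDiff ℝ ∞ (deriv f) := by
  exact (contDiff_infty_iff_deriv.1 hf).2

/-- A bound for the first three derivatives of the smooth transition. -/
theorem exists_bound : ∃ M : ℝ, 1 ≤ M ∧ (∀ x, |deriv Real.smoothTransition x| ≤ M) ∧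
    (∀ x, |deriv (deriv Real.smoothTransition) x| ≤ M) ∧
    (∀ x, |deriv (deriv (deriv Real.smoothTransition)) x| ≤ M) := by
  have s0 : ContDiff ℝ ∞ Real.smoothTransition := Real.smoothTransition.contDiff
  have s1 := contDiff_deriv s0
  have s2 := contDiff_deriv s1
  have s3 := contDiff_deriv s2
  have l0 : ∀ x : ℝ, x < 0 → Real.smoothTransition x = 0 := fun x hx =>
    Real.smoothTransition.zero_of_nonpos hx.le
  have r0 : ∀ x : ℝ, 1 < x → Real.smoothTransition x = 1 := fun x hx =>
    Real.smoothTransition.one_of_one_le hx.le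
  have l1 := deriv_zero_left _ _ l0
  have r1 := deriv_zero_right _ _ r0
  have l2 := deriv_zero_left _ _ l1
  have r2 := deriv_zero_right _ _ r1
  have l3 := deriv_zero_left _ _ l2
  have r3 := deriv_zero_right _ _ r2
  obtain ⟨M1, h1⟩ := bound_of_cont _ s1.continuous l1 r1
  obtain ⟨M2, h2⟩ := bound_of_cont _ s2.continuous l2 r2
  obtain ⟨M3, h3⟩ := bound_of_cont _ s3.continuous l3 r3
  refine ⟨max 1 (max M1 (max M2 M3)), le_max_left _ _, fun x => ?_, fun x => ?_, fun x => ?_⟩
  · exact (h1 x).trans ((le_max_left _ _).trans (le_max_right _ _))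
  · exact (h2 x).trans ((le_max_left _ _).trans ((le_max_right _ _).trans (le_max_right _ _)))
  · exact (h3 x).trans ((le_max_right _ _).trans ((le_max_right _ _).trans (le_max_right _ _)))

end TwM

open TwM in
theorem specTw : SpecTw := by
  obtain ⟨M, hM, b1, b2, b3⟩ := exists_bound
  have s0 : ContDiff ℝ ∞ Real.smoothTransition := Real.smoothTransition.contDiff
  have s1 := contDiff_deriv s0
  have s2 := contDiff_deriv s1
  have hpi := Real.pi_gt_three
  refine ⟨2 * Real.pi * M, by nlinarith, ?_⟩
  intro ε κ r1 hε hε8 hκ hκ1 hr1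
  set l : ℝ := M / κ with hl
  have hl1 : 1 ≤ l := by
    rw [hl, le_div_iff₀ hκ]
    linarith
  have hl0 : 0 < l := by linarith
  have hlM : M / l = κ := by
    rw [hl]
    field_simp
  set p : ℝ := 1 / (2 * ε) with hp
  have hp0 : 0 < p := by positivity
  have hpe : p * ε = 1 / 2 := by
    rw [hp]
    field_simp
  refine ⟨⟨fun t => 2 * Real.pi + (-(2 * Real.pi)) * Real.smoothTransition (p * t + 1 / 2),
    fun r => 1 + (-1) * Real.smoothTransition (1 / l * r + (-(r1 / l)))⟩, r1 + l, ?_⟩
  have dt1 : deriv (fun t => 2 * Real.pi + (-(2 * Real.pi))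
      * Real.smoothTransition (p * t + 1 / 2)) = _ := deriv_aff _ s0 _ _ _ _
  have dt2 := deriv_aff _ s1 0 (-(2 * Real.pi) * p) p (1 / 2)
  have dt3 := deriv_aff _ s2 0 (-(2 * Real.pi) * p * p) p (1 / 2)
  rw [← dt2] at dt3
  rw [← dt1] at dt2 dt3
  have dl1 : deriv (fun r => 1 + (-1) * Real.smoothTransition (1 / l * r + (-(r1 / l)))) = _ :=
    deriv_aff _ s0 _ _ _ _
  have dl2 := deriv_aff _ s1 0 ((-1) * (1 / l)) (1 / l) (-(r1 / l))
  rw [← dl1] at dl2
  constructor
  · exact ⟨hε, hε8⟩
  · exact ⟨hκ, hκ1⟩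
  · nlinarith
  · exact ⟨hr1, by linarith⟩
  · exact contDiff_const.add (contDiff_const.mul (s0.comp
      ((contDiff_const.mul contDiff_id).add contDiff_const)))
  · exact contDiff_const.add (contDiff_const.mul (s0.comp
      ((contDiff_const.mul contDiff_id).add contDiff_const)))
  · intro t ht
    have h0 : Real.smoothTransition (p * t + 1 / 2) = 0 := by
      apply Real.smoothTransition.zero_of_nonpos
      nlinarith
    simp only [h0]
    ring
  · intro t ht
    have h0 : Real.smoothTransition (p * t + 1 / 2) = 1 := by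
      apply Real.smoothTransition.one_of_one_le
      nlinarith
    simp only [h0]
    ring
  · intro t
    simp only [dt1]
    have h := b1 (p * t + 1 / 2)
    rw [zero_add, abs_mul, abs_mul, abs_neg, abs_of_pos (by positivity : 0 < 2 * Real.pi),
      abs_of_pos hp0]
    have e : 2 * Real.pi * M / ε = 2 * (2 * Real.pi * p * M) := by
      rw [hp]
      field_simp
    rw [e]
    have : 2 * Real.pi * p * |deriv Real.smoothTransition (p * t + 1 / 2)|
        ≤ 2 * Real.pi * p * M := mul_le_mul_of_nonneg_left h (by positivity)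
    have h2 : 0 ≤ 2 * Real.pi * p * M := by positivity
    linarith
  · intro t
    simp only [dt2]
    have h := b2 (p * t + 1 / 2)
    rw [zero_add, abs_mul, abs_mul, abs_mul, abs_neg, abs_of_pos (by positivity : 0 < 2 * Real.pi),
      abs_of_pos hp0]
    have e : 2 * Real.pi * M / ε ^ 2 = 4 * (2 * Real.pi * p * p * M) := by
      rw [hp]
      field_simp
      ring
    rw [e]
    have : 2 * Real.pi * p * p * |deriv (deriv Real.smoothTransition) (p * t + 1 / 2)|
        ≤ 2 * Real.pi * p * p * M := mul_le_mul_of_nonneg_left h (by positivity)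
    have h2 : 0 ≤ 2 * Real.pi * p * p * M := by positivity
    linarith
  · intro t
    simp only [dt3]
    have h := b3 (p * t + 1 / 2)
    rw [zero_add, abs_mul, abs_mul, abs_mul, abs_mul, abs_neg,
      abs_of_pos (by positivity : 0 < 2 * Real.pi), abs_of_pos hp0]
    have e : 2 * Real.pi * M / ε ^ 3 = 8 * (2 * Real.pi * p * p * p * M) := by
      rw [hp]
      field_simp
      ring
    rw [e]
    have : 2 * Real.pi * p * p * p * |deriv (deriv (deriv Real.smoothTransition)) (p * t + 1 / 2)|
        ≤ 2 * Real.pi * p * p * p * M := mul_le_mul_of_nonneg_left h (by positivity)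
    have h2 : 0 ≤ 2 * Real.pi * p * p * p * M := by positivity
    linarith
  · intro r
    have h1 := Real.smoothTransition.nonneg (1 / l * r + (-(r1 / l)))
    have h2 := Real.smoothTransition.le_one (1 / l * r + (-(r1 / l)))
    constructor
    · show 0 ≤ 1 + (-1) * Real.smoothTransition (1 / l * r + (-(r1 / l)))
      linarith
    · show 1 + (-1) * Real.smoothTransition (1 / l * r + (-(r1 / l))) ≤ 1
      linarith
  · intro r hr
    have h0 : Real.smoothTransition (1 / l * r + (-(r1 / l))) = 0 := by
      apply Real.smoothTransition.zero_of_nonpos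
      have e : 1 / l * r + (-(r1 / l)) = (r - r1) / l := by ring
      rw [e]
      apply div_nonpos_of_nonpos_of_nonneg _ hl0.le
      linarith
    simp only [h0]
    ring
  · intro r hr
    have h0 : Real.smoothTransition (1 / l * r + (-(r1 / l))) = 1 := by
      apply Real.smoothTransition.one_of_one_le
      have e : 1 / l * r + (-(r1 / l)) = (r - r1) / l := by ring
      rw [e, le_div_iff₀ hl0]
      linarith
    simp only [h0]
    ring
  · intro r
    simp only [dl1]
    have h := b1 (1 / l * r + (-(r1 / l)))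
    rw [zero_add, abs_mul, abs_mul, abs_neg, abs_one, one_mul,
      abs_of_pos (by positivity : 0 < 1 / l)]
    have : 1 / l * |deriv Real.smoothTransition (1 / l * r + (-(r1 / l)))| ≤ 1 / l * M :=
      mul_le_mul_of_nonneg_left h (by positivity)
    have e : 1 / l * M = κ := by rw [← hlM]; ring
    linarith
  · intro r
    simp only [dl2]
    have h := b2 (1 / l * r + (-(r1 / l)))
    rw [zero_add, abs_mul, abs_mul, abs_mul, abs_neg, abs_one, one_mul,
      abs_of_pos (by positivity : 0 < 1 / l)]
    have : 1 / l * (1 / l) * |deriv (deriv Real.smoothTransition) (1 / l * r + (-(r1 / l)))|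
        ≤ 1 / l * (1 / l) * M :=
      mul_le_mul_of_nonneg_left h (by positivity)
    have e : 1 / l * (1 / l) * M = κ * (1 / l) := by rw [← hlM]; ring
    have h3 : κ * (1 / l) ≤ κ * 1 := by
      apply mul_le_mul_of_nonneg_left _ hκ.le
      rw [div_le_one hl0]
      exact hl1
    linarith

end Pool.Agent.Lib.MPdbccd7
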