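import Pool.Agent.Lib.MP_dbccd7_gt.B.Pbd

/-!
# YH: the gauge map is harmonic where `λ = 1`
-/

open scoped Manifold ContDiff Matrix Topology

namespace Pool.Agent.Lib.MPdbccd7

namespace YhM

open HypM C0 K0 MatM LapaM GaugeM Finset

variable {m : ℕ}

/-! ### The energy density of an isometry -/

theorem fI_eq (u : E (m + 3) → E (m + 3)) (y : E (m + 3)) (i j : Fin (m + 3)) :
    fI u y i j = ((jac u y)ᵀ * gH (u y) * jac u y) i j := by
  have h1 : gH (u y) = 1 - (1 / y0 (u y) ^ 2) • Matrix.vecMulVec (fun k => u y k)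
      (fun k => u y k) := by
    ext a b
    rw [gH_apply, Matrix.sub_apply, Matrix.one_apply, Matrix.smul_apply, Matrix.vecMulVec_apply,
      smul_eq_mul]
    ring
  rw [h1, Matrix.mul_sub, Matrix.sub_mul, Matrix.mul_one, Matrix.mul_smul,
    Matrix.smul_mul, Matrix.mul_vecMulVec, Matrix.vecMulVec_mul, Matrix.sub_apply,
    Matrix.smul_apply, Matrix.vecMulVec_apply, Matrix.mul_apply, smul_eq_mul]
  have h2 : ((jac u y)ᵀ *ᵥ fun k => u y k) i = ∑ k, pd i (fun z => u z k) y * u y k := rfl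
  have h3 : ((fun k => u y k) ᵥ* jac u y) j = ∑ k, u y k * pd j (fun z => u z k) y := rfl
  have h4 : ∀ k, (jac u y)ᵀ i k * jac u y k j
      = pd i (fun z => u z k) y * pd j (fun z => u z k) y := fun k => rfl
  rw [h2, h3]
  simp only [h4]
  unfold fI
  have h5 : ∑ k, pd i (fun z => u z k) y * u y k = ∑ k, u y k * pd i (fun z => u z k) y :=
    sum_congr rfl fun k _ => mul_comm _ _
  rw [h5]
  ring

theorem en_isometry (g : MF (m + 3)) (u : E (m + 3) → E (m + 3)) (y : E (m + 3))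
    (hd : IsUnit (g y).det) (h : (jac u y)ᵀ * gH (u y) * jac u y = g y) :
    en g u y = m + 3 := by
  unfold en
  simp only [fI_eq, h]
  have h1 : ∑ i, ∑ j, (g y)⁻¹ i j * g y i j = ((g y)⁻¹ * (g y)ᵀ).trace := by
    simp only [Matrix.trace, Matrix.diag, Matrix.mul_apply, Matrix.transpose_apply]
  have h2 : (g y)ᵀ = g y := by
    rw [← h]
    rw [Matrix.transpose_mul, Matrix.transpose_mul, Matrix.transpose_transpose]
    have h3 : (gH (u y))ᵀ = gH (u y) := by
      ext a b
      rw [Matrix.transpose_apply, gH_symm]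
    rw [h3, Matrix.mul_assoc]
  rw [h1, h2, Matrix.nonsing_inv_mul _ hd, Matrix.trace_one]
  simp

/-! ### The Laplacian of the components -/

/-- The functions `a(t) y₁ + b(t) y₂`. -/
noncomputable def ff (a b : ℝ → ℝ) (y : E (m + 3)) : ℝ := a (tk y) * y 1 + b (tk y) * y 2

variable {a b : ℝ → ℝ} {T : Tw}

theorem contDiff_ff (ha : ContDiff ℝ ∞ a) (hb : ContDiff ℝ ∞ b) :
    ContDiff ℝ ∞ (ff (m := m) a b) :=
  ((ha.comp MatM.contDiff_tk).mul (contDiff_coord 1)).add
    ((hb.comp MatM.contDiff_tk).mul (contDiff_coord 2))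

theorem diff_of_tk {a : ℝ → ℝ} (ha : ContDiff ℝ ∞ a) (y : E (m + 3)) :
    DifferentiableAt ℝ (fun z : E (m + 3) => a (tk z)) y :=
  (ha.comp MatM.contDiff_tk).differentiable (by simp) y

theorem Jd_ff (ha : ContDiff ℝ ∞ a) (hb : ContDiff ℝ ∞ b) (y : E (m + 3)) :
    Jd (ff a b) y = ff b (fun t => - a t) y := by
  have h1 := diff_of_tk (m := m) ha y
  have h2 := diff_of_tk (m := m) hb y
  have h : Jd (ff a b) y = Jd (fun z : E (m + 3) => a (tk z) * z 1 + b (tk z) * z 2) y := rfl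
  rw [h, LapaM.Jd_add (h1.fun_mul (diff_coord 1 y)) (h2.fun_mul (diff_coord 2 y)),
    LapaM.Jd_mul h1 (diff_coord 1 y), LapaM.Jd_mul h2 (diff_coord 2 y), LapaM.Jd_coord, LapaM.Jd_coord,
    Jd_of_tk (ha.differentiable (by simp)), Jd_of_tk (hb.differentiable (by simp)),
    Jv_one, Jv_two]
  unfold ff
  ring

theorem pd_zero_ff (ha : ContDiff ℝ ∞ a) (hb : ContDiff ℝ ∞ b) (y : E (m + 3)) :
    pd 0 (ff a b) y = (deriv a (tk y) * y 1 + deriv b (tk y) * y 2)
      * ((1 - tk y ^ 2) / y0 y) := by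
  have h1 := diff_of_tk (m := m) ha y
  have h2 := diff_of_tk (m := m) hb y
  have h : pd 0 (ff a b) y = pd 0 (fun z : E (m + 3) => a (tk z) * z 1 + b (tk z) * z 2) y := rfl
  rw [h, pd_add 0 (h1.fun_mul (diff_coord 1 y)) (h2.fun_mul (diff_coord 2 y)),
    pd_mul 0 h1 (diff_coord 1 y), pd_mul 0 h2 (diff_coord 2 y), pd_coord, pd_coord,
    pd_comp 0 (ha.differentiable (by simp) _).hasDerivAt (LapaM.diff_tk y),
    pd_comp 0 (hb.differentiable (by simp) _).hasDerivAt (LapaM.diff_tk y), pd_tk_zero,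
    if_neg ne01, if_neg ne02]
  ring

theorem gam0_tk_coord {k : Fin (m + 3)} (hk : k ≠ 0) (y : E (m + 3)) :
    gam0 tk (fun z : E (m + 3) => z k) y = 0 := by
  rw [gam0_comm, gam0_eq, tk_eq, gr0_coord_kl, if_neg hk, zero_div]

theorem lap0_ff (ha : ContDiff ℝ ∞ a) (hb : ContDiff ℝ ∞ b) (y : E (m + 3)) :
    lap0 (ff a b) y = (m + 3) * ff a b y
      + y 1 * (deriv a (tk y) * (-2 * tk y / y0 y ^ 2)
        + deriv (deriv a) (tk y) * ((1 - tk y ^ 2) / y0 y ^ 2))
      + y 2 * (deriv b (tk y) * (-2 * tk y / y0 y ^ 2)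
        + deriv (deriv b) (tk y) * ((1 - tk y ^ 2) / y0 y ^ 2)) := by
  have h1 : ContDiffAt ℝ 2 (fun z : E (m + 3) => a (tk z)) y :=
    cd2 (ha.comp MatM.contDiff_tk)
  have h2 : ContDiffAt ℝ 2 (fun z : E (m + 3) => b (tk z)) y :=
    cd2 (hb.comp MatM.contDiff_tk)
  have ht : ContDiffAt ℝ 2 (tk (m := m)) y := cd2 MatM.contDiff_tk
  have c1 : ContDiffAt ℝ 2 (fun z : E (m + 3) => z 1) y := cd_coord 1 y
  have c2 : ContDiffAt ℝ 2 (fun z : E (m + 3) => z 2) y := cd_coord 2 y
  have h : lap0 (ff a b) y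
      = lap0 (fun z : E (m + 3) => a (tk z) * z 1 + b (tk z) * z 2) y := rfl
  have g1 : gam0 (fun z : E (m + 3) => a (tk z)) (fun z => z 1) y = 0 := by
    rw [gam0_comp_left _ (ha.differentiable (by simp) _).hasDerivAt (LapaM.diff_tk y),
      gam0_tk_coord ne01.symm, mul_zero]
  have g2 : gam0 (fun z : E (m + 3) => b (tk z)) (fun z => z 2) y = 0 := by
    rw [gam0_comp_left _ (hb.differentiable (by simp) _).hasDerivAt (LapaM.diff_tk y),
      gam0_tk_coord ne02.symm, mul_zero]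
  rw [h, lap0_add (h1.mul c1) (h2.mul c2), lap0_mul h1 c1, lap0_mul h2 c2, g1, g2,
    lap0_comp_smooth ha ht, lap0_comp_smooth hb ht, lap0_coord, lap0_coord, lap0_tk, gam0_tk]
  unfold ff
  ring

theorem LA_ff (ha : ContDiff ℝ ∞ a) (hb : ContDiff ℝ ∞ b) (hτ : ContDiff ℝ ∞ T.tau)
    (ea : ∀ t, deriv a t = deriv T.tau t * b t) (eb : ∀ t, deriv b t = - deriv T.tau t * a t)
    (y : E (m + 3)) (hl : T.lam (rk y) = 1) (hl' : deriv T.lam (rk y) = 0) :
    LA T (ff a b) y = (m + 3) * ff a b y := by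
  have hy := y0_pos y
  have ht : DifferentiableAt ℝ (deriv T.tau) (tk y) :=
    (contDiff_deriv hτ).differentiable (by simp) _
  have ha' : DifferentiableAt ℝ a (tk y) := ha.differentiable (by simp) _
  have hb' : DifferentiableAt ℝ b (tk y) := hb.differentiable (by simp) _
  have ea2 : deriv (deriv a) (tk y) = deriv (deriv T.tau) (tk y) * b (tk y)
      - deriv T.tau (tk y) ^ 2 * a (tk y) := by
    have h : deriv a = fun t => deriv T.tau t * b t := funext ea
    rw [h, deriv_fun_mul ht hb', eb]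
    ring
  have eb2 : deriv (deriv b) (tk y) = - deriv (deriv T.tau) (tk y) * a (tk y)
      - deriv T.tau (tk y) ^ 2 * b (tk y) := by
    have h : deriv b = fun t => (- deriv T.tau t) * a t := funext eb
    rw [h, deriv_fun_mul ht.fun_neg ha', ea, deriv.fun_neg]
    ring
  have hJ : Jd (ff (m := m) a b) = ff b (fun t => - a t) := by
    funext z
    exact Jd_ff ha hb z
  have hJJ : Jd (Jd (ff (m := m) a b)) y = - ff a b y := by
    rw [hJ, Jd_ff hb ha.neg]
    unfold ff
    ring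
  have hp : pd 0 (Jd (ff (m := m) a b)) y
      = - (deriv T.tau (tk y) * ((1 - tk y ^ 2) / y0 y)) * ff a b y := by
    rw [hJ, pd_zero_ff hb ha.neg, eb, deriv.fun_neg, ea]
    unfold ff
    ring
  unfold LA
  rw [lap0_ff ha hb, hp, hJJ, hJ, ea, eb, ea2, eb2]
  unfold dA Nn bb ff
  rw [hl, hl']
  field_simp
  ring

theorem Phi_one_ff (y : E (m + 3)) : Phi T 1 y 1
    = ff (fun t => Real.cos (T.tau t)) (fun t => - Real.sin (T.tau t)) y := by
  rw [Phi_one]
  unfold ff
  simp only [one_mul]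
  ring

theorem Phi_two_ff (y : E (m + 3)) : Phi T 1 y 2
    = ff (fun t => Real.sin (T.tau t)) (fun t => Real.cos (T.tau t)) y := by
  rw [Phi_two]
  unfold ff
  simp only [one_mul]

theorem LA_coord (T : Tw) {k : Fin (m + 3)} (h1 : k ≠ 1) (h2 : k ≠ 2) (y : E (m + 3)) :
    LA T (fun z => z k) y = (m + 3) * y k := by
  have h : Jd (fun z : E (m + 3) => z k) = fun _ => 0 := by
    funext z
    rw [LapaM.Jd_coord]
    simp [Jv, h1, h2]
  unfold LA
  rw [h, LapaM.Jd_const, pd_const, lap0_coord]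
  ring

end YhM

theorem specYh : SpecYh := by
  intro m C T ε κ r1 r2 hT y hy k
  have hτ := hT.tsm
  have hl := hT.lsm
  have e1 : T.lam =ᶠ[nhds (rk y)] fun _ => 1 := by
    filter_upwards [Iio_mem_nhds hy] with r hr
    exact hT.lone r (le_of_lt hr)
  have e2 : T.lam (rk y) = 1 := e1.eq_of_nhds
  have e3 : deriv T.lam (rk y) = 0 := by
    rw [e1.deriv_eq, deriv_const]
  -- the energy density
  have hen : en (gA T) (Phi T 1) y = m + 3 := by
    refine YhM.en_isometry _ _ _ ?_ ?_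
    · rw [MatM.det_gA, isUnit_iff_ne_zero]
      have := HypM.y0_pos y
      positivity
    · have h := GaugeM.gauge (m := m) hτ 1 y
      rw [h]
      congr 2
      have h2 : (⟨T.tau, fun r => T.lam r - 1⟩ : Tw).lam (rk (Phi T 1 y)) = 0 := by
        have h3 : rk (Phi T 1 y) = rk y := GaugeM.rk_rotE _ y
        rw [h3]
        simp only [e2, sub_self]
      ext i j
      rw [MatM.gA_apply]
      unfold Av
      rw [h2]
      ring
  -- the Laplacian
  have hlap : lap (gA T) (fun z => Phi T 1 z k) y = (m + 3) * Phi T 1 y k := by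
    rw [LapaM.lap_gA hτ hl (GaugeM.contDiff_Phi_apply hτ 1 k).contDiffAt]
    have hc : ContDiff ℝ ∞ fun t => Real.cos (T.tau t) := Real.contDiff_cos.comp hτ
    have hs : ContDiff ℝ ∞ fun t => Real.sin (T.tau t) := Real.contDiff_sin.comp hτ
    have dc : ∀ t, deriv (fun t => Real.cos (T.tau t)) t
        = deriv T.tau t * (- Real.sin (T.tau t)) := by
      intro t
      have := ((hτ.differentiable (by simp) t).hasDerivAt.cos).deriv
      rw [this]
      ring
    have ds : ∀ t, deriv (fun t => Real.sin (T.tau t)) t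
        = deriv T.tau t * Real.cos (T.tau t) := by
      intro t
      have := ((hτ.differentiable (by simp) t).hasDerivAt.sin).deriv
      rw [this]
      ring
    by_cases h1 : k = 1
    · subst h1
      have h : (fun z : E (m + 3) => Phi T 1 z 1)
          = YhM.ff (fun t => Real.cos (T.tau t)) (fun t => - Real.sin (T.tau t)) :=
        funext YhM.Phi_one_ff
      rw [h, YhM.Phi_one_ff]
      refine YhM.LA_ff hc hs.neg hτ dc (fun t => ?_) y e2 e3
      rw [deriv.fun_neg, ds]
      ring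
    · by_cases h2 : k = 2
      · subst h2
        have h : (fun z : E (m + 3) => Phi T 1 z 2)
            = YhM.ff (fun t => Real.sin (T.tau t)) (fun t => Real.cos (T.tau t)) :=
          funext YhM.Phi_two_ff
        rw [h, YhM.Phi_two_ff]
        refine YhM.LA_ff hs hc hτ ds (fun t => ?_) y e2 e3
        rw [dc]
        ring
      · have h : (fun z : E (m + 3) => Phi T 1 z k) = fun z => z k := by
          funext z
          exact GaugeM.Phi_ne 1 z h1 h2
        rw [h, GaugeM.Phi_ne 1 y h1 h2]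
        exact YhM.LA_coord T h1 h2 y
  unfold tv
  rw [hen, hlap]
  ring

end Pool.Agent.Lib.MPdbccd7
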